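import Mathlib
import Pool.Agent.Lib.MP_938ce2_ag_h67.Kern
import Pool.Agent.Lib.MP_938ce2_ag_h60.GSet

/-!
Definitions for the count of the degenerate CM types over arbitrary CM fields.
-/

set_option autoImplicit false
set_option linter.unusedSectionVars false

namespace Pool.Agent.Lib.MP_938ce2_ag_u2

open Finset Module MonoidAlgebra
open Pool.Agent.Lib.MP_938ce2_ag_h67 (sg VV ev mkV Orb red kerM)
open Pool.Agent.Lib.MP_938ce2_ag_h60 (CMType)

/-- A central fixed point free involution `c` on a `G`-set with `2g` points. -/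
structure Act (G X : Type) [Group G] [MulAction G X] [Fintype X] (c : G) (g : ℕ) : Prop where
  comm : ∀ σ : G, c * σ = σ * c
  sq : c * c = 1
  free : ∀ x : X, c • x ≠ x
  card : Fintype.card X = 2 * g
  pos : 1 ≤ g

/-- the odd submodules of the space of functions -/
def OddM {F G X : Type} [Field F] [Group G] [MulAction G X] (c : G)
    (M : Submodule (MonoidAlgebra F G) (VV F G X)) : Prop :=
  ∀ v ∈ M, ∀ x : X, ev v (c • x) = - ev v x

/-- every quotient of `X` by a normal subgroup `K` on which `c` acts without fixed points has more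
than `2 |X / K|` symmetries induced by `G` -/
def Cond2 (G X : Type) [Group G] [MulAction G X] (c : G) : Prop :=
  ∀ K : Subgroup G, K.Normal → (∀ x : X, ∀ k ∈ K, k • x ≠ c • x) →
    (∀ σ : G, (∀ x : X, ∃ k ∈ K, σ • x = k • x) → σ ∈ K) → 2 * Nat.card (Orb K X) < K.index

section

variable {G X : Type} [Group G] [Fintype G] [MulAction G X] [Fintype X] [DecidableEq X]

open Classical in
/-- the CM types orthogonal to some submodule isomorphic to `M` -/
noncomputable def badC (c : G) (M : Submodule (MonoidAlgebra ℚ G) (VV ℚ G X)) :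
    Finset (Finset X) :=
  Finset.univ.filter fun Φ => CMType c Φ ∧ ∃ M' : Submodule (MonoidAlgebra ℚ G) (VV ℚ G X),
    Nonempty (M ≃ₗ[MonoidAlgebra ℚ G] M') ∧ ∀ v ∈ M', ∑ x, (sg Φ x : ℚ) * ev v x = 0

lemma mem_badC (c : G) (M : Submodule (MonoidAlgebra ℚ G) (VV ℚ G X)) (Φ : Finset X) :
    Φ ∈ badC c M ↔ CMType c Φ ∧ ∃ M' : Submodule (MonoidAlgebra ℚ G) (VV ℚ G X),
    Nonempty (M ≃ₗ[MonoidAlgebra ℚ G] M') ∧ ∀ v ∈ M', ∑ x, (sg Φ x : ℚ) * ev v x = 0 := by
  classical
  unfold badC
  rw [Finset.mem_filter]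
  exact ⟨fun h => h.2, fun h => ⟨Finset.mem_univ _, h⟩⟩

/-- dimension -/
noncomputable abbrev dM (M : Submodule (MonoidAlgebra ℚ G) (VV ℚ G X)) : ℕ := finrank ℚ M

/-- dimension of the space of endomorphisms -/
noncomputable abbrev dE (M : Submodule (MonoidAlgebra ℚ G) (VV ℚ G X)) : ℕ :=
  finrank ℚ (M →ₗ[MonoidAlgebra ℚ G] M)

/-- dimension of the space of homomorphisms to the functions on `X` -/
noncomputable abbrev dH (M : Submodule (MonoidAlgebra ℚ G) (VV ℚ G X)) : ℕ :=
  finrank ℚ (M →ₗ[MonoidAlgebra ℚ G] VV ℚ G X)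

end

end Pool.Agent.Lib.MP_938ce2_ag_u2
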