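import Mathlib
import Pool.Agent.Lib.MP_938ce2_ag_u2.Defs

/-!
Row Half: CM types as subsets of a fixed CM type.
-/

set_option autoImplicit false
set_option linter.unusedSectionVars false

namespace Pool.Agent.Lib.MP_938ce2_ag_u2

open Finset Module MonoidAlgebra
open Pool.Agent.Lib.MP_938ce2_ag_h67 (sg VV ev mkV Orb red kerM)
open Pool.Agent.Lib.MP_938ce2_ag_h60 (CMType)

variable {G X : Type} [Group G] [MulAction G X] [Fintype X] [DecidableEq X] {c : G} {g : ℕ}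

open Classical in
/-- the CM type with a given intersection with the CM type `Φ₀` -/
noncomputable def cmExt (c : G) (Φ₀ : Finset X) (η : Finset {x // x ∈ Φ₀}) : Finset X :=
  Finset.univ.filter fun x => (∃ h : x ∈ Φ₀, (⟨x, h⟩ : {x // x ∈ Φ₀}) ∈ η) ∨
    (∃ h : c • x ∈ Φ₀, (⟨c • x, h⟩ : {x // x ∈ Φ₀}) ∉ η)

lemma Act.cc (hA : Act G X c g) (x : X) : c • c • x = x := by
  rw [smul_smul, hA.sq, one_smul]

/-- Sums over a CM type and its complement. -/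
lemma Act.sum_type (hA : Act G X c g) {Φ : Finset X} (hΦ : CMType c Φ) {M : Type}
    [AddCommMonoid M] (f : X → M) :
    ∑ σ ∈ Φ, f σ + ∑ σ ∈ Φ, f (c • σ) = ∑ σ, f σ := by
  have h1 : ∑ σ ∈ Φ, f (c • σ) = ∑ σ ∈ Finset.univ.filter (fun σ => σ ∉ Φ), f σ := by
    refine Finset.sum_nbij' (fun σ => c • σ) (fun σ => c • σ) ?_ ?_ ?_ ?_ ?_
    · intro σ hσ
      rw [Finset.mem_filter]
      exact ⟨Finset.mem_univ _, (hΦ σ).mp hσ⟩
    · intro σ hσ
      rw [Finset.mem_filter] at hσ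
      rw [hΦ, hA.cc]
      exact hσ.2
    · intro σ _; exact hA.cc σ
    · intro σ _; exact hA.cc σ
    · intro σ _; rfl
  rw [h1]
  have := Finset.sum_filter_add_sum_filter_not Finset.univ (fun σ => σ ∈ Φ) f
  rw [← this]
  congr 1
  simp

theorem exists_cm (hA : Act G X c g) : ∃ Φ₀ : Finset X, CMType c Φ₀ := by
  classical
  let e := Fintype.equivFin X
  refine ⟨Finset.univ.filter fun x => e x < e (c • x), fun x => ?_⟩
  rw [Finset.mem_filter, Finset.mem_filter, hA.cc]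
  have h1 : e (c • x) ≠ e x := fun h => hA.free x (e.injective h)
  constructor
  · rintro ⟨-, h⟩ ⟨-, h2⟩
    exact lt_asymm h h2
  · intro h
    refine ⟨Finset.mem_univ _, ?_⟩
    rcases lt_trichotomy (e x) (e (c • x)) with h2 | h2 | h2
    · exact h2
    · exact (h1 h2.symm).elim
    · exact (h ⟨Finset.mem_univ _, h2⟩).elim

theorem card_cm (hA : Act G X c g) {Φ₀ : Finset X} (h₀ : CMType c Φ₀) :
    Fintype.card {x // x ∈ Φ₀} = g := by
  rw [Fintype.card_coe]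
  have h1 := hA.sum_type h₀ (fun _ => (1 : ℕ))
  simp only [Finset.sum_const, smul_eq_mul, mul_one, Finset.card_univ, hA.card] at h1
  omega

lemma mem_cmExt (hA : Act G X c g) {Φ₀ : Finset X} (h₀ : CMType c Φ₀)
    (η : Finset {x // x ∈ Φ₀}) (x : {x // x ∈ Φ₀}) : x.1 ∈ cmExt c Φ₀ η ↔ x ∈ η := by
  unfold cmExt
  rw [Finset.mem_filter]
  constructor
  · rintro ⟨-, ⟨_, h⟩ | ⟨h, _⟩⟩
    · exact h
    · exact ((h₀ x.1).1 x.2 h).elim
  · intro h
    exact ⟨Finset.mem_univ _, Or.inl ⟨x.2, h⟩⟩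

lemma mem_cmExt' (hA : Act G X c g) {Φ₀ : Finset X} (h₀ : CMType c Φ₀)
    (η : Finset {x // x ∈ Φ₀}) (x : {x // x ∈ Φ₀}) : c • x.1 ∈ cmExt c Φ₀ η ↔ x ∉ η := by
  unfold cmExt
  rw [Finset.mem_filter]
  have h1 : c • x.1 ∉ Φ₀ := (h₀ x.1).1 x.2
  have h2 : ∀ h : c • c • x.1 ∈ Φ₀, (⟨c • c • x.1, h⟩ : {x // x ∈ Φ₀}) = x := fun h =>
    Subtype.ext (hA.cc x.1)
  constructor
  · rintro ⟨-, ⟨h, _⟩ | ⟨h, h3⟩⟩
    · exact (h1 h).elim
    · rwa [h2 h] at h3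
  · intro h
    have h4 : c • c • x.1 ∈ Φ₀ := by
      rw [hA.cc]
      exact x.2
    exact ⟨Finset.mem_univ _, Or.inr ⟨h4, by rwa [h2 h4]⟩⟩

theorem cmExt_cm (hA : Act G X c g) {Φ₀ : Finset X} (h₀ : CMType c Φ₀)
    (η : Finset {x // x ∈ Φ₀}) : CMType c (cmExt c Φ₀ η) := by
  have h1 : ∀ x : {x // x ∈ Φ₀}, x.1 ∈ cmExt c Φ₀ η ↔ c • x.1 ∉ cmExt c Φ₀ η := by
    intro x
    rw [mem_cmExt hA h₀, mem_cmExt' hA h₀, not_not]
  intro x
  by_cases hx : x ∈ Φ₀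
  · exact h1 ⟨x, hx⟩
  · have hx2 : c • x ∈ Φ₀ := by
      by_contra h
      exact hx ((h₀ x).2 h)
    have h2 := h1 ⟨c • x, hx2⟩
    simp only [hA.cc] at h2
    rw [h2, not_not]

/-- A CM type is determined by its intersection with `Φ₀`. -/
lemma cm_ext (hA : Act G X c g) {Φ₀ Φ Ψ : Finset X} (h₀ : CMType c Φ₀) (h₁ : CMType c Φ)
    (h₂ : CMType c Ψ) (h : ∀ x ∈ Φ₀, (x ∈ Φ ↔ x ∈ Ψ)) : Φ = Ψ := by
  ext x
  by_cases hx : x ∈ Φ₀
  · exact h x hx
  · have hx2 : c • x ∈ Φ₀ := by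
      by_contra h
      exact hx ((h₀ x).2 h)
    rw [h₁ x, h₂ x, h _ hx2]

open Classical in
/-- CM types correspond to the subsets of `Φ₀` -/
theorem card_cm_filter (hA : Act G X c g) {Φ₀ : Finset X} (h₀ : CMType c Φ₀)
    (p : Finset X → Prop) :
    (Finset.univ.filter fun Φ : Finset X => CMType c Φ ∧ p Φ).card
      = (Finset.univ.filter fun η : Finset {x // x ∈ Φ₀} => p (cmExt c Φ₀ η)).card := by
  symm
  refine Finset.card_nbij (fun η => cmExt c Φ₀ η) ?_ ?_ ?_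
  · intro η hη
    rw [Finset.mem_coe, Finset.mem_filter] at hη ⊢
    exact ⟨Finset.mem_univ _, cmExt_cm hA h₀ η, hη.2⟩
  · intro η _ θ _ h
    ext x
    have h' : cmExt c Φ₀ η = cmExt c Φ₀ θ := h
    rw [← mem_cmExt hA h₀, h', mem_cmExt hA h₀]
  · intro Φ hΦ
    rw [Finset.mem_coe, Finset.mem_filter] at hΦ
    have h1 : cmExt c Φ₀ (Finset.univ.filter fun x : {x // x ∈ Φ₀} => x.1 ∈ Φ) = Φ := by
      refine cm_ext hA h₀ (cmExt_cm hA h₀ _) hΦ.2.1 fun x hx => ?_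
      have h2 := mem_cmExt hA h₀ (Finset.univ.filter fun x : {x // x ∈ Φ₀} => x.1 ∈ Φ) ⟨x, hx⟩
      rw [h2, Finset.mem_filter]
      exact ⟨fun h => h.2, fun h => ⟨Finset.mem_univ _, h⟩⟩
    refine ⟨Finset.univ.filter fun x : {x // x ∈ Φ₀} => x.1 ∈ Φ, ?_, h1⟩
    rw [Finset.mem_coe, Finset.mem_filter, h1]
    exact ⟨Finset.mem_univ _, hΦ.2.2⟩

/-- sums over `X` of odd functions with the signs of a CM type -/
theorem sum_cmExt (hA : Act G X c g) {Φ₀ : Finset X} (h₀ : CMType c Φ₀)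
    (η : Finset {x // x ∈ Φ₀}) {B : Type} [AddCommGroup B] (f : X → B)
    (hf : ∀ x, f (c • x) = - f x) :
    ∑ x, sg (cmExt c Φ₀ η) x • f x = 2 • ∑ x : {x // x ∈ Φ₀}, sg η x • f x := by
  rw [← hA.sum_type h₀ (fun x => sg (cmExt c Φ₀ η) x • f x), ← Finset.sum_coe_sort Φ₀, ← Finset.sum_coe_sort Φ₀,
    two_nsmul]
  congr 1
  · refine Finset.sum_congr rfl fun x _ => ?_
    congr 1
    unfold sg
    by_cases h : x ∈ η
    · rw [if_pos h, if_pos ((mem_cmExt hA h₀ η x).2 h)]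
    · rw [if_neg h, if_neg fun h2 => h ((mem_cmExt hA h₀ η x).1 h2)]
  · refine Finset.sum_congr rfl fun x _ => ?_
    rw [hf]
    unfold sg
    by_cases h : x ∈ η
    · rw [if_pos h, if_neg fun h2 => (mem_cmExt' hA h₀ η x).1 h2 h, neg_smul, one_smul, neg_neg,
        one_smul]
    · rw [if_neg h, if_pos ((mem_cmExt' hA h₀ η x).2 h), one_smul, neg_smul, one_smul]

/-- there are `2 ^ g` CM types -/
theorem card_cm_all (hA : Act G X c g) :
    Nat.card {Φ : Finset X // CMType c Φ} = 2 ^ g := by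
  classical
  obtain ⟨Φ₀, h₀⟩ := exists_cm hA
  have h1 := card_cm_filter hA h₀ (fun _ => True)
  rw [Nat.card_eq_fintype_card, Fintype.card_subtype]
  simp only [and_true, Finset.filter_true] at h1
  rw [h1, Finset.card_univ, Fintype.card_finset, card_cm hA h₀]

end Pool.Agent.Lib.MP_938ce2_ag_u2
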