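import Mathlib
import Pool.Agent.Lib.MP_938ce2_ag_u2.Half

/-!
Row S2: the number of CM types orthogonal to an odd code over any field of characteristic not 2.
-/

set_option autoImplicit false
set_option linter.unusedSectionVars false

namespace Pool.Agent.Lib.MP_938ce2_ag_u2

open Finset Module MonoidAlgebra
open Pool.Agent.Lib.MP_938ce2_ag_h67 (sg VV ev mkV Orb red kerM)
open Pool.Agent.Lib.MP_938ce2_ag_h60 (CMType)

namespace CountBigAux

variable {F : Type} [Field F] {Ω : Type} [Fintype Ω] [DecidableEq Ω]

open Classical in
/-- The number of sign vectors orthogonal to a subspace, characteristic not 2. -/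
private theorem card_sg_le (h2 : (2 : F) ≠ 0) (C : Submodule F (Ω → F)) :
    (univ.filter fun η : Finset Ω => ∀ y ∈ C, ∑ x, (sg η x : F) * y x = 0).card
      * 2 ^ finrank F C ≤ 2 ^ Fintype.card Ω := by
  obtain ⟨κ, _, a, ha, hcard, hbij⟩ := MP_938ce2_ag_h67.exists_info C
  set B : Finset Ω := univ.map ⟨a, ha⟩ with hB
  have hBc : B.card = finrank F C := by rw [hB, Finset.card_map, Finset.card_univ, hcard]
  have h1 : (univ.filter fun η : Finset Ω => ∀ y ∈ C, ∑ x, (sg η x : F) * y x = 0).card
      ≤ (univ \ B).powerset.card := by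
    refine Finset.card_le_card_of_injOn (fun η => η \ B) ?_ ?_
    · intro η _
      rw [Finset.mem_coe, Finset.mem_powerset]
      exact Finset.sdiff_subset_sdiff (Finset.subset_univ η) le_rfl
    · intro η hη θ hθ h
      rw [Finset.mem_coe, Finset.mem_filter] at hη hθ
      simp only at h
      have hout : ∀ x, x ∉ B → (x ∈ η ↔ x ∈ θ) := by
        intro x hx
        have := congrArg (fun s => x ∈ s) h
        simp only [Finset.mem_sdiff, hx, not_false_eq_true, and_true] at this
        exact this.to_iff
      have key : ∀ i : κ, (a i ∈ η ↔ a i ∈ θ) := by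
        intro i
        obtain ⟨y, hy⟩ := hbij.2 (Pi.single i 1)
        have hy' : ∀ j, (y : Ω → F) (a j) = (Pi.single i (1 : F) : κ → F) j :=
          fun j => congrFun hy j
        have e1 := hη.2 y y.2
        have e2 := hθ.2 y y.2
        have e3 : ∑ x, (((sg η x : ℤ) : F) - ((sg θ x : ℤ) : F)) * (y : Ω → F) x = 0 := by
          simp only [sub_mul]
          rw [Finset.sum_sub_distrib, e1, e2, sub_zero]
        rw [Finset.sum_eq_single (a i)] at e3
        · rw [hy', Pi.single_eq_same, mul_one] at e3
          unfold MP_938ce2_ag_h67.sg at e3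
          by_cases h3 : a i ∈ η
          · by_cases h4 : a i ∈ θ
            · exact ⟨fun _ => h4, fun _ => h3⟩
            · exfalso
              rw [if_pos h3, if_neg h4] at e3
              apply h2
              rw [← e3]
              push_cast
              ring
          · by_cases h4 : a i ∈ θ
            · exfalso
              rw [if_neg h3, if_pos h4] at e3
              apply h2
              have : (2 : F) = -0 := by
                rw [← e3]
                push_cast
                ring
              rw [this, neg_zero]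
            · exact ⟨fun h' => absurd h' h3, fun h' => absurd h' h4⟩
        · intro b _ hne
          by_cases hb : b ∈ B
          · obtain ⟨j, _, rfl⟩ := Finset.mem_map.mp hb
            have hji : j ≠ i := fun h => hne (by rw [h]; rfl)
            have : (y : Ω → F) (a j) = 0 := by rw [hy', Pi.single_eq_of_ne hji]
            show _ * (y : Ω → F) (a j) = 0
            rw [this, mul_zero]
          · have : sg η b = sg θ b := by
              unfold MP_938ce2_ag_h67.sg
              exact if_congr (hout b hb) rfl rfl
            rw [this, sub_self, zero_mul]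
        · intro h'
          exact absurd (Finset.mem_univ _) h'
      ext x
      by_cases hx : x ∈ B
      · obtain ⟨i, _, rfl⟩ := Finset.mem_map.mp hx
        exact key i
      · exact hout x hx
  rw [Finset.card_powerset, Finset.card_sdiff_of_subset (Finset.subset_univ _), Finset.card_univ,
    hBc] at h1
  have h3 : finrank F C ≤ Fintype.card Ω := by
    rw [← hBc, ← Finset.card_univ]
    exact Finset.card_le_card (Finset.subset_univ _)
  calc _ ≤ 2 ^ (Fintype.card Ω - finrank F C) * 2 ^ finrank F C := Nat.mul_le_mul_right _ h1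
    _ = 2 ^ Fintype.card Ω := by rw [← pow_add, Nat.sub_add_cancel h3]

end CountBigAux

variable {G X : Type} [Group G] [MulAction G X] [Fintype X] [DecidableEq X] {c : G} {g : ℕ}

open Classical in
theorem card_orth_big (hA : Act G X c g) {F : Type} [Field F] (h2 : (2 : F) ≠ 0)
    (C : Submodule F (X → F)) (hodd : ∀ y ∈ C, ∀ x, y (c • x) = - y x) :
    (Finset.univ.filter fun Φ : Finset X =>
        CMType c Φ ∧ ∀ y ∈ C, ∑ x, (sg Φ x : F) * y x = 0).card * 2 ^ finrank F C
      ≤ 2 ^ g := by
  obtain ⟨Φ₀, h₀⟩ := exists_cm hA
  let r : (X → F) →ₗ[F] ({x // x ∈ Φ₀} → F) := LinearMap.funLeft F F Subtype.val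
  have hr : ∀ (y : X → F) (x : {x // x ∈ Φ₀}), r y x = y x := fun y x => rfl
  have hinj : ∀ y ∈ C, r y = 0 → y = 0 := by
    intro y hy h
    funext x
    by_cases hx0 : x ∈ Φ₀
    · exact congrFun h ⟨x, hx0⟩
    · have hx : c • x ∈ Φ₀ := by
        by_contra hx
        exact hx0 ((h₀ x).mpr hx)
      have := congrFun h ⟨c • x, hx⟩
      rw [hr] at this
      have h3 := hodd y hy x
      simp only at this
      rw [this] at h3
      exact neg_eq_zero.mp h3.symm
  have hfin : finrank F (C.map r) = finrank F C := by
    rw [← LinearMap.range_domRestrict]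
    apply LinearMap.finrank_range_of_inj
    rw [injective_iff_map_eq_zero]
    intro y hy
    exact Subtype.ext (hinj y y.2 hy)
  rw [card_cm_filter hA h₀]
  have h3 := CountBigAux.card_sg_le h2 (C.map r)
  rw [hfin, card_cm hA h₀] at h3
  refine le_trans (Nat.mul_le_mul_right _ (Finset.card_le_card ?_)) h3
  intro η hη
  rw [Finset.mem_filter] at hη ⊢
  refine ⟨Finset.mem_univ _, ?_⟩
  rintro _ ⟨y, hy, rfl⟩
  have h4 := hη.2 y hy
  have h5 := sum_cmExt hA h₀ η y (hodd y hy)
  simp only [zsmul_eq_mul] at h5
  rw [h4, nsmul_eq_mul] at h5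
  have h6 := (mul_eq_zero.mp h5.symm).resolve_left (by exact_mod_cast h2)
  exact h6

end Pool.Agent.Lib.MP_938ce2_ag_u2
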