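import Mathlib
import Pool.Agent.Lib.MP_938ce2_ag_u2.CountOdd
import Pool.Agent.Lib.MP_938ce2_ag_u2.CountBig

/-!
Row S3: the number of CM types orthogonal to some copy of a simple odd module.
-/

set_option autoImplicit false
set_option linter.unusedSectionVars false

namespace Pool.Agent.Lib.MP_938ce2_ag_u2

open Finset Module MonoidAlgebra
open Pool.Agent.Lib.MP_938ce2_ag_h67 (sg VV ev mkV Orb red kerM)
open Pool.Agent.Lib.MP_938ce2_ag_h60 (CMType)

namespace TypeCAux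

open Pool.Agent.Lib.MP_938ce2_ag_h67

section General

variable {P Ω : Type} [Group P] [Fintype P] [MulAction P Ω] [Fintype Ω] [DecidableEq Ω]
  (M : Submodule (MonoidAlgebra ℚ P) (VV ℚ P Ω)) (q : ℕ) [Fact q.Prime]

open Classical in
/-- Counting the weights orthogonal to some copy of `M`, arbitrary index set; the bound is only
needed for the submodules isomorphic to the reduction. -/
theorem card_bad_mul_le_iso {I : Type} [Fintype I] (hq : ¬ q ∣ Fintype.card P) (w : I → Ω → ℤ)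
    (B : ℝ)
    (hB : ∀ U : Submodule (MonoidAlgebra (ZMod q) P) (VV (ZMod q) P Ω),
      Nonempty (red M (ZMod q) ≃ₗ[MonoidAlgebra (ZMod q) P] U) →
      finrank (ZMod q) U = finrank ℚ M →
      ((Finset.univ.filter fun η : I => ∀ v ∈ U, ∑ x, (w η x : ZMod q) * ev v x = 0).card : ℝ)
        ≤ B) :
    ((Finset.univ.filter fun η : I =>
        ∃ M' : Submodule (MonoidAlgebra ℚ P) (VV ℚ P Ω),
          Nonempty (M ≃ₗ[MonoidAlgebra ℚ P] M') ∧
            ∀ v ∈ M', ∑ x, (w η x : ℚ) * ev v x = 0).card : ℝ)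
      * Nat.card (red M (ZMod q) ≃ₗ[MonoidAlgebra (ZMod q) P] red M (ZMod q))
      ≤ (q : ℝ) ^ finrank ℚ (M →ₗ[MonoidAlgebra ℚ P] VV ℚ P Ω) * B := by
  let 𝒰 : Type := {U : Submodule (MonoidAlgebra (ZMod q) P) (VV (ZMod q) P Ω) //
    Nonempty (red M (ZMod q) ≃ₗ[MonoidAlgebra (ZMod q) P] U)}
  have hfin : Finite 𝒰 := inferInstanceAs (Finite {U : Submodule (MonoidAlgebra (ZMod q) P)
    (VV (ZMod q) P Ω) // Nonempty (red M (ZMod q) ≃ₗ[MonoidAlgebra (ZMod q) P] U)})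
  let _ : Fintype 𝒰 := Fintype.ofFinite 𝒰
  have h1 : Nat.card 𝒰 * Nat.card (red M (ZMod q) ≃ₗ[MonoidAlgebra (ZMod q) P] red M (ZMod q))
      ≤ q ^ finrank ℚ (M →ₗ[MonoidAlgebra ℚ P] VV ℚ P Ω) := by
    have h2 := Pool.Agent.Lib.MP_938ce2_ag_h79.card_submodules_iso_le
      (R := MonoidAlgebra (ZMod q) P) (A := red M (ZMod q)) (V := VV (ZMod q) P Ω)
    rw [card_hom_eq (ZMod q), finrank_hom_top_mod M q hq, ZMod.card] at h2
    exact h2
  have hfr : ∀ U : 𝒰, finrank (ZMod q) U.1 = finrank ℚ M := by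
    rintro ⟨U, ⟨e⟩⟩
    rw [← finrank_red_mod M q hq]
    exact (e.restrictScalars (ZMod q)).finrank_eq.symm
  have hB0 : 0 ≤ B := le_trans (Nat.cast_nonneg _)
    (hB (red M (ZMod q)) ⟨LinearEquiv.refl _ _⟩ (finrank_red_mod M q hq))
  have h3 : ((Finset.univ.filter fun η : I =>
        ∃ M' : Submodule (MonoidAlgebra ℚ P) (VV ℚ P Ω),
          Nonempty (M ≃ₗ[MonoidAlgebra ℚ P] M') ∧
            ∀ v ∈ M', ∑ x, (w η x : ℚ) * ev v x = 0).card : ℝ) ≤ Nat.card 𝒰 * B := by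
    have h4 : (Finset.univ.filter fun η : I =>
        ∃ M' : Submodule (MonoidAlgebra ℚ P) (VV ℚ P Ω),
          Nonempty (M ≃ₗ[MonoidAlgebra ℚ P] M') ∧
            ∀ v ∈ M', ∑ x, (w η x : ℚ) * ev v x = 0)
        ⊆ (Finset.univ : Finset 𝒰).biUnion fun U =>
          Finset.univ.filter fun η : I => ∀ v ∈ U.1, ∑ x, (w η x : ZMod q) * ev v x = 0 := by
      intro η hη
      obtain ⟨M', hM', hv⟩ := (Finset.mem_filter.mp hη).2
      rw [Finset.mem_biUnion]
      refine ⟨⟨red M' (ZMod q), red_iso M M' q hq hM'⟩, Finset.mem_univ _, ?_⟩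
      rw [Finset.mem_filter]
      refine ⟨Finset.mem_univ _, ?_⟩
      intro v hvU
      obtain ⟨f, hf, rfl⟩ := exists_of_mem_red M' q hvU
      have h5 := hv _ ((mem_lat M' f).mp hf)
      have h6 : ((∑ x, w η x * f x : ℤ) : ℚ) = 0 := by
        push_cast
        exact h5
      have h7 : (∑ x, w η x * f x : ℤ) = 0 := by exact_mod_cast h6
      have h8 := congrArg (fun t : ℤ => (t : ZMod q)) h7
      simp only [Int.cast_sum, Int.cast_mul, Int.cast_zero] at h8
      exact h8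
    calc ((Finset.univ.filter fun η : I =>
        ∃ M' : Submodule (MonoidAlgebra ℚ P) (VV ℚ P Ω),
          Nonempty (M ≃ₗ[MonoidAlgebra ℚ P] M') ∧
            ∀ v ∈ M', ∑ x, (w η x : ℚ) * ev v x = 0).card : ℝ)
        ≤ ((Finset.univ : Finset 𝒰).biUnion fun U =>
          Finset.univ.filter fun η : I =>
            ∀ v ∈ U.1, ∑ x, (w η x : ZMod q) * ev v x = 0).card := by
          exact_mod_cast Finset.card_le_card h4
      _ ≤ ∑ U : 𝒰, ((Finset.univ.filter fun η : I =>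
            ∀ v ∈ U.1, ∑ x, (w η x : ZMod q) * ev v x = 0).card : ℝ) := by
          exact_mod_cast Finset.card_biUnion_le
      _ ≤ ∑ _U : 𝒰, B := Finset.sum_le_sum fun U _ => hB U.1 U.2 (hfr U)
      _ = Nat.card 𝒰 * B := by
          rw [Finset.sum_const, Finset.card_univ, nsmul_eq_mul, Nat.card_eq_fintype_card]
  have h9 : (Nat.card 𝒰 : ℝ) * Nat.card (red M (ZMod q) ≃ₗ[MonoidAlgebra (ZMod q) P] red M (ZMod q))
      ≤ (q : ℝ) ^ finrank ℚ (M →ₗ[MonoidAlgebra ℚ P] VV ℚ P Ω) := by exact_mod_cast h1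
  calc _ ≤ Nat.card 𝒰 * B
        * Nat.card (red M (ZMod q) ≃ₗ[MonoidAlgebra (ZMod q) P] red M (ZMod q)) :=
        mul_le_mul_of_nonneg_right h3 (Nat.cast_nonneg _)
    _ = (Nat.card 𝒰 * Nat.card (red M (ZMod q) ≃ₗ[MonoidAlgebra (ZMod q) P] red M (ZMod q))) * B := by
        ring
    _ ≤ _ := mul_le_mul_of_nonneg_right h9 hB0

end General

section Quot

variable {G Q X X' : Type} [Group G] [Fintype G] [Group Q] [Fintype Q] [MulAction G X]
  [MulAction Q X'] [Fintype X] [DecidableEq X] [Fintype X'] [DecidableEq X'] {c : G}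
  (D : QD G Q X X')

/-- the submodules isomorphic to the reduction of an odd module are odd -/
lemma odd_of_iso (N : Submodule (MonoidAlgebra ℚ Q) (VV ℚ Q X')) (hN : OddM (D.φ c) N)
    (hcc : c * c = 1) (q : ℕ) [Fact q.Prime]
    (U : Submodule (MonoidAlgebra (ZMod q) Q) (VV (ZMod q) Q X'))
    (h : Nonempty (red N (ZMod q) ≃ₗ[MonoidAlgebra (ZMod q) Q] U)) : OddM (D.φ c) U := by
  obtain ⟨e⟩ := h
  have hinv : (D.φ c)⁻¹ = D.φ c := by
    rw [inv_eq_iff_mul_eq_one, ← map_mul, hcc, map_one]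
  have h1 : ∀ r : red N (ZMod q), MonoidAlgebra.single (D.φ c) (1 : ZMod q) • r = -r := by
    rintro ⟨v, hv⟩
    apply Subtype.ext
    show MonoidAlgebra.single (D.φ c) (1 : ZMod q) • v = -v
    obtain ⟨f, hf, rfl⟩ := exists_of_mem_red N q hv
    apply ev_ext
    intro y
    rw [ev_single, one_mul, hinv, ev_mkV]
    have h2 := hN _ ((mem_lat N f).mp hf) y
    have h3 : f (D.φ c • y) = - f y := by
      have h4 : ((f (D.φ c • y) : ℤ) : ℚ) = ((- f y : ℤ) : ℚ) := by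
        rw [Int.cast_neg]
        exact h2
      exact_mod_cast h4
    rw [h3, Int.cast_neg]
    rfl
  intro u hu y
  have h2 : MonoidAlgebra.single (D.φ c) (1 : ZMod q) • (⟨u, hu⟩ : U) = -⟨u, hu⟩ := by
    have h3 := congrArg e (h1 (e.symm ⟨u, hu⟩))
    rw [map_smul, map_neg, LinearEquiv.apply_symm_apply] at h3
    exact h3
  have h3 : MonoidAlgebra.single (D.φ c) (1 : ZMod q) • u = -u := congrArg Subtype.val h2
  have h4 := congrArg (fun t : VV (ZMod q) Q X' => ev t y) h3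
  simp only [ev_single, one_mul, hinv] at h4
  rw [h4]
  rfl

lemma odd_down (M : Submodule (MonoidAlgebra ℚ G) (VV ℚ G X)) (hM : OddM c M) :
    OddM (D.φ c) (down D M) := by
  intro u hu y
  obtain ⟨x, rfl⟩ := D.hπ y
  have h1 := hM _ ((mem_down D M u).mp hu) x
  rw [ev_pull, ev_pull, D.comm] at h1
  exact h1

open Classical in
theorem card_gen (M : Submodule (MonoidAlgebra ℚ G) (VV ℚ G X)) (hM : OddM c M) (hcc : c * c = 1)
    (q : ℕ) [Fact q.Prime] (hqQ : ¬ q ∣ Fintype.card Q)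
    (hfac : ∀ M' : Submodule (MonoidAlgebra ℚ G) (VV ℚ G X),
      Nonempty (M ≃ₗ[MonoidAlgebra ℚ G] M') → Fac D M') (B : ℝ)
    (hB : ∀ C : Submodule (ZMod q) (X → ZMod q), (∀ y ∈ C, ∀ x, y (c • x) = - y x) →
      (∀ σ : G, ∀ y ∈ C, (fun x => y (σ • x)) ∈ C) → finrank (ZMod q) C = dM M →
      ((Finset.univ.filter fun Φ : Finset X =>
        CMType c Φ ∧ ∀ y ∈ C, ∑ x, (sg Φ x : ZMod q) * y x = 0).card : ℝ) ≤ B) :
    ((badC c M).card : ℝ)
      * Nat.card (red (down D M) (ZMod q) ≃ₗ[MonoidAlgebra (ZMod q) Q] red (down D M) (ZMod q))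
      ≤ (q : ℝ) ^ dH M * B := by
  have hMfac : Fac D M := hfac M ⟨LinearEquiv.refl _ _⟩
  set N := down D M with hN
  have hNr : finrank ℚ N = finrank ℚ M := finrank_down D hMfac
  have hκ' : finrank ℚ (N →ₗ[MonoidAlgebra ℚ Q] VV ℚ Q X') ≤ dH M := finrank_hom_down_le D hMfac
  have hNodd : OddM (D.φ c) N := odd_down D M hM
  have key : ∀ U : Submodule (MonoidAlgebra (ZMod q) Q) (VV (ZMod q) Q X'),
      Nonempty (red N (ZMod q) ≃ₗ[MonoidAlgebra (ZMod q) Q] U) →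
      finrank (ZMod q) U = finrank ℚ N →
      ((Finset.univ.filter fun η : {Φ : Finset X // CMType c Φ} =>
        ∀ v ∈ U, ∑ y, ((fw D η.1 y : ℤ) : ZMod q) * ev v y = 0).card : ℝ) ≤ B := by
    intro U hU hr
    have hUodd := odd_of_iso D N hNodd hcc q U hU
    let L : (X' → ZMod q) →ₗ[ZMod q] (X → ZMod q) := LinearMap.funLeft (ZMod q) (ZMod q) D.π
    have hL : Function.Injective L := LinearMap.funLeft_injective_of_surjective _ _ _ D.hπ
    let C : Submodule (ZMod q) (X → ZMod q) := (code U).map L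
    have hCinv : ∀ σ : G, ∀ y ∈ C, (fun x => y (σ • x)) ∈ C := by
      rintro σ _ ⟨u, hu, rfl⟩
      refine ⟨fun z => u (D.φ σ • z), code_inv U (D.φ σ) u hu, ?_⟩
      funext x
      show u (D.φ σ • D.π x) = u (D.π (σ • x))
      rw [D.comm]
    have hCodd : ∀ y ∈ C, ∀ x, y (c • x) = - y x := by
      rintro _ ⟨u, hu, rfl⟩ x
      show u (D.π (c • x)) = - u (D.π x)
      rw [D.comm]
      exact hUodd _ ((mem_code U u).mp hu) (D.π x)
    have hCr : finrank (ZMod q) C = dM M := by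
      refine Eq.trans ?_ (hr.trans hNr)
      rw [← finrank_code U]
      exact (Submodule.equivMapOfInjective L hL (code U)).finrank_eq.symm
    refine le_trans ?_ (hB C hCodd hCinv hCr)
    rw [Nat.cast_le]
    refine Finset.card_le_card_of_injOn Subtype.val ?_ Subtype.val_injective.injOn
    intro η hη
    rw [Finset.mem_coe, Finset.mem_filter] at hη ⊢
    refine ⟨Finset.mem_univ _, η.2, ?_⟩
    rintro _ ⟨u, hu, rfl⟩
    have h1 := hη.2 (mkV Q u) ((mem_code U u).mp hu)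
    rw [sum_fw] at h1
    exact h1
  have h1 := card_bad_mul_le_iso N q hqQ (fun (η : {Φ : Finset X // CMType c Φ}) => fw D η.1) B key
  have hB0 : 0 ≤ B := by
    refine le_trans (Nat.cast_nonneg _) (key (red N (ZMod q)) ⟨LinearEquiv.refl _ _⟩
      (finrank_red_mod N q hqQ))
  have hsub : ((badC c M).card : ℝ) ≤ ((Finset.univ.filter fun η : {Φ : Finset X // CMType c Φ} =>
        ∃ M' : Submodule (MonoidAlgebra ℚ Q) (VV ℚ Q X'),
          Nonempty (N ≃ₗ[MonoidAlgebra ℚ Q] M') ∧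
            ∀ v ∈ M', ∑ x, ((fw D η.1 x : ℤ) : ℚ) * ev v x = 0).card : ℝ) := by
    rw [Nat.cast_le]
    have himg : badC c M ⊆ (Finset.univ.filter fun η : {Φ : Finset X // CMType c Φ} =>
        ∃ M' : Submodule (MonoidAlgebra ℚ Q) (VV ℚ Q X'),
          Nonempty (N ≃ₗ[MonoidAlgebra ℚ Q] M') ∧
            ∀ v ∈ M', ∑ x, ((fw D η.1 x : ℤ) : ℚ) * ev v x = 0).image Subtype.val := by
      intro Φ hΦ
      obtain ⟨hcm, M', hM', hv⟩ := (mem_badC c M Φ).mp hΦ
      rw [Finset.mem_image]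
      refine ⟨⟨Φ, hcm⟩, ?_, rfl⟩
      rw [Finset.mem_filter]
      refine ⟨Finset.mem_univ _, down D M', down_iso D hMfac (hfac M' hM') hM', ?_⟩
      intro u hu
      rw [sum_fw]
      exact hv _ ((mem_down D M' u).mp hu)
    exact (Finset.card_le_card himg).trans Finset.card_image_le
  have hq0 : (1 : ℝ) ≤ (q : ℝ) := by exact_mod_cast (Fact.out : q.Prime).one_lt.le
  calc ((badC c M).card : ℝ)
      * Nat.card (red N (ZMod q) ≃ₗ[MonoidAlgebra (ZMod q) Q] red N (ZMod q))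
      ≤ _ := mul_le_mul_of_nonneg_right hsub (Nat.cast_nonneg _)
    _ ≤ _ := h1
    _ ≤ (q : ℝ) ^ dH M * B := mul_le_mul_of_nonneg_right (pow_le_pow_right₀ hq0 hκ') hB0

end Quot

section Perm

variable {G X : Type} [Group G] [Fintype G] [MulAction G X] [Fintype X] [DecidableEq X]

/-- the permutations of the orbits of `K` -/
abbrev QP (K : Subgroup G) [K.Normal] : Type :=
  ((MulAction.toPermHom G (Orb K X)).range : Subgroup (Equiv.Perm (Orb K X)))

/-- the quotient -/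
def DD (K : Subgroup G) [K.Normal] : QD G (QP (X := X) K) X (Orb K X) where
  φ := (MulAction.toPermHom G (Orb K X)).rangeRestrict
  π := Orb.mk K
  hφ := MonoidHom.rangeRestrict_surjective _
  hπ := Orb.mk_surj K
  comm := fun _ _ => rfl

lemma DD_one (K : Subgroup G) [K.Normal] (σ : G) (hσ : σ ∈ K) : (DD (X := X) K).φ σ = 1 := by
  apply Subtype.ext
  apply Equiv.ext
  intro a
  obtain ⟨x, rfl⟩ := Orb.mk_surj K a
  show Orb.mk K (σ • x) = Orb.mk K x
  rw [Orb.mk_eq]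
  exact ⟨σ, hσ, rfl⟩

lemma DD_fac (M M' : Submodule (MonoidAlgebra ℚ G) (VV ℚ G X))
    (h : Nonempty (M ≃ₗ[MonoidAlgebra ℚ G] M')) : Fac (DD (X := X) (kerM M)) M' := by
  obtain ⟨e⟩ := h
  intro v hv x y hxy
  obtain ⟨k, hk, hkx⟩ := (Orb.mk_eq (kerM M)).mp hxy
  have h1 : MonoidAlgebra.single k (1 : ℚ) • (⟨v, hv⟩ : M') = ⟨v, hv⟩ := by
    have h2 := hk (e.symm ⟨v, hv⟩)
    have h3 := congrArg e h2
    rw [map_smul, LinearEquiv.apply_symm_apply] at h3
    exact h3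
  have h2 : MonoidAlgebra.single k (1 : ℚ) • v = v := congrArg Subtype.val h1
  rw [← hkx]
  conv_lhs => rw [← h2]
  rw [ev_single, one_mul, inv_smul_smul]

lemma DD_ker (M : Submodule (MonoidAlgebra ℚ G) (VV ℚ G X)) :
    (DD (X := X) (kerM M)).φ.ker = kerM M := by
  have hMfac := DD_fac M M ⟨LinearEquiv.refl _ _⟩
  ext σ
  rw [MonoidHom.mem_ker]
  constructor
  · intro h
    rw [mem_kerM]
    intro s
    apply Subtype.ext
    apply ev_ext
    intro x
    show ev (MonoidAlgebra.single σ (1 : ℚ) • (s : VV ℚ G X)) x = ev (s : VV ℚ G X) x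
    rw [ev_single, one_mul]
    apply hMfac s.1 s.2
    rw [(DD (X := X) (kerM M)).comm, map_inv, h, inv_one, one_smul]
  · intro h
    exact DD_one _ σ h

end Perm

end TypeCAux

variable {G X : Type} [Group G] [Fintype G] [MulAction G X] [Fintype X] [DecidableEq X] {c : G}
  {g : ℕ} [MulAction.IsPretransitive G X]

open TypeCAux in
/-- as h67 `type_quot`, `type_ker` -/
theorem bad_le_odd (hA : Act G X c g) (M : Submodule (MonoidAlgebra ℚ G) (VV ℚ G X))
    (hodd : OddM c M) (hm : 0 < dM M) (hκ : dH M ≤ dM M) (q : ℕ) (hq : q.Prime) (hq2 : q ≠ 2)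
    (hqK : ¬ q ∣ (kerM M).index) :
    ((badC c M).card : ℝ) / 2 ^ g
      ≤ (1 + ((q : ℝ) - 1) * Real.exp (-(2 * g / (dM M * (q : ℝ) ^ 2)))) ^ dM M
        / ((q : ℝ) - 1) ^ (dE M + dM M - dH M) := by
  classical
  have hf : Fact q.Prime := ⟨hq⟩
  have hqodd : Odd q := hq.odd_of_ne_two hq2
  have hq3 : 3 ≤ q := by
    have := hq.two_le
    omega
  have hq3R : (3 : ℝ) ≤ q := by exact_mod_cast hq3
  have hft : Finite (Orb (kerM M) X) := Finite.of_surjective _
    (Pool.Agent.Lib.MP_938ce2_ag_h67.Orb.mk_surj (kerM M))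
  let _ : Fintype (Orb (kerM M) X) := Fintype.ofFinite _
  let _ : Fintype (QP (X := X) (kerM M)) := Fintype.ofFinite _
  let D := DD (X := X) (kerM M)
  have hcard : Fintype.card (QP (X := X) (kerM M)) = (kerM M).index := by
    have h0 : (DD (X := X) (kerM M)).φ.ker.index = (kerM M).index := by rw [DD_ker M]
    rw [← Nat.card_eq_fintype_card, ← h0, Subgroup.index_ker]
    have h1 : (DD (X := X) (kerM M)).φ.range = ⊤ :=
      MonoidHom.range_eq_top.mpr (DD (X := X) (kerM M)).hφ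
    rw [h1]
    exact Subgroup.card_top.symm
  have hqQ : ¬ q ∣ Fintype.card (QP (X := X) (kerM M)) := by
    rw [hcard]
    exact hqK
  set m := dM M with hmdef
  set κ := dH M with hκdef
  set δ := dE M with hδdef
  set E : ℝ := (1 + ((q : ℝ) - 1) * Real.exp (-(2 * g / (m * (q : ℝ) ^ 2)))) ^ m with hE
  have hE0 : 0 ≤ E := by
    have h1 : 0 ≤ ((q : ℝ) - 1) * Real.exp (-(2 * g / (m * (q : ℝ) ^ 2))) :=
      mul_nonneg (by linarith) (Real.exp_nonneg _)
    rw [hE]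
    exact pow_nonneg (by linarith) _
  have hq1 : (0 : ℝ) < (q : ℝ) - 1 := by linarith
  have hq0 : (0 : ℝ) < (q : ℝ) := by linarith
  have h1 := card_gen D M hodd hA.sq q hqQ (DD_fac M) (2 ^ g * E / (q : ℝ) ^ m) (by
    intro C hC1 hC2 hC3
    have h2 := card_orth_odd hA hqodd C hC1 hC2 (by rw [hC3]; exact hm)
    rw [hC3] at h2
    rw [le_div_iff₀ (by positivity)]
    refine le_trans (le_of_eq ?_) h2
    congr!)
  have hMfac := DD_fac M M ⟨LinearEquiv.refl _ _⟩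
  have hδ' : δ ≤ finrank ℚ (Pool.Agent.Lib.MP_938ce2_ag_h67.down D M
      →ₗ[MonoidAlgebra ℚ (QP (X := X) (kerM M))] Pool.Agent.Lib.MP_938ce2_ag_h67.down D M) :=
    Pool.Agent.Lib.MP_938ce2_ag_h67.finrank_end_le_down D hMfac
  have hne : NeZero (Nat.card (QP (X := X) (kerM M)) : ZMod q) := ⟨by
    rw [Nat.card_eq_fintype_card]
    exact Pool.Agent.Lib.MP_938ce2_ag_h67.card_ne_zero_mod (P := QP (X := X) (kerM M)) q hqQ⟩
  have h2 : ((q : ℝ) - 1) ^ δ
      ≤ Nat.card (red (Pool.Agent.Lib.MP_938ce2_ag_h67.down D M) (ZMod q)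
        ≃ₗ[MonoidAlgebra (ZMod q) (QP (X := X) (kerM M))]
        red (Pool.Agent.Lib.MP_938ce2_ag_h67.down D M) (ZMod q)) := by
    have h3 := Pool.Agent.Lib.MP_938ce2_ag_h67.aut_ge_odd (q := q)
      (R := MonoidAlgebra (ZMod q) (QP (X := X) (kerM M)))
      (A := red (Pool.Agent.Lib.MP_938ce2_ag_h67.down D M) (ZMod q)) hq3
    rw [Pool.Agent.Lib.MP_938ce2_ag_h67.finrank_hom_red_mod _ _ q hqQ] at h3
    refine le_trans ?_ h3
    exact pow_le_pow_right₀ (by linarith) hδ'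
  have h3 : ((badC c M).card : ℝ) * ((q : ℝ) - 1) ^ δ ≤ (q : ℝ) ^ κ * (2 ^ g * E / (q : ℝ) ^ m) :=
    le_trans (mul_le_mul_of_nonneg_left h2 (Nat.cast_nonneg _)) h1
  have h4 : (q : ℝ) ^ κ * (2 ^ g * E / (q : ℝ) ^ m) = 2 ^ g * (E / (q : ℝ) ^ (m - κ)) := by
    have : (q : ℝ) ^ m = (q : ℝ) ^ κ * (q : ℝ) ^ (m - κ) := by
      rw [← pow_add, Nat.add_sub_cancel' hκ]
    rw [this]
    field_simp
  have h5 : E / (q : ℝ) ^ (m - κ) ≤ E / ((q : ℝ) - 1) ^ (m - κ) := by
    apply div_le_div_of_nonneg_left hE0 (by positivity)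
    exact pow_le_pow_left₀ hq1.le (by linarith) _
  have h6 : δ + m - κ = (m - κ) + δ := by omega
  rw [h6, pow_add, ← div_div, le_div_iff₀ (by positivity), div_mul_eq_mul_div,
    div_le_iff₀ (by positivity)]
  calc ((badC c M).card : ℝ) * ((q : ℝ) - 1) ^ δ ≤ 2 ^ g * (E / (q : ℝ) ^ (m - κ)) := by
        rw [← h4]; exact h3
    _ ≤ 2 ^ g * (E / ((q : ℝ) - 1) ^ (m - κ)) := mul_le_mul_of_nonneg_left h5 (by positivity)
    _ = _ := by ring

open TypeCAux in
theorem bad_le_big (hA : Act G X c g) (M : Submodule (MonoidAlgebra ℚ G) (VV ℚ G X))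
    (hodd : OddM c M) (hm : 0 < dM M) (q : ℕ) (hq : q.Prime) (hqg : 2 * g < q) :
    ((badC c M).card : ℝ) / 2 ^ g ≤ (q : ℝ) ^ dH M / 2 ^ dM M := by
  classical
  have hf : Fact q.Prime := ⟨hq⟩
  have hft : Finite (Orb (kerM M) X) := Finite.of_surjective _
    (Pool.Agent.Lib.MP_938ce2_ag_h67.Orb.mk_surj (kerM M))
  let _ : Fintype (Orb (kerM M) X) := Fintype.ofFinite _
  let _ : Fintype (QP (X := X) (kerM M)) := Fintype.ofFinite _
  let D := DD (X := X) (kerM M)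
  have hqQ : ¬ q ∣ Fintype.card (QP (X := X) (kerM M)) := by
    intro h
    have h1 : Fintype.card (QP (X := X) (kerM M)) ∣ Fintype.card (Equiv.Perm (Orb (kerM M) X)) := by
      rw [← Nat.card_eq_fintype_card, ← Nat.card_eq_fintype_card]
      exact Subgroup.card_subgroup_dvd_card _
    rw [Fintype.card_perm] at h1
    have h2 := (hq.dvd_factorial).mp (h.trans h1)
    have h3 : Fintype.card (Orb (kerM M) X) ≤ Fintype.card X :=
      Fintype.card_le_of_surjective _ (Pool.Agent.Lib.MP_938ce2_ag_h67.Orb.mk_surj (kerM M))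
    rw [hA.card] at h3
    omega
  have h2F : (2 : ZMod q) ≠ 0 := by
    intro h
    have h1 : ((2 : ℕ) : ZMod q) = 0 := by exact_mod_cast h
    rw [ZMod.natCast_eq_zero_iff] at h1
    have h2 := Nat.le_of_dvd two_pos h1
    have := hA.pos
    omega
  have h1 := card_gen D M hodd hA.sq q hqQ (DD_fac M) (2 ^ g / 2 ^ dM M) (by
    intro C hC1 hC2 hC3
    have h2 := card_orth_big hA h2F C hC1
    rw [hC3] at h2
    rw [le_div_iff₀ (by positivity)]
    have h3 : (((Finset.univ.filter fun Φ : Finset X =>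
        CMType c Φ ∧ ∀ y ∈ C, ∑ x, (sg Φ x : ZMod q) * y x = 0).card * 2 ^ dM M : ℕ) : ℝ)
        ≤ ((2 ^ g : ℕ) : ℝ) := by
      rw [Nat.cast_le]
      refine le_trans (le_of_eq ?_) h2
      congr!
    rw [Nat.cast_mul, Nat.cast_pow, Nat.cast_pow, Nat.cast_ofNat] at h3
    exact h3)
  have hfinred : Finite (red (Pool.Agent.Lib.MP_938ce2_ag_h67.down D M) (ZMod q)
        ≃ₗ[MonoidAlgebra (ZMod q) (QP (X := X) (kerM M))]
        red (Pool.Agent.Lib.MP_938ce2_ag_h67.down D M) (ZMod q)) := DFunLike.finite _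
  have h2 : (1 : ℝ) ≤ Nat.card (red (Pool.Agent.Lib.MP_938ce2_ag_h67.down D M) (ZMod q)
        ≃ₗ[MonoidAlgebra (ZMod q) (QP (X := X) (kerM M))]
        red (Pool.Agent.Lib.MP_938ce2_ag_h67.down D M) (ZMod q)) := by
    have : 0 < Nat.card (red (Pool.Agent.Lib.MP_938ce2_ag_h67.down D M) (ZMod q)
        ≃ₗ[MonoidAlgebra (ZMod q) (QP (X := X) (kerM M))]
        red (Pool.Agent.Lib.MP_938ce2_ag_h67.down D M) (ZMod q)) :=
      Nat.card_pos_iff.mpr ⟨⟨LinearEquiv.refl _ _⟩, hfinred⟩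
    exact_mod_cast this
  have h3 : ((badC c M).card : ℝ) ≤ (q : ℝ) ^ dH M * (2 ^ g / 2 ^ dM M) := by
    refine le_trans ?_ h1
    exact le_mul_of_one_le_right (Nat.cast_nonneg _) h2
  rw [div_le_iff₀ (by positivity)]
  calc ((badC c M).card : ℝ) ≤ (q : ℝ) ^ dH M * (2 ^ g / 2 ^ dM M) := h3
    _ = (q : ℝ) ^ dH M / 2 ^ dM M * 2 ^ g := by ring

end Pool.Agent.Lib.MP_938ce2_ag_u2
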