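import Mathlib
import Pool.Agent.Lib.MP_938ce2_ag_u2.Defs

/-!
Row ThreeA: the index of the kernel of a simple module.
-/

set_option autoImplicit false
set_option linter.unusedSectionVars false

namespace Pool.Agent.Lib.MP_938ce2_ag_u2

open Finset Module MonoidAlgebra
open Pool.Agent.Lib.MP_938ce2_ag_h67 (sg VV ev mkV Orb red kerM)
open Pool.Agent.Lib.MP_938ce2_ag_h60 (CMType)

/-- a rational operator of finite order which differs from the identity by an operator of rank one
and has determinant one is the identity -/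
theorem eq_one_of_det {V : Type} [AddCommGroup V] [Module ℚ V] [Module.Finite ℚ V]
    (T : V →ₗ[ℚ] V) (l : ℕ) (hl : 1 ≤ l) (hT : T ^ l = 1)
    (hr : finrank ℚ (LinearMap.range (T - 1)) ≤ 1) (hd : LinearMap.det T = 1) : T = 1 := by
  obtain ⟨⟨v, hv⟩, hsp⟩ := finrank_le_one_iff.mp hr
  have hsp' : ∀ x : V, ∃ a : ℚ, a • v = T x - x := by
    intro x
    obtain ⟨a, ha⟩ := hsp ⟨(T - 1) x, x, rfl⟩
    exact ⟨a, congrArg Subtype.val ha⟩
  by_cases hv0 : v = 0
  · apply LinearMap.ext
    intro x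
    obtain ⟨a, ha⟩ := hsp' x
    rw [hv0, smul_zero] at ha
    exact (sub_eq_zero.mp ha.symm)
  · obtain ⟨φ, hφ⟩ : ∃ φ : Module.Dual ℚ V, φ v ≠ 0 := by
      by_contra hcon
      push Not at hcon
      exact hv0 ((Module.forall_dual_apply_eq_zero_iff ℚ v).mp hcon)
    let ψ : Module.Dual ℚ V := ((φ v)⁻¹ • φ).comp (T - 1)
    have hψ : ∀ x, ψ x • v = T x - x := by
      intro x
      obtain ⟨a, ha⟩ := hsp' x
      have h1 : ψ x = (φ v)⁻¹ * φ (T x - x) := rfl
      rw [h1, ← ha, map_smul, smul_eq_mul, mul_comm a, inv_mul_cancel_left₀ hφ]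
    have hTψ : T = LinearMap.transvection ψ v := by
      apply LinearMap.ext
      intro x
      rw [LinearMap.transvection.apply, hψ, add_sub_cancel]
    have h1 : ψ v = 0 := by
      rw [hTψ, LinearMap.transvection.det] at hd
      linarith
    have hpow : ∀ (i : ℕ) (x : V), (T ^ i) x = x + ((i : ℚ) * ψ x) • v := by
      intro i
      induction i with
      | zero =>
        intro x
        rw [pow_zero, Nat.cast_zero, zero_mul, zero_smul, add_zero]
        rfl
      | succ i ih =>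
        intro x
        have h2 : T x = x + ψ x • v := by rw [hψ, add_sub_cancel]
        rw [pow_succ, Module.End.mul_apply, ih, h2, map_add, map_smul, h1, smul_zero, add_zero,
          add_assoc, ← add_smul]
        congr 2
        push_cast
        ring
    apply LinearMap.ext
    intro x
    have h2 := hpow l x
    rw [hT] at h2
    have h3 : ((l : ℚ) * ψ x) • v = 0 := by
      have h4 : (1 : V →ₗ[ℚ] V) x = x := rfl
      rw [h4] at h2
      exact left_eq_add.mp h2
    rcases smul_eq_zero.mp h3 with h4 | h4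
    · rcases mul_eq_zero.mp h4 with h5 | h5
      · exfalso
        have h6 : l = 0 := by exact_mod_cast h5
        omega
      · have h6 := hψ x
        rw [h5, zero_smul] at h6
        exact (sub_eq_zero.mp h6.symm)
    · exact (hv0 h4).elim

variable {G X : Type} [Group G] [Fintype G] [MulAction G X] [Fintype X] [DecidableEq X] {c : G}
  {g : ℕ} [MulAction.IsPretransitive G X]

open Pool.Agent.Lib.MP_938ce2_ag_h67 (mem_kerM ev_single ev_ext ev_add ev_smul actL actL_apply
  actL_mul actL_one actL_pow finrank_range_add_le)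

namespace ThreeAAux

lemma ev_kerM (M : Submodule (MonoidAlgebra ℚ G) (VV ℚ G X)) {k : G} (hk : k ∈ kerM M) (s : M)
    (x : X) : ev (s : VV ℚ G X) (k • x) = ev (s : VV ℚ G X) x := by
  have h1 := (mem_kerM M k).mp hk s
  have h2 : MonoidAlgebra.single k (1 : ℚ) • (s : VV ℚ G X) = s := congrArg Subtype.val h1
  conv_lhs => rw [← h2]
  rw [ev_single, one_mul, inv_smul_smul]

lemma exists_ne (M : Submodule (MonoidAlgebra ℚ G) (VV ℚ G X)) (hm : 0 < dM M) :
    ∃ s : M, s ≠ 0 := by
  have hntM : Nontrivial M := Module.nontrivial_of_finrank_pos hm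
  exact _root_.exists_ne (0 : M)

lemma nonempty_of_pos (M : Submodule (MonoidAlgebra ℚ G) (VV ℚ G X)) (hm : 0 < dM M) :
    Nonempty X := by
  obtain ⟨s, hs⟩ := exists_ne M hm
  by_contra hcon
  rw [not_nonempty_iff] at hcon
  apply hs
  apply Subtype.ext
  apply ev_ext
  intro y
  exact (hcon.false y).elim

end ThreeAAux

open ThreeAAux

theorem c_free (hA : Act G X c g) (M : Submodule (MonoidAlgebra ℚ G) (VV ℚ G X))
    (hodd : OddM c M) (hm : 0 < dM M) (x : X) (k : G) (hk : k ∈ kerM M) : k • x ≠ c • x := by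
  intro h
  obtain ⟨s, hs⟩ := ThreeAAux.exists_ne M hm
  apply hs
  have h1 : ∀ t : M, ev (t : VV ℚ G X) x = 0 := by
    intro t
    have h2 := hodd t t.2 x
    rw [← h, ev_kerM M hk] at h2
    linarith
  apply Subtype.ext
  apply ev_ext
  intro y
  obtain ⟨σ, rfl⟩ := MulAction.exists_smul_eq G x y
  have h2 := h1 (MonoidAlgebra.single σ⁻¹ (1 : ℚ) • s)
  have h3 : ((MonoidAlgebra.single σ⁻¹ (1 : ℚ) • s : M) : VV ℚ G X)
      = MonoidAlgebra.single σ⁻¹ (1 : ℚ) • (s : VV ℚ G X) := rfl
  rw [h3, ev_single, one_mul, inv_inv] at h2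
  exact h2

theorem mem_kerM_of_orb (M : Submodule (MonoidAlgebra ℚ G) (VV ℚ G X)) (σ : G)
    (h : ∀ x : X, ∃ k ∈ kerM M, σ • x = k • x) : σ ∈ kerM M := by
  rw [mem_kerM]
  intro s
  apply Subtype.ext
  have h3 : ((MonoidAlgebra.single σ (1 : ℚ) • s : M) : VV ℚ G X)
      = MonoidAlgebra.single σ (1 : ℚ) • (s : VV ℚ G X) := rfl
  rw [h3]
  apply ev_ext
  intro y
  rw [ev_single, one_mul]
  obtain ⟨k, hk, hkx⟩ := h (σ⁻¹ • y)
  rw [smul_inv_smul] at hkx
  conv_rhs => rw [hkx]
  rw [ev_kerM M hk]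

namespace ThreeAAux

/-- the stabilizer of an orbit -/
lemma mem_stab (M : Submodule (MonoidAlgebra ℚ G) (VV ℚ G X)) (x₀ : X) (σ : G) :
    σ ∈ MulAction.stabilizer G (Orb.mk (kerM M) x₀) ↔ ∃ k ∈ kerM M, (k * σ) • x₀ = x₀ := by
  rw [MulAction.mem_stabilizer_iff]
  have h1 : σ • Orb.mk (kerM M) x₀ = Orb.mk (kerM M) (σ • x₀) := rfl
  rw [h1, eq_comm, Orb.mk_eq]
  simp only [mul_smul]

lemma index_stab (M : Submodule (MonoidAlgebra ℚ G) (VV ℚ G X)) (x₀ : X) :
    (MulAction.stabilizer G (Orb.mk (kerM M) x₀)).index = Nat.card (Orb (kerM M) X) := by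
  have htr : MulAction.IsPretransitive G (Orb (kerM M) X) := ⟨fun a b => by
    obtain ⟨x, rfl⟩ := Orb.mk_surj _ a
    obtain ⟨y, rfl⟩ := Orb.mk_surj _ b
    obtain ⟨σ, rfl⟩ := MulAction.exists_smul_eq G x y
    exact ⟨σ, rfl⟩⟩
  exact MulAction.index_stabilizer_of_transitive G _

lemma kerM_le_stab (M : Submodule (MonoidAlgebra ℚ G) (VV ℚ G X)) (x₀ : X) :
    kerM M ≤ MulAction.stabilizer G (Orb.mk (kerM M) x₀) := by
  intro σ hσ
  rw [mem_stab]
  exact ⟨σ⁻¹, (kerM M).inv_mem hσ, by rw [inv_mul_cancel, one_smul]⟩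

lemma mem_kerM_iff (M : Submodule (MonoidAlgebra ℚ G) (VV ℚ G X)) (σ : G) :
    σ ∈ kerM M ↔ actL M σ = 1 := by
  rw [mem_kerM]
  constructor
  · intro h
    exact LinearMap.ext h
  · intro h s
    exact congrArg (fun t : M →ₗ[ℚ] M => t s) h

end ThreeAAux

/-- `[G : K] = |K \ X|` if the point stabilizers act trivially on `M` -/
theorem index_eq (hA : Act G X c g) (M : Submodule (MonoidAlgebra ℚ G) (VV ℚ G X))
    (hm : 0 < dM M) (heq : dH M = dM M) : (kerM M).index = Nat.card (Orb (kerM M) X) := by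
  obtain ⟨x₀⟩ := nonempty_of_pos M hm
  have hfin : Module.Finite ℚ M := Module.Finite.of_injective (M.subtype.restrictScalars ℚ)
    Subtype.val_injective
  have hH : ∀ τ : G, τ • x₀ = x₀ → τ ∈ kerM M := by
    intro τ hτ
    have h1 := finrank_range_add_le M τ x₀ hτ
    have h2 : finrank ℚ (LinearMap.range (actL M τ - 1)) = 0 := by
      unfold dH dM at heq
      omega
    rw [Submodule.finrank_eq_zero, LinearMap.range_eq_bot] at h2
    rw [mem_kerM_iff]
    exact sub_eq_zero.mp h2
  rw [← index_stab M x₀]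
  congr 1
  apply le_antisymm (kerM_le_stab M x₀)
  intro σ hσ
  rw [mem_stab] at hσ
  obtain ⟨k, hk, hkσ⟩ := hσ
  have h1 := hH _ hkσ
  have h2 := (kerM M).mul_mem ((kerM M).inv_mem hk) h1
  rwa [inv_mul_cancel_left] at h2

namespace ThreeAAux

/-- if the stabilizer acts trivially, all functionals give homomorphisms -/
lemma dM_le_dH (M : Submodule (MonoidAlgebra ℚ G) (VV ℚ G X)) (x₀ : X)
    (hH : ∀ τ : G, τ • x₀ = x₀ → τ ∈ kerM M) : dM M ≤ dH M := by
  classical
  have hfin : Module.Finite ℚ M := Module.Finite.of_injective (M.subtype.restrictScalars ℚ)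
    Subtype.val_injective
  have hfinH : Module.Finite ℚ (M →ₗ[MonoidAlgebra ℚ G] VV ℚ G X) :=
    Pool.Agent.Lib.MP_938ce2_ag_h85d.finite_hom
  choose σ hσ using fun x : X => MulAction.exists_smul_eq G x₀ x
  have hact : ∀ (a b : G), a • x₀ = b • x₀ → ∀ s : M,
      MonoidAlgebra.single a⁻¹ (1 : ℚ) • s = MonoidAlgebra.single b⁻¹ (1 : ℚ) • s := by
    intro a b hab s
    have h1 : b⁻¹ * a ∈ kerM M := hH _ (by rw [mul_smul, hab, inv_smul_smul])
    have h2 := (mem_kerM M _).mp h1 (MonoidAlgebra.single a⁻¹ (1 : ℚ) • s)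
    rw [← mul_smul, MonoidAlgebra.single_mul_single, one_mul, mul_inv_cancel_right] at h2
    exact h2.symm
  let F : Module.Dual ℚ M → (M →ₗ[MonoidAlgebra ℚ G] VV ℚ G X) := fun ℓ =>
    MonoidAlgebra.equivariantOfLinearOfComm
      ({ toFun := fun s => mkV G (fun x => ℓ (MonoidAlgebra.single (σ x)⁻¹ (1 : ℚ) • s))
         map_add' := by
          intro s t
          apply ev_ext
          intro x
          show ℓ (MonoidAlgebra.single (σ x)⁻¹ (1 : ℚ) • (s + t)) = _
          rw [smul_add, map_add]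
          rfl
         map_smul' := by
          intro a s
          apply ev_ext
          intro x
          show ℓ (MonoidAlgebra.single (σ x)⁻¹ (1 : ℚ) • (a • s)) = _
          rw [smul_comm, map_smul]
          rfl } : M →ₗ[ℚ] VV ℚ G X) (by
      intro τ s
      apply ev_ext
      intro x
      rw [ev_single, one_mul]
      show ℓ (MonoidAlgebra.single (σ x)⁻¹ (1 : ℚ) • (MonoidAlgebra.single τ (1 : ℚ) • s))
        = ℓ (MonoidAlgebra.single (σ (τ⁻¹ • x))⁻¹ (1 : ℚ) • s)
      rw [← mul_smul, MonoidAlgebra.single_mul_single, one_mul]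
      congr 1
      have h1 := hact (τ⁻¹ * σ x) (σ (τ⁻¹ • x)) (by rw [mul_smul, hσ, hσ]) s
      rw [mul_inv_rev, inv_inv] at h1
      exact h1)
  have hF : ∀ ℓ s x, ev (F ℓ s) x = ℓ (MonoidAlgebra.single (σ x)⁻¹ (1 : ℚ) • s) :=
    fun _ _ _ => rfl
  let Λ : Module.Dual ℚ M →ₗ[ℚ] (M →ₗ[MonoidAlgebra ℚ G] VV ℚ G X) :=
    { toFun := F
      map_add' := fun ℓ ℓ' => by
        apply LinearMap.ext
        intro s
        apply ev_ext
        intro x
        rw [LinearMap.add_apply, ev_add, hF, hF, hF, LinearMap.add_apply]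
      map_smul' := fun a ℓ => by
        apply LinearMap.ext
        intro s
        apply ev_ext
        intro x
        rw [RingHom.id_apply, LinearMap.smul_apply, ev_smul, hF, hF, LinearMap.smul_apply,
          smul_eq_mul] }
  have hinj : Function.Injective Λ := by
    intro ℓ ℓ' h
    apply LinearMap.ext
    intro s
    have h1 := congrArg (fun f : M →ₗ[MonoidAlgebra ℚ G] VV ℚ G X => ev (f s) x₀) h
    have h2 : ev (F ℓ s) x₀ = ev (F ℓ' s) x₀ := h1
    rw [hF, hF] at h2
    have h3 := hact (σ x₀) 1 (by rw [hσ, one_smul]) s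
    rw [inv_one, ← MonoidAlgebra.one_def, one_smul] at h3
    rwa [h3] at h2
  have h1 := LinearMap.finrank_le_finrank_of_injective hinj
  rwa [Subspace.dual_finrank_eq] at h1

end ThreeAAux

/-- `[G : K] = 2 |K \ X|` if `m = k + 1`, `δ = 1` -/
theorem index_two (hA : Act G X c g) (M : Submodule (MonoidAlgebra ℚ G) (VV ℚ G X))
    (hm : 0 < dM M) (hlt : dM M = dH M + 1) :
    (kerM M).index = 2 * Nat.card (Orb (kerM M) X) := by
  obtain ⟨x₀⟩ := nonempty_of_pos M hm
  have hfin : Module.Finite ℚ M := Module.Finite.of_injective (M.subtype.restrictScalars ℚ)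
    Subtype.val_injective
  have hdet : ∀ τ : G, LinearMap.det (actL M τ) = 1 ∨ LinearMap.det (actL M τ) = -1 := by
    intro τ
    have h1 : LinearMap.det (actL M τ) ^ (orderOf τ) = 1 := by
      rw [← map_pow, ← actL_pow, pow_orderOf_eq_one, actL_one, map_one]
    have h2 : |LinearMap.det (actL M τ)| ^ (orderOf τ) = 1 := by
      rw [← abs_pow, h1, abs_one]
    have h3 : |LinearMap.det (actL M τ)| = 1 :=
      (pow_eq_one_iff_of_nonneg (abs_nonneg _) (orderOf_pos τ).ne').mp h2
    exact eq_or_eq_neg_of_abs_eq h3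
  have hker : ∀ τ : G, τ • x₀ = x₀ → LinearMap.det (actL M τ) = 1 → τ ∈ kerM M := by
    intro τ hτ hd
    have h1 := finrank_range_add_le M τ x₀ hτ
    rw [mem_kerM_iff]
    apply eq_one_of_det (actL M τ) (orderOf τ) (orderOf_pos τ) _ _ hd
    · rw [← actL_pow, pow_orderOf_eq_one, actL_one]
    · unfold dH dM at hlt
      omega
  obtain ⟨a, ha, haK⟩ : ∃ a : G, a • x₀ = x₀ ∧ a ∉ kerM M := by
    by_contra hcon
    push Not at hcon
    have := dM_le_dH M x₀ hcon
    omega
  have hmul : ∀ b : G, b • x₀ = x₀ → b ∉ kerM M → b * a ∈ kerM M := by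
    intro b hb hbK
    apply hker
    · rw [mul_smul, ha, hb]
    · rw [actL_mul, map_mul]
      have h1 : LinearMap.det (actL M b) = -1 :=
        (hdet b).resolve_left (fun h => hbK (hker b hb h))
      have h2 : LinearMap.det (actL M a) = -1 :=
        (hdet a).resolve_left (fun h => haK (hker a ha h))
      rw [h1, h2]
      norm_num
  have hrel : (kerM M).relIndex (MulAction.stabilizer G (Orb.mk (kerM M) x₀)) = 2 := by
    rw [Subgroup.relIndex_eq_two_iff]
    refine ⟨a, ?_, ?_⟩
    · rw [mem_stab]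
      exact ⟨1, (kerM M).one_mem, by rw [one_mul, ha]⟩
    · intro b hb
      rw [mem_stab] at hb
      obtain ⟨k, hk, hkb⟩ := hb
      have e1 : b ∈ kerM M ↔ k * b ∈ kerM M := (Subgroup.mul_mem_cancel_left _ hk).symm
      have e2 : b * a ∈ kerM M ↔ k * b * a ∈ kerM M := by
        rw [mul_assoc]
        exact (Subgroup.mul_mem_cancel_left _ hk).symm
      rw [e1, e2]
      by_cases h : k * b ∈ kerM M
      · right
        refine ⟨h, fun h' => haK ?_⟩
        exact (Subgroup.mul_mem_cancel_left _ h).mp h'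
      · left
        exact ⟨hmul _ hkb h, h⟩
  have h1 := Subgroup.relIndex_mul_index (kerM_le_stab M x₀)
  rw [hrel, index_stab M x₀] at h1
  exact h1.symm

end Pool.Agent.Lib.MP_938ce2_ag_u2
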