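import Mathlib
import Pool.Agent.Lib.MP_938ce2_ag_u2.Defs

/-!
Row ThreeB: no reflections.
-/

set_option autoImplicit false
set_option linter.unusedSectionVars false

namespace Pool.Agent.Lib.MP_938ce2_ag_u2

open Finset Module MonoidAlgebra
open Pool.Agent.Lib.MP_938ce2_ag_h67 (sg VV ev mkV Orb red kerM prime_sub_one_le)
open Pool.Agent.Lib.MP_938ce2_ag_h60 (CMType)

namespace ThreeBAux

section rank

variable {V : Type} [AddCommGroup V] [Module ℚ V] [Module.Finite ℚ V]

lemma rk_mul_left (A B : V →ₗ[ℚ] V) :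
    finrank ℚ (LinearMap.range (A * B)) ≤ finrank ℚ (LinearMap.range A) :=
  Submodule.finrank_mono (LinearMap.range_comp_le_range B A)

lemma rk_mul_right (A B : V →ₗ[ℚ] V) :
    finrank ℚ (LinearMap.range (A * B)) ≤ finrank ℚ (LinearMap.range B) := by
  have h : LinearMap.range (A * B) = (LinearMap.range B).map A := LinearMap.range_comp B A
  rw [h]
  exact Submodule.finrank_map_le A _

lemma rk_add (A B : V →ₗ[ℚ] V) :
    finrank ℚ (LinearMap.range (A + B))
      ≤ finrank ℚ (LinearMap.range A) + finrank ℚ (LinearMap.range B) := by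
  have h : LinearMap.range (A + B) ≤ LinearMap.range A ⊔ LinearMap.range B := by
    rintro _ ⟨v, rfl⟩
    exact Submodule.add_mem_sup ⟨v, rfl⟩ ⟨v, rfl⟩
  exact (Submodule.finrank_mono h).trans (Submodule.finrank_add_le_finrank_add_finrank _ _)

lemma rk_pow (T : V →ₗ[ℚ] V) (i : ℕ) :
    finrank ℚ (LinearMap.range (T ^ i - 1)) ≤ finrank ℚ (LinearMap.range (T - 1)) := by
  have h : T ^ i - 1 = (T - 1) * ∑ j ∈ Finset.range i, T ^ j := (mul_geom_sum T i).symm
  rw [h]
  exact rk_mul_left _ _

lemma rk_two (A B : V →ₗ[ℚ] V) (hA : finrank ℚ (LinearMap.range (A - 1)) ≤ 1)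
    (hB : finrank ℚ (LinearMap.range (B - 1)) ≤ 1) :
    finrank ℚ (LinearMap.range (A * B - 1)) ≤ 2 := by
  have h : A * B - 1 = A * (B - 1) + (A - 1) := by noncomm_ring
  rw [h]
  have h1 := rk_add (A * (B - 1)) (A - 1)
  have h2 := rk_mul_right A (B - 1)
  omega

end rank

lemma card_le_of_mem {Q : Type} [Group Q] [Finite Q] (P : Subgroup Q) (s : Finset Q)
    (h : ∀ x ∈ s, x ∈ P) : s.card ≤ Nat.card P := by
  have h1 : Nat.card P = (P : Set Q).ncard := rfl
  rw [h1, ← Set.ncard_coe_finset s]
  exact Set.ncard_le_ncard (fun x hx => h x hx) (Set.toFinite _)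

end ThreeBAux

open ThreeBAux

/-- no reflections in a group of order `4 w`, `w` prime to `6`, with `-1` -/
theorem no_reflection {Q V : Type} [Group Q] [Finite Q] [AddCommGroup V] [Module ℚ V]
    [Module.Finite ℚ V] (ρ : Q →* (V →ₗ[ℚ] V)) (hinj : Function.Injective ρ) (c r : Q)
    (hc : ρ c = -1) (hr : finrank ℚ (LinearMap.range (ρ r - 1)) ≤ 1) (hr1 : r ≠ 1)
    (hrr : r * r = 1) (w : ℕ) (hQ : Nat.card Q = 4 * w) (hw : w.Coprime 6)
    (hnc : ∃ a, a * r ≠ r * a) : False := by
  have hwodd : ¬ 2 ∣ w := by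
    intro h
    have h1 := Nat.dvd_gcd h (show 2 ∣ 6 by norm_num)
    rw [hw] at h1
    norm_num at h1
  have hw3 : ¬ 3 ∣ w := by
    intro h
    have h1 := Nat.dvd_gcd h (show 3 ∣ 6 by norm_num)
    rw [hw] at h1
    norm_num at h1
  have hccen : ∀ a, a * c = c * a := by
    intro a
    apply hinj
    rw [map_mul, map_mul, hc, mul_neg, neg_mul, mul_one, one_mul]
  have hcc : c * c = 1 := by
    apply hinj
    rw [map_mul, hc, map_one, neg_mul_neg, mul_one]
  have hc1 : c ≠ 1 := by
    intro h
    rw [h, map_one] at hc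
    apply hr1
    apply hinj
    rw [map_one]
    apply LinearMap.ext
    intro v
    have h1 : v = -v := by
      have := congrArg (fun t : V →ₗ[ℚ] V => t v) hc
      simpa using this
    have h2 : ∀ v : V, v = -v := by
      intro v
      have := congrArg (fun t : V →ₗ[ℚ] V => t v) hc
      simpa using this
    have h3 : ∀ v : V, v = 0 := by
      intro v
      have h4 := h2 v
      have h5 : (2 : ℚ) • v = 0 := by
        rw [two_smul]
        nth_rewrite 2 [h4]
        rw [add_neg_cancel]
      rcases smul_eq_zero.mp h5 with h6 | h6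
      · norm_num at h6
      · exact h6
    rw [h3 v, map_zero, map_zero]
  have hcr : c ≠ r := by
    rintro rfl
    obtain ⟨a, ha⟩ := hnc
    exact ha (hccen a)
  have hrc1 : r * c ≠ 1 := by
    intro h
    apply hcr
    have h1 : r * (c * c) = c := by rw [← mul_assoc, h, one_mul]
    rw [hcc, mul_one] at h1
    exact h1.symm
  have hrcr : r * c ≠ r := by
    intro h
    exact hc1 (mul_eq_left.mp h)
  have hrcc : r * c ≠ c := by
    intro h
    exact hr1 (mul_eq_right.mp h)
  have hrinv : r⁻¹ = r := inv_eq_of_mul_eq_one_right hrr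
  -- the main claim
  have key : ∀ a, a * r * a⁻¹ = r ∨ a * r * a⁻¹ = r * c := by
    intro a
    by_contra hcon
    push Not at hcon
    obtain ⟨hne, hne'⟩ := hcon
    set r' := a * r * a⁻¹ with hr'
    have hr'r' : r' * r' = 1 := by
      rw [hr']
      have : a * r * a⁻¹ * (a * r * a⁻¹) = a * (r * r) * a⁻¹ := by group
      rw [this, hrr, mul_one, mul_inv_cancel]
    have hr'1 : r' ≠ 1 := by
      intro h
      apply hr1
      rw [hr', mul_inv_eq_one] at h
      exact mul_eq_left.mp h
    have hr'c : r' ≠ c := by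
      intro h
      apply hcr
      have h1 : a * r = c * a := by rw [← h, hr']; group
      rw [← hccen] at h1
      exact (mul_left_cancel h1).symm
    have hr'rk : finrank ℚ (LinearMap.range (ρ r' - 1)) ≤ 1 := by
      have h1 : ρ r' - 1 = ρ a * ((ρ r - 1) * ρ a⁻¹) := by
        rw [sub_mul, mul_sub, one_mul, hr', map_mul, map_mul, mul_assoc, ← map_mul ρ a a⁻¹,
          mul_inv_cancel, map_one]
      rw [h1]
      exact ((rk_mul_right _ _).trans (rk_mul_left _ _)).trans hr
    set z := r * r' with hz
    have hzrk : finrank ℚ (LinearMap.range (ρ z - 1)) ≤ 2 := by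
      rw [hz, map_mul]
      exact rk_two _ _ hr hr'rk
    -- the order of z is a power of two
    have hprime : ∀ p : ℕ, p.Prime → p ∣ orderOf z → p = 2 := by
      intro p hp hpd
      by_contra hp2
      have hpf : Fact p.Prime := ⟨hp⟩
      have h1 : p ∣ 4 * w := by
        rw [← hQ]
        exact hpd.trans (orderOf_dvd_natCard z)
      have h2 : p ∣ w := by
        rcases hp.dvd_mul.mp h1 with h | h
        · exfalso
          apply hp2
          have h3 : p ∣ 2 ^ 2 := by norm_num; exact h
          exact (Nat.prime_dvd_prime_iff_eq hp Nat.prime_two).mp (hp.dvd_of_dvd_pow h3)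
        · exact h
      have h5 : 5 ≤ p := by
        have := hp.two_le
        by_contra hlt
        have h6 : p = 3 ∨ p = 4 := by omega
        rcases h6 with h6 | h6
        · rw [h6] at h2
          exact hw3 h2
        · rw [h6] at hp
          norm_num at hp
      have hpos : 0 < orderOf z := orderOf_pos z
      obtain ⟨k, hk⟩ := hpd
      have hk0 : 0 < k := by
        rcases Nat.eq_zero_or_pos k with h | h
        · rw [h, mul_zero] at hk; omega
        · exact h
      have hTp : (ρ (z ^ k)) ^ p = 1 := by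
        rw [← map_pow, ← pow_mul, mul_comm k p, ← hk, pow_orderOf_eq_one, map_one]
      have hT1 : ρ (z ^ k) ≠ 1 := by
        intro h
        have h7 : z ^ k = 1 := by
          apply hinj
          rw [h, map_one]
        have h8 := orderOf_dvd_of_pow_eq_one h7
        rw [hk] at h8
        have h9 := Nat.le_of_dvd hk0 h8
        have h10 : 2 * k ≤ p * k := Nat.mul_le_mul_right k hp.two_le
        omega
      have h7 := prime_sub_one_le p (ρ (z ^ k)) hTp hT1
      have h8 : finrank ℚ (LinearMap.range (ρ (z ^ k) - 1)) ≤ 2 := by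
        rw [map_pow]
        exact (rk_pow _ _).trans hzrk
      omega
    have hzpow : ∃ n, orderOf z = 2 ^ n := by
      refine ⟨_, Nat.eq_prime_pow_of_unique_prime_dvd (orderOf_pos z).ne' ?_⟩
      intro p hp hpd
      exact hprime p hp hpd
    have h2f : Fact (Nat.Prime 2) := ⟨Nat.prime_two⟩
    have hPz : IsPGroup 2 (Subgroup.zpowers z) := by
      obtain ⟨n, hn⟩ := hzpow
      apply IsPGroup.of_card (n := n)
      rw [Nat.card_zpowers, hn]
    have hPr : IsPGroup 2 (Subgroup.zpowers r) := by
      apply IsPGroup.of_card (n := 1)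
      rw [Nat.card_zpowers, pow_one]
      exact orderOf_eq_prime (by rw [pow_two]; exact hrr) hr1
    have hPc : IsPGroup 2 (Subgroup.zpowers c) := by
      apply IsPGroup.of_card (n := 1)
      rw [Nat.card_zpowers, pow_one]
      exact orderOf_eq_prime (by rw [pow_two]; exact hcc) hc1
    have hrz : r * z * r⁻¹ = z⁻¹ := by
      rw [hz, mul_inv_rev, hrinv, inv_eq_of_mul_eq_one_right hr'r', ← mul_assoc r r r', hrr,
        one_mul]
    have hnorm : Subgroup.zpowers r ≤ Subgroup.normalizer (Subgroup.zpowers z : Set Q) := by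
      rw [Subgroup.zpowers_le, Subgroup.mem_normalizer_iff]
      intro x
      constructor
      · rintro ⟨n, rfl⟩
        refine ⟨-n, ?_⟩
        show z ^ (-n) = r * z ^ n * r⁻¹
        rw [← conj_zpow, hrz, inv_zpow, zpow_neg]
      · rintro ⟨n, hn⟩
        refine ⟨-n, ?_⟩
        show z ^ (-n) = x
        have hn' : z ^ n = r * x * r⁻¹ := hn
        have h1 : x = r⁻¹ * z ^ n * r := by rw [hn']; group
        have h2 : x = r * z ^ n * r⁻¹ := by rw [h1, hrinv]
        rw [h2, ← conj_zpow, hrz, inv_zpow, zpow_neg]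
    have hP1 : IsPGroup 2 (Subgroup.zpowers r ⊔ Subgroup.zpowers z : Subgroup Q) :=
      hPr.to_sup_of_normal_right' hPz hnorm
    have hnorm2 : Subgroup.zpowers c
        ≤ Subgroup.normalizer ((Subgroup.zpowers r ⊔ Subgroup.zpowers z : Subgroup Q) : Set Q) := by
      rw [Subgroup.zpowers_le, Subgroup.mem_normalizer_iff]
      intro x
      have h1 : c * x * c⁻¹ = x := by rw [← hccen, mul_inv_cancel_right]
      rw [h1]
    have hP2 := hPc.to_sup_of_normal_right' hP1 hnorm2
    set P : Subgroup Q := Subgroup.zpowers c ⊔ (Subgroup.zpowers r ⊔ Subgroup.zpowers z)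
      with hP
    have hcP : c ∈ P := (le_sup_left : Subgroup.zpowers c ≤ P) (Subgroup.mem_zpowers c)
    have hrP : r ∈ P := (le_sup_right : _ ≤ P)
      ((le_sup_left : Subgroup.zpowers r ≤ _) (Subgroup.mem_zpowers r))
    have hzP : z ∈ P := (le_sup_right : _ ≤ P)
      ((le_sup_right : Subgroup.zpowers z ≤ _) (Subgroup.mem_zpowers z))
    have hr'P : r' ∈ P := by
      have h1 : r' = r * z := by rw [hz, ← mul_assoc, hrr, one_mul]
      rw [h1]
      exact P.mul_mem hrP hzP
    obtain ⟨n, hn⟩ := IsPGroup.iff_card.mp hP2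
    have hcard4 : Nat.card P ≤ 4 := by
      have h1 : Nat.card P ∣ 4 * w := by
        rw [← hQ]
        exact Subgroup.card_subgroup_dvd_card P
      rw [hn] at h1 ⊢
      have h2 : (2 ^ n).Coprime w := by
        apply Nat.Coprime.pow_left
        exact (Nat.Prime.coprime_iff_not_dvd Nat.prime_two).mpr hwodd
      have h3 := h2.dvd_of_dvd_mul_right h1
      exact Nat.le_of_dvd (by norm_num) h3
    classical
    have hfiveset : ({1, r, c, r * c, r'} : Finset Q).card ≤ 4 := by
      have h1 : ∀ x ∈ ({1, r, c, r * c, r'} : Finset Q), x ∈ P := by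
        intro x hx
        simp only [Finset.mem_insert, Finset.mem_singleton] at hx
        rcases hx with rfl | rfl | rfl | rfl | rfl
        · exact P.one_mem
        · exact hrP
        · exact hcP
        · exact P.mul_mem hrP hcP
        · exact hr'P
      exact (card_le_of_mem P _ h1).trans hcard4
    have hfive : ({1, r, c, r * c, r'} : Finset Q).card = 5 := by
      rw [Finset.card_insert_of_notMem, Finset.card_insert_of_notMem,
        Finset.card_insert_of_notMem, Finset.card_insert_of_notMem, Finset.card_singleton]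
      · simpa using hne'.symm
      · simp only [Finset.mem_insert, Finset.mem_singleton, not_or]
        exact ⟨hrcc.symm, hr'c.symm⟩
      · simp only [Finset.mem_insert, Finset.mem_singleton, not_or]
        exact ⟨hcr.symm, hrcr.symm, hne.symm⟩
      · simp only [Finset.mem_insert, Finset.mem_singleton, not_or]
        exact ⟨hr1.symm, hc1.symm, hrc1.symm, hr'1.symm⟩
    omega
  -- the centralizer of r has index two
  obtain ⟨a, ha⟩ := hnc
  have ha' : a * r * a⁻¹ = r * c := by
    rcases key a with h | h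
    · exact (ha (mul_inv_eq_iff_eq_mul.mp h)).elim
    · exact h
  have hmem : ∀ b : Q, b ∈ Subgroup.centralizer {r} ↔ b * r * b⁻¹ = r := by
    intro b
    rw [Subgroup.mem_centralizer_singleton_iff, mul_inv_eq_iff_eq_mul]
  have hconj : ∀ b : Q, b * a * r * (b * a)⁻¹ = (b * r * b⁻¹) * c := by
    intro b
    have h1 : b * a * r * (b * a)⁻¹ = b * (a * r * a⁻¹) * b⁻¹ := by group
    rw [h1, ha', mul_assoc b, mul_assoc r, ← hccen b⁻¹, ← mul_assoc r, ← mul_assoc b,
      ← mul_assoc b]
  have hind : (Subgroup.centralizer ({r} : Set Q)).index = 2 := by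
    rw [Subgroup.index_eq_two_iff]
    refine ⟨a, fun b => ?_⟩
    rw [hmem, hmem, hconj]
    rcases key b with h | h
    · right
      refine ⟨h, ?_⟩
      rw [h]
      exact hrcr
    · left
      refine ⟨?_, ?_⟩
      · rw [h, mul_assoc, hcc, mul_one]
      · rw [h]
        exact hrcr
  have h2f : Fact (Nat.Prime 2) := ⟨Nat.prime_two⟩
  have hPr : IsPGroup 2 (Subgroup.zpowers r) := by
    apply IsPGroup.of_card (n := 1)
    rw [Nat.card_zpowers, pow_one]
    exact orderOf_eq_prime (by rw [pow_two]; exact hrr) hr1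
  have hPc : IsPGroup 2 (Subgroup.zpowers c) := by
    apply IsPGroup.of_card (n := 1)
    rw [Nat.card_zpowers, pow_one]
    exact orderOf_eq_prime (by rw [pow_two]; exact hcc) hc1
  have hnorm : Subgroup.zpowers c ≤ Subgroup.normalizer (Subgroup.zpowers r : Set Q) := by
    rw [Subgroup.zpowers_le, Subgroup.mem_normalizer_iff]
    intro x
    have h1 : c * x * c⁻¹ = x := by rw [← hccen, mul_inv_cancel_right]
    rw [h1]
  have hP1 := hPc.to_sup_of_normal_right' hPr hnorm
  set P : Subgroup Q := Subgroup.zpowers c ⊔ Subgroup.zpowers r with hP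
  have hcP : c ∈ P := (le_sup_left : Subgroup.zpowers c ≤ P) (Subgroup.mem_zpowers c)
  have hrP : r ∈ P := (le_sup_right : Subgroup.zpowers r ≤ P) (Subgroup.mem_zpowers r)
  have hPC : P ≤ Subgroup.centralizer ({r} : Set Q) := by
    rw [hP, sup_le_iff, Subgroup.zpowers_le, Subgroup.zpowers_le,
      Subgroup.mem_centralizer_singleton_iff, Subgroup.mem_centralizer_singleton_iff]
    exact ⟨(hccen r).symm, rfl⟩
  classical
  have hfour : ({1, r, c, r * c} : Finset Q).card = 4 := by
    rw [Finset.card_insert_of_notMem, Finset.card_insert_of_notMem,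
      Finset.card_insert_of_notMem, Finset.card_singleton]
    · simpa using hrcc.symm
    · simp only [Finset.mem_insert, Finset.mem_singleton, not_or]
      exact ⟨hcr.symm, hrcr.symm⟩
    · simp only [Finset.mem_insert, Finset.mem_singleton, not_or]
      exact ⟨hr1.symm, hc1.symm, hrc1.symm⟩
  have h4 : 4 ≤ Nat.card P := by
    rw [← hfour]
    apply card_le_of_mem
    intro x hx
    simp only [Finset.mem_insert, Finset.mem_singleton] at hx
    rcases hx with rfl | rfl | rfl | rfl
    · exact P.one_mem
    · exact hrP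
    · exact hcP
    · exact P.mul_mem hrP hcP
  obtain ⟨n, hn⟩ := IsPGroup.iff_card.mp hP1
  have hn2 : 2 ≤ n := by
    by_contra hlt
    have h5 : n = 0 ∨ n = 1 := by omega
    rcases h5 with h5 | h5 <;> rw [hn, h5] at h4 <;> norm_num at h4
  have h5 : 4 ∣ Nat.card P := by
    rw [hn, show (4 : ℕ) = 2 ^ 2 by norm_num]
    exact pow_dvd_pow 2 hn2
  have h6 : 4 ∣ Nat.card (Subgroup.centralizer ({r} : Set Q)) :=
    h5.trans (Subgroup.card_dvd_of_le hPC)
  have h7 := Subgroup.card_mul_index (Subgroup.centralizer ({r} : Set Q))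
  rw [hind, hQ] at h7
  obtain ⟨t, ht⟩ := h6
  rw [ht] at h7
  apply hwodd
  exact ⟨t, by omega⟩

end Pool.Agent.Lib.MP_938ce2_ag_u2
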