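import Mathlib
import Pool.Agent.Lib.MP_938ce2_ag_u2.ThreeA
import Pool.Agent.Lib.MP_938ce2_ag_u2.ThreeB

/-!
Row ThreeC: the exponent is at least three.
-/

set_option autoImplicit false
set_option linter.unusedSectionVars false

namespace Pool.Agent.Lib.MP_938ce2_ag_u2

open Finset Module MonoidAlgebra
open Pool.Agent.Lib.MP_938ce2_ag_h67 (sg VV ev mkV Orb red kerM)
open Pool.Agent.Lib.MP_938ce2_ag_h60 (CMType)

namespace ThreeCAux

open Pool.Agent.Lib.MP_938ce2_ag_h67 (actL actL_apply actL_mul actL_one mem_kerM ev_single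
  finrank_range_add_le ev_ext)
open Pool.Agent.Lib.MP_938ce2_ag_h85d (finite_hom)

variable {G X : Type} [Group G] [Fintype G] [MulAction G X] [Fintype X] [DecidableEq X] {c : G}
  {g : ℕ}

/-- the action as a homomorphism of monoids -/
noncomputable def actH (M : Submodule (MonoidAlgebra ℚ G) (VV ℚ G X)) : G →* (M →ₗ[ℚ] M) where
  toFun := actL M
  map_one' := actL_one M
  map_mul' := actL_mul M

lemma mem_ker_actH (M : Submodule (MonoidAlgebra ℚ G) (VV ℚ G X)) (σ : G) :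
    actL M σ = 1 ↔ σ ∈ kerM M := by
  rw [mem_kerM]
  constructor
  · intro h s
    exact congrArg (fun t : M →ₗ[ℚ] M => t s) h
  · intro h
    exact LinearMap.ext h

/-- the representation of the quotient by the kernel -/
noncomputable def rho (M : Submodule (MonoidAlgebra ℚ G) (VV ℚ G X)) :
    (G ⧸ kerM M) →* (M →ₗ[ℚ] M) :=
  QuotientGroup.lift (kerM M) (actH M) (fun σ hσ => (mem_ker_actH M σ).mpr hσ)

lemma rho_mk (M : Submodule (MonoidAlgebra ℚ G) (VV ℚ G X)) (σ : G) :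
    rho M (σ : G ⧸ kerM M) = actL M σ := rfl

lemma rho_inj (M : Submodule (MonoidAlgebra ℚ G) (VV ℚ G X)) : Function.Injective (rho M) := by
  intro a b hab
  obtain ⟨σ, rfl⟩ := QuotientGroup.mk_surjective a
  obtain ⟨τ, rfl⟩ := QuotientGroup.mk_surjective b
  rw [rho_mk, rho_mk] at hab
  rw [QuotientGroup.eq, ← mem_ker_actH, actL_mul, ← hab, ← actL_mul, inv_mul_cancel, actL_one]

lemma actL_c (hA : Act G X c g) (M : Submodule (MonoidAlgebra ℚ G) (VV ℚ G X))
    (hodd : OddM c M) : actL M c = -1 := by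
  have hinv : c⁻¹ = c := by
    rw [inv_eq_iff_mul_eq_one, hA.sq]
  apply LinearMap.ext
  intro s
  apply Subtype.ext
  show MonoidAlgebra.single c (1 : ℚ) • (s : VV ℚ G X) = -(s : VV ℚ G X)
  apply ev_ext
  intro x
  rw [ev_single, one_mul, hinv, hodd _ s.2 x]
  rfl

variable [MulAction.IsPretransitive G X]

lemma orb_trans (K : Subgroup G) [K.Normal] : MulAction.IsPretransitive G (Orb K X) :=
  ⟨fun a b => by
    obtain ⟨x, rfl⟩ := Pool.Agent.Lib.MP_938ce2_ag_h67.Orb.mk_surj K a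
    obtain ⟨y, rfl⟩ := Pool.Agent.Lib.MP_938ce2_ag_h67.Orb.mk_surj K b
    obtain ⟨σ, rfl⟩ := MulAction.exists_smul_eq G x y
    exact ⟨σ, rfl⟩⟩

/-- the size of the set of orbits -/
lemma orb_card (hA : Act G X c g) (K : Subgroup G) [K.Normal]
    (hfree : ∀ (x : X), ∀ k ∈ K, k • x ≠ c • x) (x₀ : X) :
    ∃ w, Nat.card (Orb K X) = 2 * w ∧ w ∣ g := by
  classical
  have hft : Finite (Orb K X) := Finite.of_surjective _
    (Pool.Agent.Lib.MP_938ce2_ag_h67.Orb.mk_surj K)
  let _ : Fintype (Orb K X) := Fintype.ofFinite _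
  have htr := orb_trans (X := X) K
  let s : Equiv.Perm (Orb K X) := MulAction.toPermHom G (Orb K X) c
  have hs : s ^ 2 = 1 := by
    rw [pow_two, ← map_mul, hA.sq, map_one]
  have h1 := Equiv.Perm.two_dvd_card_support hs
  have h2 : s.support = Finset.univ := by
    rw [Finset.eq_univ_iff_forall]
    intro a
    rw [Equiv.Perm.mem_support]
    obtain ⟨x, rfl⟩ := Pool.Agent.Lib.MP_938ce2_ag_h67.Orb.mk_surj K a
    intro h
    have h3 : Pool.Agent.Lib.MP_938ce2_ag_h67.Orb.mk K (c • x)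
        = Pool.Agent.Lib.MP_938ce2_ag_h67.Orb.mk K x := h
    rw [Pool.Agent.Lib.MP_938ce2_ag_h67.Orb.mk_eq] at h3
    obtain ⟨k, hk, hkx⟩ := h3
    exact hfree x k hk hkx
  rw [h2, Finset.card_univ, ← Nat.card_eq_fintype_card] at h1
  obtain ⟨w, hw⟩ := h1
  refine ⟨w, hw, ?_⟩
  have h3 := MulAction.index_stabilizer_of_transitive G x₀
  have h4 := MulAction.index_stabilizer_of_transitive G
    (Pool.Agent.Lib.MP_938ce2_ag_h67.Orb.mk K x₀)
  have h5 : MulAction.stabilizer G x₀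
      ≤ MulAction.stabilizer G (Pool.Agent.Lib.MP_938ce2_ag_h67.Orb.mk K x₀) := by
    intro σ hσ
    rw [MulAction.mem_stabilizer_iff] at hσ ⊢
    rw [Pool.Agent.Lib.MP_938ce2_ag_h67.Orb.smul_mk, hσ]
  have h6 := Subgroup.index_dvd_of_le h5
  rw [h3, h4, hw, Nat.card_eq_fintype_card, hA.card] at h6
  exact (Nat.mul_dvd_mul_iff_left two_pos).mp h6

/-- an element of the stabilizer of order two modulo the kernel -/
lemma exists_r (K : Subgroup G) [K.Normal] (x₀ : X)
    (hidx : K.index = 2 * Nat.card (Orb K X)) :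
    ∃ r : G, r • x₀ = x₀ ∧ r ∉ K ∧ r * r ∈ K := by
  classical
  have htr := orb_trans (X := X) K
  have h4 := MulAction.index_stabilizer_of_transitive G
    (Pool.Agent.Lib.MP_938ce2_ag_h67.Orb.mk K x₀)
  set S := MulAction.stabilizer G (Pool.Agent.Lib.MP_938ce2_ag_h67.Orb.mk K x₀) with hS
  have hKS : K ≤ S := by
    intro k hk
    rw [hS, MulAction.mem_stabilizer_iff, Pool.Agent.Lib.MP_938ce2_ag_h67.Orb.smul_mk,
      Pool.Agent.Lib.MP_938ce2_ag_h67.Orb.mk_eq]
    exact ⟨k, hk, rfl⟩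
  have h5 := Subgroup.relIndex_mul_index hKS
  have hpos : 0 < Nat.card (Orb K X) := by
    have hft : Finite (Orb K X) := Finite.of_surjective _
      (Pool.Agent.Lib.MP_938ce2_ag_h67.Orb.mk_surj K)
    have hne : Nonempty (Orb K X) := ⟨Pool.Agent.Lib.MP_938ce2_ag_h67.Orb.mk K x₀⟩
    exact Nat.card_pos
  rw [h4, hidx] at h5
  have h6 : (K.subgroupOf S).index = 2 := Nat.eq_of_mul_eq_mul_right hpos h5
  obtain ⟨s, hs⟩ : ∃ s : S, s ∉ K.subgroupOf S := by
    by_contra hcon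
    push Not at hcon
    have h7 : K.subgroupOf S = ⊤ := by
      rw [eq_top_iff]
      intro s _
      exact hcon s
    rw [h7, Subgroup.index_top] at h6
    omega
  have h7 : (s : G) • Pool.Agent.Lib.MP_938ce2_ag_h67.Orb.mk K x₀
      = Pool.Agent.Lib.MP_938ce2_ag_h67.Orb.mk K x₀ := s.2
  rw [Pool.Agent.Lib.MP_938ce2_ag_h67.Orb.smul_mk,
    Pool.Agent.Lib.MP_938ce2_ag_h67.Orb.mk_eq] at h7
  obtain ⟨k, hk, hkx⟩ := h7
  refine ⟨k⁻¹ * s, ?_, ?_, ?_⟩
  · rw [mul_smul, ← hkx, inv_smul_smul]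
  · intro h8
    apply hs
    rw [Subgroup.mem_subgroupOf]
    have h9 := K.mul_mem hk h8
    rwa [mul_inv_cancel_left] at h9
  · have h8 := Subgroup.mul_self_mem_of_index_two h6 (⟨k⁻¹, hKS (K.inv_mem hk)⟩ * s)
    exact h8

end ThreeCAux

variable {G X : Type} [Group G] [Fintype G] [MulAction G X] [Fintype X] [DecidableEq X] {c : G}
  {g : ℕ} [MulAction.IsPretransitive G X]

open ThreeCAux in
theorem three_le (hA : Act G X c g) (M : Submodule (MonoidAlgebra ℚ G) (VV ℚ G X))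
    (hs : IsSimpleModule (MonoidAlgebra ℚ G) M) (hodd : OddM c M) (hH : 0 < dH M)
    (hlt : dH M < dM M) (hcond : g.Coprime 6 ∨ Cond2 G X c) : 3 ≤ dE M + dM M - dH M := by
  classical
  by_contra hcon
  have hfin : Module.Finite ℚ M := Module.Finite.of_injective (M.subtype.restrictScalars ℚ)
    Subtype.val_injective
  have hfe : Module.Finite ℚ (M →ₗ[MonoidAlgebra ℚ G] M) :=
    Pool.Agent.Lib.MP_938ce2_ag_h85d.finite_hom
  have hntM : Nontrivial M := IsSimpleModule.nontrivial (MonoidAlgebra ℚ G) M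
  have hm : 0 < dM M := Module.finrank_pos (R := ℚ) (M := M)
  have hid : (LinearMap.id : M →ₗ[MonoidAlgebra ℚ G] M) ≠ 0 := by
    obtain ⟨x, hx⟩ := exists_ne (0 : M)
    exact fun h => hx (congrArg (fun f : M →ₗ[MonoidAlgebra ℚ G] M => f x) h)
  have hδ : 0 < dE M := by
    have : Nontrivial (M →ₗ[MonoidAlgebra ℚ G] M) := ⟨⟨LinearMap.id, 0, hid⟩⟩
    exact Module.finrank_pos (R := ℚ) (M := M →ₗ[MonoidAlgebra ℚ G] M)
  have hE1 : dE M = 1 := by omega
  have hM1 : dM M = dH M + 1 := by omega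
  have hidx := index_two hA M hm hM1
  have hfree : ∀ (x : X), ∀ k ∈ kerM M, k • x ≠ c • x := fun x k hk => c_free hA M hodd hm x k hk
  rcases hcond with h6 | h2
  swap
  · have h3 := h2 (kerM M) inferInstance hfree (fun σ h => mem_kerM_of_orb M σ h)
    omega
  obtain ⟨x₀⟩ : Nonempty X := by
    rw [← Fintype.card_pos_iff, hA.card]
    have := hA.pos
    omega
  obtain ⟨w, hw1, hw2⟩ := orb_card hA (kerM M) hfree x₀
  obtain ⟨r, hr1, hr2, hr3⟩ := exists_r (kerM M) x₀ hidx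
  have hrank : finrank ℚ (LinearMap.range
      (Pool.Agent.Lib.MP_938ce2_ag_h67.actL M r - 1)) ≤ 1 := by
    have h3 := Pool.Agent.Lib.MP_938ce2_ag_h67.finrank_range_add_le M r x₀ hr1
    have h4 : dM M = dH M + 1 := hM1
    unfold dM dH at h4
    omega
  have hQ : Nat.card (G ⧸ kerM M) = 4 * w := by
    have h3 : Nat.card (G ⧸ kerM M) = (kerM M).index := rfl
    rw [h3, hidx, hw1]
    ring
  refine no_reflection (rho M) (rho_inj M) (c : G ⧸ kerM M) (r : G ⧸ kerM M)
    (by rw [rho_mk]; exact actL_c hA M hodd) (by rw [rho_mk]; exact hrank) ?_ ?_ w hQ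
    (Nat.Coprime.coprime_dvd_left hw2 h6) ?_
  · intro h3
    exact hr2 ((QuotientGroup.eq_one_iff r).mp h3)
  · rw [← QuotientGroup.mk_mul]
    exact (QuotientGroup.eq_one_iff _).mpr hr3
  · by_contra hnc
    push Not at hnc
    have hcomm : ∀ σ : G, Pool.Agent.Lib.MP_938ce2_ag_h67.actL M σ
        * Pool.Agent.Lib.MP_938ce2_ag_h67.actL M r
        = Pool.Agent.Lib.MP_938ce2_ag_h67.actL M r
        * Pool.Agent.Lib.MP_938ce2_ag_h67.actL M σ := by
      intro σ
      rw [← rho_mk, ← rho_mk, ← map_mul, ← map_mul, hnc]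
    let T : M →ₗ[MonoidAlgebra ℚ G] M :=
      MonoidAlgebra.equivariantOfLinearOfComm (Pool.Agent.Lib.MP_938ce2_ag_h67.actL M r) (by
        intro σ v
        exact (congrArg (fun t : M →ₗ[ℚ] M => t v) (hcomm σ)).symm)
    have hT : ∀ v, T v = Pool.Agent.Lib.MP_938ce2_ag_h67.actL M r v := fun v => rfl
    obtain ⟨z, hz⟩ := (finrank_eq_one_iff_of_nonzero' _ hid).mp hE1 T
    have hz2 : ∀ v : M, z • v = Pool.Agent.Lib.MP_938ce2_ag_h67.actL M r v := by
      intro v
      rw [← hT, ← hz]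
      rfl
    by_cases hz1 : z = 1
    · apply hr2
      rw [← mem_ker_actH]
      apply LinearMap.ext
      intro v
      rw [← hz2, hz1, one_smul]
      rfl
    · have h3 : LinearMap.range (Pool.Agent.Lib.MP_938ce2_ag_h67.actL M r - 1) = ⊤ := by
        rw [LinearMap.range_eq_top]
        intro v
        have hz3 : z - 1 ≠ 0 := sub_ne_zero.mpr hz1
        refine ⟨(z - 1)⁻¹ • v, ?_⟩
        rw [LinearMap.sub_apply, ← hz2, Module.End.one_apply]
        have h5 : z • (z - 1)⁻¹ • v - (z - 1)⁻¹ • v = ((z - 1) * (z - 1)⁻¹) • v := by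
          rw [mul_smul, sub_smul, one_smul]
        rw [h5, mul_inv_cancel₀ hz3, one_smul]
      rw [h3, finrank_top] at hrank
      have h4 : dM M = dH M + 1 := hM1
      unfold dM at h4
      omega

end Pool.Agent.Lib.MP_938ce2_ag_u2
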