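import Mathlib
import Pool.Agent.Lib.MP_938ce2_ag_h60.NumField

/-!
The condition on the CM subfields of a CM field `E`, in terms of the action of the Galois group of
`L` on the embeddings of `E` in `L`.
-/

set_option autoImplicit false
set_option linter.unusedSectionVars false

namespace Pool.Agent.Lib.MP_938ce2_ag_u2.H7

open NumberField NumberField.ComplexEmbedding IntermediateField
open Pool.Agent.Lib.MP_938ce2_ag_h60

/-- A totally complex field with an automorphism which is complex conjugation for every complex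
embedding is CM. -/
theorem isCMField_of_isConj (K : Type*) [Field K] [NumberField K] [IsTotallyComplex K]
    {σ : K ≃ₐ[ℚ] K} (hσ : ∀ φ : K →+* ℂ, ComplexEmbedding.IsConj φ σ) : IsCMField K := by
  let φ : K →+* ℂ := Classical.choice (inferInstance : Nonempty _)
  have hσ' : Nat.card (Subgroup.zpowers σ) = 2 := by
    rw [Nat.card_zpowers, orderOf_isConj_two_of_ne_one (hσ φ)]
    exact (isConj_ne_one_iff (hσ φ)).mpr <| IsTotallyComplex.complexEmbedding_not_isReal φ
  let F : IntermediateField ℚ K := IntermediateField.fixedField (Subgroup.zpowers σ)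
  have hF : ∀ x : F, σ (x : K) = x := fun x =>
    (IntermediateField.mem_fixedField_iff (Subgroup.zpowers σ) (x : K)).1 x.2 σ
      (Subgroup.mem_zpowers σ)
  have : IsTotallyReal F := ⟨fun w ↦ by
    rw [← InfinitePlace.mk_embedding w, InfinitePlace.isReal_mk_iff, isReal_iff]
    ext x
    have h1 := lift_algebraMap_apply K w.embedding x
    have h2 := (hσ (lift K w.embedding)).eq (algebraMap F K x)
    have h3 : σ (algebraMap F K x) = algebraMap F K x := hF x
    rw [h3, h1] at h2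
    exact h2.symm⟩
  have : Algebra.IsQuadraticExtension F K := ⟨by
    rw [IntermediateField.finrank_fixedField_eq_card, hσ']⟩
  exact IsCMField.ofCMExtension F K

section

variable {L E : Type} [Field L] [NumberField L] [Field E] [NumberField E]

theorem conj_smul_apply [IsCMField L] [IsCMField E] (x0 : E →ₐ[ℚ] L) (y : E) :
    conj L (x0 y) = x0 (IsCMField.complexConj E y) := by
  obtain ⟨φ⟩ : Nonempty (L →+* ℂ) := inferInstance
  apply φ.injective
  have h1 := IsCMField.complexEmbedding_complexConj L φ (x0 y)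
  have h2 := IsCMField.complexEmbedding_complexConj E (φ.comp (x0 : E →+* L)) y
  exact h1.trans h2.symm

/-- the field `x0⁻¹ (L^K)` -/
noncomputable def pullF (x0 : E →ₐ[ℚ] L) (K : Subgroup (L ≃ₐ[ℚ] L)) : IntermediateField ℚ E :=
  (IntermediateField.fixedField K).comap x0

theorem mem_pullF {x0 : E →ₐ[ℚ] L} {K : Subgroup (L ≃ₐ[ℚ] L)} {y : E} :
    y ∈ pullF x0 K ↔ ∀ k ∈ K, k (x0 y) = x0 y := by
  have h : y ∈ pullF x0 K ↔ x0 y ∈ IntermediateField.fixedField K := Iff.rfl
  rw [h, IntermediateField.mem_fixedField_iff]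

theorem map_pullF (x0 : E →ₐ[ℚ] L) (K : Subgroup (L ≃ₐ[ℚ] L)) :
    (pullF x0 K).map x0 = IntermediateField.fixedField K ⊓ x0.fieldRange := by
  ext z
  rw [IntermediateField.mem_map, IntermediateField.mem_inf]
  constructor
  · rintro ⟨y, hy, rfl⟩
    exact ⟨hy, ⟨y, rfl⟩⟩
  · rintro ⟨hz, ⟨y, rfl⟩⟩
    exact ⟨y, hz, rfl⟩

theorem mem_fixing_range {x0 : E →ₐ[ℚ] L} {σ : L ≃ₐ[ℚ] L} :
    σ ∈ x0.fieldRange.fixingSubgroup ↔ σ • x0 = x0 := by
  rw [IntermediateField.mem_fixingSubgroup_iff]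
  constructor
  · intro h
    ext y
    exact h (x0 y) ⟨y, rfl⟩
  · rintro h _ ⟨y, rfl⟩
    exact DFunLike.congr_fun h y

variable [IsGalois ℚ L]

theorem fixing_pullF (x0 : E →ₐ[ℚ] L) (K : Subgroup (L ≃ₐ[ℚ] L)) :
    ((pullF x0 K).map x0).fixingSubgroup = K ⊔ x0.fieldRange.fixingSubgroup := by
  rw [map_pullF]
  have h1 : (IntermediateField.fixedField K ⊓ x0.fieldRange)
      = IntermediateField.fixedField (K ⊔ x0.fieldRange.fixingSubgroup) := by
    have h2 := (IsGalois.intermediateFieldEquivSubgroup (F := ℚ) (E := L)).map_inf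
      (IntermediateField.fixedField K) x0.fieldRange
    apply (IsGalois.intermediateFieldEquivSubgroup (F := ℚ) (E := L)).injective
    rw [h2]
    simp only [IsGalois.intermediateFieldEquivSubgroup_apply,
      IntermediateField.fixingSubgroup_fixedField]
    rfl
  rw [h1, IntermediateField.fixingSubgroup_fixedField]

theorem finrank_eq_index (N : IntermediateField ℚ L) :
    Module.finrank ℚ N = N.fixingSubgroup.index := by
  have h1 := Module.finrank_mul_finrank ℚ N L
  have h2 := IsGalois.card_fixingSubgroup_eq_finrank N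
  have h3 := Subgroup.card_mul_index N.fixingSubgroup
  have h4 := IsGalois.card_aut_eq_finrank ℚ L
  have h5 : 0 < Module.finrank N L := Module.finrank_pos
  rw [h4, h2, ← h1, mul_comm] at h3
  exact (Nat.eq_of_mul_eq_mul_right h5 h3).symm

/-- the orbits of a normal subgroup `K` on the embeddings -/
theorem card_orbits (x0 : E →ₐ[ℚ] L) (K : Subgroup (L ≃ₐ[ℚ] L)) [K.Normal] :
    Nat.card (MulAction.orbitRel.Quotient K (E →ₐ[ℚ] L))
      = (K ⊔ x0.fieldRange.fixingSubgroup).index := by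
  classical
  set H := x0.fieldRange.fixingSubgroup with hH
  have hmem : ∀ σ : L ≃ₐ[ℚ] L, σ ∈ K ⊔ H ↔ ∃ k ∈ K, σ • x0 = k • x0 := by
    intro σ
    rw [← SetLike.mem_coe, Subgroup.normal_mul, Set.mem_mul]
    constructor
    · rintro ⟨k, hk, h, hh, rfl⟩
      refine ⟨k, hk, ?_⟩
      rw [mul_smul, mem_fixing_range.1 hh]
    · rintro ⟨k, hk, h⟩
      refine ⟨k, hk, k⁻¹ * σ, ?_, by group⟩
      rw [SetLike.mem_coe, hH, mem_fixing_range, mul_smul, h, inv_smul_smul]
  have hrel : ∀ σ τ : L ≃ₐ[ℚ] L, σ⁻¹ * τ ∈ K ⊔ H ↔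
      (MulAction.orbitRel K (E →ₐ[ℚ] L)) (σ • x0) (τ • x0) := by
    intro σ τ
    rw [MulAction.orbitRel_apply, MulAction.mem_orbit_iff, hmem]
    constructor
    · rintro ⟨k, hk, h⟩
      refine ⟨⟨σ * k⁻¹ * σ⁻¹, ‹K.Normal›.conj_mem _ (K.inv_mem hk) σ⟩, ?_⟩
      change (σ * k⁻¹ * σ⁻¹) • τ • x0 = σ • x0
      rw [mul_smul, mul_smul, ← mul_smul σ⁻¹ τ, h, inv_smul_smul]
    · rintro ⟨k, h⟩
      refine ⟨σ⁻¹ * (k : L ≃ₐ[ℚ] L)⁻¹ * σ, ?_, ?_⟩
      · have := ‹K.Normal›.conj_mem _ (K.inv_mem k.2) σ⁻¹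
        simpa using this
      · have h' : (k : L ≃ₐ[ℚ] L) • τ • x0 = σ • x0 := h
        rw [mul_smul, mul_smul, mul_smul, ← h', inv_smul_smul]
  rw [Subgroup.index]
  let f : (L ≃ₐ[ℚ] L) ⧸ (K ⊔ H) → MulAction.orbitRel.Quotient K (E →ₐ[ℚ] L) :=
    Quotient.lift (fun σ => (Quotient.mk _ (σ • x0) : MulAction.orbitRel.Quotient K (E →ₐ[ℚ] L)))
      (by
        intro σ τ h
        apply Quotient.sound
        have h1 : σ⁻¹ * τ ∈ K ⊔ H := QuotientGroup.leftRel_apply.1 h
        exact (hrel σ τ).1 h1)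
  refine (Nat.card_congr (Equiv.ofBijective f ⟨?_, ?_⟩)).symm
  · intro a b hab
    induction a using Quotient.inductionOn with | _ σ => ?_
    induction b using Quotient.inductionOn with | _ τ => ?_
    have h1 : (MulAction.orbitRel K (E →ₐ[ℚ] L)) (σ • x0) (τ • x0) := Quotient.exact hab
    apply Quotient.sound
    exact QuotientGroup.leftRel_apply.2 ((hrel σ τ).2 h1)
  · intro b
    induction b using Quotient.inductionOn with | _ y => ?_
    obtain ⟨σ, hσ⟩ := exists_smul_emb x0 y
    refine ⟨Quotient.mk _ σ, ?_⟩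
    change (Quotient.mk _ (σ • x0) : MulAction.orbitRel.Quotient K (E →ₐ[ℚ] L)) = Quotient.mk _ y
    rw [hσ]

variable [IsCMField L] [IsCMField E]

theorem conj_mem_pullF (x0 : E →ₐ[ℚ] L) (K : Subgroup (L ≃ₐ[ℚ] L)) {y : E} (hy : y ∈ pullF x0 K) :
    IsCMField.complexConj E y ∈ pullF x0 K := by
  rw [mem_pullF] at hy ⊢
  intro k hk
  rw [← conj_smul_apply]
  have h1 : k (conj L (x0 y)) = conj L (k (x0 y)) :=
    DFunLike.congr_fun (conj_comm k).symm (x0 y)
  rw [h1, hy k hk]

/-- the restriction of complex conjugation to `pullF` -/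
noncomputable def conjF (x0 : E →ₐ[ℚ] L) (K : Subgroup (L ≃ₐ[ℚ] L)) :
    pullF x0 K ≃ₐ[ℚ] pullF x0 K :=
  let f : pullF x0 K →ₐ[ℚ] pullF x0 K :=
    ((((IsCMField.complexConj E).restrictScalars ℚ : E ≃ₐ[ℚ] E) : E →ₐ[ℚ] E).comp
      (pullF x0 K).val).codRestrict (pullF x0 K).toSubalgebra
        (fun y => conj_mem_pullF x0 K y.2)
  AlgEquiv.ofAlgHom f f
    (by
      ext y
      exact IsCMField.complexConj_apply_apply E (y : E))
    (by
      ext y
      exact IsCMField.complexConj_apply_apply E (y : E))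

theorem conjF_apply (x0 : E →ₐ[ℚ] L) (K : Subgroup (L ≃ₐ[ℚ] L)) (y : pullF x0 K) :
    ((conjF x0 K y : pullF x0 K) : E) = IsCMField.complexConj E (y : E) := rfl

theorem isConj_conjF (x0 : E →ₐ[ℚ] L) (K : Subgroup (L ≃ₐ[ℚ] L)) (φ : pullF x0 K →+* ℂ) :
    ComplexEmbedding.IsConj φ (conjF x0 K) := by
  unfold ComplexEmbedding.IsConj
  ext y
  have h1 := IsCMField.complexEmbedding_complexConj E (lift E φ) (algebraMap (pullF x0 K) E y)
  have h2 : IsCMField.complexConj E (algebraMap (pullF x0 K) E y)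
      = algebraMap (pullF x0 K) E (conjF x0 K y) := rfl
  rw [h2, lift_algebraMap_apply, lift_algebraMap_apply] at h1
  exact h1.symm

/-- `pullF` is a CM field if complex conjugation has no fixed point on the `K`-orbits -/
theorem isCMField_pullF (x0 : E →ₐ[ℚ] L) (K : Subgroup (L ≃ₐ[ℚ] L)) [K.Normal]
    (hK : ∀ k ∈ K, k • x0 ≠ conj L • x0) : IsCMField (pullF x0 K) := by
  have hne : ∃ y : pullF x0 K, conjF x0 K y ≠ y := by
    by_contra hcon
    push Not at hcon
    have h1 : conj L ∈ ((pullF x0 K).map x0).fixingSubgroup := by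
      rw [IntermediateField.mem_fixingSubgroup_iff]
      intro z hz
      rw [IntermediateField.mem_map] at hz
      obtain ⟨y, hy, rfl⟩ := hz
      change conj L (x0 y) = x0 y
      rw [conj_smul_apply]
      have h2 := congrArg Subtype.val (hcon ⟨y, hy⟩)
      rw [conjF_apply] at h2
      rw [h2]
    rw [fixing_pullF, ← SetLike.mem_coe, Subgroup.normal_mul, Set.mem_mul] at h1
    obtain ⟨k, hk, h, hh, hkh⟩ := h1
    apply hK k hk
    rw [← hkh, mul_smul, mem_fixing_range.1 hh]
  have : IsTotallyComplex (pullF x0 K) := ⟨fun w => by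
    rw [← InfinitePlace.mk_embedding w, InfinitePlace.isComplex_mk_iff]
    intro hreal
    obtain ⟨y, hy⟩ := hne
    apply hy
    apply w.embedding.injective
    rw [(isConj_conjF x0 K w.embedding).eq y]
    have h1 := RingHom.congr_fun (isReal_iff.1 hreal) y
    exact h1⟩
  exact isCMField_of_isConj (pullF x0 K) (isConj_conjF x0 K)

/-- **The condition on the CM subfields of `E` in terms of the Galois group.** -/
theorem cond_of_fields [hne : Nonempty (E →ₐ[ℚ] L)]
    (hE : ∀ F : IntermediateField ℚ E, IsCMField F → ∀ N : IntermediateField ℚ L, IsGalois ℚ N →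
      Nonempty (F →ₐ[ℚ] N) → 2 * Module.finrank ℚ F < Module.finrank ℚ N)
    (K : Subgroup (L ≃ₐ[ℚ] L)) (hKn : K.Normal)
    (hK : ∀ x : E →ₐ[ℚ] L, ∀ k ∈ K, k • x ≠ conj L • x) :
    2 * Nat.card (MulAction.orbitRel.Quotient K (E →ₐ[ℚ] L)) < K.index := by
  obtain ⟨x0⟩ := hne
  have := hKn
  have hG : IsGalois ℚ (IntermediateField.fixedField K) :=
    IsGalois.of_fixedField_normal_subgroup K
  have h1 : IsCMField (pullF x0 K) := isCMField_pullF x0 K (hK x0)
  have h2 : Nonempty (pullF x0 K →ₐ[ℚ] IntermediateField.fixedField K) :=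
    ⟨(x0.comp (pullF x0 K).val).codRestrict (IntermediateField.fixedField K).toSubalgebra
      (fun y => y.2)⟩
  have h3 := hE (pullF x0 K) h1 (IntermediateField.fixedField K) hG h2
  rw [finrank_eq_index (IntermediateField.fixedField K),
    IntermediateField.fixingSubgroup_fixedField] at h3
  rw [card_orbits x0 K, ← fixing_pullF, ← finrank_eq_index]
  have h4 : Module.finrank ℚ ((pullF x0 K).map x0) = Module.finrank ℚ (pullF x0 K) :=
    ((pullF x0 K).equivMap x0).toLinearEquiv.finrank_eq.symm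
  rw [h4]
  exact h3

end

end Pool.Agent.Lib.MP_938ce2_ag_u2.H7
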