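import Mathlib
import Pool.Agent.Lib.MP_938ce2_ag_u2.Defs

/-!
Row Deg: a degenerate CM type is orthogonal to a simple odd submodule.
-/

set_option autoImplicit false
set_option linter.unusedSectionVars false

namespace Pool.Agent.Lib.MP_938ce2_ag_u2

open Finset Module MonoidAlgebra
open Pool.Agent.Lib.MP_938ce2_ag_h67 (sg VV ev mkV Orb red kerM)
open Pool.Agent.Lib.MP_938ce2_ag_h60 (CMType Nondeg)

variable {G X : Type} [Group G] [Fintype G] [MulAction G X] [Fintype X] [DecidableEq X] {c : G}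
  {g : ℕ} [MulAction.IsPretransitive G X]

namespace DegAux

open Pool.Agent.Lib.MP_938ce2_ag_h67 (ev_add ev_single ev_smul ev_zero ev_mkV ev_ext ev_sub
  finrank_range_add_le actL actL_apply finrank_hom_congr)

lemma sum_sg_odd (hA : Act G X c g) {Φ : Finset X} (hΦ : CMType c Φ) (f : X → ℤ)
    (hf : ∀ x, f (c • x) = - f x) : ∑ x, sg Φ x * f x = 2 * ∑ x ∈ Φ, f x := by
  rw [← Pool.Agent.Lib.MP_938ce2_ag_h60.sum_type hA.sq hΦ (fun x => sg Φ x * f x), two_mul]
  congr 1
  · refine Finset.sum_congr rfl fun x hx => ?_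
    unfold sg
    rw [if_pos hx, one_mul]
  · refine Finset.sum_congr rfl fun x hx => ?_
    unfold sg
    rw [if_neg ((hΦ x).1 hx), hf, neg_mul_neg, one_mul]

end DegAux

open Pool.Agent.Lib.MP_938ce2_ag_h67 (ev_add ev_single ev_smul ev_zero ev_mkV ev_ext ev_sub
  finrank_range_add_le actL actL_apply finrank_hom_congr)

theorem exists_simple_of_deg (hA : Act G X c g) {Φ : Finset X} (hΦ : CMType c Φ)
    (hnd : ¬ Nondeg c Φ) :
    ∃ M : Submodule (MonoidAlgebra ℚ G) (VV ℚ G X), IsSimpleModule (MonoidAlgebra ℚ G) M ∧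
      OddM c M ∧ ∀ v ∈ M, ∑ x, (sg Φ x : ℚ) * ev v x = 0 := by
  unfold Nondeg at hnd
  push Not at hnd
  obtain ⟨h, hodd, hsum, x1, hx1⟩ := hnd
  have hsg : ∀ σ : G, ∑ x, sg Φ x * h (σ • x) = 0 := by
    intro σ
    rw [DegAux.sum_sg_odd hA hΦ (fun x => h (σ • x)), hsum, mul_zero]
    intro x
    rw [smul_smul, ← hA.comm, ← smul_smul, hodd]
  set v₀ : VV ℚ G X := mkV G (fun x => (h x : ℚ)) with hv₀
  have hv₀0 : v₀ ≠ 0 := by
    intro h0
    apply hx1
    have := congrArg (fun t => ev t x1) h0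
    simp only [hv₀, ev_mkV, ev_zero] at this
    exact_mod_cast this
  let U : Submodule (MonoidAlgebra ℚ G) (VV ℚ G X) := Submodule.span _ {v₀}
  have hmem : ∀ r : MonoidAlgebra ℚ G, r • v₀ ∈ U := fun r =>
    Submodule.smul_mem _ _ (Submodule.mem_span_singleton_self _)
  have hU : ∀ u ∈ U, (∀ x, ev u (c • x) = - ev u x) ∧ ∑ x, (sg Φ x : ℚ) * ev u x = 0 := by
    intro u hu
    obtain ⟨r, rfl⟩ := Submodule.mem_span_singleton.mp hu
    induction r using MonoidAlgebra.induction_linear with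
    | zero =>
      rw [zero_smul]
      refine ⟨fun x => ?_, ?_⟩
      · rw [ev_zero, ev_zero, neg_zero]
      · simp only [ev_zero, mul_zero, Finset.sum_const_zero]
    | add a b ha hb =>
      obtain ⟨a1, a2⟩ := ha (hmem a)
      obtain ⟨b1, b2⟩ := hb (hmem b)
      rw [add_smul]
      refine ⟨fun x => ?_, ?_⟩
      · rw [ev_add, ev_add, a1, b1, neg_add]
      · simp only [ev_add, mul_add, Finset.sum_add_distrib]
        rw [a2, b2, add_zero]
    | single σ a =>
      refine ⟨fun x => ?_, ?_⟩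
      · rw [ev_single, ev_single, smul_smul, ← hA.comm, ← smul_smul, hv₀, ev_mkV, ev_mkV, hodd]
        push_cast
        ring
      · simp only [ev_single]
        have h2 : ((∑ x, sg Φ x * h (σ⁻¹ • x) : ℤ) : ℚ) = 0 := by rw [hsg, Int.cast_zero]
        push_cast at h2
        have h3 : ∀ x, (sg Φ x : ℚ) * (a * ev v₀ (σ⁻¹ • x))
            = a * ((sg Φ x : ℚ) * (h (σ⁻¹ • x) : ℚ)) := by
          intro x
          rw [hv₀, ev_mkV]
          ring
        rw [Finset.sum_congr rfl fun x _ => h3 x, ← Finset.mul_sum, h2, mul_zero]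
  have hne : NeZero (Nat.card G : ℚ) := ⟨by exact_mod_cast Nat.card_pos.ne'⟩
  have hU0 : U ≠ ⊥ := by
    intro h0
    apply hv₀0
    rw [← Submodule.mem_bot (R := MonoidAlgebra ℚ G), ← h0]
    exact Submodule.mem_span_singleton_self _
  obtain ⟨M, hMU, hM⟩ := (IsSemisimpleModule.eq_bot_or_exists_simple_le U).resolve_left hU0
  exact ⟨M, hM, fun v hv => (hU v (hMU hv)).1, fun v hv => (hU v (hMU hv)).2⟩

theorem odd_of_iso {M M' : Submodule (MonoidAlgebra ℚ G) (VV ℚ G X)} (hM : OddM c M)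
    (e : M ≃ₗ[MonoidAlgebra ℚ G] M') : OddM c M' := by
  intro v hv x
  have h1 : MonoidAlgebra.single c⁻¹ (1 : ℚ) • e.symm ⟨v, hv⟩ = - e.symm ⟨v, hv⟩ := by
    apply Subtype.ext
    apply ev_ext
    intro y
    change ev (MonoidAlgebra.single c⁻¹ (1 : ℚ) • (e.symm ⟨v, hv⟩).1) y =
      - ev (e.symm ⟨v, hv⟩).1 y
    rw [ev_single, one_mul, inv_inv]
    exact hM _ (e.symm ⟨v, hv⟩).2 y
  have h2 := congrArg e h1
  rw [map_smul, map_neg, LinearEquiv.apply_symm_apply] at h2
  have h3 : MonoidAlgebra.single c⁻¹ (1 : ℚ) • v = - v := congrArg Subtype.val h2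
  have h4 := congrArg (fun t => ev t x) h3
  simp only [ev_single, one_mul, inv_inv] at h4
  exact h4

/-- if the point stabilizers act trivially on `M`, the CM types orthogonal to a copy of `M` are
orthogonal to the translates of an odd integral function invariant under the point stabilizers -/
theorem regular_of_bad (hA : Act G X c g) (M : Submodule (MonoidAlgebra ℚ G) (VV ℚ G X))
    (hodd : OddM c M) (hm : 0 < dM M) (heq : dH M = dM M) {Φ : Finset X} (hΦ : Φ ∈ badC c M) :
    ∃ f : X → ℤ, f ≠ 0 ∧ (∀ x, f (c • x) = - f x) ∧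
      (∀ (τ : G) (x y : X), τ • x = x → f (τ • y) = f y) ∧
      ∀ a : G, ∑ x, sg Φ x * f (a • x) = 0 := by
  obtain ⟨hcm, M', ⟨e⟩, horth⟩ := (mem_badC c M Φ).1 hΦ
  have hodd' := odd_of_iso hodd e
  have hfin : Module.Finite ℚ M' := Module.Finite.of_injective (M'.subtype.restrictScalars ℚ)
    Subtype.val_injective
  have hd : finrank ℚ M' = finrank ℚ M := (e.restrictScalars ℚ).finrank_eq.symm
  have hh : finrank ℚ (M' →ₗ[MonoidAlgebra ℚ G] VV ℚ G X) = finrank ℚ M := by
    have hh1 : finrank ℚ (M →ₗ[MonoidAlgebra ℚ G] VV ℚ G X) = finrank ℚ M := heq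
    rw [← hh1]
    exact (finrank_hom_congr e (LinearEquiv.refl _ (VV ℚ G X))).symm
  -- the stabilizers act trivially
  have htriv : ∀ (τ : G) (x₀ : X), τ • x₀ = x₀ → ∀ s : M', MonoidAlgebra.single τ (1 : ℚ) • s = s := by
    intro τ x₀ hτ s
    have h1 := finrank_range_add_le M' τ x₀ hτ
    rw [hh, hd] at h1
    have h2 : finrank ℚ (LinearMap.range (actL M' τ - 1)) = 0 := by omega
    have h3 : LinearMap.range (actL M' τ - 1) = ⊥ := Submodule.finrank_eq_zero.1 h2
    have h4 : actL M' τ - 1 = 0 := LinearMap.range_eq_bot.1 h3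
    have h5 := LinearMap.congr_fun h4 s
    rw [LinearMap.sub_apply, Module.End.one_apply, actL_apply, LinearMap.zero_apply,
      sub_eq_zero] at h5
    exact h5
  -- a nonzero element
  have hnt : Nontrivial M' := by
    refine Module.nontrivial_of_finrank_pos (R := ℚ) ?_
    rw [hd]
    exact hm
  obtain ⟨⟨v, hvM⟩, hv⟩ := exists_ne (0 : M')
  have hv0 : v ≠ 0 := fun h => hv (Subtype.ext h)
  -- clear the denominators
  obtain ⟨n, hn, f, hf⟩ : ∃ n : ℤ, n ≠ 0 ∧ ∃ f : X → ℤ, ∀ x, (f x : ℚ) = n * ev v x := by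
    refine ⟨∏ x, ((ev v x).den : ℤ), ?_, fun x => (∏ y ∈ Finset.univ.erase x,
      ((ev v y).den : ℤ)) * (ev v x).num, fun x => ?_⟩
    · exact Finset.prod_ne_zero_iff.2 fun x _ => by exact_mod_cast (ev v x).den_nz
    · rw [← Finset.prod_erase_mul _ _ (Finset.mem_univ x)]
      push_cast
      have h6 : ((ev v x).den : ℚ) * ev v x = (ev v x).num := by
        rw [mul_comm]
        exact Rat.mul_den_eq_num _
      rw [mul_assoc, h6]
  have hnQ : (n : ℚ) ≠ 0 := by exact_mod_cast hn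
  refine ⟨f, ?_, ?_, ?_, ?_⟩
  · intro h0
    apply hv0
    apply ev_ext
    intro x
    have h7 := hf x
    rw [h0] at h7
    have h8 : (n : ℚ) * ev v x = 0 := by
      rw [← h7]
      simp
    rw [(mul_eq_zero.1 h8).resolve_left hnQ, ev_zero]
  · intro x
    have h9 : (f (c • x) : ℚ) = ((- f x : ℤ) : ℚ) := by
      rw [hf, hodd' v hvM]
      push_cast
      rw [hf]
      ring
    exact_mod_cast h9
  · intro τ x y hτ
    have hτ' : τ⁻¹ • x = x := by
      conv_lhs => rw [← hτ]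
      rw [inv_smul_smul]
    have h10 : MonoidAlgebra.single τ⁻¹ (1 : ℚ) • v = v :=
      congrArg Subtype.val (htriv τ⁻¹ x hτ' ⟨v, hvM⟩)
    have h11 := congrArg (fun t => ev t y) h10
    simp only [ev_single, one_mul, inv_inv] at h11
    have h12 : (f (τ • y) : ℚ) = (f y : ℚ) := by rw [hf, hf, h11]
    exact_mod_cast h12
  · intro a
    have h13 := horth _ (M'.smul_mem (MonoidAlgebra.single a⁻¹ (1 : ℚ)) hvM)
    simp only [ev_single, one_mul, inv_inv] at h13
    have h14 : ((∑ x, sg Φ x * f (a • x) : ℤ) : ℚ) = n * ∑ x, (sg Φ x : ℚ) * ev v (a • x) := by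
      push_cast
      rw [Finset.mul_sum]
      refine Finset.sum_congr rfl fun x _ => ?_
      rw [hf]
      ring
    rw [h13, mul_zero] at h14
    exact_mod_cast h14

end Pool.Agent.Lib.MP_938ce2_ag_u2
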