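import Mathlib

/-!
Data of an isotypic type.
-/

set_option autoImplicit false
set_option linter.unusedSectionVars false

namespace Pool.Agent.Lib.MP_938ce2_ag_u2

open Finset Real

/-- the data of one isotypic type -/
structure Data (g m k d h o n κ s : ℕ) (N : ℝ) : Prop where
  hk : 1 ≤ k
  hd : 1 ≤ d
  hh : h = k * d
  hlt : h < m
  he : 3 ≤ d + m - h
  hA : N ≤ (4 * g : ℝ) ^ h / 2 ^ m
  hB : ∀ q : ℕ, q.Prime → q ≠ 2 → ¬ q ∣ o →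
    N ≤ (1 + ((q : ℝ) - 1) * Real.exp (-(2 * g / (m * (q : ℝ) ^ 2)))) ^ m
      / ((q : ℝ) - 1) ^ (d + m - h)
  ho : 1 ≤ o
  hO : ∃ J : ℕ, o ≤ (2 * g) ^ J ∧ J ≤ n ∧ (J : ℝ) ≤ 1 + n / κ * Real.log n
  hκ : 1 ≤ κ
  hκn : κ ≤ n
  hnm : n ≤ m
  hs : 1 ≤ s
  hκs : κ ≤ k * s
  hr : h * n ≤ κ * m
  hC1 : N ≤ (9 / 2) * n * κ / (g : ℝ) ^ (1 / 4 : ℝ)
  hC2 : ∀ t : ℝ, 0 < t → N * (s : ℝ) ^ 2 ≤ n * κ * t + κ / 4 + 5 * n * κ / (√(g : ℝ) * √t)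

end Pool.Agent.Lib.MP_938ce2_ag_u2
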