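import Mathlib
import Pool.Agent.Lib.MP_938ce2_ag_u2.NumDefs

/-!
Row NumA: regime A, and the order bound outside of it.
-/

set_option autoImplicit false
set_option linter.unusedSectionVars false

namespace Pool.Agent.Lib.MP_938ce2_ag_u2

open Finset Real

/-- regime A: `k δ log₂ (4g) ≤ m / 2` and `m ≥ 4 log₂ g` -/
theorem num_A (g m k d h o n κ s : ℕ) (N : ℝ) (hg : 1 ≤ g) (D : Data g m k d h o n κ s N)
    (h1 : (h : ℝ) * Real.logb 2 (4 * g) ≤ m / 2) (h2 : 4 * Real.logb 2 g ≤ m) :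
    N ≤ 1 / (g : ℝ) ^ 2 := by
  have hg0 : (0 : ℝ) < g := by exact_mod_cast hg
  refine D.hA.trans ?_
  have e1 : (4 * g : ℝ) ^ h = (2 : ℝ) ^ ((h : ℝ) * Real.logb 2 (4 * g)) := by
    have h4g : (0 : ℝ) < 4 * g := by positivity
    rw [mul_comm (h : ℝ), Real.rpow_mul (by norm_num), Real.rpow_logb (by norm_num) (by norm_num)
      h4g, Real.rpow_natCast]
  have e2 : (g : ℝ) ^ 2 = (2 : ℝ) ^ (2 * Real.logb 2 g) := by
    rw [mul_comm, Real.rpow_mul (by norm_num), Real.rpow_logb (by norm_num) (by norm_num) hg0]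
    norm_num
  have e3 : (2 : ℝ) ^ m = (2 : ℝ) ^ (m : ℝ) := (Real.rpow_natCast 2 m).symm
  rw [e1, e2, e3, ← Real.rpow_sub (by norm_num), one_div, ← Real.rpow_neg (by norm_num)]
  exact Real.rpow_le_rpow_of_exponent_le (by norm_num) (by linarith)

private theorem numAAux_log (g : ℕ) (hg : 2 ≤ g) :
    Real.log (4 * g) ≤ 3 * Real.log g ∧ Real.log (2 * g) ≤ 2 * Real.log g ∧
      Real.log 2 ≤ Real.log g := by
  have hg2 : (2 : ℝ) ≤ g := by exact_mod_cast hg
  have h0 : Real.log 2 ≤ Real.log g := Real.log_le_log (by norm_num) hg2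
  have h4 : Real.log 4 = 2 * Real.log 2 := by
    rw [show (4 : ℝ) = 2 ^ (2 : ℕ) by norm_num, Real.log_pow]
    norm_num
  refine ⟨?_, ?_, h0⟩
  · rw [Real.log_mul (by norm_num) (by linarith), h4]
    linarith
  · rw [Real.log_mul (by norm_num) (by linarith)]
    linarith

/-- the order bound outside of regime A -/
theorem log_order : ∃ C : ℝ, 0 < C ∧ ∀ (g m k d h o n κ s : ℕ) (N : ℝ), 2 ≤ g → m ≤ 2 * g →
    Data g m k d h o n κ s N →
    (¬ ((h : ℝ) * Real.logb 2 (4 * g) ≤ m / 2) ∨ ¬ (4 * Real.logb 2 g ≤ m)) →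
    Real.log o ≤ C * Real.log g ^ 3 := by
  refine ⟨100, by norm_num, ?_⟩
  intro g m k d h o n κ s N hg hm D hcase
  obtain ⟨l4, l2, l0⟩ := numAAux_log g hg
  have hln2 := Real.log_two_gt_d9
  set L := Real.log g with hL
  have hg2 : (2 : ℝ) ≤ g := by exact_mod_cast hg
  have hLpos : 0 < L := by linarith
  obtain ⟨J, hJ1, hJ2, hJ3⟩ := D.hO
  have hlogo : Real.log o ≤ J * (2 * L) := by
    have h1 : Real.log o ≤ Real.log (((2 * g) ^ J : ℕ) : ℝ) :=
      Real.log_le_log (by exact_mod_cast D.ho) (by exact_mod_cast hJ1)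
    have h2 : Real.log (((2 * g) ^ J : ℕ) : ℝ) = J * Real.log (2 * g) := by
      push_cast
      rw [Real.log_pow]
    rw [h2] at h1
    exact h1.trans (mul_le_mul_of_nonneg_left l2 (Nat.cast_nonneg J))
  have hlogb : ∀ x : ℝ, Real.logb 2 x = Real.log x / Real.log 2 := fun x => rfl
  have hln0 : 0 < Real.log 2 := by linarith
  have hL3 : L ^ 2 ≤ 2 * L ^ 3 := by
    have h12 : 1 ≤ 2 * L := by linarith
    nlinarith [mul_nonneg (sq_nonneg L) (by linarith : (0 : ℝ) ≤ 2 * L - 1)]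
  have hL2 : L ≤ 2 * L ^ 2 := by nlinarith
  rcases hcase with hc | hc
  · rw [not_le, hlogb] at hc
    have hh1 : 1 ≤ h := by
      rw [D.hh]
      exact Nat.mul_pos D.hk D.hd
    have hh1' : (1 : ℝ) ≤ h := by exact_mod_cast hh1
    have hκ1 : (1 : ℝ) ≤ κ := by exact_mod_cast D.hκ
    have hn1 : (1 : ℝ) ≤ n := by exact_mod_cast D.hκ.trans D.hκn
    have h1 : Real.log (4 * g) / Real.log 2 ≤ 5 * L := by
      rw [div_le_iff₀ hln0]
      nlinarith
    have h2 : (m : ℝ) < 10 * L * h := by nlinarith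
    have h3 : (h : ℝ) * n ≤ κ * m := by exact_mod_cast D.hr
    have h4 : (n : ℝ) ≤ 10 * L * κ := by
      have h5 : (h : ℝ) * n ≤ h * (10 * L * κ) := by nlinarith
      exact le_of_mul_le_mul_left h5 (by linarith)
    have h6 : (n : ℝ) / κ ≤ 10 * L := by
      rw [div_le_iff₀ (by linarith)]
      exact h4
    have h7 : Real.log n ≤ 2 * L := by
      refine le_trans (Real.log_le_log (by linarith) ?_) l2
      have h8 : n ≤ 2 * g := D.hnm.trans hm
      exact_mod_cast h8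
    have h7' : 0 ≤ Real.log n := Real.log_nonneg hn1
    have h9 : (J : ℝ) ≤ 1 + 10 * L * (2 * L) := by
      refine hJ3.trans ?_
      have h10 : (n : ℝ) / κ * Real.log n ≤ 10 * L * (2 * L) :=
        mul_le_mul h6 h7 h7' (by positivity)
      linarith
    have h11 : (J : ℝ) * (2 * L) ≤ (1 + 10 * L * (2 * L)) * (2 * L) :=
      mul_le_mul_of_nonneg_right h9 (by linarith)
    nlinarith [pow_pos hLpos 3]
  · rw [not_le, hlogb] at hc
    have h1 : (m : ℝ) ≤ 8 * L := by
      have h2 : 4 * (L / Real.log 2) ≤ 8 * L := by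
        rw [mul_div_assoc', div_le_iff₀ hln0]
        nlinarith
      linarith
    have h3 : (J : ℝ) ≤ m := by
      exact_mod_cast hJ2.trans D.hnm
    have h4 : (J : ℝ) * (2 * L) ≤ 8 * L * (2 * L) :=
      mul_le_mul_of_nonneg_right (h3.trans h1) (by linarith)
    nlinarith

end Pool.Agent.Lib.MP_938ce2_ag_u2
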