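import Mathlib

/-!
Row NumPrime: a prime which does not divide a given number.
-/

set_option autoImplicit false
set_option linter.unusedSectionVars false

namespace Pool.Agent.Lib.MP_938ce2_ag_u2

open Finset Real

private theorem numPrimeAux_ev : ∃ Y₀ : ℝ, ∀ Y : ℝ, Y₀ ≤ Y → 2 ≤ Y ∧
    Real.log 4 * Y ^ (4 / 5 : ℝ) + Real.log 2 + Y / 4 <
      (Y - 1) * Real.log 2 - Real.log (Y + 2) - 2 * √Y * Real.log Y := by
  have h1 : ∀ᶠ Y : ℝ in Filter.atTop, Real.log Y ≤ (1 / 100 : ℝ) * Y ^ (1 / 2 : ℝ) := by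
    have h := (isLittleO_log_rpow_atTop (r := (1 / 2 : ℝ)) (by norm_num)).def
      (c := (1 / 100 : ℝ)) (by norm_num)
    filter_upwards [h, Filter.eventually_ge_atTop (1 : ℝ)] with Y hY hY1
    rw [Real.norm_of_nonneg (Real.log_nonneg hY1),
      Real.norm_of_nonneg (Real.rpow_nonneg (by linarith) _)] at hY
    exact hY
  have h2 : ∀ᶠ Y : ℝ in Filter.atTop, Y ^ (-(1 / 5 : ℝ)) ≤ 1 / 100 := by
    have h := tendsto_rpow_neg_atTop (y := (1 / 5 : ℝ)) (by norm_num)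
    exact (h.eventually (gt_mem_nhds (show (0 : ℝ) < 1 / 100 by norm_num))).mono
      fun Y hY => hY.le
  obtain ⟨Y₀, hY₀⟩ := Filter.eventually_atTop.1 (h1.and h2)
  refine ⟨max Y₀ 1000, fun Y hY => ?_⟩
  have hYa : Y₀ ≤ Y := (le_max_left _ _).trans hY
  have hYb : (1000 : ℝ) ≤ Y := (le_max_right _ _).trans hY
  obtain ⟨h3, h4⟩ := hY₀ Y hYa
  refine ⟨by linarith, ?_⟩
  have hY0 : 0 < Y := by linarith
  have hsq : √Y * √Y = Y := Real.mul_self_sqrt hY0.le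
  have hs0 : 0 ≤ √Y := Real.sqrt_nonneg Y
  have hsq1 : √Y ≤ Y := by nlinarith [Real.one_le_sqrt.2 (by linarith : (1 : ℝ) ≤ Y)]
  rw [← Real.sqrt_eq_rpow] at h3
  have h5 : √Y * Real.log Y ≤ (1 / 100) * Y := by nlinarith
  have h6 : Real.log (Y + 2) ≤ 2 * Real.log Y := by
    rw [← Real.log_rpow hY0]
    apply Real.log_le_log (by linarith)
    have h20 : Y ^ (2 : ℝ) = Y * Y := by
      rw [← pow_two, ← Real.rpow_natCast]
      norm_num
    rw [h20]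
    nlinarith
  have h7 : Y ^ (4 / 5 : ℝ) ≤ (1 / 100) * Y := by
    have h8 : Y ^ (4 / 5 : ℝ) = Y ^ (-(1 / 5 : ℝ)) * Y := by
      conv_rhs => rw [← Real.rpow_one Y]
      rw [← Real.rpow_mul hY0.le, ← Real.rpow_add hY0]
      norm_num
    rw [h8]
    exact mul_le_mul_of_nonneg_right h4 hY0.le
  have h9 : Real.log 4 = 2 * Real.log 2 := by
    rw [show (4 : ℝ) = 2 ^ (2 : ℕ) by norm_num, Real.log_pow]
    norm_num
  have h10 := Real.log_two_gt_d9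
  have h11 := Real.log_two_lt_d9
  have h12 : Real.log 4 * Y ^ (4 / 5 : ℝ) ≤ 2 * ((1 / 100) * Y) := by
    have : Real.log 4 ≤ 2 := by rw [h9]; linarith
    have h0 : 0 ≤ Y ^ (4 / 5 : ℝ) := Real.rpow_nonneg hY0.le _
    calc Real.log 4 * Y ^ (4 / 5 : ℝ) ≤ 2 * Y ^ (4 / 5 : ℝ) :=
          mul_le_mul_of_nonneg_right this h0
      _ ≤ 2 * ((1 / 100) * Y) := by linarith
  nlinarith

/-- a prime in `[Y ^ 0.8, Y]` which does not divide `o` (Chebyshev: Mathlib `Chebyshev.theta_ge'`,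
`Chebyshev.theta_le_log4_mul_x`) -/
theorem exists_prime_not_dvd : ∃ Y₀ : ℝ, ∀ Y : ℝ, Y₀ ≤ Y → ∀ o : ℕ, 1 ≤ o →
    Real.log o ≤ Y / 4 → ∃ q : ℕ, q.Prime ∧ q ≠ 2 ∧ Y ^ (4 / 5 : ℝ) ≤ q ∧ (q : ℝ) ≤ Y ∧ ¬ q ∣ o := by
  obtain ⟨Y₀, hY₀⟩ := numPrimeAux_ev
  refine ⟨Y₀, fun Y hY o ho hlog => ?_⟩
  obtain ⟨hY2, hmain⟩ := hY₀ Y hY
  by_contra hcon
  push Not at hcon
  have hY0 : 0 ≤ Y := by linarith
  set P : Finset ℕ := (Ioc 0 ⌊Y⌋₊).filter (fun p : ℕ => p.Prime ∧ p ≠ 2 ∧ Y ^ (4 / 5 : ℝ) ≤ (p : ℝ)) with hP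
  set Q : Finset ℕ := (Ioc 0 ⌊Y ^ (4 / 5 : ℝ)⌋₊).filter (fun p : ℕ => p.Prime) with hQ
  have hPprime : ∀ p ∈ P, p.Prime := fun p hp => (mem_filter.1 hp).2.1
  have hdvd : ∏ p ∈ P, p ∣ o := by
    refine Finset.prod_primes_dvd _ (fun p hp => (hPprime p hp).prime) fun p hp => ?_
    obtain ⟨hp1, hp2, hp3, hp4⟩ := mem_filter.1 hp
    refine hcon p hp2 hp3 hp4 ?_
    exact (Nat.cast_le.2 (mem_Ioc.1 hp1).2).trans (Nat.floor_le hY0)
  have h1 : ∑ p ∈ P, Real.log p ≤ Y / 4 := by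
    have h2 : ∑ p ∈ P, Real.log p = Real.log ((∏ p ∈ P, p : ℕ) : ℝ) := by
      rw [Nat.cast_prod, Real.log_prod]
      intro p hp
      exact Nat.cast_ne_zero.2 (hPprime p hp).ne_zero
    rw [h2]
    refine le_trans (Real.log_le_log ?_ (Nat.cast_le.2 (Nat.le_of_dvd (by omega) hdvd))) hlog
    exact Nat.cast_pos.2 (Finset.prod_pos fun p hp => (hPprime p hp).pos)
  have h3 : Chebyshev.theta Y ≤ ∑ p ∈ P, Real.log p + (∑ p ∈ Q, Real.log p + Real.log 2) := by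
    have hsub : (Ioc 0 ⌊Y⌋₊).filter (fun p : ℕ => p.Prime) ⊆ P ∪ (Q ∪ {2}) := by
      intro p hp
      obtain ⟨hp1, hp2⟩ := mem_filter.1 hp
      rw [mem_union, mem_union, mem_singleton]
      by_cases h2 : p = 2
      · exact Or.inr (Or.inr h2)
      · by_cases h4 : Y ^ (4 / 5 : ℝ) ≤ p
        · exact Or.inl (mem_filter.2 ⟨hp1, hp2, h2, h4⟩)
        · refine Or.inr (Or.inl (mem_filter.2 ⟨mem_Ioc.2 ⟨(mem_Ioc.1 hp1).1, ?_⟩, hp2⟩))
          exact Nat.le_floor (not_le.1 h4).le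
    have hnn : ∀ p : ℕ, 0 ≤ Real.log p := fun p => Real.log_natCast_nonneg p
    calc Chebyshev.theta Y = ∑ p ∈ (Ioc 0 ⌊Y⌋₊).filter (fun p : ℕ => p.Prime), Real.log p := rfl
      _ ≤ ∑ p ∈ P ∪ (Q ∪ {2}), Real.log p :=
          Finset.sum_le_sum_of_subset_of_nonneg hsub fun p _ _ => hnn p
      _ ≤ ∑ p ∈ P, Real.log p + ∑ p ∈ Q ∪ {2}, Real.log p := by
          rw [← Finset.sum_union_inter]
          exact le_add_of_nonneg_right (Finset.sum_nonneg fun p _ => hnn p)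
      _ ≤ ∑ p ∈ P, Real.log p + (∑ p ∈ Q, Real.log p + Real.log 2) := by
          refine add_le_add le_rfl ?_
          have h5 : ∑ p ∈ ({2} : Finset ℕ), Real.log p = Real.log 2 := by
            rw [Finset.sum_singleton]
            norm_num
          rw [← h5, ← Finset.sum_union_inter (s₁ := Q)]
          exact le_add_of_nonneg_right (Finset.sum_nonneg fun p _ => hnn p)
  have h4 : ∑ p ∈ Q, Real.log p ≤ Real.log 4 * Y ^ (4 / 5 : ℝ) :=
    Chebyshev.theta_le_log4_mul_x (Real.rpow_nonneg hY0 _)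
  have h5 := Chebyshev.theta_ge' (x := Y) (by linarith)
  linarith

end Pool.Agent.Lib.MP_938ce2_ag_u2
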