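import Mathlib
import Pool.Agent.Lib.MP_938ce2_ag_u2.NumA
import Pool.Agent.Lib.MP_938ce2_ag_u2.NumPrime

/-!
Row NumB: regime B.
-/

set_option autoImplicit false
set_option linter.unusedSectionVars false

namespace Pool.Agent.Lib.MP_938ce2_ag_u2

open Finset Real

/-- growth facts: `L ^ (11/2)` beats `C L ^ 3`. -/
private theorem numBAux_ev (C Y₀ : ℝ) : ∃ L₀ : ℝ, ∀ L : ℝ, L₀ ≤ L →
    1000000 ≤ L ∧ Y₀ ≤ L ^ (11 / 2 : ℝ) ∧ 4 * (C * L ^ 3) ≤ L ^ (11 / 2 : ℝ) ∧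
      24 ≤ L ^ (1 / 5 : ℝ) := by
  have h1 : Filter.Tendsto (fun L : ℝ => L ^ (11 / 2 : ℝ)) Filter.atTop Filter.atTop :=
    tendsto_rpow_atTop (by norm_num)
  have h2 : Filter.Tendsto (fun L : ℝ => L ^ (1 / 5 : ℝ)) Filter.atTop Filter.atTop :=
    tendsto_rpow_atTop (by norm_num)
  have h3 : Filter.Tendsto (fun L : ℝ => L ^ (5 / 2 : ℝ)) Filter.atTop Filter.atTop :=
    tendsto_rpow_atTop (by norm_num)
  obtain ⟨L₀, hL₀⟩ := Filter.eventually_atTop.1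
    (((h1.eventually_ge_atTop Y₀).and (h2.eventually_ge_atTop 24)).and
      (h3.eventually_ge_atTop (4 * C)))
  refine ⟨max L₀ 1000000, fun L hL => ?_⟩
  have hLa : L₀ ≤ L := (le_max_left _ _).trans hL
  have hLb : (1000000 : ℝ) ≤ L := (le_max_right _ _).trans hL
  obtain ⟨⟨h4, h5⟩, h6⟩ := hL₀ L hLa
  refine ⟨hLb, h4, ?_, h5⟩
  have hL0 : 0 < L := by linarith
  have h7 : L ^ (11 / 2 : ℝ) = L ^ (5 / 2 : ℝ) * L ^ 3 := by
    rw [← Real.rpow_natCast, ← Real.rpow_add hL0]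
    norm_num
  rw [h7]
  have h8 : 0 ≤ L ^ 3 := by positivity
  nlinarith

/-- regime B: `m ≤ g / (log g) ^ 12`, not regime A -/
theorem num_B : ∃ g₁ : ℕ, ∀ (g m k d h o n κ s : ℕ) (N : ℝ), g₁ ≤ g → m ≤ 2 * g →
    Data g m k d h o n κ s N →
    (¬ ((h : ℝ) * Real.logb 2 (4 * g) ≤ m / 2) ∨ ¬ (4 * Real.logb 2 g ≤ m)) →
    (m : ℝ) * Real.log g ^ 12 ≤ g →
    N ≤ (m : ℝ) / (g * Real.log g) := by
  obtain ⟨C, hC, hord⟩ := log_order
  obtain ⟨Y₀, hY₀⟩ := exists_prime_not_dvd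
  obtain ⟨L₀, hL₀⟩ := numBAux_ev C Y₀
  have hlog : Filter.Tendsto (fun g : ℕ => Real.log (g : ℝ)) Filter.atTop Filter.atTop :=
    Real.tendsto_log_atTop.comp tendsto_natCast_atTop_atTop
  obtain ⟨g₀, hg₀⟩ := Filter.eventually_atTop.1 (hlog.eventually_ge_atTop L₀)
  refine ⟨max g₀ 16, ?_⟩
  intro g m k d h o n κ s N hg hm D hcase hB
  have hga : g₀ ≤ g := (le_max_left _ _).trans hg
  have hgb : 16 ≤ g := (le_max_right _ _).trans hg
  obtain ⟨hL1, hL2, hL3, hL4⟩ := hL₀ _ (hg₀ g hga)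
  set L := Real.log g with hL
  have hg16 : (16 : ℝ) ≤ g := by exact_mod_cast hgb
  have hg0 : (0 : ℝ) < g := by linarith
  have hLpos : 0 < L := by linarith
  have hm1 : 1 ≤ m := lt_of_le_of_lt (Nat.zero_le _) D.hlt
  have hm1' : (1 : ℝ) ≤ m := by exact_mod_cast hm1
  have hm0 : (0 : ℝ) < m := by linarith
  have hm2 : (m : ℝ) ≤ 2 * g := by exact_mod_cast hm
  -- the size of the prime
  set Y := √((g : ℝ) / (m * L)) with hY
  have hYsq : Y ^ 2 = (g : ℝ) / (m * L) := Real.sq_sqrt (by positivity)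
  have hYL : L ^ (11 / 2 : ℝ) ≤ Y := by
    rw [hY]
    apply Real.le_sqrt_of_sq_le
    rw [← Real.rpow_natCast, ← Real.rpow_mul hLpos.le, le_div_iff₀ (by positivity)]
    have e1 : L ^ (11 / 2 * ((2 : ℕ) : ℝ)) = L ^ 11 := by
      rw [← Real.rpow_natCast L 11]
      norm_num
    rw [e1]
    have e2 : L ^ 11 * ((m : ℝ) * L) = (m : ℝ) * L ^ 12 := by ring
    rw [e2]
    exact hB
  have hYpos : 0 < Y := lt_of_lt_of_le (Real.rpow_pos_of_pos hLpos _) hYL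
  have hYg : Y ^ 2 ≤ g := by
    rw [hYsq, div_le_iff₀ (by positivity)]
    have : (1 : ℝ) ≤ m * L := by nlinarith
    nlinarith
  have hlo : Real.log o ≤ Y / 4 := by
    have h1 := hord g m k d h o n κ s N (by omega) hm D hcase
    linarith
  obtain ⟨q, hq1, hq2, hq3, hq4, hq5⟩ := hY₀ Y (hL2.trans hYL) o D.ho hlo
  have hN := D.hB q hq1 hq2 hq5
  have hq0 : (2 : ℝ) ≤ q := by exact_mod_cast hq1.two_le
  -- the exponential
  have hexp : Real.exp (-(2 * g / (m * (q : ℝ) ^ 2))) ≤ 1 / (g : ℝ) ^ 2 := by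
    have h1 : 2 * L ≤ 2 * g / (m * (q : ℝ) ^ 2) := by
      rw [le_div_iff₀ (by positivity)]
      have h2 : (q : ℝ) ^ 2 ≤ Y ^ 2 := pow_le_pow_left₀ (by linarith) hq4 2
      rw [hYsq, le_div_iff₀ (by positivity)] at h2
      nlinarith
    have h3 : Real.exp (-(2 * L)) = 1 / (g : ℝ) ^ 2 := by
      rw [Real.exp_neg, hL, mul_comm, Real.exp_mul, Real.exp_log hg0, one_div]
      norm_num
    rw [← h3]
    exact Real.exp_le_exp.2 (by linarith)
  have hbase : (1 + ((q : ℝ) - 1) * Real.exp (-(2 * g / (m * (q : ℝ) ^ 2)))) ^ m ≤ 3 := by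
    have h1 : (1 + ((q : ℝ) - 1) * Real.exp (-(2 * g / (m * (q : ℝ) ^ 2)))) ≤
        Real.exp (1 / m) := by
      refine le_trans ?_ (Real.add_one_le_exp _)
      have h2 : ((q : ℝ) - 1) * Real.exp (-(2 * g / (m * (q : ℝ) ^ 2))) ≤
          Y * (1 / (g : ℝ) ^ 2) :=
        mul_le_mul (by linarith) hexp (Real.exp_pos _).le hYpos.le
      have h3 : Y * (1 / (g : ℝ) ^ 2) ≤ 1 / m := by
        rw [mul_one_div, div_le_div_iff₀ (by positivity) hm0, one_mul]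
        have h4 : Y ≤ g / 4 := by
          have h5 : Y ^ 2 ≤ (g / 4) ^ 2 := by nlinarith
          exact le_of_sq_le_sq h5 (by positivity)
        nlinarith
      linarith
    have h6 : (1 + ((q : ℝ) - 1) * Real.exp (-(2 * g / (m * (q : ℝ) ^ 2)))) ^ m ≤
        (Real.exp (1 / m)) ^ m := by
      refine pow_le_pow_left₀ ?_ h1 m
      have := Real.exp_pos (-(2 * g / (m * (q : ℝ) ^ 2)))
      nlinarith
    refine h6.trans ?_
    rw [← Real.exp_nat_mul, mul_one_div_cancel hm0.ne']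
    have := Real.exp_one_lt_d9
    linarith
  -- the final comparison
  have hY25 : 24 * L ^ 2 ≤ Y ^ (2 / 5 : ℝ) := by
    have h1 : (L ^ (11 / 2 : ℝ)) ^ (2 / 5 : ℝ) ≤ Y ^ (2 / 5 : ℝ) :=
      Real.rpow_le_rpow (Real.rpow_nonneg hLpos.le _) hYL (by norm_num)
    have h2 : (L ^ (11 / 2 : ℝ)) ^ (2 / 5 : ℝ) = L ^ (1 / 5 : ℝ) * L ^ 2 := by
      rw [← Real.rpow_mul hLpos.le, ← Real.rpow_natCast L 2, ← Real.rpow_add hLpos]
      norm_num
    rw [h2] at h1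
    refine le_trans ?_ h1
    exact mul_le_mul_of_nonneg_right hL4 (by positivity)
  set z := Y ^ (4 / 5 : ℝ) with hz
  have hz3 : z ^ 3 = Y ^ (2 / 5 : ℝ) * Y ^ 2 := by
    rw [hz, ← Real.rpow_natCast (Y ^ (4 / 5 : ℝ)) 3, ← Real.rpow_mul hYpos.le,
      ← Real.rpow_natCast Y 2, ← Real.rpow_add hYpos]
    norm_num
  have hz0 : 0 < z := Real.rpow_pos_of_pos hYpos _
  have hz2 : 2 ≤ z := by
    have h1 : (1 : ℝ) ≤ Y ^ 2 := by
      have : (1 : ℝ) ≤ L ^ (11 / 2 : ℝ) := Real.one_le_rpow (by linarith) (by norm_num)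
      nlinarith
    have h2 : (24 : ℝ) ≤ z ^ 3 := by
      rw [hz3]
      nlinarith [sq_nonneg L]
    by_contra hcon
    rw [not_le] at hcon
    have h3 : z ^ 3 < 2 ^ 3 := pow_lt_pow_left₀ hcon hz0.le (by norm_num)
    linarith
  have hq1z : z / 2 ≤ (q : ℝ) - 1 := by linarith
  have hq11 : (1 : ℝ) ≤ (q : ℝ) - 1 := by linarith
  have hpow : (z / 2) ^ 3 ≤ ((q : ℝ) - 1) ^ (d + m - h) :=
    (pow_le_pow_left₀ (by positivity) hq1z 3).trans (pow_le_pow_right₀ hq11 D.he)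
  have hz8 : 0 < (z / 2) ^ 3 := by positivity
  have hN1 : N ≤ 3 / (z / 2) ^ 3 := by
    refine hN.trans ?_
    exact div_le_div₀ (by norm_num) hbase hz8 hpow
  refine hN1.trans ?_
  have hgm : (m : ℝ) / (g * L) = 1 / (Y ^ 2 * L ^ 2) := by
    rw [hYsq]
    field_simp
  rw [hgm, div_le_div_iff₀ hz8 (by positivity), one_mul, div_pow, hz3]
  have h0 : 0 < Y ^ 2 := by positivity
  nlinarith

end Pool.Agent.Lib.MP_938ce2_ag_u2
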