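import Mathlib
import Pool.Agent.Lib.MP_938ce2_ag_u2.NumDefs

/-!
Row NumC: regime C.
-/

set_option autoImplicit false
set_option linter.unusedSectionVars false

namespace Pool.Agent.Lib.MP_938ce2_ag_u2

open Finset Real

namespace NumCAux

theorem exists_large : ∃ g₁ : ℕ, ∀ g : ℕ, g₁ ≤ g →
    1 ≤ Real.log g ∧ 200 * Real.log g ^ 44 ≤ (g : ℝ) ^ (1 / 8 : ℝ) := by
  have h1 : ∀ᶠ x : ℝ in Filter.atTop, 1 ≤ Real.log x :=
    Real.tendsto_log_atTop.eventually_ge_atTop 1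
  have h2 := (isLittleO_log_rpow_rpow_atTop (44 : ℝ) (by norm_num : (0 : ℝ) < 1 / 8)).bound
    (by norm_num : (0 : ℝ) < 1 / 200)
  have h3 := (h1.and (h2.and (Filter.eventually_ge_atTop (0 : ℝ))))
  have h4 := tendsto_natCast_atTop_atTop.eventually h3
  obtain ⟨g₁, hg⟩ := Filter.eventually_atTop.1 h4
  refine ⟨g₁, fun g hgg => ?_⟩
  obtain ⟨h5, h6, h7⟩ := hg g hgg
  refine ⟨h5, ?_⟩
  have e : Real.log (g : ℝ) ^ (44 : ℝ) = Real.log (g : ℝ) ^ (44 : ℕ) := by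
    rw [← Real.rpow_natCast]
    norm_num
  rw [e, Real.norm_of_nonneg (by positivity), Real.norm_of_nonneg (by positivity)] at h6
  linarith

end NumCAux

/-- regime C: `m > g / (log g) ^ 12`, not regime A -/
theorem num_C : ∃ g₁ : ℕ, ∀ (g m k d h o n κ s : ℕ) (N : ℝ), g₁ ≤ g → k * m ≤ 2 * g →
    Data g m k d h o n κ s N →
    (¬ ((h : ℝ) * Real.logb 2 (4 * g) ≤ m / 2) ∨ ¬ (4 * Real.logb 2 g ≤ m)) →
    (g : ℝ) < m * Real.log g ^ 12 →
    N ≤ 1 / Real.log g ^ 13 := by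
  obtain ⟨g₁, hg₁⟩ := NumCAux.exists_large
  refine ⟨g₁, fun g m k d h o n κ s N hg hkm D hnA hm => ?_⟩
  obtain ⟨hL, hu⟩ := hg₁ g hg
  set L := Real.log (g : ℝ) with hLdef
  set u := (g : ℝ) ^ (1 / 8 : ℝ) with hudef
  have hg0 : (0 : ℝ) < g := by
    rcases Nat.eq_zero_or_pos g with h0 | h0
    · rw [hLdef, h0] at hL
      norm_num at hL
    · exact_mod_cast h0
  have hL0 : 0 < L := by linarith
  have hL44 : 1 ≤ L ^ 44 := one_le_pow₀ hL
  have hu1 : 1 ≤ u := by linarith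
  have hu0 : 0 < u := by linarith
  have hu8 : u ^ 8 = g := by
    rw [hudef, ← Real.rpow_natCast, ← Real.rpow_mul hg0.le]
    norm_num
  have hu2 : (g : ℝ) ^ (1 / 4 : ℝ) = u ^ 2 := by
    rw [hudef, ← Real.rpow_natCast, ← Real.rpow_mul hg0.le]
    norm_num
  have hu4 : √(g : ℝ) = u ^ 4 := by
    rw [← hu8, show u ^ 8 = (u ^ 4) ^ 2 by ring, Real.sqrt_sq (by positivity)]
  -- logarithms to base two
  have hl2 : (1 / 2 : ℝ) < Real.log 2 := by
    have := Real.log_two_gt_d9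
    linarith
  have hlb1 : Real.logb 2 g ≤ 2 * L := by
    unfold Real.logb
    rw [div_le_iff₀ (by linarith)]
    nlinarith
  have hlb2 : Real.logb 2 (4 * g) ≤ 4 * L := by
    have e : Real.logb 2 (4 * (g : ℝ)) = 2 + Real.logb 2 g := by
      rw [Real.logb_mul (by norm_num) hg0.ne']
      congr 1
      rw [show (4 : ℝ) = 2 ^ (2 : ℝ) by norm_num, Real.logb_rpow (by norm_num) (by norm_num)]
    rw [e]
    linarith
  -- `m` is large
  have hg8 : 8 * L ^ 13 ≤ g := by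
    have h1 : L ^ 13 ≤ L ^ 44 := pow_le_pow_right₀ hL (by norm_num)
    have h2 : u ≤ u ^ 8 := by
      calc u = u ^ 1 := (pow_one u).symm
        _ ≤ u ^ 8 := pow_le_pow_right₀ hu1 (by norm_num)
    have h3 : (0 : ℝ) ≤ L ^ 44 := by positivity
    rw [← hu8]
    linarith
  have hm8 : 8 * L < m := by
    have h1 : 8 * L ^ 13 < m * L ^ 12 := lt_of_le_of_lt hg8 hm
    have h2 : 8 * L * L ^ 12 < m * L ^ 12 := by
      calc 8 * L * L ^ 12 = 8 * L ^ 13 := by ring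
        _ < _ := h1
    exact lt_of_mul_lt_mul_right h2 (by positivity)
  have hm0 : (0 : ℝ) < m := by linarith
  have hA : (m : ℝ) / 2 < h * Real.logb 2 (4 * g) := by
    rcases hnA with h1 | h1
    · exact not_le.1 h1
    · exact absurd (by linarith) h1
  have hh0 : (0 : ℝ) ≤ h := Nat.cast_nonneg h
  have hA2 : (m : ℝ) < 8 * L * h := by
    have h1 : (h : ℝ) * Real.logb 2 (4 * g) ≤ h * (4 * L) := mul_le_mul_of_nonneg_left hlb2 hh0
    linarith
  -- the quantities `n`, `κ`, `s`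
  have hκ1 : (1 : ℝ) ≤ κ := by exact_mod_cast D.hκ
  have hs1 : (1 : ℝ) ≤ s := by exact_mod_cast D.hs
  have hκn : (κ : ℝ) ≤ n := by exact_mod_cast D.hκn
  have hn0 : (0 : ℝ) < n := by linarith
  have hr : (h : ℝ) * n ≤ κ * m := by exact_mod_cast D.hr
  have hκs : (κ : ℝ) ≤ k * s := by exact_mod_cast D.hκs
  have hkm' : (k : ℝ) * m ≤ 2 * g := by exact_mod_cast hkm
  have hn8 : (n : ℝ) < 8 * L * κ := by
    have h1 : (m : ℝ) * n < 8 * L * h * n := mul_lt_mul_of_pos_right hA2 hn0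
    have h2 : 8 * L * (h * n) ≤ 8 * L * (κ * m) := mul_le_mul_of_nonneg_left hr (by positivity)
    have h3 : (m : ℝ) * n < m * (8 * L * κ) := by nlinarith
    exact lt_of_mul_lt_mul_left h3 hm0.le
  have hk2 : (k : ℝ) < 2 * L ^ 12 := by
    have h1 : (k : ℝ) * m < 2 * L ^ 12 * m := by linarith
    exact lt_of_mul_lt_mul_right h1 hm0.le
  have hκs2 : (κ : ℝ) ≤ 2 * L ^ 12 * s := by
    have h1 : (k : ℝ) * s ≤ 2 * L ^ 12 * s := mul_le_mul_of_nonneg_right hk2.le (by linarith)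
    linarith
  have hC1 := D.hC1
  have hC2 := D.hC2 (1 / u ^ 2) (by positivity)
  rw [hu2] at hC1
  have hst : √(1 / u ^ 2) = 1 / u := by
    rw [show 1 / u ^ 2 = (1 / u) ^ 2 by ring, Real.sqrt_sq (by positivity)]
  rw [hst, hu4] at hC2
  by_cases hcase : (9 / 2) * (n : ℝ) * κ * L ^ 13 ≤ u ^ 2
  · refine hC1.trans ?_
    rw [div_le_div_iff₀ (by positivity) (by positivity)]
    linarith
  · rw [not_le] at hcase
    -- `κ` is large
    have hκ2 : u < 6 * L ^ 7 * κ := by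
      have h1 : (n : ℝ) * κ * L ^ 13 ≤ 8 * L * κ * κ * L ^ 13 := by
        have : (n : ℝ) * κ ≤ 8 * L * κ * κ := mul_le_mul_of_nonneg_right hn8.le (by linarith)
        exact mul_le_mul_of_nonneg_right this (by positivity)
      have h2 : u ^ 2 < (6 * L ^ 7 * κ) ^ 2 := by
        calc u ^ 2 < (9 / 2) * (n : ℝ) * κ * L ^ 13 := hcase
          _ ≤ (9 / 2) * (8 * L * κ * κ * L ^ 13) := by linarith
          _ = (6 * L ^ 7 * κ) ^ 2 := by ring
      exact lt_of_pow_lt_pow_left₀ 2 (by positivity) h2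
    -- the second estimate
    have h1 : (n : ℝ) * κ * (1 / u ^ 2) ≤ 8 * L ^ 7 * κ ^ 2 / u := by
      have e1 : (n : ℝ) * κ ≤ 8 * L ^ 7 * κ ^ 2 := by
        have e2 : L ≤ L ^ 7 := by
          calc L = L ^ 1 := (pow_one L).symm
            _ ≤ L ^ 7 := pow_le_pow_right₀ hL (by norm_num)
        calc (n : ℝ) * κ ≤ 8 * L * κ * κ := mul_le_mul_of_nonneg_right hn8.le (by linarith)
          _ = L * (8 * κ ^ 2) := by ring
          _ ≤ L ^ 7 * (8 * κ ^ 2) := mul_le_mul_of_nonneg_right e2 (by positivity)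
          _ = _ := by ring
      rw [mul_one_div, div_le_div_iff₀ (by positivity) hu0]
      have e3 : u ≤ u ^ 2 := by
        calc u = u ^ 1 := (pow_one u).symm
          _ ≤ u ^ 2 := pow_le_pow_right₀ hu1 (by norm_num)
      exact mul_le_mul e1 e3 hu0.le (by positivity)
    have h2 : (κ : ℝ) / 4 ≤ (3 / 2) * L ^ 7 * κ ^ 2 / u := by
      rw [div_le_div_iff₀ (by norm_num) hu0]
      nlinarith
    have h3 : 5 * (n : ℝ) * κ / (u ^ 4 * (1 / u)) ≤ 40 * L ^ 7 * κ ^ 2 / u := by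
      have e0 : u ^ 4 * (1 / u) = u ^ 3 := by
        field_simp
      rw [e0]
      have e1 : 5 * (n : ℝ) * κ ≤ 40 * L ^ 7 * κ ^ 2 := by
        have e2 : L ≤ L ^ 7 := by
          calc L = L ^ 1 := (pow_one L).symm
            _ ≤ L ^ 7 := pow_le_pow_right₀ hL (by norm_num)
        calc 5 * (n : ℝ) * κ = 5 * ((n : ℝ) * κ) := by ring
          _ ≤ 5 * (8 * L * κ * κ) := by
            have := mul_le_mul_of_nonneg_right hn8.le (by linarith : (0 : ℝ) ≤ κ)
            linarith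
          _ = L * (40 * κ ^ 2) := by ring
          _ ≤ L ^ 7 * (40 * κ ^ 2) := mul_le_mul_of_nonneg_right e2 (by positivity)
          _ = _ := by ring
      rw [div_le_div_iff₀ (by positivity) hu0]
      have e3 : u ≤ u ^ 3 := by
        calc u = u ^ 1 := (pow_one u).symm
          _ ≤ u ^ 3 := pow_le_pow_right₀ hu1 (by norm_num)
      exact mul_le_mul e1 e3 hu0.le (by positivity)
    have h4 : N * (s : ℝ) ^ 2 ≤ 50 * L ^ 7 * κ ^ 2 / u := by
      have e : 8 * L ^ 7 * (κ : ℝ) ^ 2 / u + (3 / 2) * L ^ 7 * κ ^ 2 / u +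
          40 * L ^ 7 * κ ^ 2 / u = (99 / 2) * (L ^ 7 * κ ^ 2 / u) := by ring
      have e2 : 50 * L ^ 7 * (κ : ℝ) ^ 2 / u = 50 * (L ^ 7 * κ ^ 2 / u) := by ring
      have e3 : 0 ≤ L ^ 7 * (κ : ℝ) ^ 2 / u := by positivity
      rw [e2]
      linarith
    have h5 : (κ : ℝ) ^ 2 ≤ 4 * L ^ 24 * s ^ 2 := by
      calc (κ : ℝ) ^ 2 ≤ (2 * L ^ 12 * s) ^ 2 := pow_le_pow_left₀ (by linarith) hκs2 2
        _ = _ := by ring
    have h6 : N * (s : ℝ) ^ 2 ≤ (200 * L ^ 31 / u) * s ^ 2 := by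
      refine h4.trans ?_
      calc 50 * L ^ 7 * (κ : ℝ) ^ 2 / u = (50 * L ^ 7 / u) * κ ^ 2 := by ring
        _ ≤ (50 * L ^ 7 / u) * (4 * L ^ 24 * s ^ 2) :=
          mul_le_mul_of_nonneg_left h5 (by positivity)
        _ = _ := by ring
    have h7 : N ≤ 200 * L ^ 31 / u := le_of_mul_le_mul_right h6 (by positivity)
    refine h7.trans ?_
    rw [div_le_div_iff₀ hu0 (by positivity)]
    calc 200 * L ^ 31 * L ^ 13 = 200 * L ^ 44 := by ring
      _ ≤ u := hu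
      _ = 1 * u := (one_mul u).symm

end Pool.Agent.Lib.MP_938ce2_ag_u2
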