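import Mathlib
import Pool.Agent.Lib.MP_938ce2_ag_u2.NumA
import Pool.Agent.Lib.MP_938ce2_ag_u2.NumB
import Pool.Agent.Lib.MP_938ce2_ag_u2.NumC

/-!
Row NumSum: the sum over all types.
-/

set_option autoImplicit false
set_option linter.unusedSectionVars false

namespace Pool.Agent.Lib.MP_938ce2_ag_u2

open Finset Real

/-- the sum over all types -/
theorem numericV : ∀ ε : ℝ, 0 < ε → ∃ g₀ : ℕ, ∀ (ι : Type) [Fintype ι] (g : ℕ)
    (m k d h o n κ s : ι → ℕ) (N : ι → ℝ), g₀ ≤ g → ∑ i, k i * m i ≤ 2 * g →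
    (∀ i, Data g (m i) (k i) (d i) (h i) (o i) (n i) (κ i) (s i) (N i)) →
    ∑ i, N i ≤ ε := by
  intro ε hε
  obtain ⟨g₁, hg₁⟩ := num_B
  obtain ⟨g₂, hg₂⟩ := num_C
  have hlog : Filter.Tendsto (fun g : ℕ => Real.log (g : ℝ)) Filter.atTop Filter.atTop :=
    Real.tendsto_log_atTop.comp tendsto_natCast_atTop_atTop
  obtain ⟨g₃, hg₃⟩ := Filter.eventually_atTop.1
    ((hlog.eventually_ge_atTop (4 / ε)).and (hlog.eventually_ge_atTop 1))
  refine ⟨max (max g₁ g₂) (max g₃ (⌈4 / ε⌉₊ + 2)), ?_⟩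
  intro ι _ g m k d h o n κ s N hg hsum D
  have hga : g₁ ≤ g := ((le_max_left _ _).trans (le_max_left _ _)).trans hg
  have hgb : g₂ ≤ g := ((le_max_right _ _).trans (le_max_left _ _)).trans hg
  have hgc : g₃ ≤ g := ((le_max_left _ _).trans (le_max_right _ _)).trans hg
  have hgd : ⌈4 / ε⌉₊ + 2 ≤ g := ((le_max_right _ _).trans (le_max_right _ _)).trans hg
  obtain ⟨hL1, hL2⟩ := hg₃ g hgc
  set L := Real.log (g : ℝ) with hL
  have hg1 : 1 ≤ g := by omega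
  have hg1' : (1 : ℝ) ≤ g := by exact_mod_cast hg1
  have hg0 : (0 : ℝ) < g := by linarith
  have hL0 : 0 < L := by linarith
  have hge : 4 / ε ≤ g := by
    refine (Nat.le_ceil _).trans ?_
    exact_mod_cast (show ⌈4 / ε⌉₊ ≤ g by omega)
  have hkm : ∀ i, k i * m i ≤ 2 * g := fun i =>
    (Finset.single_le_sum (f := fun i => k i * m i) (fun _ _ => Nat.zero_le _)
      (Finset.mem_univ i)).trans hsum
  have hN : ∀ i, N i ≤ ((k i * m i : ℕ) : ℝ) * (1 / (g : ℝ) ^ 2 + 1 / (g * L)) := by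
    intro i
    have hk1 : 1 ≤ k i := (D i).hk
    have hm1 : 1 ≤ m i := lt_of_le_of_lt (Nat.zero_le _) (D i).hlt
    have hmk : m i ≤ k i * m i := Nat.le_mul_of_pos_left _ hk1
    have hmk' : ((m i : ℕ) : ℝ) ≤ ((k i * m i : ℕ) : ℝ) := by exact_mod_cast hmk
    have hw1 : (1 : ℝ) ≤ ((k i * m i : ℕ) : ℝ) := by exact_mod_cast hm1.trans hmk
    have hp1 : 0 < 1 / (g : ℝ) ^ 2 := by positivity
    have hp2 : 0 < 1 / ((g : ℝ) * L) := by positivity
    have hfin : ((m i : ℕ) : ℝ) / (g * L) ≤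
        ((k i * m i : ℕ) : ℝ) * (1 / (g : ℝ) ^ 2 + 1 / (g * L)) := by
      have h1 : ((m i : ℕ) : ℝ) / (g * L) = ((m i : ℕ) : ℝ) * (1 / (g * L)) := by ring
      rw [h1, mul_add]
      have h2 := mul_le_mul_of_nonneg_right hmk' hp2.le
      nlinarith
    by_cases hA : ((h i : ℝ) * Real.logb 2 (4 * g) ≤ (m i : ℝ) / 2 ∧ 4 * Real.logb 2 g ≤ m i)
    · refine (num_A g _ _ _ _ _ _ _ _ _ hg1 (D i) hA.1 hA.2).trans ?_
      nlinarith
    · rw [not_and_or] at hA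
      by_cases hB : (m i : ℝ) * Real.log g ^ 12 ≤ g
      · exact (hg₁ g _ _ _ _ _ _ _ _ _ hga (hmk.trans (hkm i)) (D i) hA hB).trans hfin
      · rw [not_le] at hB
        refine (hg₂ g _ _ _ _ _ _ _ _ _ hgb (hkm i) (D i) hA hB).trans (le_trans ?_ hfin)
        rw [← hL] at hB ⊢
        rw [div_le_div_iff₀ (by positivity) (by positivity), one_mul]
        nlinarith [mul_lt_mul_of_pos_right hB hL0]
  calc ∑ i, N i ≤ ∑ i, ((k i * m i : ℕ) : ℝ) * (1 / (g : ℝ) ^ 2 + 1 / (g * L)) :=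
        Finset.sum_le_sum fun i _ => hN i
    _ = ((∑ i, k i * m i : ℕ) : ℝ) * (1 / (g : ℝ) ^ 2 + 1 / (g * L)) := by
        rw [← Finset.sum_mul, Nat.cast_sum]
    _ ≤ (2 * g) * (1 / (g : ℝ) ^ 2 + 1 / (g * L)) := by
        have h1 : ((∑ i, k i * m i : ℕ) : ℝ) ≤ 2 * g := by exact_mod_cast hsum
        exact mul_le_mul_of_nonneg_right h1 (by positivity)
    _ = 2 / g + 2 / L := by
        field_simp
    _ ≤ ε := by
        have h1 : 2 / (g : ℝ) ≤ ε / 2 := by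
          rw [div_le_iff₀ hg0]
          rw [div_le_iff₀ hε] at hge
          linarith
        have h2 : 2 / L ≤ ε / 2 := by
          rw [div_le_iff₀ hL0]
          rw [div_le_iff₀ hε] at hL1
          linarith
        linarith

end Pool.Agent.Lib.MP_938ce2_ag_u2
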