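import Mathlib
import Pool.Agent.Lib.MP_938ce2_ag_h67.Char

/-!
Definitions for the random matrices `∑ ε_x A_x`.
-/

set_option autoImplicit false
set_option linter.unusedSectionVars false

namespace Pool.Agent.Lib.MP_938ce2_ag_u2

open Finset Module Matrix
open Pool.Agent.Lib.MP_938ce2_ag_h67 (sg)

/-- the resolvent of `M* M` at `-t` -/
noncomputable def res {n κ : ℕ} (M : Matrix (Fin n) (Fin κ) ℂ) (t : ℝ) :
    Matrix (Fin κ) (Fin κ) ℂ := (Mᴴ * M + (t : ℂ) • 1)⁻¹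

/-- the trace of the resolvent -/
noncomputable def th {n κ : ℕ} (M : Matrix (Fin n) (Fin κ) ℂ) (t : ℝ) : ℝ := (res M t).trace.re

/-- the trace of the square of the resolvent -/
noncomputable def th2 {n κ : ℕ} (M : Matrix (Fin n) (Fin κ) ℂ) (t : ℝ) : ℝ :=
  (res M t * res M t).trace.re

/-- the dimension of the kernel -/
noncomputable def kd {n κ : ℕ} (M : Matrix (Fin n) (Fin κ) ℂ) : ℕ :=
  finrank ℂ (LinearMap.ker M.mulVecLin)

/-- the random matrix -/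
noncomputable def MM {Ω : Type} [Fintype Ω] [DecidableEq Ω] {n κ : ℕ}
    (A : Ω → Matrix (Fin n) (Fin κ) ℂ) (η : Finset Ω) : Matrix (Fin n) (Fin κ) ℂ :=
  ∑ x, ((sg η x : ℤ) : ℂ) • A x

/-- the conditions on the matrices `A x` -/
structure Frame0 {Ω : Type} [Fintype Ω] {n κ : ℕ} (A : Ω → Matrix (Fin n) (Fin κ) ℂ) : Prop where
  iso : ∀ x, (A x)ᴴ * A x = ((Fintype.card Ω : ℂ)⁻¹) • 1
  avg : ∀ Y : Matrix (Fin κ) (Fin κ) ℂ, ∑ x, A x * Y * (A x)ᴴ = (Y.trace / (n : ℂ)) • 1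
  tw : ∀ N : Matrix (Fin n) (Fin κ) ℂ,
    ‖∑ x, ((A x)ᴴ * N * (A x)ᴴ * N).trace‖ ≤ (N * Nᴴ).trace.re / n

end Pool.Agent.Lib.MP_938ce2_ag_u2
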