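import Mathlib
import Pool.Agent.Lib.MP_938ce2_ag_u2.Defs
import Pool.Agent.Lib.MP_938ce2_ag_u2.TDefs

/-!
Irreducible unitary matrix representations with fixed vectors of the point stabilizers.
-/

set_option autoImplicit false
set_option linter.unusedSectionVars false

namespace Pool.Agent.Lib.MP_938ce2_ag_u2

open Finset Module Matrix

/-- An irreducible unitary representation `π` of `G` of dimension `n` with `π c = -1`, and equivariant
scaled isometries `A x` from `ℂ ^ κ`. -/
structure Frame (G X : Type) [Group G] [MulAction G X] (c : G) (g : ℕ) {n κ : ℕ}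
    (π : G →* Matrix (Fin n) (Fin n) ℂ) (A : X → Matrix (Fin n) (Fin κ) ℂ) : Prop where
  unit : ∀ a, (π a)ᴴ = π a⁻¹
  schur : ∀ Y : Matrix (Fin n) (Fin n) ℂ, (∀ a, π a * Y = Y * π a) → ∃ z : ℂ, Y = z • 1
  odd : π c = -1
  eqv : ∀ (a : G) (x : X), A (a • x) = π a * A x
  iso : ∀ x, (A x)ᴴ * A x = ((g : ℂ)⁻¹) • 1

end Pool.Agent.Lib.MP_938ce2_ag_u2
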