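import Mathlib
import Pool.Agent.Lib.MP_938ce2_ag_u2.FrameDefs

/-!
Row FrameRep: the unitary matrix representation of a submodule of the complex functions.
-/

set_option autoImplicit false
set_option linter.unusedSectionVars false

namespace Pool.Agent.Lib.MP_938ce2_ag_u2

open Finset Module MonoidAlgebra Matrix
open Pool.Agent.Lib.MP_938ce2_ag_h67 (sg VV ev mkV Orb red kerM)
open Pool.Agent.Lib.MP_938ce2_ag_h60 (CMType)

variable {G X : Type} [Group G] [Fintype G] [MulAction G X] [Fintype X] [DecidableEq X] {c : G}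
  {g : ℕ}

/-- the columns of `B` are an orthonormal basis of `W` and `π` is the matrix of the action of `G` -/
structure RepOf (W : Submodule (MonoidAlgebra ℂ G) (VV ℂ G X)) {n : ℕ} (B : Matrix X (Fin n) ℂ)
    (π : G →* Matrix (Fin n) (Fin n) ℂ) : Prop where
  orth : Bᴴ * B = 1
  mem : ∀ v : VV ℂ G X, v ∈ W ↔ ∃ z : Fin n → ℂ, v = mkV G (B.mulVec z)
  eqv : ∀ (a : G) (z : Fin n → ℂ), MonoidAlgebra.single a (1 : ℂ) • mkV G (B.mulVec z)
    = mkV G (B.mulVec ((π a).mulVec z))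
  unit : ∀ a, (π a)ᴴ = π a⁻¹

namespace FrameRepAux

/-- the translated matrix -/
def tr (a : G) {n : ℕ} (B : Matrix X (Fin n) ℂ) : Matrix X (Fin n) ℂ := fun x i => B (a⁻¹ • x) i

lemma tr_mulVec (a : G) {n : ℕ} (B : Matrix X (Fin n) ℂ) (z : Fin n → ℂ) (x : X) :
    (tr a B).mulVec z x = B.mulVec z (a⁻¹ • x) := rfl

lemma tr_mul (a : G) {n m : ℕ} (B : Matrix X (Fin n) ℂ) (Y : Matrix (Fin n) (Fin m) ℂ) :
    tr a B * Y = tr a (B * Y) := rfl

lemma tr_one {n : ℕ} (B : Matrix X (Fin n) ℂ) : tr (1 : G) B = B := by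
  funext x i
  show B ((1 : G)⁻¹ • x) i = B x i
  rw [inv_one, one_smul]

lemma tr_tr (a b : G) {n : ℕ} (B : Matrix X (Fin n) ℂ) : tr a (tr b B) = tr (a * b) B := by
  funext x i
  show B (b⁻¹ • a⁻¹ • x) i = B ((a * b)⁻¹ • x) i
  rw [_root_.mul_inv_rev, mul_smul]

lemma tr_adj (a : G) {n : ℕ} (B : Matrix X (Fin n) ℂ) : (Bᴴ * tr a B)ᴴ = Bᴴ * tr a⁻¹ B := by
  rw [Matrix.conjTranspose_mul, Matrix.conjTranspose_conjTranspose]
  ext i j
  rw [Matrix.mul_apply, Matrix.mul_apply]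
  rw [← Equiv.sum_comp (MulAction.toPerm a) (fun x => (tr a B)ᴴ i x * B x j)]
  refine Finset.sum_congr rfl fun x _ => ?_
  rw [MulAction.toPerm_apply, Matrix.conjTranspose_apply, Matrix.conjTranspose_apply]
  show star (B (a⁻¹ • a • x) i) * B (a • x) j = star (B x i) * B (a⁻¹⁻¹ • x) j
  rw [inv_smul_smul, inv_inv]

lemma smul_mkV (a : G) {n : ℕ} (B : Matrix X (Fin n) ℂ) (z : Fin n → ℂ) :
    MonoidAlgebra.single a (1 : ℂ) • mkV G (B.mulVec z) = mkV G ((tr a B).mulVec z) := by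
  apply Pool.Agent.Lib.MP_938ce2_ag_h67.ev_ext
  intro x
  rw [Pool.Agent.Lib.MP_938ce2_ag_h67.ev_single, one_mul,
    Pool.Agent.Lib.MP_938ce2_ag_h67.ev_mkV, Pool.Agent.Lib.MP_938ce2_ag_h67.ev_mkV, tr_mulVec]

lemma adj_mulVec {n : ℕ} {B : Matrix X (Fin n) ℂ} (hB : Bᴴ * B = 1) (z : Fin n → ℂ) :
    Bᴴ.mulVec (B.mulVec z) = z := by
  rw [Matrix.mulVec_mulVec, hB, Matrix.one_mulVec]

lemma mulVec_inj {n : ℕ} {B : Matrix X (Fin n) ℂ} (hB : Bᴴ * B = 1) {z w : Fin n → ℂ}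
    (h : B.mulVec z = B.mulVec w) : z = w := by
  rw [← adj_mulVec hB z, h, adj_mulVec hB]

/-- an orthonormal basis of `W` -/
lemma exists_basis (W : Submodule (MonoidAlgebra ℂ G) (VV ℂ G X)) :
    ∃ B : Matrix X (Fin (finrank ℂ W)) ℂ, Bᴴ * B = 1 ∧
      ∀ v : VV ℂ G X, v ∈ W ↔ ∃ z : Fin (finrank ℂ W) → ℂ, v = mkV G (B.mulVec z) := by
  let e : VV ℂ G X ≃ₗ[ℂ] EuclideanSpace ℂ X :=
    (mkV G : (X → ℂ) ≃ₗ[ℂ] VV ℂ G X).symm.trans (WithLp.linearEquiv 2 ℂ (X → ℂ)).symm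
  let S : Submodule ℂ (EuclideanSpace ℂ X) := (W.restrictScalars ℂ).map e.toLinearMap
  have hS : finrank ℂ S = finrank ℂ W := by
    have h1 : finrank ℂ S = finrank ℂ (W.restrictScalars ℂ) :=
      LinearEquiv.finrank_map_eq e (W.restrictScalars ℂ)
    rw [h1]
    rfl
  let b : OrthonormalBasis (Fin (finrank ℂ W)) ℂ S :=
    (stdOrthonormalBasis ℂ S).reindex (finCongr hS)
  have hsum : ∀ z : Fin (finrank ℂ W) → ℂ,
      e (mkV G ((Matrix.of fun x i => (b i : EuclideanSpace ℂ X) x).mulVec z)) =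
        ∑ i, z i • (b i : EuclideanSpace ℂ X) := by
    intro z
    ext x
    have h1 : (e (mkV G ((Matrix.of fun x i => (b i : EuclideanSpace ℂ X) x).mulVec z))) x =
        ∑ i, (b i : EuclideanSpace ℂ X) x * z i := rfl
    rw [h1, WithLp.ofLp_sum, Finset.sum_apply]
    refine Finset.sum_congr rfl fun i _ => ?_
    rw [PiLp.smul_apply, smul_eq_mul, mul_comm]
  refine ⟨Matrix.of fun x i => (b i : EuclideanSpace ℂ X) x, ?_, fun v => ⟨fun hv => ?_, ?_⟩⟩
  · ext i j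
    have h1 := orthonormal_iff_ite.mp b.orthonormal i j
    rw [Submodule.coe_inner, PiLp.inner_apply] at h1
    rw [Matrix.mul_apply, Matrix.one_apply]
    rw [← h1]
    refine Finset.sum_congr rfl fun x _ => ?_
    rw [Matrix.conjTranspose_apply, Matrix.of_apply, Matrix.of_apply, RCLike.inner_apply, mul_comm]
    rfl
  · have hv' : e v ∈ S := ⟨v, hv, rfl⟩
    refine ⟨fun i => b.repr ⟨e v, hv'⟩ i, ?_⟩
    apply e.injective
    rw [hsum]
    have h1 : ((∑ i, b.repr ⟨e v, hv'⟩ i • b i : S) : EuclideanSpace ℂ X) = e v :=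
      congrArg Subtype.val (b.sum_repr ⟨e v, hv'⟩)
    refine h1.symm.trans ?_
    rw [Submodule.coe_sum]
    rfl
  · rintro ⟨z, rfl⟩
    have h1 : e (mkV G ((Matrix.of fun x i => (b i : EuclideanSpace ℂ X) x).mulVec z)) ∈ S := by
      rw [hsum]
      exact Submodule.sum_mem _ fun i _ => Submodule.smul_mem _ _ (b i).2
    obtain ⟨v, hv, hv'⟩ := h1
    have h2 := e.injective hv'
    rw [← h2]
    exact hv

end FrameRepAux

open FrameRepAux

theorem exists_rep (W : Submodule (MonoidAlgebra ℂ G) (VV ℂ G X)) :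
    ∃ (B : Matrix X (Fin (finrank ℂ W)) ℂ)
      (π : G →* Matrix (Fin (finrank ℂ W)) (Fin (finrank ℂ W)) ℂ), RepOf W B π := by
  obtain ⟨B, hB, hW⟩ := exists_basis W
  -- the projection fixes `W`
  have hproj : ∀ v : Fin (finrank ℂ W) → ℂ, ∀ a : G,
      (B * (Bᴴ * tr a B)).mulVec v = (tr a B).mulVec v := by
    intro v a
    have h1 : mkV G ((tr a B).mulVec v) ∈ W := by
      rw [← smul_mkV]
      exact Submodule.smul_mem _ _ ((hW _).2 ⟨v, rfl⟩)
    obtain ⟨z, hz⟩ := (hW _).1 h1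
    have h2 : (tr a B).mulVec v = B.mulVec z := (mkV G).injective hz
    rw [← Matrix.mulVec_mulVec, ← Matrix.mulVec_mulVec, h2, adj_mulVec hB]
  have hproj' : ∀ a : G, B * (Bᴴ * tr a B) = tr a B := by
    intro a
    apply Matrix.ext_of_mulVec_single
    intro i
    exact hproj _ a
  let π : G →* Matrix (Fin (finrank ℂ W)) (Fin (finrank ℂ W)) ℂ :=
    { toFun := fun a => Bᴴ * tr a B
      map_one' := by rw [tr_one, hB]
      map_mul' := by
        intro a b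
        rw [Matrix.mul_assoc, tr_mul, hproj', tr_tr] }
  refine ⟨B, π, hB, hW, fun a z => ?_, fun a => tr_adj a B⟩
  rw [smul_mkV]
  congr 1
  show (tr a B).mulVec z = B.mulVec ((Bᴴ * tr a B).mulVec z)
  rw [Matrix.mulVec_mulVec, hproj']

/-- Schur's lemma -/
theorem schur_of {W : Submodule (MonoidAlgebra ℂ G) (VV ℂ G X)} {n : ℕ} {B : Matrix X (Fin n) ℂ}
    {π : G →* Matrix (Fin n) (Fin n) ℂ} (h : RepOf W B π)
    (hW : IsSimpleModule (MonoidAlgebra ℂ G) W) (Y : Matrix (Fin n) (Fin n) ℂ)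
    (hY : ∀ a, π a * Y = Y * π a) : ∃ z : ℂ, Y = z • 1 := by
  have hmem : ∀ z : Fin n → ℂ, mkV G (B.mulVec z) ∈ W := fun z => (h.mem _).2 ⟨z, rfl⟩
  let f : W →ₗ[ℂ] W :=
    { toFun := fun v => ⟨mkV G (B.mulVec (Y.mulVec (Bᴴ.mulVec ((mkV G).symm (v : VV ℂ G X))))),
        hmem _⟩
      map_add' := by
        intro v w
        apply Subtype.ext
        show mkV G _ = mkV G _ + mkV G _
        rw [← map_add, Submodule.coe_add, map_add, Matrix.mulVec_add, Matrix.mulVec_add,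
          Matrix.mulVec_add]
      map_smul' := by
        intro a v
        apply Subtype.ext
        show mkV G _ = a • mkV G _
        rw [← map_smul, Submodule.coe_smul_of_tower, map_smul, Matrix.mulVec_smul,
          Matrix.mulVec_smul, Matrix.mulVec_smul] }
  have hf : ∀ z : Fin n → ℂ, f ⟨mkV G (B.mulVec z), hmem z⟩ =
      ⟨mkV G (B.mulVec (Y.mulVec z)), hmem _⟩ := by
    intro z
    apply Subtype.ext
    show mkV G (B.mulVec (Y.mulVec (Bᴴ.mulVec ((mkV G).symm (mkV G (B.mulVec z)))))) = _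
    rw [LinearEquiv.symm_apply_apply, adj_mulVec h.orth]
  have hcomm : ∀ (a : G) (v : W), f (MonoidAlgebra.single a (1 : ℂ) • v) =
      MonoidAlgebra.single a (1 : ℂ) • f v := by
    intro a v
    obtain ⟨z, hz⟩ := (h.mem _).1 v.2
    have hv : v = ⟨mkV G (B.mulVec z), hmem z⟩ := Subtype.ext hz
    have h1 : MonoidAlgebra.single a (1 : ℂ) • v =
        ⟨mkV G (B.mulVec ((π a).mulVec z)), hmem _⟩ := by
      apply Subtype.ext
      rw [Submodule.coe_smul, hz, h.eqv]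
    rw [h1, hf, hv, hf]
    apply Subtype.ext
    rw [Submodule.coe_smul]
    show mkV G _ = MonoidAlgebra.single a (1 : ℂ) • mkV G _
    have h5 : Y.mulVec ((π a).mulVec z) = (π a).mulVec (Y.mulVec z) := by
      rw [Matrix.mulVec_mulVec, Matrix.mulVec_mulVec, hY]
    rw [h.eqv, h5]
  have hfin : Module.Finite ℂ W :=
    Module.Finite.of_injective (W.subtype.restrictScalars ℂ) Subtype.val_injective
  have hbij := IsSimpleModule.algebraMap_end_bijective_of_isAlgClosed (k := ℂ)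
    (A := MonoidAlgebra ℂ G) (V := W)
  obtain ⟨z, hz⟩ := hbij.2 (MonoidAlgebra.equivariantOfLinearOfComm f hcomm)
  refine ⟨z, ?_⟩
  apply Matrix.ext_of_mulVec_single
  intro i
  apply mulVec_inj h.orth
  apply (mkV G).injective
  have h1 : (algebraMap ℂ (Module.End (MonoidAlgebra ℂ G) W) z)
      ⟨mkV G (B.mulVec (Pi.single i 1)), hmem _⟩ = f ⟨mkV G (B.mulVec (Pi.single i 1)), hmem _⟩ :=
    LinearMap.congr_fun hz _
  rw [hf] at h1
  have h2 : z • mkV G (B.mulVec (Pi.single i 1)) =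
      (mkV G (B.mulVec (Y.mulVec (Pi.single i 1))) : VV ℂ G X) := congrArg Subtype.val h1
  rw [← h2, ← map_smul, ← Matrix.mulVec_smul, Matrix.smul_mulVec, Matrix.one_mulVec]

theorem odd_of {W : Submodule (MonoidAlgebra ℂ G) (VV ℂ G X)} {n : ℕ} {B : Matrix X (Fin n) ℂ}
    {π : G →* Matrix (Fin n) (Fin n) ℂ} (h : RepOf W B π) (hA : Act G X c g)
    (hodd : OddM c W) : π c = -1 := by
  apply Matrix.ext_of_mulVec_single
  intro i
  apply mulVec_inj h.orth
  apply (mkV G).injective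
  rw [← h.eqv]
  apply Pool.Agent.Lib.MP_938ce2_ag_h67.ev_ext
  intro x
  have hc : c⁻¹ = c := inv_eq_of_mul_eq_one_left hA.sq
  rw [Pool.Agent.Lib.MP_938ce2_ag_h67.ev_single, one_mul, hc,
    hodd _ ((h.mem _).2 ⟨_, rfl⟩), Matrix.neg_mulVec, Matrix.one_mulVec, Matrix.mulVec_neg,
    Pool.Agent.Lib.MP_938ce2_ag_h67.ev_mkV, Pool.Agent.Lib.MP_938ce2_ag_h67.ev_mkV, Pi.neg_apply]

theorem ker_of {W : Submodule (MonoidAlgebra ℂ G) (VV ℂ G X)} {n : ℕ} {B : Matrix X (Fin n) ℂ}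
    {π : G →* Matrix (Fin n) (Fin n) ℂ} (h : RepOf W B π) (a : G) :
    π a = 1 ↔ ∀ w ∈ W, MonoidAlgebra.single a (1 : ℂ) • w = w := by
  constructor
  · intro ha w hw
    obtain ⟨z, rfl⟩ := (h.mem _).1 hw
    rw [h.eqv, ha, Matrix.one_mulVec]
  · intro ha
    apply Matrix.ext_of_mulVec_single
    intro i
    apply mulVec_inj h.orth
    apply (mkV G).injective
    rw [← h.eqv, ha _ ((h.mem _).2 ⟨_, rfl⟩), Matrix.one_mulVec]

end Pool.Agent.Lib.MP_938ce2_ag_u2
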