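import Mathlib
import Pool.Agent.Lib.MP_938ce2_ag_u2.FrameRep

/-!
Row FrameExists: the frame of a simple submodule of the complex functions.
-/

set_option autoImplicit false
set_option linter.unusedSectionVars false

namespace Pool.Agent.Lib.MP_938ce2_ag_u2

open Finset Module MonoidAlgebra Matrix
open Pool.Agent.Lib.MP_938ce2_ag_h67 (sg VV ev mkV Orb red kerM)
open Pool.Agent.Lib.MP_938ce2_ag_h60 (CMType)

open scoped ComplexOrder MatrixOrder in
/-- a positive definite matrix is congruent to a multiple of the identity -/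
theorem exists_congr {κ : ℕ} (Γ : Matrix (Fin κ) (Fin κ) ℂ) (hΓ : Γ.PosDef) (g : ℕ) (hg : 1 ≤ g) :
    ∃ C : Matrix (Fin κ) (Fin κ) ℂ, IsUnit C ∧ Cᴴ * Γ * C = ((g : ℂ)⁻¹) • 1 := by
  obtain ⟨B, hB⟩ := CStarAlgebra.nonneg_iff_eq_star_mul_self.mp hΓ.posSemidef.nonneg
  rw [star_eq_conjTranspose] at hB
  have hu : IsUnit Γ := hΓ.isUnit
  have hBu : IsUnit B := by
    rw [Matrix.isUnit_iff_isUnit_det] at hu ⊢
    rw [hB, Matrix.det_mul] at hu
    exact isUnit_of_mul_isUnit_right hu
  have hdet : IsUnit B.det := (Matrix.isUnit_iff_isUnit_det B).1 hBu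
  have hg0 : (0 : ℝ) < g := by exact_mod_cast hg
  set r : ℝ := (√(g : ℝ))⁻¹ with hr
  have hr0 : 0 < r := by positivity
  have hrr : ((r : ℂ)) * (r : ℂ) = (g : ℂ)⁻¹ := by
    have h1 : r * r = (g : ℝ)⁻¹ := by
      rw [hr, ← mul_inv, Real.mul_self_sqrt hg0.le]
    rw [← Complex.ofReal_mul, h1]
    push_cast
    rfl
  refine ⟨(r : ℂ) • B⁻¹, ?_, ?_⟩
  · have h2 : IsUnit B⁻¹ := (Matrix.isUnit_nonsing_inv_iff).2 hBu
    have hrc : (r : ℂ) ≠ 0 := by exact_mod_cast hr0.ne'
    exact (isUnit_smul_iff (Units.mk0 (r : ℂ) hrc) B⁻¹).2 h2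
  · rw [hB, conjTranspose_smul, Complex.star_def, Complex.conj_ofReal, conjTranspose_nonsing_inv]
    have hdet' : IsUnit Bᴴ.det := by
      rw [det_conjTranspose]
      exact hdet.star
    have h3 : (Bᴴ)⁻¹ * (Bᴴ * B) * B⁻¹ = 1 := by
      rw [← Matrix.mul_assoc, Matrix.nonsing_inv_mul _ hdet', Matrix.one_mul,
        Matrix.mul_nonsing_inv _ hdet]
    rw [Matrix.smul_mul, Matrix.smul_mul, Matrix.mul_smul, smul_smul, hrr, h3]

variable {G X : Type} [Group G] [Fintype G] [MulAction G X] [Fintype X] [DecidableEq X] {c : G}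
  {g : ℕ} [MulAction.IsPretransitive G X]

namespace FrameExistsAux

variable {W : Submodule (MonoidAlgebra ℂ G) (VV ℂ G X)} {n : ℕ} {B : Matrix X (Fin n) ℂ}
  {π : G →* Matrix (Fin n) (Fin n) ℂ}

/-- the element of `W` with given coordinates -/
noncomputable def el (h : RepOf W B π) (z : Fin n → ℂ) : W :=
  ⟨mkV G (B.mulVec z), (h.mem _).2 ⟨z, rfl⟩⟩

theorem el_add (h : RepOf W B π) (z w : Fin n → ℂ) : el h (z + w) = el h z + el h w := by
  apply Subtype.ext
  change mkV G (B.mulVec (z + w)) = mkV G (B.mulVec z) + mkV G (B.mulVec w)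
  rw [Matrix.mulVec_add, map_add]

theorem el_smul (h : RepOf W B π) (t : ℂ) (z : Fin n → ℂ) : el h (t • z) = t • el h z := by
  apply Subtype.ext
  change mkV G (B.mulVec (t • z)) = t • mkV G (B.mulVec z)
  rw [Matrix.mulVec_smul, map_smul]

/-- the coordinates, as a linear map -/
noncomputable def elL (h : RepOf W B π) : (Fin n → ℂ) →ₗ[ℂ] W where
  toFun := el h
  map_add' := el_add h
  map_smul' := el_smul h

theorem el_act (h : RepOf W B π) (a : G) (z : Fin n → ℂ) :
    MonoidAlgebra.single a (1 : ℂ) • el h z = el h ((π a).mulVec z) := by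
  apply Subtype.ext
  exact h.eqv a z

theorem el_surj (h : RepOf W B π) (w : W) : ∃ z, el h z = w := by
  obtain ⟨z, hz⟩ := (h.mem _).1 w.2
  exact ⟨z, Subtype.ext hz.symm⟩

/-- the matrix of a homomorphism -/
noncomputable def DD (h : RepOf W B π) (φ : W →ₗ[MonoidAlgebra ℂ G] VV ℂ G X) :
    Matrix X (Fin n) ℂ := fun x j => ev (φ (el h (Pi.single j 1))) x

theorem ev_el (h : RepOf W B π) (φ : W →ₗ[MonoidAlgebra ℂ G] VV ℂ G X) (z : Fin n → ℂ) (x : X) :
    ev (φ (el h z)) x = (DD h φ).mulVec z x := by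
  have h1 : z = ∑ j, z j • Pi.single j (1 : ℂ) := by
    funext i
    rw [Finset.sum_apply, Finset.sum_eq_single i]
    · simp
    · intro j _ hj
      rw [Pi.smul_apply, Pi.single_eq_of_ne hj.symm, smul_zero]
    · intro hi
      exact absurd (Finset.mem_univ i) hi
  have h2 : φ (el h z) = ∑ j, z j • φ (el h (Pi.single j 1)) := by
    have e1 : el h z = ∑ j, z j • el h (Pi.single j 1) := by
      change elL h z = ∑ j, z j • elL h (Pi.single j 1)
      conv_lhs => rw [h1]
      rw [map_sum]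
      exact Finset.sum_congr rfl fun j _ => map_smul _ _ _
    rw [e1, map_sum]
    refine Finset.sum_congr rfl fun j _ => ?_
    exact φ.map_smul_of_tower (z j) _
  rw [h2, MP_938ce2_ag_h67.ev_sum]
  refine Finset.sum_congr rfl fun j _ => ?_
  rw [MP_938ce2_ag_h67.ev_smul, mul_comm]
  rfl

theorem DD_add (h : RepOf W B π) (φ ψ : W →ₗ[MonoidAlgebra ℂ G] VV ℂ G X) :
    DD h (φ + ψ) = DD h φ + DD h ψ := rfl

theorem DD_smul (h : RepOf W B π) (t : ℂ) (φ : W →ₗ[MonoidAlgebra ℂ G] VV ℂ G X) :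
    DD h (t • φ) = t • DD h φ := rfl

/-- the matrix, as a linear map -/
noncomputable def DL (h : RepOf W B π) :
    (W →ₗ[MonoidAlgebra ℂ G] VV ℂ G X) →ₗ[ℂ] Matrix X (Fin n) ℂ where
  toFun := DD h
  map_add' := DD_add h
  map_smul' := DD_smul h

theorem DL_inj (h : RepOf W B π) {φ : W →ₗ[MonoidAlgebra ℂ G] VV ℂ G X} (h0 : DL h φ = 0) :
    φ = 0 := by
  apply LinearMap.ext
  intro w
  obtain ⟨z, rfl⟩ := el_surj h w
  apply MP_938ce2_ag_h67.ev_ext
  intro x
  rw [ev_el]
  change (DL h φ).mulVec z x = _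
  rw [h0, Matrix.zero_mulVec]
  rfl

/-- equivariance -/
theorem DD_act (h : RepOf W B π) (φ : W →ₗ[MonoidAlgebra ℂ G] VV ℂ G X) (a : G) (x : X)
    (j : Fin n) : DD h φ (a • x) j = ∑ i, DD h φ x i * π a⁻¹ i j := by
  have h1 : el h ((π a⁻¹).mulVec (Pi.single j 1)) =
      MonoidAlgebra.single a⁻¹ (1 : ℂ) • el h (Pi.single j 1) := (el_act h a⁻¹ _).symm
  have h2 := ev_el h φ ((π a⁻¹).mulVec (Pi.single j 1)) x
  rw [h1, map_smul, MP_938ce2_ag_h67.ev_single, one_mul, inv_inv] at h2
  have h3 : DD h φ (a • x) j = ev (φ (el h (Pi.single j 1))) (a • x) := rfl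
  rw [h3, h2]
  unfold Matrix.mulVec dotProduct
  refine Finset.sum_congr rfl fun i _ => ?_
  congr 1
  change (π a⁻¹).mulVec (Pi.single j 1) i = _
  rw [Matrix.mulVec_single_one]
  rfl

end FrameExistsAux

open FrameExistsAux

theorem exists_frame (hA : Act G X c g) (W : Submodule (MonoidAlgebra ℂ G) (VV ℂ G X))
    (hW : IsSimpleModule (MonoidAlgebra ℂ G) W) (hodd : OddM c W) :
    ∃ (π : G →* Matrix (Fin (finrank ℂ W)) (Fin (finrank ℂ W)) ℂ)
      (A : X → Matrix (Fin (finrank ℂ W))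
        (Fin (finrank ℂ (W →ₗ[MonoidAlgebra ℂ G] VV ℂ G X))) ℂ),
      Frame G X c g π A ∧
      (∀ a, π a = 1 ↔ ∀ w ∈ W, MonoidAlgebra.single a (1 : ℂ) • w = w) ∧
      ∀ (s : X → ℤ) (N : Submodule ℂ (W →ₗ[MonoidAlgebra ℂ G] VV ℂ G X)),
        (∀ φ ∈ N, ∀ w, ∑ x, (s x : ℂ) * ev (φ w) x = 0) →
        finrank ℂ N ≤ kd (∑ x, (s x : ℂ) • A x) := by
  classical
  obtain ⟨B, π, h⟩ := exists_rep W
  have hfW : Module.Finite ℂ W :=
    Module.Finite.of_injective (W.subtype.restrictScalars ℂ) Subtype.val_injective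
  have hfin : Module.Finite ℂ (W →ₗ[MonoidAlgebra ℂ G] VV ℂ G X) :=
    MP_938ce2_ag_h85d.finite_hom
  have b : Basis (Fin (finrank ℂ (W →ₗ[MonoidAlgebra ℂ G] VV ℂ G X))) ℂ (W →ₗ[MonoidAlgebra ℂ G] VV ℂ G X) := Module.finBasis ℂ _
  -- the matrices before normalisation
  set A₀ : X → Matrix (Fin (finrank ℂ W)) (Fin (finrank ℂ (W →ₗ[MonoidAlgebra ℂ G] VV ℂ G X))) ℂ := fun x j k => star (DD h (b k) x j) with hA₀
  have heqv : ∀ (a : G) (x : X), A₀ (a • x) = π a * A₀ x := by
    intro a x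
    ext j k
    simp only [hA₀]
    rw [DD_act, Matrix.mul_apply, star_sum]
    refine Finset.sum_congr rfl fun i _ => ?_
    rw [star_mul', mul_comm]
    congr 1
    rw [← h.unit a, conjTranspose_apply, star_star]
  have hunit : ∀ a, (π a)ᴴ * π a = 1 := by
    intro a
    rw [h.unit, ← map_mul, inv_mul_cancel, map_one]
  have hΓ : ∀ x y, (A₀ x)ᴴ * A₀ x = (A₀ y)ᴴ * A₀ y := by
    intro x y
    obtain ⟨a, rfl⟩ := MulAction.exists_smul_eq G x y
    rw [heqv, conjTranspose_mul, Matrix.mul_assoc, ← Matrix.mul_assoc (π a)ᴴ, hunit,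
      Matrix.one_mul]
  -- linear relations
  have hrel : ∀ z : Fin (finrank ℂ (W →ₗ[MonoidAlgebra ℂ G] VV ℂ G X)) → ℂ, (∀ x, (A₀ x).mulVec z = 0) → z = 0 := by
    intro z hz
    have h1 : ∑ k, star (z k) • b k = 0 := by
      apply DL_inj h
      rw [map_sum]
      ext x j
      rw [Matrix.sum_apply, Matrix.zero_apply]
      have h2 := congrFun (hz x) j
      have h3 : (A₀ x).mulVec z j = ∑ k, star (DD h (b k) x j) * z k := rfl
      rw [h3, Pi.zero_apply] at h2
      have h4 := congrArg star h2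
      rw [star_sum, star_zero] at h4
      rw [← h4]
      refine Finset.sum_congr rfl fun k _ => ?_
      rw [map_smul, Matrix.smul_apply, smul_eq_mul, star_mul', star_star, mul_comm]
      rfl
    have h5 := linearIndependent_iff'.1 b.linearIndependent Finset.univ (fun k => star (z k)) h1
    funext k
    have h6 := h5 k (Finset.mem_univ k)
    rw [Pi.zero_apply]
    exact star_eq_zero.1 h6
  have hne : Nonempty X := by
    rw [← Fintype.card_pos_iff, hA.card]
    have := hA.pos
    omega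
  obtain ⟨x₀⟩ := hne
  open scoped ComplexOrder in
  have hpd : ((A₀ x₀)ᴴ * A₀ x₀).PosDef := by
    refine PosDef.of_dotProduct_mulVec_pos (isHermitian_conjTranspose_mul_self _) fun z hz => ?_
    have h1 := (posSemidef_conjTranspose_mul_self (A₀ x₀)).dotProduct_mulVec_nonneg z
    refine lt_of_le_of_ne h1 fun h2 => hz (hrel z fun x => ?_)
    have h3 : star z ⬝ᵥ (((A₀ x)ᴴ * A₀ x) *ᵥ z) = 0 := by rw [hΓ x x₀, ← h2]
    rw [← Matrix.mulVec_mulVec, Matrix.dotProduct_mulVec, vecMul_conjTranspose, star_star,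
      dotProduct_star_self_eq_zero] at h3
    exact h3
  obtain ⟨C, hC, hCg⟩ := exists_congr _ hpd g hA.pos
  have hCdet : IsUnit C.det := (Matrix.isUnit_iff_isUnit_det C).1 hC
  refine ⟨π, fun x => A₀ x * C, ⟨h.unit, fun Y hY => schur_of h hW Y hY, odd_of h hA hodd,
    fun a x => ?_, fun x => ?_⟩, fun a => ker_of h a, fun s N hN => ?_⟩
  · rw [heqv, Matrix.mul_assoc]
  · rw [conjTranspose_mul, ← hCg, hΓ x₀ x]
    simp only [Matrix.mul_assoc]
  · -- the dimension of the kernel
    have hfinN : Module.Finite ℂ N := inferInstance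
    let bN := Module.finBasis ℂ N
    set M : Matrix (Fin (finrank ℂ W)) (Fin (finrank ℂ (W →ₗ[MonoidAlgebra ℂ G] VV ℂ G X))) ℂ := ∑ x, (s x : ℂ) • (A₀ x * C) with hM
    let y : Fin (finrank ℂ N) → (Fin (finrank ℂ (W →ₗ[MonoidAlgebra ℂ G] VV ℂ G X)) → ℂ) := fun i k => star (b.repr (bN i : _) k)
    let z : Fin (finrank ℂ N) → (Fin (finrank ℂ (W →ₗ[MonoidAlgebra ℂ G] VV ℂ G X)) → ℂ) := fun i => (C⁻¹).mulVec (y i)
    have hCz : ∀ i, C.mulVec (z i) = y i := by
      intro i
      change C.mulVec ((C⁻¹).mulVec (y i)) = y i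
      rw [Matrix.mulVec_mulVec, Matrix.mul_nonsing_inv _ hCdet, Matrix.one_mulVec]
    have hMz : ∀ i, M.mulVec (z i) = 0 := by
      intro i
      rw [hM, Matrix.sum_mulVec]
      have h1 : ∀ x, ((s x : ℂ) • (A₀ x * C)).mulVec (z i) = (s x : ℂ) • (A₀ x).mulVec (y i) := by
        intro x
        rw [Matrix.smul_mulVec, ← Matrix.mulVec_mulVec, hCz]
      simp only [h1]
      funext j
      rw [Finset.sum_apply, Pi.zero_apply]
      have h2 : ∀ x, ((s x : ℂ) • (A₀ x).mulVec (y i)) j =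
          star ((s x : ℂ) * ev ((bN i : W →ₗ[MonoidAlgebra ℂ G] VV ℂ G X)
            (el h (Pi.single j 1))) x) := by
        intro x
        rw [Pi.smul_apply, smul_eq_mul, star_mul', star_intCast]
        congr 1
        have h3 : (A₀ x).mulVec (y i) j =
            ∑ k, star (DD h (b k) x j) * star (b.repr (bN i : _) k) := rfl
        have h4 : DD h (bN i : W →ₗ[MonoidAlgebra ℂ G] VV ℂ G X) x j =
            ∑ k, b.repr (bN i : _) k * DD h (b k) x j := by
          have h5 : DL h (bN i : W →ₗ[MonoidAlgebra ℂ G] VV ℂ G X) =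
              ∑ k, b.repr (bN i : _) k • DL h (b k) := by
            conv_lhs => rw [← b.sum_repr (bN i : W →ₗ[MonoidAlgebra ℂ G] VV ℂ G X)]
            rw [map_sum]
            exact Finset.sum_congr rfl fun k _ => map_smul _ _ _
          have h6 := congrFun (congrFun h5 x) j
          rw [Matrix.sum_apply] at h6
          exact h6
        rw [h3]
        change _ = (starRingEnd ℂ) (DD h (bN i : W →ₗ[MonoidAlgebra ℂ G] VV ℂ G X) x j)
        rw [h4, map_sum]
        refine Finset.sum_congr rfl fun k _ => ?_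
        rw [map_mul, mul_comm]
        rfl
      simp only [h2]
      rw [← star_sum, hN _ (bN i).2, star_zero]
    have hli : LinearIndependent ℂ (fun i => (⟨z i, by
        rw [LinearMap.mem_ker, Matrix.mulVecLin_apply]; exact hMz i⟩ :
        LinearMap.ker M.mulVecLin)) := by
      rw [Fintype.linearIndependent_iff]
      intro t ht i
      have h1 : ∑ i, t i • z i = 0 := by
        have := congrArg Subtype.val ht
        rw [Submodule.coe_sum] at this
        exact this
      have h2 : ∑ i, t i • y i = 0 := by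
        have h3 := congrArg C.mulVec h1
        rw [Matrix.mulVec_zero] at h3
        rw [← h3, Matrix.mulVec_sum]
        refine Finset.sum_congr rfl fun i _ => ?_
        rw [Matrix.mulVec_smul, hCz]
      have h4 : ∑ i, star (t i) • (bN i : W →ₗ[MonoidAlgebra ℂ G] VV ℂ G X) = 0 := by
        apply b.repr.injective
        rw [map_zero]
        ext k
        rw [map_sum, Finsupp.finsetSum_apply, Finsupp.zero_apply]
        have h5 := congrFun h2 k
        rw [Finset.sum_apply, Pi.zero_apply] at h5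
        have h6 := congrArg star h5
        rw [star_sum, star_zero] at h6
        rw [← h6]
        refine Finset.sum_congr rfl fun i _ => ?_
        rw [map_smul, Finsupp.smul_apply, smul_eq_mul, Pi.smul_apply, smul_eq_mul, star_mul',
          star_star]
      have h7 : ∑ i, star (t i) • bN i = 0 := by
        apply Subtype.ext
        rw [Submodule.coe_sum]
        exact h4
      have h8 := linearIndependent_iff'.1 bN.linearIndependent Finset.univ
        (fun i => star (t i)) h7 i (Finset.mem_univ i)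
      exact star_eq_zero.1 h8
    have hcard := hli.fintype_card_le_finrank
    rw [Fintype.card_fin] at hcard
    exact hcard

end Pool.Agent.Lib.MP_938ce2_ag_u2
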