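import Mathlib

/-!
The resolvent `R = (Mᴴ M + t)⁻¹` of a complex matrix `M` and its norms.
-/

set_option autoImplicit false
set_option linter.unusedSectionVars false

namespace Pool.Agent.Lib.MP_938ce2_ag_u2.H7

open Matrix Finset
open scoped Matrix.Norms.L2Operator ComplexOrder

variable {I J : Type*} [Fintype I] [DecidableEq I] [Fintype J] [DecidableEq J]

/-- eigenvalues of `Mᴴ M` -/
noncomputable def ev (M : Matrix I J ℂ) (j : J) : ℝ :=
  (isHermitian_conjTranspose_mul_self M).eigenvalues j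

theorem ev_nonneg (M : Matrix I J ℂ) (j : J) : 0 ≤ ev M j :=
  (posSemidef_conjTranspose_mul_self M).eigenvalues_nonneg j

/-- the unitary of eigenvectors of `Mᴴ M` -/
noncomputable def eU (M : Matrix I J ℂ) : Matrix J J ℂ :=
  ((isHermitian_conjTranspose_mul_self M).eigenvectorUnitary : Matrix J J ℂ)

theorem eU_star_mul (M : Matrix I J ℂ) : (eU M)ᴴ * eU M = 1 :=
  Unitary.coe_star_mul_self (isHermitian_conjTranspose_mul_self M).eigenvectorUnitary

theorem eU_mul_star (M : Matrix I J ℂ) : eU M * (eU M)ᴴ = 1 :=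
  Unitary.coe_mul_star_self (isHermitian_conjTranspose_mul_self M).eigenvectorUnitary

/-- functional calculus of `Mᴴ M` -/
noncomputable def fc (M : Matrix I J ℂ) (f : ℝ → ℝ) : Matrix J J ℂ :=
  eU M * diagonal (fun j => ((f (ev M j) : ℝ) : ℂ)) * (eU M)ᴴ

theorem fc_mul (M : Matrix I J ℂ) (f h : ℝ → ℝ) : fc M f * fc M h = fc M (fun x => f x * h x) := by
  unfold fc
  have h1 : eU M * diagonal (fun j => ((f (ev M j) : ℝ) : ℂ)) * (eU M)ᴴ *
      (eU M * diagonal (fun j => ((h (ev M j) : ℝ) : ℂ)) * (eU M)ᴴ)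
      = eU M * diagonal (fun j => ((f (ev M j) : ℝ) : ℂ)) * ((eU M)ᴴ * eU M) *
        (diagonal (fun j => ((h (ev M j) : ℝ) : ℂ)) * (eU M)ᴴ) := by
    simp only [Matrix.mul_assoc]
  rw [h1, eU_star_mul, Matrix.mul_one, Matrix.mul_assoc, ← Matrix.mul_assoc (diagonal _),
    diagonal_mul_diagonal, ← Matrix.mul_assoc]
  congr 3
  funext j
  push_cast
  rfl

theorem fc_add (M : Matrix I J ℂ) (f h : ℝ → ℝ) : fc M f + fc M h = fc M (fun x => f x + h x) := by
  unfold fc
  rw [← Matrix.add_mul, ← Matrix.mul_add, diagonal_add]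
  congr 3
  funext j
  push_cast
  rfl

theorem fc_congr (M : Matrix I J ℂ) (f h : ℝ → ℝ) (H : ∀ x, 0 ≤ x → f x = h x) :
    fc M f = fc M h := by
  unfold fc
  congr 3
  funext j
  rw [H _ (ev_nonneg M j)]

theorem fc_const (M : Matrix I J ℂ) (c : ℝ) : fc M (fun _ => c) = (c : ℂ) • (1 : Matrix J J ℂ) := by
  unfold fc
  have h1 : (diagonal (fun _ : J => (c : ℂ)) : Matrix J J ℂ) = (c : ℂ) • (1 : Matrix J J ℂ) := by
    ext i j
    simp [diagonal_apply, Matrix.one_apply]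
  rw [h1, Matrix.mul_smul, Matrix.smul_mul, Matrix.mul_one, eU_mul_star]

theorem fc_one (M : Matrix I J ℂ) : fc M (fun _ => 1) = 1 := by
  rw [fc_const]
  simp

theorem fc_id (M : Matrix I J ℂ) : fc M (fun x => x) = Mᴴ * M := by
  have h := (isHermitian_conjTranspose_mul_self M).spectral_theorem
  rw [Unitary.conjStarAlgAut_apply] at h
  exact h.symm

theorem fc_conjTranspose (M : Matrix I J ℂ) (f : ℝ → ℝ) : (fc M f)ᴴ = fc M f := by
  unfold fc
  rw [conjTranspose_mul, conjTranspose_mul, conjTranspose_conjTranspose, diagonal_conjTranspose,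
    ← Matrix.mul_assoc]
  congr 3
  funext j
  simp

theorem trace_fc (M : Matrix I J ℂ) (f : ℝ → ℝ) :
    trace (fc M f) = ((∑ j, f (ev M j) : ℝ) : ℂ) := by
  unfold fc
  rw [Matrix.mul_assoc, trace_mul_comm, Matrix.mul_assoc, eU_star_mul, Matrix.mul_one,
    trace_diagonal]
  push_cast
  rfl

theorem norm_eU_le (M : Matrix I J ℂ) : ‖eU M‖ ≤ 1 := by
  have h1 := l2_opNorm_conjTranspose_mul_self (eU M)
  rw [eU_star_mul] at h1
  have h2 : ‖(1 : Matrix J J ℂ)‖ ≤ 1 := by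
    rw [← diagonal_one, l2_opNorm_diagonal]
    refine (pi_norm_le_iff_of_nonneg zero_le_one).2 fun i => ?_
    simp
  have h3 := norm_nonneg (eU M)
  nlinarith

theorem norm_fc_le (M : Matrix I J ℂ) (f : ℝ → ℝ) {c : ℝ} (hc : 0 ≤ c)
    (hf : ∀ x, 0 ≤ x → |f x| ≤ c) : ‖fc M f‖ ≤ c := by
  unfold fc
  have h1 : ‖(diagonal (fun j => ((f (ev M j) : ℝ) : ℂ)) : Matrix J J ℂ)‖ ≤ c := by
    rw [l2_opNorm_diagonal]
    refine (pi_norm_le_iff_of_nonneg hc).2 fun j => ?_
    rw [Complex.norm_real, Real.norm_eq_abs]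
    exact hf _ (ev_nonneg M j)
  calc ‖eU M * diagonal (fun j => ((f (ev M j) : ℝ) : ℂ)) * (eU M)ᴴ‖
      ≤ ‖eU M * diagonal (fun j => ((f (ev M j) : ℝ) : ℂ))‖ * ‖(eU M)ᴴ‖ := l2_opNorm_mul _ _
    _ ≤ (‖eU M‖ * ‖(diagonal (fun j => ((f (ev M j) : ℝ) : ℂ)) : Matrix J J ℂ)‖) * ‖(eU M)ᴴ‖ := by
        gcongr
        exact l2_opNorm_mul _ _
    _ ≤ (1 * c) * 1 := by
        rw [l2_opNorm_conjTranspose]
        gcongr
        · exact norm_eU_le M
        · exact norm_eU_le M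
    _ = c := by ring

theorem norm_mul_fc_le (M : Matrix I J ℂ) (f : ℝ → ℝ) {c : ℝ} (hc : 0 ≤ c)
    (hf : ∀ x, 0 ≤ x → x * f x ^ 2 ≤ c ^ 2) : ‖M * fc M f‖ ≤ c := by
  have h1 := l2_opNorm_conjTranspose_mul_self (M * fc M f)
  have h2 : (M * fc M f)ᴴ * (M * fc M f) = fc M (fun x => x * f x ^ 2) := by
    rw [conjTranspose_mul, fc_conjTranspose, Matrix.mul_assoc, ← Matrix.mul_assoc Mᴴ, ← fc_id,
      fc_mul, fc_mul]
    congr 1
    funext x
    ring
  rw [h2] at h1
  have h3 : ‖fc M (fun x => x * f x ^ 2)‖ ≤ c ^ 2 := by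
    refine norm_fc_le M _ (sq_nonneg c) fun x hx => ?_
    rw [abs_of_nonneg (by positivity)]
    exact hf x hx
  have h4 := norm_nonneg (M * fc M f)
  by_contra hcon
  push Not at hcon
  nlinarith

/-- the resolvent -/
noncomputable def res (M : Matrix I J ℂ) (t : ℝ) : Matrix J J ℂ := fc M (fun x => (x + t)⁻¹)

theorem res_mul (M : Matrix I J ℂ) {t : ℝ} (ht : 0 < t) :
    res M t * (Mᴴ * M + (t : ℂ) • (1 : Matrix J J ℂ)) = 1 := by
  rw [← fc_id, ← fc_const M, fc_add, res, fc_mul, ← fc_one M]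
  refine fc_congr M _ _ fun x hx => ?_
  have : x + t ≠ 0 := by positivity
  field_simp

theorem mul_res (M : Matrix I J ℂ) {t : ℝ} (ht : 0 < t) :
    (Mᴴ * M + (t : ℂ) • (1 : Matrix J J ℂ)) * res M t = 1 := by
  rw [← fc_id, ← fc_const M, fc_add, res, fc_mul, ← fc_one M]
  refine fc_congr M _ _ fun x hx => ?_
  have : x + t ≠ 0 := by positivity
  field_simp

theorem norm_res_le (M : Matrix I J ℂ) {t : ℝ} (ht : 0 < t) : ‖res M t‖ ≤ 1 / t := by
  refine norm_fc_le M _ (by positivity) fun x hx => ?_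
  rw [abs_of_nonneg (by positivity), one_div]
  exact inv_anti₀ ht (by linarith)

theorem norm_mul_res_le (M : Matrix I J ℂ) {t : ℝ} (ht : 0 < t) :
    ‖M * res M t‖ ≤ 1 / (2 * Real.sqrt t) := by
  refine norm_mul_fc_le M _ (by positivity) fun x hx => ?_
  have h1 : (1 / (2 * Real.sqrt t)) ^ 2 = 1 / (4 * t) := by
    rw [div_pow, mul_pow, Real.sq_sqrt ht.le]
    norm_num
  rw [h1, inv_pow, ← div_eq_mul_inv, div_le_div_iff₀ (by positivity) (by positivity)]
  nlinarith [sq_nonneg (x - t)]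

theorem norm_res_mul_le (M : Matrix I J ℂ) {t : ℝ} (ht : 0 < t) :
    ‖res M t * Mᴴ‖ ≤ 1 / (2 * Real.sqrt t) := by
  have h1 : res M t * Mᴴ = (M * res M t)ᴴ := by
    rw [conjTranspose_mul, res, fc_conjTranspose]
  rw [h1, l2_opNorm_conjTranspose]
  exact norm_mul_res_le M ht

theorem norm_mul_res_mul_le (M : Matrix I J ℂ) {t : ℝ} (ht : 0 < t) :
    ‖M * res M t * Mᴴ‖ ≤ 1 := by
  have h1 : M * res M t * Mᴴ
      = (M * fc M (fun x => Real.sqrt ((x + t)⁻¹))) * (M * fc M (fun x => Real.sqrt ((x + t)⁻¹)))ᴴ := by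
    rw [conjTranspose_mul, fc_conjTranspose, ← Matrix.mul_assoc, Matrix.mul_assoc M (fc M _),
      fc_mul, res]
    congr 2
    refine fc_congr M _ _ fun x hx => ?_
    rw [Real.mul_self_sqrt (by positivity)]
  have h2 : ‖M * fc M (fun x => Real.sqrt ((x + t)⁻¹))‖ ≤ 1 := by
    refine norm_mul_fc_le M _ zero_le_one fun x hx => ?_
    rw [Real.sq_sqrt (by positivity), one_pow, ← div_eq_mul_inv, div_le_one (by positivity)]
    linarith
  rw [h1]
  calc _ ≤ ‖M * fc M (fun x => Real.sqrt ((x + t)⁻¹))‖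
        * ‖(M * fc M (fun x => Real.sqrt ((x + t)⁻¹)))ᴴ‖ := l2_opNorm_mul _ _
    _ ≤ 1 * 1 := by
        rw [l2_opNorm_conjTranspose]
        gcongr
    _ = 1 := by ring

/-- `tr R` -/
noncomputable def trR (M : Matrix I J ℂ) (t : ℝ) : ℝ := ∑ j, (ev M j + t)⁻¹

/-- `tr R²` -/
noncomputable def trR2 (M : Matrix I J ℂ) (t : ℝ) : ℝ := ∑ j, ((ev M j + t)⁻¹) ^ 2

theorem trace_res (M : Matrix I J ℂ) (t : ℝ) : trace (res M t) = ((trR M t : ℝ) : ℂ) := trace_fc M _

theorem trR_nonneg (M : Matrix I J ℂ) {t : ℝ} (ht : 0 < t) : 0 ≤ trR M t :=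
  Finset.sum_nonneg fun j _ => inv_nonneg.2 (by have := ev_nonneg M j; linarith)

theorem trR_le (M : Matrix I J ℂ) {t : ℝ} (ht : 0 < t) : trR M t ≤ Fintype.card J / t := by
  have h : trR M t ≤ ∑ _j : J, t⁻¹ := by
    refine Finset.sum_le_sum fun j _ => inv_anti₀ ht ?_
    have := ev_nonneg M j
    linarith
  rw [Finset.sum_const, Finset.card_univ, nsmul_eq_mul] at h
  rwa [div_eq_mul_inv]

theorem trR2_nonneg (M : Matrix I J ℂ) (t : ℝ) : 0 ≤ trR2 M t :=
  Finset.sum_nonneg fun _ _ => sq_nonneg _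

theorem trR2_le (M : Matrix I J ℂ) {t : ℝ} (ht : 0 < t) : trR2 M t ≤ trR M t ^ 2 := by
  unfold trR2 trR
  exact Finset.sum_sq_le_sq_sum_of_nonneg (fun j _ => inv_nonneg.2 (by
    have := ev_nonneg M j
    linarith))

theorem trace_mul_self (M : Matrix I J ℂ) {t : ℝ} (ht : 0 < t) :
    trace (Mᴴ * M * res M t) = ((Fintype.card J - t * trR M t : ℝ) : ℂ) := by
  rw [← fc_id, res, fc_mul, trace_fc]
  congr 1
  have h1 : ∀ j, ev M j * (ev M j + t)⁻¹ = 1 - t * (ev M j + t)⁻¹ := by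
    intro j
    have h2 : ev M j + t ≠ 0 := by
      have := ev_nonneg M j
      positivity
    field_simp
    ring
  simp only [h1, Finset.sum_sub_distrib, ← Finset.mul_sum, trR]
  simp

theorem trace_conj (M : Matrix I J ℂ) {t : ℝ} (ht : 0 < t) :
    trace (M * res M t * Mᴴ) = ((Fintype.card J - t * trR M t : ℝ) : ℂ) := by
  rw [trace_mul_comm, ← Matrix.mul_assoc, trace_mul_self M ht]

/-- the squared Frobenius norm of `M R` -/
theorem frob_mul_res (M : Matrix I J ℂ) {t : ℝ} (ht : 0 < t) :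
    ∑ i, ∑ j, ‖(M * res M t) i j‖ ^ 2 = trR M t - t * trR2 M t := by
  have h1 : ((∑ i, ∑ j, ‖(M * res M t) i j‖ ^ 2 : ℝ) : ℂ)
      = trace ((M * res M t)ᴴ * (M * res M t)) := by
    rw [trace]
    simp only [diag_apply, Matrix.mul_apply, conjTranspose_apply]
    rw [Finset.sum_comm]
    push_cast
    refine Finset.sum_congr rfl fun i _ => Finset.sum_congr rfl fun j _ => ?_
    rw [← Complex.conj_mul']
    rfl
  have h2 : (M * res M t)ᴴ * (M * res M t) = fc M (fun x => (x + t)⁻¹ - t * ((x + t)⁻¹) ^ 2) := by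
    rw [conjTranspose_mul, res, fc_conjTranspose, Matrix.mul_assoc, ← Matrix.mul_assoc Mᴴ, ← fc_id,
      fc_mul, fc_mul]
    refine fc_congr M _ _ fun x hx => ?_
    have : x + t ≠ 0 := by positivity
    field_simp
    ring
  rw [h2, trace_fc] at h1
  have h3 := Complex.ofReal_injective h1
  rw [h3, Finset.sum_sub_distrib, ← Finset.mul_sum]
  rfl

theorem frob_mul_res_le (M : Matrix I J ℂ) {t : ℝ} (ht : 0 < t) :
    trR M t - t * trR2 M t ≤ Fintype.card J / (4 * t) := by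
  have h1 : trR M t - t * trR2 M t = ∑ j, ((ev M j + t)⁻¹ - t * ((ev M j + t)⁻¹) ^ 2) := by
    rw [Finset.sum_sub_distrib, ← Finset.mul_sum]
    rfl
  rw [h1]
  have h2 : ∀ j ∈ (Finset.univ : Finset J),
      ((ev M j + t)⁻¹ - t * ((ev M j + t)⁻¹) ^ 2) ≤ 1 / (4 * t) := by
    intro j _
    have h3 := ev_nonneg M j
    have h4 : 0 < ev M j + t := by linarith
    have h5 : (ev M j + t)⁻¹ - t * ((ev M j + t)⁻¹) ^ 2 = ev M j / (ev M j + t) ^ 2 := by
      field_simp
      ring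
    rw [h5, div_le_div_iff₀ (by positivity) (by positivity)]
    nlinarith [sq_nonneg (ev M j - t)]
  have h6 := Finset.sum_le_card_nsmul _ _ _ h2
  rw [Finset.card_univ, nsmul_eq_mul] at h6
  calc _ ≤ _ := h6
    _ = _ := by ring

/-- a kernel of dimension at least `s` -/
theorem le_trR (M : Matrix I J ℂ) {t : ℝ} (ht : 0 < t) {s : ℕ}
    (hs : s ≤ Module.finrank ℂ (LinearMap.ker M.mulVecLin)) : (s : ℝ) / t ≤ trR M t := by
  classical
  have hH := isHermitian_conjTranspose_mul_self M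
  have h1 : M.rank + Module.finrank ℂ (LinearMap.ker M.mulVecLin) = Fintype.card J := by
    have := LinearMap.finrank_range_add_finrank_ker M.mulVecLin
    rw [Module.finrank_fintype_fun_eq_card] at this
    exact this
  have h2 : M.rank = Fintype.card {j // ev M j ≠ 0} := by
    rw [← rank_conjTranspose_mul_self, hH.rank_eq_card_non_zero_eigs]
    rfl
  have h3 : Fintype.card {j // ev M j ≠ 0} + (Finset.univ.filter fun j => ev M j = 0).card
      = Fintype.card J := by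
    rw [Fintype.card_subtype, ← Finset.card_univ (α := J), add_comm]
    exact Finset.card_filter_add_card_filter_not (s := Finset.univ) (p := fun j => ev M j = 0)
  have h4 : s ≤ (Finset.univ.filter fun j => ev M j = 0).card := by omega
  have h5 : ∑ j ∈ Finset.univ.filter (fun j => ev M j = 0), (ev M j + t)⁻¹ ≤ trR M t := by
    refine Finset.sum_le_sum_of_subset_of_nonneg (Finset.filter_subset _ _) fun j _ _ => ?_
    exact inv_nonneg.2 (by have := ev_nonneg M j; linarith)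
  have h6 : ∑ j ∈ Finset.univ.filter (fun j => ev M j = 0), (ev M j + t)⁻¹
      = ((Finset.univ.filter fun j => ev M j = 0).card : ℝ) / t := by
    rw [Finset.sum_congr rfl (g := fun _ => t⁻¹), Finset.sum_const, nsmul_eq_mul, div_eq_mul_inv]
    intro j hj
    rw [(Finset.mem_filter.1 hj).2, zero_add]
  calc (s : ℝ) / t ≤ ((Finset.univ.filter fun j => ev M j = 0).card : ℝ) / t := by
        gcongr
    _ = _ := h6.symm
    _ ≤ _ := h5

end Pool.Agent.Lib.MP_938ce2_ag_u2.H7
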