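import Mathlib
import Pool.Agent.Lib.MP_938ce2_ag_u2.Res1

/-!
The change of the resolvent of `∑ ± A_x` when one sign is changed.
-/

set_option autoImplicit false
set_option linter.unusedSectionVars false

namespace Pool.Agent.Lib.MP_938ce2_ag_u2.H7

open Matrix Finset
open scoped Matrix.Norms.L2Operator ComplexOrder

variable {I J : Type*} [Fintype I] [DecidableEq I] [Fintype J] [DecidableEq J]

theorem norm_entry_le (X : Matrix I J ℂ) (i : I) (j : J) : ‖X i j‖ ≤ ‖X‖ := by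
  have h1 := l2_opNorm_mulVec X (EuclideanSpace.single j (1 : ℂ))
  have h2 : ‖(EuclideanSpace.single j (1 : ℂ) : EuclideanSpace ℂ J)‖ = 1 := by
    simp
  rw [h2, mul_one] at h1
  refine le_trans ?_ h1
  have h3 := PiLp.norm_apply_le ((EuclideanSpace.equiv I ℂ).symm
    (X *ᵥ (EuclideanSpace.single j (1 : ℂ) : EuclideanSpace ℂ J).ofLp)) i
  refine le_trans (le_of_eq ?_) h3
  simp

theorem norm_trace_le (X : Matrix J J ℂ) : ‖trace X‖ ≤ Fintype.card J * ‖X‖ := by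
  unfold trace
  refine (norm_sum_le _ _).trans ?_
  have h := Finset.sum_le_card_nsmul (Finset.univ : Finset J) (fun j => ‖X j j‖) ‖X‖
    (fun j _ => norm_entry_le X j j)
  rwa [Finset.card_univ, nsmul_eq_mul] at h

section Step

variable (M A : Matrix I J ℂ) (σ : ℝ) (t : ℝ)

theorem gram_step :
    (M - ((2 * σ : ℝ) : ℂ) • A)ᴴ * (M - ((2 * σ : ℝ) : ℂ) • A)
      = Mᴴ * M - ((2 * σ : ℝ) : ℂ) • (Mᴴ * A + Aᴴ * (M - ((2 * σ : ℝ) : ℂ) • A)) := by
  rw [conjTranspose_sub, conjTranspose_smul]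
  have h : star (((2 * σ : ℝ) : ℂ)) = ((2 * σ : ℝ) : ℂ) := Complex.conj_ofReal _
  rw [h]
  simp only [Matrix.mul_sub, Matrix.sub_mul, Matrix.smul_mul, Matrix.mul_smul, smul_add, smul_sub]
  abel

variable {t}

theorem res_step (ht : 0 < t) :
    res (M - ((2 * σ : ℝ) : ℂ) • A) t - res M t
      = ((2 * σ : ℝ) : ℂ) • (res M t * (Mᴴ * A + Aᴴ * (M - ((2 * σ : ℝ) : ℂ) • A))
        * res (M - ((2 * σ : ℝ) : ℂ) • A) t) := by
  set M' := M - ((2 * σ : ℝ) : ℂ) • A with hM'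
  have h1 := res_mul M ht
  have h2 := mul_res M' ht
  have h3 : M'ᴴ * M' = Mᴴ * M - ((2 * σ : ℝ) : ℂ) • (Mᴴ * A + Aᴴ * M') := gram_step M A σ
  have h4 : ((2 * σ : ℝ) : ℂ) • (Mᴴ * A + Aᴴ * M')
      = (Mᴴ * M + (t : ℂ) • (1 : Matrix J J ℂ)) - (M'ᴴ * M' + (t : ℂ) • (1 : Matrix J J ℂ)) := by
    rw [h3]
    abel
  calc res M' t - res M t
      = res M t * (Mᴴ * M + (t : ℂ) • (1 : Matrix J J ℂ)) * res M' t
        - res M t * ((M'ᴴ * M' + (t : ℂ) • (1 : Matrix J J ℂ)) * res M' t) := by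
        rw [h1, h2, Matrix.one_mul, Matrix.mul_one]
    _ = res M t * (((2 * σ : ℝ) : ℂ) • (Mᴴ * A + Aᴴ * M')) * res M' t := by
        rw [h4, ← Matrix.mul_assoc, ← Matrix.sub_mul, ← Matrix.mul_sub]
    _ = _ := by
        rw [Matrix.mul_smul, Matrix.smul_mul]

theorem mul_res_step (ht : 0 < t) :
    M * res M t - (M - ((2 * σ : ℝ) : ℂ) • A) * res (M - ((2 * σ : ℝ) : ℂ) • A) t
      = ((2 * σ : ℝ) : ℂ) • (A * res (M - ((2 * σ : ℝ) : ℂ) • A) t
        - M * res M t * (Mᴴ * A + Aᴴ * (M - ((2 * σ : ℝ) : ℂ) • A))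
        * res (M - ((2 * σ : ℝ) : ℂ) • A) t) := by
  set M' := M - ((2 * σ : ℝ) : ℂ) • A with hM'
  have h1 : res M' t - res M t
      = ((2 * σ : ℝ) : ℂ) • (res M t * (Mᴴ * A + Aᴴ * M') * res M' t) := res_step M A σ ht
  have h2 : M' * res M' t = M * res M' t - ((2 * σ : ℝ) : ℂ) • (A * res M' t) := by
    conv_lhs => rw [hM']
    rw [Matrix.sub_mul, Matrix.smul_mul, ← hM']
  have h3 : res M' t = res M t
      + ((2 * σ : ℝ) : ℂ) • (res M t * (Mᴴ * A + Aᴴ * M') * res M' t) := by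
    rw [← h1]
    abel
  rw [h2]
  have h4 : M * res M' t = M * res M t
      + ((2 * σ : ℝ) : ℂ) • (M * res M t * (Mᴴ * A + Aᴴ * M') * res M' t) := by
    conv_lhs => rw [h3]
    rw [Matrix.mul_add, Matrix.mul_smul]
    simp only [Matrix.mul_assoc]
  rw [h4, smul_sub]
  abel

variable {σ} (hσ : σ * σ = 1) {a : ℝ} (ha : ‖A‖ ≤ a)

include hσ ha

theorem norm_res_step (ht : 0 < t) :
    ‖res (M - ((2 * σ : ℝ) : ℂ) • A) t - res M t‖ ≤ 2 * a / (t * Real.sqrt t) := by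
  rw [res_step M A σ ht]
  set M' := M - ((2 * σ : ℝ) : ℂ) • A with hM'
  have ha0 : 0 ≤ a := (norm_nonneg _).trans ha
  have hs : 0 < Real.sqrt t := Real.sqrt_pos.2 ht
  have hσ1 : ‖((2 * σ : ℝ) : ℂ)‖ = 2 := by
    rw [Complex.norm_real, Real.norm_eq_abs, abs_mul, abs_two]
    have : |σ| * |σ| = 1 := by rw [← abs_mul, hσ, abs_one]
    have h0 := abs_nonneg σ
    have : |σ| = 1 := by nlinarith
    rw [this, mul_one]
  have h1 : res M t * (Mᴴ * A + Aᴴ * M') * res M' t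
      = (res M t * Mᴴ) * A * res M' t + res M t * Aᴴ * (M' * res M' t) := by
    simp only [Matrix.mul_add, Matrix.add_mul, Matrix.mul_assoc]
  have h2 : ‖(res M t * Mᴴ) * A * res M' t‖ ≤ (1 / (2 * Real.sqrt t)) * a * (1 / t) := by
    calc _ ≤ ‖(res M t * Mᴴ) * A‖ * ‖res M' t‖ := l2_opNorm_mul _ _
      _ ≤ (‖res M t * Mᴴ‖ * ‖A‖) * ‖res M' t‖ := by
          gcongr
          exact l2_opNorm_mul _ _
      _ ≤ _ := by
          gcongr
          · exact norm_res_mul_le M ht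
          · exact norm_res_le M' ht
  have h3 : ‖res M t * Aᴴ * (M' * res M' t)‖ ≤ (1 / t) * a * (1 / (2 * Real.sqrt t)) := by
    calc _ ≤ ‖res M t * Aᴴ‖ * ‖M' * res M' t‖ := l2_opNorm_mul _ _
      _ ≤ (‖res M t‖ * ‖Aᴴ‖) * ‖M' * res M' t‖ := by
          gcongr
          exact l2_opNorm_mul _ _
      _ ≤ _ := by
          rw [l2_opNorm_conjTranspose]
          gcongr
          · exact norm_res_le M ht
          · exact norm_mul_res_le M' ht
  rw [norm_smul, hσ1, h1]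
  calc 2 * ‖(res M t * Mᴴ) * A * res M' t + res M t * Aᴴ * (M' * res M' t)‖
      ≤ 2 * (‖(res M t * Mᴴ) * A * res M' t‖ + ‖res M t * Aᴴ * (M' * res M' t)‖) := by
        gcongr
        exact norm_add_le _ _
    _ ≤ 2 * ((1 / (2 * Real.sqrt t)) * a * (1 / t) + (1 / t) * a * (1 / (2 * Real.sqrt t))) := by
        gcongr
    _ = 2 * a / (t * Real.sqrt t) := by
        field_simp
        ring

theorem norm_mul_res_step (ht : 0 < t) :
    ‖M * res M t - (M - ((2 * σ : ℝ) : ℂ) • A) * res (M - ((2 * σ : ℝ) : ℂ) • A) t‖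
      ≤ 9 / 2 * a / t := by
  rw [mul_res_step M A σ ht]
  set M' := M - ((2 * σ : ℝ) : ℂ) • A with hM'
  have ha0 : 0 ≤ a := (norm_nonneg _).trans ha
  have hs : 0 < Real.sqrt t := Real.sqrt_pos.2 ht
  have hσ1 : ‖((2 * σ : ℝ) : ℂ)‖ = 2 := by
    rw [Complex.norm_real, Real.norm_eq_abs, abs_mul, abs_two]
    have : |σ| * |σ| = 1 := by rw [← abs_mul, hσ, abs_one]
    have h0 := abs_nonneg σ
    have : |σ| = 1 := by nlinarith
    rw [this, mul_one]
  have h1 : M * res M t * (Mᴴ * A + Aᴴ * M') * res M' t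
      = (M * res M t * Mᴴ) * A * res M' t + (M * res M t) * Aᴴ * (M' * res M' t) := by
    simp only [Matrix.mul_add, Matrix.add_mul, Matrix.mul_assoc]
  have h0 : ‖A * res M' t‖ ≤ a * (1 / t) := by
    calc _ ≤ ‖A‖ * ‖res M' t‖ := l2_opNorm_mul _ _
      _ ≤ _ := by
          gcongr
          exact norm_res_le M' ht
  have h2 : ‖(M * res M t * Mᴴ) * A * res M' t‖ ≤ 1 * a * (1 / t) := by
    calc _ ≤ ‖(M * res M t * Mᴴ) * A‖ * ‖res M' t‖ := l2_opNorm_mul _ _
      _ ≤ (‖M * res M t * Mᴴ‖ * ‖A‖) * ‖res M' t‖ := by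
          gcongr
          exact l2_opNorm_mul _ _
      _ ≤ _ := by
          gcongr
          · exact norm_mul_res_mul_le M ht
          · exact norm_res_le M' ht
  have h3 : ‖(M * res M t) * Aᴴ * (M' * res M' t)‖
      ≤ (1 / (2 * Real.sqrt t)) * a * (1 / (2 * Real.sqrt t)) := by
    calc _ ≤ ‖(M * res M t) * Aᴴ‖ * ‖M' * res M' t‖ := l2_opNorm_mul _ _
      _ ≤ (‖M * res M t‖ * ‖Aᴴ‖) * ‖M' * res M' t‖ := by
          gcongr
          exact l2_opNorm_mul _ _
      _ ≤ _ := by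
          rw [l2_opNorm_conjTranspose]
          gcongr
          · exact norm_mul_res_le M ht
          · exact norm_mul_res_le M' ht
  rw [norm_smul, hσ1, h1]
  have hss : Real.sqrt t * Real.sqrt t = t := Real.mul_self_sqrt ht.le
  calc 2 * ‖A * res M' t - ((M * res M t * Mᴴ) * A * res M' t
        + (M * res M t) * Aᴴ * (M' * res M' t))‖
      ≤ 2 * (‖A * res M' t‖ + (‖(M * res M t * Mᴴ) * A * res M' t‖
        + ‖(M * res M t) * Aᴴ * (M' * res M' t)‖)) := by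
        gcongr
        exact (norm_sub_le _ _).trans (by gcongr; exact norm_add_le _ _)
    _ ≤ 2 * (a * (1 / t) + (1 * a * (1 / t)
        + (1 / (2 * Real.sqrt t)) * a * (1 / (2 * Real.sqrt t)))) := by
        gcongr
    _ = 2 * (a * (1 / t) + (1 * a * (1 / t) + a / (4 * (Real.sqrt t * Real.sqrt t)))) := by
        congr 3
        field_simp
        ring
    _ = 9 / 2 * a / t := by
        rw [hss]
        field_simp
        ring

/-- the step in the identity of Stein: main part and error -/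
theorem stein_step (ht : 0 < t) :
    ‖((1 / 2 * σ : ℝ) : ℂ) * trace (Aᴴ * (M * res M t
        - (M - ((2 * σ : ℝ) : ℂ) • A) * res (M - ((2 * σ : ℝ) : ℂ) • A) t))
      - (trace (Aᴴ * A * res (M - ((2 * σ : ℝ) : ℂ) • A) t)
        - trace ((M * res M t * Mᴴ) * (A * res M t * Aᴴ))
        - trace (Aᴴ * (M * res M t) * Aᴴ * (M * res M t)))‖
      ≤ 17 / 4 * Fintype.card J * a ^ 3 / (t * Real.sqrt t) := by
  have hn1 := norm_res_step M A hσ ha ht
  have hn2 := norm_mul_res_step M A hσ ha ht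
  rw [mul_res_step M A σ ht] at hn2 ⊢
  have hn2' := hn2
  rw [← mul_res_step M A σ ht] at hn2'
  set M' := M - ((2 * σ : ℝ) : ℂ) • A with hM'
  have ha0 : 0 ≤ a := (norm_nonneg _).trans ha
  have hs : 0 < Real.sqrt t := Real.sqrt_pos.2 ht
  have h1 : ((1 / 2 * σ : ℝ) : ℂ) * trace (Aᴴ * (((2 * σ : ℝ) : ℂ) • (A * res M' t
        - M * res M t * (Mᴴ * A + Aᴴ * M') * res M' t)))
      = trace (Aᴴ * A * res M' t) - trace (Aᴴ * (M * res M t * Mᴴ) * A * res M' t)
        - trace (Aᴴ * (M * res M t) * Aᴴ * (M' * res M' t)) := by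
    rw [Matrix.mul_smul, trace_smul, smul_eq_mul, ← mul_assoc]
    have h2 : ((1 / 2 * σ : ℝ) : ℂ) * ((2 * σ : ℝ) : ℂ) = 1 := by
      rw [← Complex.ofReal_mul]
      have : 1 / 2 * σ * (2 * σ) = 1 := by linear_combination hσ
      rw [this, Complex.ofReal_one]
    rw [h2, one_mul]
    rw [sub_sub, ← trace_add, ← trace_sub]
    congr 1
    simp only [Matrix.mul_add, Matrix.add_mul, Matrix.mul_sub, Matrix.mul_assoc]
  rw [h1]
  have h3 : trace ((M * res M t * Mᴴ) * (A * res M t * Aᴴ))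
      = trace (Aᴴ * (M * res M t * Mᴴ) * A * res M t) := by
    rw [← Matrix.mul_assoc (M * res M t * Mᴴ), trace_mul_comm]
    simp only [Matrix.mul_assoc]
  rw [h3]
  have h4 : trace (Aᴴ * A * res M' t) - trace (Aᴴ * (M * res M t * Mᴴ) * A * res M' t)
        - trace (Aᴴ * (M * res M t) * Aᴴ * (M' * res M' t))
      - (trace (Aᴴ * A * res M' t) - trace (Aᴴ * (M * res M t * Mᴴ) * A * res M t)
        - trace (Aᴴ * (M * res M t) * Aᴴ * (M * res M t)))
      = - trace (Aᴴ * (M * res M t * Mᴴ) * A * (res M' t - res M t))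
        + trace (Aᴴ * (M * res M t) * Aᴴ * (M * res M t - M' * res M' t)) := by
    rw [Matrix.mul_sub, Matrix.mul_sub, trace_sub, trace_sub]
    ring
  rw [h4]
  have hA' : ‖Aᴴ‖ ≤ a := by rwa [l2_opNorm_conjTranspose]
  have h5 : ‖Aᴴ * (M * res M t * Mᴴ) * A * (res M' t - res M t)‖
      ≤ a * 1 * a * (2 * a / (t * Real.sqrt t)) := by
    calc _ ≤ ‖Aᴴ * (M * res M t * Mᴴ) * A‖ * ‖res M' t - res M t‖ := l2_opNorm_mul _ _
      _ ≤ (‖Aᴴ * (M * res M t * Mᴴ)‖ * ‖A‖) * ‖res M' t - res M t‖ := by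
          gcongr
          exact l2_opNorm_mul _ _
      _ ≤ ((‖Aᴴ‖ * ‖M * res M t * Mᴴ‖) * ‖A‖) * ‖res M' t - res M t‖ := by
          gcongr
          exact l2_opNorm_mul _ _
      _ ≤ _ := by
          gcongr
          exact norm_mul_res_mul_le M ht
  have h6 : ‖Aᴴ * (M * res M t) * Aᴴ * (M * res M t - M' * res M' t)‖
      ≤ a * (1 / (2 * Real.sqrt t)) * a * (9 / 2 * a / t) := by
    calc _ ≤ ‖Aᴴ * (M * res M t) * Aᴴ‖ * ‖M * res M t - M' * res M' t‖ := l2_opNorm_mul _ _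
      _ ≤ (‖Aᴴ * (M * res M t)‖ * ‖Aᴴ‖) * ‖M * res M t - M' * res M' t‖ := by
          gcongr
          exact l2_opNorm_mul _ _
      _ ≤ ((‖Aᴴ‖ * ‖M * res M t‖) * ‖Aᴴ‖) * ‖M * res M t - M' * res M' t‖ := by
          gcongr
          exact l2_opNorm_mul _ _
      _ ≤ _ := by
          gcongr
          exact norm_mul_res_le M ht
  calc _ ≤ ‖- trace (Aᴴ * (M * res M t * Mᴴ) * A * (res M' t - res M t))‖
        + ‖trace (Aᴴ * (M * res M t) * Aᴴ * (M * res M t - M' * res M' t))‖ := norm_add_le _ _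
    _ ≤ Fintype.card J * (a * 1 * a * (2 * a / (t * Real.sqrt t)))
        + Fintype.card J * (a * (1 / (2 * Real.sqrt t)) * a * (9 / 2 * a / t)) := by
        rw [norm_neg]
        gcongr
        · exact (norm_trace_le _).trans (by gcongr)
        · exact (norm_trace_le _).trans (by gcongr)
    _ = _ := by
        field_simp
        ring

end Step

end Pool.Agent.Lib.MP_938ce2_ag_u2.H7
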