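import Mathlib
import Pool.Agent.Lib.MP_938ce2_ag_u2.Res2

/-!
The discrete Stein identity for the resolvent of the random matrix `∑ ± A_x`.
-/

set_option autoImplicit false
set_option linter.unusedSectionVars false

namespace Pool.Agent.Lib.MP_938ce2_ag_u2.H7

open Matrix Finset
open scoped Matrix.Norms.L2Operator ComplexOrder

/-- the sign of `x` -/
noncomputable def sgr {Om : Type*} [DecidableEq Om] (η : Finset Om) (x : Om) : ℝ :=
  if x ∈ η then 1 else -1

section

variable {Om : Type*} [Fintype Om] [DecidableEq Om]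

theorem sgr_mul_self (η : Finset Om) (x : Om) : sgr η x * sgr η x = 1 := by
  unfold sgr
  split_ifs <;> norm_num

/-- change the sign of `x` -/
def flp (x : Om) (η : Finset Om) : Finset Om := symmDiff η {x}

theorem flp_flp (x : Om) (η : Finset Om) : flp x (flp x η) = η := by
  unfold flp
  rw [symmDiff_assoc, symmDiff_self]
  simp

theorem sgr_flp_self (η : Finset Om) (x : Om) : sgr (flp x η) x = - sgr η x := by
  unfold sgr flp
  by_cases h : x ∈ η <;> simp [Finset.mem_symmDiff, h]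

theorem sgr_flp_ne (η : Finset Om) {x y : Om} (h : y ≠ x) : sgr (flp x η) y = sgr η y := by
  unfold sgr flp
  by_cases hy : y ∈ η <;> simp [Finset.mem_symmDiff, hy, h]

theorem sum_flp {β : Type*} [AddCommMonoid β] (x : Om) (f : Finset Om → β) :
    ∑ η, f (flp x η) = ∑ η, f η :=
  Fintype.sum_equiv ⟨flp x, flp x, flp_flp x, flp_flp x⟩ _ _ (fun _ => rfl)

end

variable {Om I J : Type*} [Fintype Om] [DecidableEq Om] [Fintype I] [DecidableEq I] [Fintype J]
  [DecidableEq J]

/-- the random matrix -/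
noncomputable def rm (A : Om → Matrix I J ℂ) (η : Finset Om) : Matrix I J ℂ :=
  ∑ x, ((sgr η x : ℝ) : ℂ) • A x

theorem rm_flp (A : Om → Matrix I J ℂ) (η : Finset Om) (x : Om) :
    rm A (flp x η) = rm A η - ((2 * sgr η x : ℝ) : ℂ) • A x := by
  unfold rm
  rw [← Finset.add_sum_erase _ _ (Finset.mem_univ x),
    ← Finset.add_sum_erase (s := Finset.univ) (f := fun x => ((sgr η x : ℝ) : ℂ) • A x)
      (a := x) (Finset.mem_univ x), sgr_flp_self]
  have h : ∑ y ∈ Finset.univ.erase x, ((sgr (flp x η) y : ℝ) : ℂ) • A y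
      = ∑ y ∈ Finset.univ.erase x, ((sgr η y : ℝ) : ℂ) • A y :=
    Finset.sum_congr rfl fun y hy => by rw [sgr_flp_ne η (Finset.ne_of_mem_erase hy)]
  rw [h]
  push_cast
  module

/-- the data of the method: see the blueprint -/
structure Frame (A : Om → Matrix I J ℂ) : Prop where
  one : ∀ x, (A x)ᴴ * A x = ((Fintype.card Om : ℂ)⁻¹) • (1 : Matrix J J ℂ)
  two : ∀ Y : Matrix J J ℂ, ∑ x, A x * Y * (A x)ᴴ = (trace Y / Fintype.card I) • (1 : Matrix I I ℂ)
  three : ∀ N : Matrix I J ℂ, ‖∑ x, trace ((A x)ᴴ * N * (A x)ᴴ * N)‖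
    ≤ (∑ i, ∑ j, ‖N i j‖ ^ 2) / Fintype.card I

variable {A : Om → Matrix I J ℂ} (hA : Frame A)

include hA

theorem Frame.norm_le (x : Om) : ‖A x‖ ≤ 1 / Real.sqrt (Fintype.card Om) := by
  have h1 := l2_opNorm_conjTranspose_mul_self (A x)
  rw [hA.one x] at h1
  have h2 : ‖(((Fintype.card Om : ℂ)⁻¹) • (1 : Matrix J J ℂ))‖ ≤ (Fintype.card Om : ℝ)⁻¹ := by
    have h3 : (((Fintype.card Om : ℂ)⁻¹) • (1 : Matrix J J ℂ))
        = diagonal (fun _ => ((Fintype.card Om : ℂ)⁻¹)) := by
      ext i j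
      simp [diagonal_apply, Matrix.one_apply]
    rw [h3, l2_opNorm_diagonal]
    refine (pi_norm_le_iff_of_nonneg (by positivity)).2 fun i => ?_
    simp
  have hpos : 0 < (Fintype.card Om : ℝ) := by
    have : Nonempty Om := ⟨x⟩
    exact_mod_cast Fintype.card_pos
  have hs : 0 < Real.sqrt (Fintype.card Om) := Real.sqrt_pos.2 hpos
  rw [h1] at h2
  by_contra hcon
  push Not at hcon
  have h4 : (1 / Real.sqrt (Fintype.card Om)) * (1 / Real.sqrt (Fintype.card Om))
      = (Fintype.card Om : ℝ)⁻¹ := by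
    rw [div_mul_div_comm, one_mul, Real.mul_self_sqrt hpos.le, one_div]
  have h5 : 0 < 1 / Real.sqrt (Fintype.card Om) := by positivity
  nlinarith

/-- the Stein identity, first form -/
theorem Frame.stein (hO : 0 < Fintype.card Om) {t : ℝ} (ht : 0 < t) :
    ‖((∑ η : Finset Om, ((Fintype.card J - t * trR (rm A η) t) - trR (rm A η) t
        + (Fintype.card J - t * trR (rm A η) t) * trR (rm A η) t / Fintype.card I) : ℝ) : ℂ)‖
      ≤ ∑ η : Finset Om, ((trR (rm A η) t - t * trR2 (rm A η) t) / Fintype.card I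
        + 17 / 4 * Fintype.card J / (Real.sqrt (Fintype.card Om) * (t * Real.sqrt t))) := by
  classical
  set g := Fintype.card Om with hg
  set a : ℝ := 1 / Real.sqrt g with ha
  set R : Finset Om → Matrix J J ℂ := fun η => res (rm A η) t with hR
  set N : Finset Om → Matrix I J ℂ := fun η => rm A η * res (rm A η) t with hN
  -- main term for one sign
  set Mn : Finset Om → Om → ℂ := fun η x =>
    trace ((A x)ᴴ * A x * R (flp x η))
      - trace ((rm A η * R η * (rm A η)ᴴ) * (A x * R η * (A x)ᴴ))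
      - trace ((A x)ᴴ * N η * (A x)ᴴ * N η) with hMn
  -- the left side
  have e1 : ∀ η : Finset Om, ((Fintype.card J - t * trR (rm A η) t : ℝ) : ℂ)
      = ∑ x, ((sgr η x : ℝ) : ℂ) * trace ((A x)ᴴ * N η) := by
    intro η
    rw [← trace_mul_self (rm A η) ht, Matrix.mul_assoc]
    conv_lhs => rw [show (rm A η)ᴴ = ∑ x, ((sgr η x : ℝ) : ℂ) • (A x)ᴴ by
      unfold rm
      rw [conjTranspose_sum]
      refine Finset.sum_congr rfl fun x _ => ?_
      rw [conjTranspose_smul]
      congr 1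
      exact Complex.conj_ofReal _]
    rw [Matrix.sum_mul, trace_sum]
    refine Finset.sum_congr rfl fun x _ => ?_
    rw [Matrix.smul_mul, trace_smul, smul_eq_mul]
  have e2 : ∀ x : Om, ∑ η : Finset Om, ((sgr η x : ℝ) : ℂ) * trace ((A x)ᴴ * N η)
      = ∑ η : Finset Om, ((1 / 2 * sgr η x : ℝ) : ℂ) * trace ((A x)ᴴ * (N η - N (flp x η))) := by
    intro x
    have h1 := sum_flp x (fun η : Finset Om => ((sgr η x : ℝ) : ℂ) * trace ((A x)ᴴ * N η))
    simp only [sgr_flp_self] at h1
    have h2 : ∑ η : Finset Om, ((sgr η x : ℝ) : ℂ) * trace ((A x)ᴴ * N η)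
        = 1 / 2 * (∑ η : Finset Om, ((sgr η x : ℝ) : ℂ) * trace ((A x)ᴴ * N η)
          + ∑ η : Finset Om, ((-sgr η x : ℝ) : ℂ) * trace ((A x)ᴴ * N (flp x η))) := by
      rw [h1]
      ring
    rw [h2, ← Finset.sum_add_distrib, Finset.mul_sum]
    refine Finset.sum_congr rfl fun η _ => ?_
    rw [Matrix.mul_sub, trace_sub]
    push_cast
    ring
  have e3 : ∀ (x : Om) (η : Finset Om),
      ‖((1 / 2 * sgr η x : ℝ) : ℂ) * trace ((A x)ᴴ * (N η - N (flp x η))) - Mn η x‖
        ≤ 17 / 4 * Fintype.card J * a ^ 3 / (t * Real.sqrt t) := by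
    intro x η
    have h1 := stein_step (rm A η) (A x) (sgr_mul_self η x) (hA.norm_le x) ht
    rw [← rm_flp] at h1
    exact h1
  -- sums of the main terms
  have e4 : ∑ x, ∑ η : Finset Om, trace ((A x)ᴴ * A x * R (flp x η))
      = ∑ η : Finset Om, ((trR (rm A η) t : ℝ) : ℂ) := by
    have h1 : ∀ x ∈ (Finset.univ : Finset Om), ∑ η : Finset Om, trace ((A x)ᴴ * A x * R (flp x η))
        = (g : ℂ)⁻¹ * ∑ η : Finset Om, ((trR (rm A η) t : ℝ) : ℂ) := by
      intro x _
      rw [Finset.mul_sum, ← sum_flp x (fun η : Finset Om => (g : ℂ)⁻¹ * ((trR (rm A η) t : ℝ) : ℂ))]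
      refine Finset.sum_congr rfl fun η _ => ?_
      rw [hA.one x, Matrix.smul_mul, Matrix.one_mul, trace_smul, smul_eq_mul]
      simp only [hR]
      rw [trace_res]
    rw [Finset.sum_congr rfl h1, Finset.sum_const, Finset.card_univ, nsmul_eq_mul, ← mul_assoc]
    rw [mul_inv_cancel₀ (by exact_mod_cast hO.ne'), one_mul]
  have e5 : ∀ η : Finset Om, ∑ x, trace ((rm A η * R η * (rm A η)ᴴ) * (A x * R η * (A x)ᴴ))
      = (((Fintype.card J - t * trR (rm A η) t) * trR (rm A η) t / Fintype.card I : ℝ) : ℂ) := by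
    intro η
    rw [← trace_sum, ← Matrix.mul_sum, hA.two, Matrix.mul_smul, Matrix.mul_one, trace_smul,
      smul_eq_mul]
    simp only [hR]
    rw [trace_res, trace_conj _ ht]
    push_cast
    ring
  have e6 : ∀ η : Finset Om, ‖∑ x, trace ((A x)ᴴ * N η * (A x)ᴴ * N η)‖
      ≤ (trR (rm A η) t - t * trR2 (rm A η) t) / Fintype.card I := by
    intro η
    have h1 := hA.three (N η)
    rwa [frob_mul_res _ ht] at h1
  -- collect
  have e7 : ((∑ η : Finset Om, ((Fintype.card J - t * trR (rm A η) t) - trR (rm A η) t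
        + (Fintype.card J - t * trR (rm A η) t) * trR (rm A η) t / Fintype.card I) : ℝ) : ℂ)
      = ∑ x, ∑ η : Finset Om, (((1 / 2 * sgr η x : ℝ) : ℂ)
          * trace ((A x)ᴴ * (N η - N (flp x η))) - Mn η x)
        - ∑ η : Finset Om, ∑ x, trace ((A x)ᴴ * N η * (A x)ᴴ * N η) := by
    have h1 : ∑ η : Finset Om, ((Fintype.card J - t * trR (rm A η) t : ℝ) : ℂ)
        = ∑ x, ∑ η : Finset Om, ((1 / 2 * sgr η x : ℝ) : ℂ)
          * trace ((A x)ᴴ * (N η - N (flp x η))) := by
      rw [Finset.sum_congr rfl (fun η _ => e1 η), Finset.sum_comm]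
      exact Finset.sum_congr rfl fun x _ => e2 x
    have h2 : ∑ x, ∑ η : Finset Om, Mn η x
        = ∑ η : Finset Om, ((trR (rm A η) t : ℝ) : ℂ)
          - ∑ η : Finset Om, (((Fintype.card J - t * trR (rm A η) t) * trR (rm A η) t
            / Fintype.card I : ℝ) : ℂ)
          - ∑ η : Finset Om, ∑ x, trace ((A x)ᴴ * N η * (A x)ᴴ * N η) := by
      simp only [hMn, Finset.sum_sub_distrib]
      rw [e4]
      congr 1
      · congr 1
        rw [Finset.sum_comm]
        exact Finset.sum_congr rfl fun η _ => e5 η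
      · rw [Finset.sum_comm]
    simp only [Finset.sum_sub_distrib (s := (Finset.univ : Finset (Finset Om)))]
    rw [Finset.sum_sub_distrib, ← h1, h2]
    push_cast
    simp only [Finset.sum_add_distrib, Finset.sum_sub_distrib]
    ring
  rw [e7]
  refine (norm_sub_le _ _).trans ?_
  rw [Finset.sum_add_distrib, add_comm]
  refine add_le_add ?_ ?_
  · exact (norm_sum_le _ _).trans (Finset.sum_le_sum fun η _ => e6 η)
  · refine (norm_sum_le _ _).trans ?_
    have h1 : ∀ x ∈ (Finset.univ : Finset Om), ‖∑ η : Finset Om, (((1 / 2 * sgr η x : ℝ) : ℂ)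
          * trace ((A x)ᴴ * (N η - N (flp x η))) - Mn η x)‖
        ≤ ∑ _η : Finset Om, 17 / 4 * Fintype.card J * a ^ 3 / (t * Real.sqrt t) := by
      intro x _
      exact (norm_sum_le _ _).trans (Finset.sum_le_sum fun η _ => e3 x η)
    refine (Finset.sum_le_sum h1).trans ?_
    rw [Finset.sum_const, Finset.card_univ, nsmul_eq_mul, Finset.mul_sum]
    refine Finset.sum_le_sum fun η _ => le_of_eq ?_
    have hs : 0 < Real.sqrt t := Real.sqrt_pos.2 ht
    have hgp : (0 : ℝ) < g := by exact_mod_cast hO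
    have hsg : 0 < Real.sqrt g := Real.sqrt_pos.2 hgp
    have h3 : Real.sqrt g ^ 3 = g * Real.sqrt g := by
      rw [pow_succ, Real.sq_sqrt hgp.le]
    rw [ha, ← hg, div_pow, one_pow, h3]
    field_simp

end Pool.Agent.Lib.MP_938ce2_ag_u2.H7
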