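import Mathlib
import Pool.Agent.Lib.MP_938ce2_ag_u2.Res3

/-!
# Frames of an irreducible representation in a permutation representation (T7)

A frame is an irreducible unitary representation `π` of `G` in the matrices over `I` and an equivariant
family `A x` of `I × J` matrices with orthogonal columns of square length `1 / g`.
-/

set_option autoImplicit false

namespace Pool.Agent.Lib.MP_938ce2_ag_u2.H7

open Matrix Finset
open scoped ComplexConjugate

/-- A frame of multiplicity `card J` of an irreducible representation of dimension `card I`. -/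
structure GFrame (G X I J : Type*) [Group G] [MulAction G X] [Fintype I] [DecidableEq I]
    [Fintype J] [DecidableEq J] (g : ℕ) where
  /-- the representation -/
  π : G →* Matrix I I ℂ
  /-- the vectors -/
  A : X → Matrix I J ℂ
  unitary : ∀ a, (π a)ᴴ = π a⁻¹
  schur : ∀ Y : Matrix I I ℂ, (∀ a, π a * Y = Y * π a) → ∃ z : ℂ, Y = z • (1 : Matrix I I ℂ)
  equi : ∀ a x, A (a • x) = π a * A x
  gram : ∀ x, (A x)ᴴ * A x = ((g : ℂ)⁻¹) • (1 : Matrix J J ℂ)

variable {G X I J : Type*} [Group G] [MulAction G X] [Fintype I] [DecidableEq I]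
    [Fintype J] [DecidableEq J]

/-- The square of the Frobenius norm. -/
noncomputable def fro {I J : Type*} [Fintype I] [Fintype J] (N : Matrix I J ℂ) : ℝ :=
  ∑ i, ∑ j, ‖N i j‖ ^ 2

theorem fro_nonneg {I J : Type*} [Fintype I] [Fintype J] (N : Matrix I J ℂ) : 0 ≤ fro N :=
  sum_nonneg fun _ _ => sum_nonneg fun _ _ => sq_nonneg _

theorem fro_eq {I J : Type*} [Fintype I] [Fintype J] (N : Matrix I J ℂ) :
    ((fro N : ℝ) : ℂ) = trace (Nᴴ * N) := by
  unfold fro
  rw [trace]
  simp only [diag_apply, Matrix.mul_apply, conjTranspose_apply]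
  rw [Finset.sum_comm]
  push_cast
  refine Finset.sum_congr rfl fun i _ => Finset.sum_congr rfl fun j _ => ?_
  rw [← Complex.conj_mul']
  rfl

theorem fro_transpose {I J : Type*} [Fintype I] [Fintype J] (N : Matrix I J ℂ) :
    fro Nᵀ = fro N := by
  unfold fro
  rw [Finset.sum_comm]
  rfl

theorem fro_conjTranspose {I J : Type*} [Fintype I] [Fintype J] (N : Matrix I J ℂ) :
    fro Nᴴ = fro N := by
  unfold fro
  rw [Finset.sum_comm]
  simp only [conjTranspose_apply, norm_star]

/-- Cauchy-Schwarz. -/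
theorem norm_trace_mul_le {I J : Type*} [Fintype I] [Fintype J] (M : Matrix I J ℂ)
    (N : Matrix J I ℂ) : ‖trace (M * N)‖ ≤ Real.sqrt (fro M) * Real.sqrt (fro N) := by
  have h1 : trace (M * N) = ∑ p : I × J, M p.1 p.2 * N p.2 p.1 := by
    rw [trace, Fintype.sum_prod_type]
    rfl
  have h2 : fro M = ∑ p : I × J, ‖M p.1 p.2‖ ^ 2 := by
    rw [fro, Fintype.sum_prod_type]
  have h3 : fro N = ∑ p : I × J, ‖N p.2 p.1‖ ^ 2 := by
    rw [fro, Fintype.sum_prod_type, Finset.sum_comm]
  rw [h1, h2, h3]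
  calc ‖∑ p : I × J, M p.1 p.2 * N p.2 p.1‖
      ≤ ∑ p : I × J, ‖M p.1 p.2‖ * ‖N p.2 p.1‖ := by
        refine (norm_sum_le _ _).trans (le_of_eq ?_)
        exact Finset.sum_congr rfl fun p _ => norm_mul _ _
    _ ≤ _ := Real.sum_mul_le_sqrt_mul_sqrt _ _ _

/-- Multiplication by a multiple of an isometry. -/
theorem fro_mul_left {I J K : Type*} [Fintype I] [Fintype J] [DecidableEq J] [Fintype K]
    {U : Matrix I J ℂ} {l : ℝ} (hU : Uᴴ * U = (l : ℂ) • (1 : Matrix J J ℂ)) (N : Matrix J K ℂ) :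
    fro (U * N) = l * fro N := by
  apply Complex.ofReal_injective
  push_cast
  rw [fro_eq, fro_eq, conjTranspose_mul, Matrix.mul_assoc, ← Matrix.mul_assoc Uᴴ, hU,
    Matrix.smul_mul, Matrix.one_mul, Matrix.mul_smul, trace_smul, smul_eq_mul]

theorem fro_mul_right {I J K : Type*} [Fintype I] [Fintype J] [DecidableEq J] [Fintype K]
    {U : Matrix I J ℂ} {l : ℝ} (hU : Uᴴ * U = (l : ℂ) • (1 : Matrix J J ℂ)) (N : Matrix K J ℂ) :
    fro (N * Uᴴ) = l * fro N := by
  rw [← fro_conjTranspose, conjTranspose_mul, conjTranspose_conjTranspose, fro_mul_left hU,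
    fro_conjTranspose]

/-- The sum over a half system. -/
theorem sum_half [Fintype X] {c : G} {Ω : Finset X} (hΩ : ∀ x, x ∈ Ω ↔ c • x ∉ Ω) {M : Type*}
    [AddCommGroup M] (f : X → M) (hf : ∀ x, f (c • x) = f x) :
    ∑ x, f x = (∑ x ∈ Ω, f x) + ∑ x ∈ Ω, f x := by
  classical
  rw [← Finset.sum_add_sum_compl Ω f]
  congr 1
  symm
  refine Finset.sum_bij (fun x _ => c • x) (fun x hx => ?_) (fun x _ y _ h => ?_)
    (fun y hy => ?_) (fun x _ => (hf x).symm)
  · rw [Finset.mem_compl]
    exact (hΩ x).1 hx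
  · exact smul_left_cancel c h
  · rw [Finset.mem_compl] at hy
    refine ⟨c⁻¹ • y, (hΩ _).2 ?_, smul_inv_smul c y⟩
    rwa [smul_inv_smul]

theorem card_half [Fintype X] {g : ℕ} {c : G} {Ω : Finset X} (hΩ : ∀ x, x ∈ Ω ↔ c • x ∉ Ω)
    (hX : Fintype.card X = 2 * g) : Ω.card = g := by
  have h := sum_half hΩ (fun _ => (1 : ℤ)) fun _ => rfl
  simp only [sum_const, card_univ, nsmul_eq_mul, mul_one] at h
  omega

namespace GFrame

variable {g : ℕ} (F : GFrame G X I J g)

theorem unitary' (a : G) : (F.π a)ᴴ * F.π a = 1 := by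
  rw [F.unitary, ← map_mul, inv_mul_cancel, map_one]

theorem unitary'' (a : G) : F.π a * (F.π a)ᴴ = 1 := by
  rw [F.unitary, ← map_mul, mul_inv_cancel, map_one]

variable [Fintype X]

/-- The average of a matrix over the frame commutes with the representation. -/
theorem comm_sum (Y : Matrix J J ℂ) (a : G) :
    F.π a * (∑ x, F.A x * Y * (F.A x)ᴴ) = (∑ x, F.A x * Y * (F.A x)ᴴ) * F.π a := by
  have h1 : ∑ x, F.A x * Y * (F.A x)ᴴ = ∑ x, F.A (a • x) * Y * (F.A (a • x))ᴴ :=
    (Equiv.sum_comp (MulAction.toPerm a : Equiv.Perm X) fun x => F.A x * Y * (F.A x)ᴴ).symm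
  conv_rhs => rw [h1]
  rw [Finset.mul_sum, Finset.sum_mul]
  refine Finset.sum_congr rfl fun x _ => ?_
  rw [F.equi, conjTranspose_mul, F.unitary]
  simp only [Matrix.mul_assoc]
  rw [← map_mul, inv_mul_cancel, map_one, Matrix.mul_one]

/-- The sum over the frame, (ii) over all points. -/
theorem sum_all [Nonempty I] (hg : 0 < g) (hX : Fintype.card X = 2 * g) (Y : Matrix J J ℂ) :
    ∑ x, F.A x * Y * (F.A x)ᴴ = (2 * trace Y / (Fintype.card I : ℂ)) • (1 : Matrix I I ℂ) := by
  obtain ⟨z, hz⟩ := F.schur _ (F.comm_sum Y)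
  have h1 : trace (∑ x, F.A x * Y * (F.A x)ᴴ) = 2 * trace Y := by
    rw [trace_sum]
    have : ∀ x ∈ (univ : Finset X), trace (F.A x * Y * (F.A x)ᴴ) = (g : ℂ)⁻¹ * trace Y := by
      intro x _
      rw [trace_mul_comm, ← Matrix.mul_assoc, F.gram, Matrix.smul_mul, Matrix.one_mul, trace_smul,
        smul_eq_mul]
    rw [sum_congr rfl this, sum_const, card_univ, hX, nsmul_eq_mul]
    have hg' : (g : ℂ) ≠ 0 := by exact_mod_cast hg.ne'
    push_cast
    field_simp
  have hn : (Fintype.card I : ℂ) ≠ 0 := by exact_mod_cast Fintype.card_ne_zero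
  rw [hz] at h1 ⊢
  rw [trace_smul, trace_one, smul_eq_mul] at h1
  congr 1
  rw [← h1]
  field_simp

/-- (ii) -/
theorem sum_half_ii [Nonempty I] (hg : 0 < g) (hX : Fintype.card X = 2 * g) {c : G}
    (hc : ∀ x, F.A (c • x) = - F.A x) {Ω : Finset X} (hΩ : ∀ x, x ∈ Ω ↔ c • x ∉ Ω)
    (Y : Matrix J J ℂ) :
    ∑ x ∈ Ω, F.A x * Y * (F.A x)ᴴ = (trace Y / (Fintype.card I : ℂ)) • (1 : Matrix I I ℂ) := by
  have h1 := sum_half hΩ (fun x => F.A x * Y * (F.A x)ᴴ) fun x => by
    simp only [hc, Matrix.neg_mul, conjTranspose_neg, Matrix.mul_neg, neg_neg]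
  rw [F.sum_all hg hX Y] at h1
  have h2 : (2 : ℂ) • ∑ x ∈ Ω, F.A x * Y * (F.A x)ᴴ =
      (2 : ℂ) • ((trace Y / (Fintype.card I : ℂ)) • (1 : Matrix I I ℂ)) := by
    rw [two_smul, ← h1, smul_smul]
    congr 1
    ring
  exact smul_right_injective _ (two_ne_zero (α := ℂ)) h2

/-! ### The symmetric part -/

omit [DecidableEq I] [DecidableEq J] in
theorem trace_four (A N : Matrix I J ℂ) : trace (Aᴴ * N * Aᴴ * N) =
    ∑ i, ∑ l, ∑ k, ∑ j, conj (A j i * A l k) * (N j k * N l i) := by
  rw [trace]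
  simp only [diag_apply, Matrix.mul_apply, conjTranspose_apply, Finset.sum_mul]
  refine Finset.sum_congr rfl fun i _ => Finset.sum_congr rfl fun l _ =>
    Finset.sum_congr rfl fun k _ => Finset.sum_congr rfl fun j _ => ?_
  rw [map_mul]
  simp only [← starRingEnd_apply]
  ring

omit [DecidableEq I] [DecidableEq J] in
theorem trace_conj_four (m : Matrix J J ℂ) (Q : Matrix I I ℂ) (N : Matrix I J ℂ) :
    trace (m.map conj * Nᵀ * Q.map conj * N) =
      ∑ i, ∑ l, ∑ k, ∑ j, conj (m i k * Q j l) * (N j k * N l i) := by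
  rw [trace]
  simp only [diag_apply, Matrix.mul_apply, map_apply, transpose_apply, Finset.sum_mul]
  refine Finset.sum_congr rfl fun i _ => Finset.sum_congr rfl fun l _ => ?_
  rw [Finset.sum_comm]
  refine Finset.sum_congr rfl fun k _ => Finset.sum_congr rfl fun j _ => ?_
  rw [map_mul]
  ring

omit [DecidableEq I] [Fintype J] [DecidableEq J] in
theorem mid_apply (A : Matrix I J ℂ) (Q : Matrix I I ℂ) (i k : J) :
    (Aᴴ * Q * A.map conj) i k = ∑ j, ∑ l, conj (A j i * A l k) * Q j l := by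
  simp only [Matrix.mul_apply, map_apply, conjTranspose_apply, Finset.sum_mul]
  rw [sum_comm]
  refine sum_congr rfl fun j _ => sum_congr rfl fun l _ => ?_
  rw [map_mul]
  simp only [← starRingEnd_apply]
  ring

omit [DecidableEq I] in
theorem conj_trace_mul (S Q : Matrix I I ℂ) :
    conj (trace (S * Qᴴ)) = ∑ j, ∑ l, conj (S j l) * Q j l := by
  rw [trace, map_sum]
  refine sum_congr rfl fun j _ => ?_
  rw [diag_apply, Matrix.mul_apply, map_sum]
  refine sum_congr rfl fun l _ => ?_
  rw [conjTranspose_apply, map_mul, ← starRingEnd_apply, Complex.conj_conj]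

omit [DecidableEq I] in
theorem conj_gram {J : Type*} [Fintype J] [DecidableEq J] {A : Matrix I J ℂ} {r : ℝ}
    (h : Aᴴ * A = (r : ℂ) • (1 : Matrix J J ℂ)) :
    (A.map conj)ᴴ * A.map conj = (r : ℂ) • (1 : Matrix J J ℂ) := by
  ext i j
  have h1 := congrArg conj (congrFun (congrFun h i) j)
  rw [Matrix.smul_apply, smul_eq_mul, map_mul, Complex.conj_ofReal] at h1
  have h2 : conj ((1 : Matrix J J ℂ) i j) = (1 : Matrix J J ℂ) i j := by
    rw [Matrix.one_apply]
    split_ifs <;> simp
  rw [h2] at h1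
  rw [Matrix.smul_apply, smul_eq_mul, ← h1, Matrix.mul_apply, Matrix.mul_apply, map_sum]
  refine sum_congr rfl fun k _ => ?_
  rw [conjTranspose_apply, conjTranspose_apply, map_apply, map_apply, map_mul]
  rfl

/-- The matrices `Q` with `π a Q (π a)ᵀ = Q`. -/
def Inv (Q : Matrix I I ℂ) : Prop := ∀ a, F.π a * Q * (F.π a)ᵀ = Q

/-- The products of two rows of the frame. -/
noncomputable def sym (i k : J) : Matrix I I ℂ :=
  Matrix.of fun j l => ∑ x, F.A x j i * F.A x l k

theorem inv_sym (i k : J) : F.Inv (F.sym i k) := by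
  intro a
  ext j l
  have h1 : (F.π a * F.sym i k * (F.π a)ᵀ) j l =
      ∑ x, (F.π a * F.A x) j i * (F.π a * F.A x) l k := by
    simp only [sym, Matrix.mul_apply, of_apply, transpose_apply, Finset.mul_sum, Finset.sum_mul]
    have h2 : ∀ x ∈ (univ : Finset X), ∀ q ∈ (univ : Finset I), ∀ p ∈ (univ : Finset I),
        F.π a j p * (F.A x p i * F.A x q k) * F.π a l q =
          F.π a j p * F.A x p i * (F.π a l q * F.A x q k) := fun x _ q _ p _ => by ring
    calc ∑ q, ∑ p, ∑ x, F.π a j p * (F.A x p i * F.A x q k) * F.π a l q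
        = ∑ q, ∑ x, ∑ p, F.π a j p * (F.A x p i * F.A x q k) * F.π a l q :=
          sum_congr rfl fun q _ => sum_comm
      _ = ∑ x, ∑ q, ∑ p, F.π a j p * (F.A x p i * F.A x q k) * F.π a l q := sum_comm
      _ = _ := sum_congr rfl fun x hx => sum_congr rfl fun q hq => sum_congr rfl fun p hp =>
        h2 x hx q hq p hp
  rw [h1]
  simp only [← F.equi]
  simp only [sym, of_apply]
  exact Equiv.sum_comp (MulAction.toPerm a : Equiv.Perm X) fun x => F.A x j i * F.A x l k

omit [Fintype X] in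
theorem inv_comm {Q : Matrix I I ℂ} (hQ : F.Inv Q) (a : G) :
    F.π a * Q = Q * (F.π a).map conj := by
  have h1 : (F.π a)ᵀ * (F.π a).map conj = 1 := by
    have h2 : ((F.π a)ᴴ * F.π a).map conj = (1 : Matrix I I ℂ).map conj := by rw [F.unitary']
    have h3 : ((F.π a)ᴴ * F.π a).map conj = (F.π a)ᵀ * (F.π a).map conj := by
      ext i j
      simp only [map_apply, Matrix.mul_apply, conjTranspose_apply, transpose_apply, map_sum,
        map_mul]
      refine sum_congr rfl fun k _ => ?_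
      rw [← starRingEnd_apply, Complex.conj_conj]
    rw [h3] at h2
    rw [h2]
    ext i j
    simp only [map_apply, Matrix.one_apply]
    split_ifs <;> simp
  calc F.π a * Q = F.π a * Q * ((F.π a)ᵀ * (F.π a).map conj) := by rw [h1, Matrix.mul_one]
    _ = F.π a * Q * (F.π a)ᵀ * (F.π a).map conj := by simp only [Matrix.mul_assoc]
    _ = _ := by rw [hQ a]

omit [Fintype X] in
theorem inv_mul {Q Q' : Matrix I I ℂ} (hQ : F.Inv Q) (hQ' : F.Inv Q') :
    ∃ z : ℂ, Q * Q'ᴴ = z • (1 : Matrix I I ℂ) := by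
  refine F.schur _ fun a => ?_
  have h1 : (F.π a).map conj * Q'ᴴ = Q'ᴴ * F.π a := by
    have h2 := F.inv_comm hQ' a⁻¹
    have h3 := congrArg conjTranspose h2
    rw [conjTranspose_mul, conjTranspose_mul, ← F.unitary, conjTranspose_conjTranspose] at h3
    rw [h3]
    congr 1
    ext i j
    simp only [map_apply, conjTranspose_apply]
    simp
  rw [← Matrix.mul_assoc, F.inv_comm hQ a, Matrix.mul_assoc, h1, Matrix.mul_assoc]

/-- The bound (iii) over all points. -/
theorem sum_all_iii [Nonempty I] (hg : 0 < g) (hX : Fintype.card X = 2 * g) (N : Matrix I J ℂ) :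
    ‖∑ x, trace ((F.A x)ᴴ * N * (F.A x)ᴴ * N)‖ ≤ 2 * (fro N / Fintype.card I) := by
  have hn : (0 : ℝ) < Fintype.card I := by exact_mod_cast Fintype.card_pos
  have hg' : (0 : ℝ) < g := by exact_mod_cast hg
  have hN := fro_nonneg N
  by_cases h0 : ∀ Q, F.Inv Q → Q = 0
  · have h1 : ∑ x, trace ((F.A x)ᴴ * N * (F.A x)ᴴ * N) =
        ∑ i, ∑ l, ∑ k, ∑ j, conj (F.sym i k j l) * (N j k * N l i) := by
      simp only [trace_four, sym, of_apply, map_sum, Finset.sum_mul]
      rw [sum_comm]
      refine sum_congr rfl fun i _ => ?_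
      rw [sum_comm]
      refine sum_congr rfl fun l _ => ?_
      rw [sum_comm]
      refine sum_congr rfl fun k _ => ?_
      rw [sum_comm]
    have h2 : ∀ i k j l, F.sym i k j l = 0 := fun i k j l => by
      rw [h0 _ (F.inv_sym i k)]
      rfl
    rw [h1]
    simp only [h2, map_zero, zero_mul, sum_const_zero, norm_zero]
    positivity
  · push Not at h0
    obtain ⟨Q, hQ, hQ0⟩ := h0
    obtain ⟨z, hz⟩ := F.inv_mul hQ hQ
    have hlam : (fro Q : ℂ) = z * Fintype.card I := by
      rw [fro_eq, trace_mul_comm, hz, trace_smul, trace_one, smul_eq_mul]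
    have hfQ : 0 < fro Q := by
      rcases (fro_nonneg Q).eq_or_lt with h | h
      · exfalso
        apply hQ0
        ext i j
        have h3 : ‖Q i j‖ ^ 2 ≤ fro Q := by
          unfold fro
          refine le_trans ?_ (single_le_sum (f := fun i => ∑ j, ‖Q i j‖ ^ 2)
            (fun _ _ => sum_nonneg fun _ _ => sq_nonneg _) (mem_univ i))
          exact single_le_sum (f := fun j => ‖Q i j‖ ^ 2) (fun _ _ => sq_nonneg _) (mem_univ j)
        rw [← h] at h3
        have h4 : ‖Q i j‖ = 0 := by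
          have := norm_nonneg (Q i j)
          nlinarith
        exact norm_eq_zero.1 h4
      · exact h
    set l : ℝ := fro Q / Fintype.card I with hl
    have hl0 : 0 < l := by positivity
    have hzl : z = (l : ℂ) := by
      rw [hl]
      push_cast
      rw [hlam]
      have : (Fintype.card I : ℂ) ≠ 0 := by exact_mod_cast hn.ne'
      field_simp
    rw [hzl] at hz
    have hlc : (l : ℂ) ≠ 0 := by exact_mod_cast hl0.ne'
    have hz' : Qᴴ * Q = (l : ℂ) • (1 : Matrix I I ℂ) := by
      have h3 : Q * ((l : ℂ)⁻¹ • Qᴴ) = 1 := by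
        rw [Matrix.mul_smul, hz, smul_smul, inv_mul_cancel₀ hlc, one_smul]
      have h4 := mul_eq_one_comm.1 h3
      rw [Matrix.smul_mul] at h4
      have h5 : (l : ℂ) • ((l : ℂ)⁻¹ • (Qᴴ * Q)) = (l : ℂ) • (1 : Matrix I I ℂ) := by rw [h4]
      rwa [smul_smul, mul_inv_cancel₀ hlc, one_smul] at h5
    -- all invariant matrices are multiples of `Q`
    have hmul : ∀ S, F.Inv S → S = (trace (S * Qᴴ) / (Fintype.card I * l)) • Q := by
      intro S hS
      obtain ⟨y, hy⟩ := F.inv_mul hS hQ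
      have h3 : (l : ℂ) • S = y • Q := by
        calc (l : ℂ) • S = S * (Qᴴ * Q) := by rw [hz', Matrix.mul_smul, Matrix.mul_one]
          _ = S * Qᴴ * Q := by rw [Matrix.mul_assoc]
          _ = y • Q := by rw [hy, Matrix.smul_mul, Matrix.one_mul]
      rw [hy, trace_smul, trace_one, smul_eq_mul]
      have h4 : S = (l : ℂ)⁻¹ • y • Q := by
        rw [← h3, smul_smul, inv_mul_cancel₀ hlc, one_smul]
      conv_lhs => rw [h4]
      rw [smul_smul]
      congr 1
      have : (Fintype.card I : ℂ) ≠ 0 := by exact_mod_cast hn.ne'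
      field_simp
    set m : Matrix J J ℂ := Matrix.of fun i k => trace (F.sym i k * Qᴴ) / (Fintype.card I * l)
      with hm
    have hsum : ∑ x, trace ((F.A x)ᴴ * N * (F.A x)ᴴ * N) =
        trace (m.map conj * Nᵀ * Q.map conj * N) := by
      rw [trace_conj_four]
      simp only [trace_four]
      have h3 : ∀ i k j l, ∑ x, F.A x j i * F.A x l k = m i k * Q j l := by
        intro i k j l
        have h4 := congrFun (congrFun (hmul _ (F.inv_sym i k)) j) l
        rw [Matrix.smul_apply, smul_eq_mul] at h4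
        rw [hm, of_apply, ← h4]
        rfl
      rw [sum_comm]
      refine sum_congr rfl fun i _ => ?_
      rw [sum_comm]
      refine sum_congr rfl fun l _ => ?_
      rw [sum_comm]
      refine sum_congr rfl fun k _ => ?_
      rw [sum_comm]
      refine sum_congr rfl fun j _ => ?_
      rw [← h3, map_sum, Finset.sum_mul]
    have hmc : m.map conj = ((Fintype.card I * l : ℂ)⁻¹) •
        ∑ x, (F.A x)ᴴ * Q * (F.A x).map conj := by
      ext i k
      rw [map_apply, hm, of_apply, map_div₀, map_mul, Complex.conj_ofReal, Complex.conj_natCast,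
        div_eq_inv_mul, Matrix.smul_apply, smul_eq_mul, Matrix.sum_apply, conj_trace_mul]
      congr 1
      simp only [mid_apply, sym, of_apply, map_sum, Finset.sum_mul]
      symm
      rw [sum_comm]
      refine sum_congr rfl fun j _ => ?_
      rw [sum_comm]
    have hc1 : ∀ x, ((F.A x).map conj)ᴴ * (F.A x).map conj = (((g : ℝ)⁻¹ : ℝ) : ℂ) •
        (1 : Matrix J J ℂ) := fun x => conj_gram (by rw [F.gram]; push_cast; rfl)
    have hQc : (Q.map conj)ᴴ * Q.map conj = (l : ℂ) • (1 : Matrix I I ℂ) := conj_gram hz'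
    rw [hsum, hmc, Matrix.smul_mul, Matrix.smul_mul, Matrix.smul_mul, trace_smul, norm_smul,
      Matrix.sum_mul, Matrix.sum_mul, Matrix.sum_mul, trace_sum]
    have hterm : ∀ x ∈ (univ : Finset X),
        ‖trace ((F.A x)ᴴ * Q * (F.A x).map conj * Nᵀ * Q.map conj * N)‖ ≤ l * fro N / g := by
      intro x _
      have h3 : trace ((F.A x)ᴴ * Q * (F.A x).map conj * Nᵀ * Q.map conj * N) =
          trace ((Q * ((F.A x).map conj * Nᵀ)) * (Q.map conj * (N * (F.A x)ᴴ))) := by
        simp only [Matrix.mul_assoc]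
        rw [trace_mul_comm]
        simp only [Matrix.mul_assoc]
      rw [h3]
      refine (norm_trace_mul_le _ _).trans (le_of_eq ?_)
      rw [fro_mul_left hz', fro_mul_left (hc1 x), fro_transpose, fro_mul_left hQc,
        fro_mul_right (l := (g : ℝ)⁻¹) (by rw [F.gram]; push_cast; rfl),
        Real.mul_self_sqrt (by positivity)]
      ring
    have h4 : ‖∑ x, trace ((F.A x)ᴴ * Q * (F.A x).map conj * Nᵀ * Q.map conj * N)‖ ≤
        2 * g * (l * fro N / g) := by
      refine (norm_sum_le _ _).trans ((sum_le_sum hterm).trans (le_of_eq ?_))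
      rw [sum_const, card_univ, hX, nsmul_eq_mul]
      push_cast
      ring
    have h5 : ‖((Fintype.card I : ℂ) * l)⁻¹‖ = ((Fintype.card I : ℝ) * l)⁻¹ := by
      rw [norm_inv, norm_mul, Complex.norm_natCast, Complex.norm_real, Real.norm_eq_abs,
        abs_of_pos hl0]
    rw [h5]
    refine (mul_le_mul_of_nonneg_left h4 (by positivity)).trans (le_of_eq ?_)
    field_simp

/-- **T7**: the frame over a half system satisfies the assumptions of the resolvent method. -/
theorem frame [Nonempty I] (hg : 0 < g) (hX : Fintype.card X = 2 * g) {c : G}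
    (hc : ∀ x, F.A (c • x) = - F.A x) {Ω : Finset X} (hΩ : ∀ x, x ∈ Ω ↔ c • x ∉ Ω) :
    Frame (fun x : {x // x ∈ Ω} => F.A x) := by
  have hcard : Fintype.card {x // x ∈ Ω} = g := by
    rw [Fintype.card_coe]
    exact card_half hΩ hX
  refine ⟨fun x => ?_, fun Y => ?_, fun N => ?_⟩
  · rw [hcard]
    exact F.gram x
  · rw [← F.sum_half_ii hg hX hc hΩ Y]
    exact Finset.sum_coe_sort Ω fun x => F.A x * Y * (F.A x)ᴴ
  · have h1 := sum_half hΩ (fun x => trace ((F.A x)ᴴ * N * (F.A x)ᴴ * N)) fun x => by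
      simp only [hc, Matrix.neg_mul, conjTranspose_neg, Matrix.mul_neg, neg_neg]
    have h2 := F.sum_all_iii hg hX N
    rw [h1, ← two_mul, norm_mul, Complex.norm_two] at h2
    have h3 : ∑ x : {x // x ∈ Ω}, trace ((F.A x)ᴴ * N * (F.A x)ᴴ * N) =
        ∑ x ∈ Ω, trace ((F.A x)ᴴ * N * (F.A x)ᴴ * N) :=
      Finset.sum_coe_sort Ω fun x => trace ((F.A x)ᴴ * N * (F.A x)ᴴ * N)
    rw [h3]
    have h4 : fro N = ∑ i, ∑ j, ‖N i j‖ ^ 2 := rfl
    rw [← h4]
    linarith

end GFrame

end Pool.Agent.Lib.MP_938ce2_ag_u2.H7
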