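import Mathlib
import Pool.Agent.Lib.MP_938ce2_ag_u2.FrameDefs
import Pool.Agent.Lib.MP_938ce2_ag_u2.Half
import Pool.Agent.Lib.MP_938ce2_ag_u2.GFrame

/-!
Row FrameAvg: the average of `A x Y A x*`.
-/

set_option autoImplicit false
set_option linter.unusedSectionVars false

namespace Pool.Agent.Lib.MP_938ce2_ag_u2

open Finset Module Matrix

variable {G X : Type} [Group G] [MulAction G X] [Fintype X] [DecidableEq X] {c : G}
  {g : ℕ} [MulAction.IsPretransitive G X] {n κ : ℕ} {π : G →* Matrix (Fin n) (Fin n) ℂ}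
  {A : X → Matrix (Fin n) (Fin κ) ℂ}

/-- the same data in another form -/
def Frame.toG (hF : Frame G X c g π A) : H7.GFrame G X (Fin n) (Fin κ) g where
  π := π
  A := A
  unitary := hF.unit
  schur := hF.schur
  equi := hF.eqv
  gram := hF.iso

theorem sum_avg (hA : Act G X c g) (hF : Frame G X c g π A) (hn : 1 ≤ n)
    (Y : Matrix (Fin κ) (Fin κ) ℂ) :
    ∑ x, A x * Y * (A x)ᴴ = (2 * Y.trace / (n : ℂ)) • 1 := by
  have : Nonempty (Fin n) := ⟨⟨0, hn⟩⟩
  have h := hF.toG.sum_all hA.pos hA.card Y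
  rw [Fintype.card_fin] at h
  exact h

end Pool.Agent.Lib.MP_938ce2_ag_u2
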