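import Mathlib
import Pool.Agent.Lib.MP_938ce2_ag_u2.Res3

/-!
The probability that the random matrix `∑ ± A_x` has a kernel.
-/

set_option autoImplicit false
set_option linter.unusedSectionVars false

namespace Pool.Agent.Lib.MP_938ce2_ag_u2.H7

open Matrix Finset
open scoped Matrix.Norms.L2Operator ComplexOrder

variable {Om I J : Type*} [Fintype Om] [DecidableEq Om] [Fintype I] [DecidableEq I] [Fintype J]
  [DecidableEq J] {A : Om → Matrix I J ℂ} (hA : Frame A)

include hA

/-- inequality (star) -/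
theorem Frame.star_ineq (hO : 0 < Fintype.card Om) (hJI : Fintype.card J ≤ Fintype.card I)
    (hI : 0 < Fintype.card I) {t : ℝ} (ht : 0 < t) :
    t * ∑ η : Finset Om, trR (rm A η) t ^ 2
      ≤ 2 ^ Fintype.card Om * (Fintype.card I * Fintype.card J)
        + ∑ η : Finset Om, (trR (rm A η) t - t * trR2 (rm A η) t)
        + 2 ^ Fintype.card Om * (17 / 4 * (Fintype.card I * Fintype.card J)
          / (Real.sqrt (Fintype.card Om) * (t * Real.sqrt t))) := by
  have h := hA.stein hO ht
  rw [Complex.norm_real, Real.norm_eq_abs] at h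
  have h1 := (abs_le.1 h).1
  have hn : (0 : ℝ) < Fintype.card I := by exact_mod_cast hI
  have hk : (Fintype.card J : ℝ) ≤ Fintype.card I := by exact_mod_cast hJI
  have hcard : (Finset.univ : Finset (Finset Om)).card = 2 ^ Fintype.card Om := by
    rw [Finset.card_univ, Fintype.card_finset]
  set n : ℝ := ((Fintype.card I : ℕ) : ℝ) with hn'
  set k : ℝ := ((Fintype.card J : ℕ) : ℝ) with hk'
  set B : ℝ := 17 / 4 * k / (Real.sqrt (Fintype.card Om) * (t * Real.sqrt t)) with hB
  have h2 : ∑ η : Finset Om, ((k - t * trR (rm A η) t) - trR (rm A η) t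
        + (k - t * trR (rm A η) t) * trR (rm A η) t / n)
      ≤ ∑ η : Finset Om, (k - t / n * trR (rm A η) t ^ 2) := by
    refine Finset.sum_le_sum fun η _ => ?_
    have h3 := trR_nonneg (rm A η) ht
    have h4 : (k - t * trR (rm A η) t) * trR (rm A η) t / n
        = k / n * trR (rm A η) t - t / n * trR (rm A η) t ^ 2 := by
      field_simp
    have h5 : k / n * trR (rm A η) t ≤ 1 * trR (rm A η) t := by
      gcongr
      rw [div_le_one hn]
      exact hk
    have h6 : 0 ≤ t * trR (rm A η) t := by positivity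
    rw [h4]
    linarith
  have h7 := h1.trans h2
  rw [Finset.sum_sub_distrib, Finset.sum_const, hcard, nsmul_eq_mul, ← Finset.mul_sum,
    Finset.sum_add_distrib, Finset.sum_const, hcard, nsmul_eq_mul, ← Finset.sum_div] at h7
  push_cast at h7
  have h8 : t / n * ∑ η : Finset Om, trR (rm A η) t ^ 2
      ≤ 2 ^ Fintype.card Om * k + (∑ η : Finset Om, (trR (rm A η) t - t * trR2 (rm A η) t)) / n
        + 2 ^ Fintype.card Om * B := by linarith
  have h9 := mul_le_mul_of_nonneg_left h8 hn.le
  have h10 : n * (t / n * ∑ η : Finset Om, trR (rm A η) t ^ 2)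
      = t * ∑ η : Finset Om, trR (rm A η) t ^ 2 := by
    field_simp
  have h11 : n * (2 ^ Fintype.card Om * k
      + (∑ η : Finset Om, (trR (rm A η) t - t * trR2 (rm A η) t)) / n
        + 2 ^ Fintype.card Om * B)
      = 2 ^ Fintype.card Om * (n * k)
        + ∑ η : Finset Om, (trR (rm A η) t - t * trR2 (rm A η) t)
        + 2 ^ Fintype.card Om * (17 / 4 * (n * k)
          / (Real.sqrt (Fintype.card Om) * (t * Real.sqrt t))) := by
    rw [hB]
    field_simp
  rw [h10, h11] at h9
  exact h9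

/-- T5: large kernels -/
theorem Frame.card_ker_mul_sq_le (hO : 0 < Fintype.card Om)
    (hJI : Fintype.card J ≤ Fintype.card I) (hI : 0 < Fintype.card I) {t : ℝ} (ht : 0 < t)
    (s : ℕ) :
    ((Finset.univ.filter fun η : Finset Om =>
        s ≤ Module.finrank ℂ (LinearMap.ker (rm A η).mulVecLin)).card : ℝ) * (s : ℝ) ^ 2
      ≤ 2 ^ Fintype.card Om * (Fintype.card I * Fintype.card J * t + Fintype.card J / 4
        + 5 * (Fintype.card I * Fintype.card J)
          / (Real.sqrt (Fintype.card Om) * Real.sqrt t)) := by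
  have h := hA.star_ineq hO hJI hI ht
  set n : ℝ := ((Fintype.card I : ℕ) : ℝ) with hn'
  set k : ℝ := ((Fintype.card J : ℕ) : ℝ) with hk'
  have hn0 : 0 ≤ n := Nat.cast_nonneg _
  have hk0 : 0 ≤ k := Nat.cast_nonneg _
  have hcard : (Finset.univ : Finset (Finset Om)).card = 2 ^ Fintype.card Om := by
    rw [Finset.card_univ, Fintype.card_finset]
  have h1 : ((Finset.univ.filter fun η : Finset Om =>
        s ≤ Module.finrank ℂ (LinearMap.ker (rm A η).mulVecLin)).card : ℝ) * (s : ℝ) ^ 2
      ≤ ∑ η : Finset Om, (t * trR (rm A η) t) ^ 2 := by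
    rw [← nsmul_eq_mul]
    refine (Finset.card_nsmul_le_sum _ (fun η => (t * trR (rm A η) t) ^ 2) _ ?_).trans
      (Finset.sum_le_sum_of_subset_of_nonneg (Finset.filter_subset _ _)
        fun _ _ _ => sq_nonneg _)
    intro η hη
    have h2 := le_trR (rm A η) ht (Finset.mem_filter.1 hη).2
    rw [div_le_iff₀ ht] at h2
    have h3 : (0 : ℝ) ≤ s := Nat.cast_nonneg _
    have h4 : (s : ℝ) ≤ t * trR (rm A η) t := by linarith
    exact pow_le_pow_left₀ h3 h4 2
  have h2 : ∑ η : Finset Om, (t * trR (rm A η) t) ^ 2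
      = t * (t * ∑ η : Finset Om, trR (rm A η) t ^ 2) := by
    rw [Finset.mul_sum, Finset.mul_sum]
    exact Finset.sum_congr rfl fun η _ => by ring
  have h3 : ∑ η : Finset Om, (trR (rm A η) t - t * trR2 (rm A η) t)
      ≤ 2 ^ Fintype.card Om * (k / (4 * t)) := by
    refine (Finset.sum_le_sum fun η _ => frob_mul_res_le (rm A η) ht).trans ?_
    rw [Finset.sum_const, hcard, nsmul_eq_mul]
    push_cast
    exact le_rfl
  have hs : 0 < Real.sqrt t := Real.sqrt_pos.2 ht
  have hg : (0 : ℝ) < Real.sqrt (Fintype.card Om) := Real.sqrt_pos.2 (by exact_mod_cast hO)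
  calc _ ≤ _ := h1
    _ = t * (t * ∑ η : Finset Om, trR (rm A η) t ^ 2) := h2
    _ ≤ t * (2 ^ Fintype.card Om * (n * k) + 2 ^ Fintype.card Om * (k / (4 * t))
        + 2 ^ Fintype.card Om * (17 / 4 * (n * k)
          / (Real.sqrt (Fintype.card Om) * (t * Real.sqrt t)))) := by
        gcongr
        exact h.trans (by gcongr)
    _ = 2 ^ Fintype.card Om * (n * k * t + k / 4
        + 17 / 4 * (n * k) / (Real.sqrt (Fintype.card Om) * Real.sqrt t)) := by
        field_simp
    _ ≤ _ := by
        gcongr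
        norm_num

omit hA in
theorem hasDerivAt_trR (M : Matrix I J ℂ) {t : ℝ} (ht : 0 < t) :
    HasDerivAt (fun t => trR M t) (-(trR2 M t)) t := by
  unfold trR trR2
  rw [← Finset.sum_neg_distrib]
  refine HasDerivAt.fun_sum fun j _ => ?_
  have h0 : ev M j + t ≠ 0 := by
    have := ev_nonneg M j
    positivity
  have h1 : HasDerivAt (fun t => ev M j + t) 1 t := (hasDerivAt_id t).const_add (ev M j)
  have h2 : HasDerivAt (fun t => (ev M j + t)⁻¹) (-1 / (ev M j + t) ^ 2) t := h1.inv h0
  have h3 : -1 / (ev M j + t) ^ 2 = -((ev M j + t)⁻¹ ^ 2) := by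
    rw [inv_pow]
    ring
  rw [h3] at h2
  exact h2

/-- T6: any kernel -/
theorem Frame.card_ker_le (hO : 0 < Fintype.card Om)
    (hJI : Fintype.card J ≤ Fintype.card I) (hI : 0 < Fintype.card I) :
    ((Finset.univ.filter fun η : Finset Om =>
        1 ≤ Module.finrank ℂ (LinearMap.ker (rm A η).mulVecLin)).card : ℝ)
      ≤ 2 ^ Fintype.card Om * (9 / 2 * (Fintype.card I * Fintype.card J))
        * (Fintype.card Om : ℝ) ^ (-(1 / 4 : ℝ)) := by
  set n : ℝ := ((Fintype.card I : ℕ) : ℝ) with hn'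
  set k : ℝ := ((Fintype.card J : ℕ) : ℝ) with hk'
  set g : ℝ := ((Fintype.card Om : ℕ) : ℝ) with hg'
  have hg1 : 1 ≤ g := by
    rw [hg']
    exact_mod_cast hO
  have hn1 : 1 ≤ n := by
    rw [hn']
    exact_mod_cast hI
  have hk0 : 0 ≤ k := Nat.cast_nonneg _
  have hcard : (Finset.univ : Finset (Finset Om)).card = 2 ^ Fintype.card Om := by
    rw [Finset.card_univ, Fintype.card_finset]
  set W : ℝ := 2 ^ Fintype.card Om with hW
  have hW0 : 0 < W := by positivity
  have hsg : 0 < Real.sqrt g := Real.sqrt_pos.2 (by linarith)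
  set Th : ℝ → ℝ := fun t => ∑ η : Finset Om, trR (rm A η) t with hTh
  set T2 : ℝ → ℝ := fun t => ∑ η : Finset Om, trR2 (rm A η) t with hT2
  have hder : ∀ t : ℝ, 0 < t → HasDerivAt Th (-(T2 t)) t := by
    intro t ht
    simp only [hTh, hT2]
    rw [← Finset.sum_neg_distrib]
    exact HasDerivAt.fun_sum fun η _ => hasDerivAt_trR (rm A η) ht
  have hineq : ∀ t : ℝ, 0 < t →
      2 * t * T2 t ≤ Th t + W * (n * k) + W * (17 / 4 * (n * k) / (Real.sqrt g * (t * Real.sqrt t))) := by
    intro t ht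
    have h := hA.star_ineq hO hJI hI ht
    have h1 : T2 t ≤ ∑ η : Finset Om, trR (rm A η) t ^ 2 :=
      Finset.sum_le_sum fun η _ => trR2_le (rm A η) ht
    have h2 := mul_le_mul_of_nonneg_left h1 ht.le
    rw [Finset.sum_sub_distrib, ← Finset.mul_sum] at h
    linarith
  set D : ℝ := W * (17 / 8 * (n * k)) / Real.sqrt g with hD
  have hD0 : 0 ≤ D := by positivity
  set F : ℝ → ℝ := fun t => Real.sqrt t * Th t + W * (n * k) * Real.sqrt t - D / t with hF
  have hFder : ∀ t : ℝ, 0 < t → HasDerivAt F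
      (1 / (2 * Real.sqrt t) * Th t + Real.sqrt t * (-(T2 t)) + W * (n * k) * (1 / (2 * Real.sqrt t))
        - D * (-(t ^ 2)⁻¹)) t := by
    intro t ht
    have h1 := Real.hasDerivAt_sqrt ht.ne'
    have h2 := h1.mul (hder t ht)
    have h3 := h1.const_mul (W * (n * k))
    have h4 := (hasDerivAt_inv ht.ne').const_mul D
    have h5 := (h2.add h3).sub h4
    have h6 : (((fun x => Real.sqrt x) * Th + fun y => W * (n * k) * Real.sqrt y)
        - fun y => D * y⁻¹) = F := by
      funext y
      simp only [hF, Pi.sub_apply, Pi.add_apply, Pi.mul_apply]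
      rw [div_eq_mul_inv]
    rw [h6] at h5
    exact h5
  have hFpos : ∀ t : ℝ, 0 < t → 0 ≤ 1 / (2 * Real.sqrt t) * Th t + Real.sqrt t * (-(T2 t))
      + W * (n * k) * (1 / (2 * Real.sqrt t)) - D * (-(t ^ 2)⁻¹) := by
    intro t ht
    have hs : 0 < Real.sqrt t := Real.sqrt_pos.2 ht
    have hss : Real.sqrt t * Real.sqrt t = t := Real.mul_self_sqrt ht.le
    have h := hineq t ht
    have h1 : 1 / (2 * Real.sqrt t) * Th t + Real.sqrt t * (-(T2 t))
      + W * (n * k) * (1 / (2 * Real.sqrt t)) - D * (-(t ^ 2)⁻¹)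
        = 1 / (2 * Real.sqrt t) * (Th t + W * (n * k)
          + W * (17 / 4 * (n * k) / (Real.sqrt g * (t * Real.sqrt t)))
            - 2 * t * T2 t) := by
      rw [hD]
      have h2 : Real.sqrt t * T2 t = 1 / (2 * Real.sqrt t) * (2 * t * T2 t) := by
        have h4 : 2 * t * T2 t = 2 * (Real.sqrt t * Real.sqrt t) * T2 t := by rw [hss]
        rw [h4]
        field_simp
      have h3 : W * (17 / 8 * (n * k)) / Real.sqrt g * (t ^ 2)⁻¹
          = 1 / (2 * Real.sqrt t) * (W * (17 / 4 * (n * k) / (Real.sqrt g * (t * Real.sqrt t)))) := by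
        have h4 : (t ^ 2)⁻¹ = (t * (Real.sqrt t * Real.sqrt t))⁻¹ := by
          rw [hss, sq]
        rw [h4]
        field_simp
        ring
      linear_combination -h2 + h3
    rw [h1]
    have h5 : 0 ≤ 1 / (2 * Real.sqrt t) := by positivity
    exact mul_nonneg h5 (by linarith)
  set t0 : ℝ := 1 / Real.sqrt g with ht0
  have ht0p : 0 < t0 := by positivity
  have ht01 : t0 ≤ 1 := by
    rw [ht0, div_le_one hsg]
    exact Real.one_le_sqrt.2 hg1
  have hmono : F t0 ≤ F 1 := by
    have hm : MonotoneOn F (Set.Icc t0 1) := by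
      refine monotoneOn_of_deriv_nonneg (convex_Icc t0 1) ?_ ?_ ?_
      · intro t ht
        exact (hFder t (lt_of_lt_of_le ht0p ht.1)).continuousAt.continuousWithinAt
      · intro t ht
        rw [interior_Icc] at ht
        exact (hFder t (lt_trans ht0p ht.1)).differentiableAt.differentiableWithinAt
      · intro t ht
        rw [interior_Icc] at ht
        rw [(hFder t (lt_trans ht0p ht.1)).deriv]
        exact hFpos t (lt_trans ht0p ht.1)
    exact hm ⟨le_rfl, ht01⟩ ⟨ht01, le_rfl⟩ ht01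
  have hTh1 : Th 1 ≤ W * (n * k) := by
    simp only [hTh]
    have h1 : ∀ η ∈ (Finset.univ : Finset (Finset Om)), trR (rm A η) 1 ≤ n * k := by
      intro η _
      have h2 := trR_le (rm A η) (t := 1) one_pos
      rw [div_one] at h2
      nlinarith
    have h3 := Finset.sum_le_card_nsmul _ _ _ h1
    rw [hcard, nsmul_eq_mul] at h3
    push_cast at h3
    exact h3
  have hst0 : Real.sqrt t0 = g ^ (-(1 / 4 : ℝ)) := by
    rw [ht0, Real.sqrt_eq_rpow, Real.sqrt_eq_rpow, one_div, ← Real.rpow_neg (by linarith),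
      ← Real.rpow_mul (by linarith)]
    norm_num
  have hfin : Real.sqrt t0 * Th t0 ≤ W * (9 / 2 * (n * k)) := by
    simp only [hF, Real.sqrt_one, one_mul, mul_one, div_one] at hmono
    have h1 : D / t0 = W * (17 / 8 * (n * k)) := by
      rw [hD, ht0]
      field_simp
    have h2 : 0 ≤ W * (n * k) * Real.sqrt t0 := by positivity
    have h3 : 0 ≤ W * (n * k) := by positivity
    nlinarith
  have hcnt : ((Finset.univ.filter fun η : Finset Om =>
        1 ≤ Module.finrank ℂ (LinearMap.ker (rm A η).mulVecLin)).card : ℝ) ≤ t0 * Th t0 := by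
    have h1 : ((Finset.univ.filter fun η : Finset Om =>
        1 ≤ Module.finrank ℂ (LinearMap.ker (rm A η).mulVecLin)).card : ℝ)
        ≤ ∑ η : Finset Om, t0 * trR (rm A η) t0 := by
      rw [← mul_one ((Finset.card _ : ℕ) : ℝ), ← nsmul_eq_mul]
      refine (Finset.card_nsmul_le_sum _ (fun η => t0 * trR (rm A η) t0) _ ?_).trans
        (Finset.sum_le_sum_of_subset_of_nonneg (Finset.filter_subset _ _) fun η _ _ => ?_)
      · intro η hη
        have h2 := le_trR (rm A η) ht0p (Finset.mem_filter.1 hη).2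
        rw [div_le_iff₀ ht0p] at h2
        push_cast at h2
        linarith
      · exact mul_nonneg ht0p.le (trR_nonneg _ ht0p)
    rwa [← Finset.mul_sum] at h1
  have hsplit : t0 * Th t0 = Real.sqrt t0 * (Real.sqrt t0 * Th t0) := by
    rw [← mul_assoc, Real.mul_self_sqrt ht0p.le]
  calc _ ≤ _ := hcnt
    _ = Real.sqrt t0 * (Real.sqrt t0 * Th t0) := hsplit
    _ ≤ Real.sqrt t0 * (W * (9 / 2 * (n * k))) := by
        gcongr
    _ = _ := by
        rw [hst0]
        ring

end Pool.Agent.Lib.MP_938ce2_ag_u2.H7
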