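import Mathlib
import Pool.Agent.Lib.MP_938ce2_ag_u2.TDefs
import Pool.Agent.Lib.MP_938ce2_ag_u2.Res4

/-!
Row KerB: kernels of large dimension.
-/

set_option autoImplicit false

namespace Pool.Agent.Lib.MP_938ce2_ag_u2

open Finset Module Matrix
open Pool.Agent.Lib.MP_938ce2_ag_h67 (sg)

variable {Ω : Type} [Fintype Ω] [DecidableEq Ω] {n κ : ℕ} {A : Ω → Matrix (Fin n) (Fin κ) ℂ}

theorem frob_eq (N : Matrix (Fin n) (Fin κ) ℂ) :
    (N * Nᴴ).trace.re = ∑ i, ∑ j, ‖N i j‖ ^ 2 := by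
  rw [Matrix.trace, Complex.re_sum]
  refine Finset.sum_congr rfl fun i _ => ?_
  rw [Matrix.diag_apply, Matrix.mul_apply, Complex.re_sum]
  refine Finset.sum_congr rfl fun j _ => ?_
  rw [Matrix.conjTranspose_apply, Complex.star_def, Complex.mul_conj, Complex.ofReal_re,
    Complex.normSq_eq_norm_sq]

theorem rm_eq (η : Finset Ω) : H7.rm A η = MM A η := by
  unfold H7.rm MM
  refine Finset.sum_congr rfl fun x _ => ?_
  congr 1
  unfold H7.sgr sg
  by_cases h : x ∈ η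
  · simp [h]
  · simp [h]

theorem Frame0.toH7 (hA : Frame0 A) : H7.Frame A := by
  refine ⟨hA.iso, fun Y => ?_, fun N => ?_⟩
  · rw [hA.avg, Fintype.card_fin]
  · have h := hA.tw N
    rw [frob_eq] at h
    rw [Fintype.card_fin]
    exact h

theorem card_ker_ge (hA : Frame0 A) (hκ : 1 ≤ κ) (hκn : κ ≤ n) (hΩ : 1 ≤ Fintype.card Ω)
    (s : ℕ) {t : ℝ} (ht : 0 < t) :
    ((Finset.univ.filter fun η : Finset Ω => s ≤ kd (MM A η)).card : ℝ) * (s : ℝ) ^ 2
      ≤ (n * κ * t + κ / 4 + 5 * n * κ / (√(Fintype.card Ω : ℝ) * √t)) * 2 ^ Fintype.card Ω := by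
  have h := hA.toH7.card_ker_mul_sq_le hΩ (by rw [Fintype.card_fin, Fintype.card_fin]; exact hκn)
    (by rw [Fintype.card_fin]; omega) ht s
  have e : ∀ η : Finset Ω, finrank ℂ (LinearMap.ker (H7.rm A η).mulVecLin) = kd (MM A η) := by
    intro η
    rw [rm_eq]
    rfl
  simp only [e, Fintype.card_fin] at h
  refine h.trans (le_of_eq ?_)
  ring

end Pool.Agent.Lib.MP_938ce2_ag_u2
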