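import Mathlib
import Pool.Agent.Lib.MP_938ce2_ag_u2.FrameAvg
import Pool.Agent.Lib.MP_938ce2_ag_u2.KerB

/-!
Row FrameHalf: the frame restricted to a CM type, and the kernel of the sum over `X`.
-/

set_option autoImplicit false
set_option linter.unusedSectionVars false

namespace Pool.Agent.Lib.MP_938ce2_ag_u2

open Finset Module Matrix
open Pool.Agent.Lib.MP_938ce2_ag_h67 (sg)
open Pool.Agent.Lib.MP_938ce2_ag_h60 (CMType)

variable {G X : Type} [Group G] [MulAction G X] [Fintype X] [DecidableEq X] {c : G}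
  {g : ℕ} [MulAction.IsPretransitive G X] {n κ : ℕ} {π : G →* Matrix (Fin n) (Fin n) ℂ}
  {A : X → Matrix (Fin n) (Fin κ) ℂ}

theorem Frame.neg (hF : Frame G X c g π A) (x : X) : A (c • x) = - A x := by
  rw [hF.eqv, hF.odd, Matrix.neg_mul, Matrix.one_mul]

theorem frame_half (hA : Act G X c g) (hF : Frame G X c g π A) (hn : 1 ≤ n) {Φ₀ : Finset X}
    (h₀ : CMType c Φ₀) : Frame0 (fun x : {x // x ∈ Φ₀} => A x) := by
  have : Nonempty (Fin n) := ⟨⟨0, hn⟩⟩
  have h := hF.toG.frame hA.pos hA.card (c := c) (fun x => hF.neg x) (Ω := Φ₀) h₀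
  refine ⟨h.one, fun Y => ?_, fun N => ?_⟩
  · have h2 := h.two Y
    rw [Fintype.card_fin] at h2
    exact h2
  · have h3 := h.three N
    rw [Fintype.card_fin] at h3
    rw [frob_eq]
    exact h3

theorem kd_half (hA : Act G X c g) (hF : Frame G X c g π A) {Φ₀ : Finset X}
    (h₀ : CMType c Φ₀) (η : Finset {x // x ∈ Φ₀}) :
    kd (∑ x, ((sg (cmExt c Φ₀ η) x : ℤ) : ℂ) • A x)
      = kd (MM (fun x : {x // x ∈ Φ₀} => A x) η) := by
  have h1 := sum_cmExt hA h₀ η A (fun x => hF.neg x)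
  have h2 : ∑ x, ((sg (cmExt c Φ₀ η) x : ℤ) : ℂ) • A x
      = (2 : ℂ) • MM (fun x : {x // x ∈ Φ₀} => A x) η := by
    have h3 : ∑ x, ((sg (cmExt c Φ₀ η) x : ℤ) : ℂ) • A x = ∑ x, sg (cmExt c Φ₀ η) x • A x :=
      Finset.sum_congr rfl fun x _ => by rw [Int.cast_smul_eq_zsmul]
    rw [h3, h1]
    unfold MM
    have h4 : ∑ x : {x // x ∈ Φ₀}, ((sg η x : ℤ) : ℂ) • A x
        = ∑ x : {x // x ∈ Φ₀}, sg η x • A x :=
      Finset.sum_congr rfl fun x _ => by rw [Int.cast_smul_eq_zsmul]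
    rw [h4, two_smul, two_smul]
  rw [h2]
  unfold kd
  have h5 : LinearMap.ker ((2 : ℂ) • MM (fun x : {x // x ∈ Φ₀} => A x) η).mulVecLin
      = LinearMap.ker (MM (fun x : {x // x ∈ Φ₀} => A x) η).mulVecLin := by
    ext v
    rw [LinearMap.mem_ker, LinearMap.mem_ker, Matrix.mulVecLin_apply, Matrix.mulVecLin_apply,
      Matrix.smul_mulVec, smul_eq_zero]
    simp
  rw [h5]

end Pool.Agent.Lib.MP_938ce2_ag_u2
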