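import Mathlib
import Pool.Agent.Lib.MP_938ce2_ag_u2.KerB

/-!
Row KerA: nonzero kernels.
-/

set_option autoImplicit false

namespace Pool.Agent.Lib.MP_938ce2_ag_u2

open Finset Module Matrix
open Pool.Agent.Lib.MP_938ce2_ag_h67 (sg)

variable {Ω : Type} [Fintype Ω] [DecidableEq Ω] {n κ : ℕ} {A : Ω → Matrix (Fin n) (Fin κ) ℂ}

theorem card_ker_pos (hA : Frame0 A) (hκ : 1 ≤ κ) (hκn : κ ≤ n) (hΩ : 1 ≤ Fintype.card Ω) :
    ((Finset.univ.filter fun η : Finset Ω => 1 ≤ kd (MM A η)).card : ℝ)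
      ≤ (9 / 2) * n * κ / (Fintype.card Ω : ℝ) ^ (1 / 4 : ℝ) * 2 ^ Fintype.card Ω := by
  have h := hA.toH7.card_ker_le hΩ (by rw [Fintype.card_fin, Fintype.card_fin]; exact hκn)
    (by rw [Fintype.card_fin]; omega)
  have e : ∀ η : Finset Ω, finrank ℂ (LinearMap.ker (H7.rm A η).mulVecLin) = kd (MM A η) := by
    intro η
    rw [rm_eq]
    rfl
  simp only [e, Fintype.card_fin] at h
  refine h.trans (le_of_eq ?_)
  rw [Real.rpow_neg (Nat.cast_nonneg _)]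
  ring

end Pool.Agent.Lib.MP_938ce2_ag_u2
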