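import Mathlib
import Pool.Agent.Lib.MP_938ce2_ag_u2.Defs

/-!
Row KerEq: the kernel of a complex constituent of a simple rational module.
-/

set_option autoImplicit false
set_option linter.unusedSectionVars false

namespace Pool.Agent.Lib.MP_938ce2_ag_u2

open Finset Module MonoidAlgebra
open Pool.Agent.Lib.MP_938ce2_ag_h67 (sg VV ev mkV Orb red kerM)
open Pool.Agent.Lib.MP_938ce2_ag_h60 (CMType)

variable {G X : Type} [Group G] [Fintype G] [MulAction G X] [Fintype X] [DecidableEq X] {c : G}
  {g : ℕ}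

namespace KE

open Pool.Agent.Lib.MP_938ce2_ag_h67 (ev_ext ev_mkV ev_add ev_sub ev_smul ev_sum ev_opM ev_single
  ev_zero mat mat_mem mem_lat mem_kerM)

lemma col_mem (M : Submodule (MonoidAlgebra ℚ G) (VV ℚ G X)) (y : X) :
    mkV G (fun x => (mat M x y : ℚ)) ∈ M := by
  have h := (mem_lat M _).1 (mat_mem M (Pi.single y 1))
  rw [Matrix.mulVec_single_one] at h
  exact h

variable {K : Type} [Field K]

lemma single_mul_smul (a b : G) (v : VV K G X) :
    MonoidAlgebra.single (a * b) (1 : K) • v =
      MonoidAlgebra.single a (1 : K) • MonoidAlgebra.single b (1 : K) • v := by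
  rw [← mul_smul, MonoidAlgebra.single_mul_single, one_mul]

lemma single_one_smul (v : VV K G X) : MonoidAlgebra.single (1 : G) (1 : K) • v = v := by
  rw [← MonoidAlgebra.one_def, one_smul]

lemma smul_closed (S : Set G)
    (hS : ∀ a ∈ S, ∀ b : G, b⁻¹ * a * b ∈ S) (r : MonoidAlgebra ℚ G) {v : VV ℚ G X}
    (hv : ∀ a ∈ S, MonoidAlgebra.single a (1 : ℚ) • v = v) :
    ∀ a ∈ S, MonoidAlgebra.single a (1 : ℚ) • (r • v) = r • v := by
  intro a ha
  induction r using MonoidAlgebra.induction_linear with
  | zero => rw [zero_smul, smul_zero]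
  | add r₁ r₂ h₁ h₂ => rw [add_smul, smul_add, h₁, h₂]
  | single b t =>
    have e1 : (MonoidAlgebra.single b t : MonoidAlgebra ℚ G) • v =
        t • (MonoidAlgebra.single b (1 : ℚ) • v) := by
      rw [← smul_assoc, MonoidAlgebra.smul_single, smul_eq_mul, mul_one]
    rw [e1, smul_comm, ← single_mul_smul, show a * b = b * (b⁻¹ * a * b) by group,
      single_mul_smul, hv _ (hS a ha b)]

end KE

open Pool.Agent.Lib.MP_938ce2_ag_h67 (ev_ext ev_mkV ev_add ev_sub ev_smul ev_sum ev_opM ev_single
  ev_zero mat mat_mem mem_lat mem_kerM) in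
theorem ker_W (M : Submodule (MonoidAlgebra ℚ G) (VV ℚ G X))
    (hs : IsSimpleModule (MonoidAlgebra ℚ G) M)
    (W : Submodule (MonoidAlgebra ℂ G) (VV ℂ G X)) (hW : W ≠ ⊥) (hWM : W ≤ red M ℂ) (a : G) :
    (∀ w ∈ W, MonoidAlgebra.single a (1 : ℂ) • w = w) ↔ a ∈ kerM M := by
  classical
  constructor
  · intro ha
    -- the kernel of `W`
    obtain ⟨S, hS⟩ : ∃ S : Finset G, ∀ b, b ∈ S ↔
        ∀ w ∈ W, MonoidAlgebra.single b (1 : ℂ) • w = w :=
      ⟨Finset.univ.filter fun b => ∀ w ∈ W, MonoidAlgebra.single b (1 : ℂ) • w = w,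
        fun b => by simp⟩
    have hconj : ∀ b ∈ S, ∀ e : G, e⁻¹ * b * e ∈ S := by
      intro b hb e
      rw [hS] at hb ⊢
      intro w hw
      rw [KE.single_mul_smul, KE.single_mul_smul, hb _ (W.smul_mem _ hw), ← KE.single_mul_smul,
        inv_mul_cancel, KE.single_one_smul]
    have hmul : ∀ b ∈ S, ∀ e ∈ S, b * e ∈ S := by
      intro b hb e he
      rw [hS] at hb he ⊢
      intro w hw
      rw [KE.single_mul_smul, he w hw, hb w hw]
    have hone : (1 : G) ∈ S := by
      rw [hS]
      intro w _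
      exact KE.single_one_smul w
    have hinv : ∀ b ∈ S, b⁻¹ ∈ S := by
      intro b hb
      rw [hS] at hb ⊢
      intro w hw
      have h1 := hb w hw
      conv_lhs => rw [← h1]
      rw [← KE.single_mul_smul, inv_mul_cancel, KE.single_one_smul]
    -- the fixed points in `M`
    let F : Submodule (MonoidAlgebra ℚ G) M :=
      { carrier := {v | ∀ b ∈ S, MonoidAlgebra.single b (1 : ℚ) • (v : VV ℚ G X) = v}
        add_mem' := by
          intro v w hv hw b hb
          change MonoidAlgebra.single b (1 : ℚ) • ((v : VV ℚ G X) + w) = (v : VV ℚ G X) + w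
          rw [smul_add, hv b hb, hw b hb]
        zero_mem' := by
          intro b _
          exact smul_zero _
        smul_mem' := by
          intro r v hv
          exact KE.smul_closed (S : Set G) (fun b hb e => hconj b hb e) r hv }
    have hF : F ≠ ⊥ := by
      intro h0
      -- a nonzero vector of `W`
      obtain ⟨w, hw, hw0⟩ := (Submodule.ne_bot_iff _).1 hW
      obtain ⟨u, hu⟩ := hWM hw
      -- the sums of the translates of the columns are zero
      have h1 : ∀ y x : X, ∑ b ∈ S, mat M (b⁻¹ • x) y = 0 := by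
        intro y x
        have h2 : (∑ b ∈ S, MonoidAlgebra.single b (1 : ℚ) • mkV G (fun x => (mat M x y : ℚ)))
            ∈ M := Submodule.sum_mem _ fun b _ => M.smul_mem _ (KE.col_mem M y)
        have h3 : (⟨_, h2⟩ : M) ∈ F := by
          intro e he
          change MonoidAlgebra.single e (1 : ℚ) • (∑ b ∈ S, MonoidAlgebra.single b (1 : ℚ) •
            mkV G (fun x => (mat M x y : ℚ))) = ∑ b ∈ S, MonoidAlgebra.single b (1 : ℚ) •
            mkV G (fun x => (mat M x y : ℚ))
          rw [Finset.smul_sum]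
          refine Finset.sum_bij (fun b _ => e * b) (fun b hb => hmul e he b hb)
            (fun b _ b' _ h => mul_left_cancel h)
            (fun b hb => ⟨e⁻¹ * b, hmul _ (hinv e he) b hb, mul_inv_cancel_left e b⟩)
            (fun b _ => ?_)
          rw [← KE.single_mul_smul]
        rw [h0, Submodule.mem_bot] at h3
        have h4 := congrArg (fun t : M => ev (t : VV ℚ G X) x) h3
        change ev (∑ b ∈ S, MonoidAlgebra.single b (1 : ℚ) • mkV G (fun x => (mat M x y : ℚ))) x
          = 0 at h4
        rw [ev_sum] at h4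
        simp only [ev_single, one_mul, ev_mkV] at h4
        exact_mod_cast h4
      -- so `|S| w = 0`
      have h2 : (∑ b ∈ S, MonoidAlgebra.single b (1 : ℂ) • w) = 0 := by
        apply ev_ext
        intro x
        rw [ev_sum, ← hu, ev_zero]
        simp only [ev_single, one_mul, ev_opM]
        rw [Finset.sum_comm]
        refine Finset.sum_eq_zero fun y _ => ?_
        rw [← Finset.sum_mul]
        have h5 := congrArg (fun t : ℤ => (t : ℂ)) (h1 y x)
        push_cast at h5
        have h6 : (∑ b ∈ S, ((mat M (b⁻¹ • x) y : ℤ) : ℂ)) * ev u y = 0 := by rw [h5, zero_mul]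
        exact h6
      have h3 : (∑ b ∈ S, MonoidAlgebra.single b (1 : ℂ) • w) = (S.card : ℂ) • w := by
        rw [Finset.sum_congr rfl fun b hb => (hS b).1 hb w hw, Finset.sum_const]
        exact (Nat.cast_smul_eq_nsmul ℂ _ _).symm
      rw [h3] at h2
      have h4 : (S.card : ℂ) ≠ 0 := by
        exact_mod_cast Finset.card_ne_zero_of_mem hone
      exact hw0 ((smul_eq_zero.1 h2).resolve_left h4)
    have hFt : F = ⊤ := (eq_bot_or_eq_top F).resolve_left hF
    rw [mem_kerM]
    intro s
    have h5 : s ∈ F := by rw [hFt]; trivial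
    exact Subtype.ext (h5 a ((hS a).2 ha))
  · intro ha w hw
    rw [mem_kerM] at ha
    obtain ⟨u, rfl⟩ := hWM hw
    apply ev_ext
    intro x
    rw [ev_single, one_mul, ev_opM, ev_opM]
    refine Finset.sum_congr rfl fun y _ => ?_
    congr 1
    have h1 := congrArg (fun t : M => ev (t : VV ℚ G X) x) (ha ⟨_, KE.col_mem M y⟩)
    change ev (MonoidAlgebra.single a (1 : ℚ) • mkV G (fun x => (mat M x y : ℚ))) x
      = ev (mkV G (fun x => (mat M x y : ℚ))) x at h1
    rw [ev_single, one_mul, ev_mkV, ev_mkV] at h1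
    have h2 : mat M (a⁻¹ • x) y = mat M x y := by exact_mod_cast h1
    change ((mat M (a⁻¹ • x) y : ℤ) : ℂ) = ((mat M x y : ℤ) : ℂ)
    rw [h2]

end Pool.Agent.Lib.MP_938ce2_ag_u2
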