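import Mathlib
import Pool.Agent.Lib.MP_938ce2_ag_u2.Defs

/-!
Row RedC: complexifications of isomorphic submodules, and orthogonality.
-/

set_option autoImplicit false
set_option linter.unusedSectionVars false

namespace Pool.Agent.Lib.MP_938ce2_ag_u2

open Finset Module MonoidAlgebra
open Pool.Agent.Lib.MP_938ce2_ag_h67 (sg VV ev mkV Orb red kerM)
open Pool.Agent.Lib.MP_938ce2_ag_h60 (CMType)

variable {G X : Type} [Group G] [Fintype G] [MulAction G X] [Fintype X] [DecidableEq X] {c : G}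
  {g : ℕ}

namespace RC

open Pool.Agent.Lib.MP_938ce2_ag_h67 (ev_ext ev_mkV ev_add ev_sub ev_smul ev_sum ev_opM ev_single
  opM castM castM_inv castM_sq mat mat_inv mat_sq mat_mem mat_id lat mem_lat red_rat eq_sum_mkV
  single_smul_mkV opM_comp_self)

/-! ### Complexification of endomorphisms -/

/-- the matrix of an endomorphism -/
noncomputable def mt (T : VV ℚ G X →ₗ[MonoidAlgebra ℚ G] VV ℚ G X) : Matrix X X ℚ :=
  fun x y => ev (T (mkV G (Pi.single y (1 : ℚ)))) x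

lemma mt_inv (T : VV ℚ G X →ₗ[MonoidAlgebra ℚ G] VV ℚ G X) (σ : G) (x y : X) :
    mt T (σ • x) (σ • y) = mt T x y := by
  unfold mt
  rw [← single_smul_mkV, map_smul, ev_single, one_mul, inv_smul_smul]

lemma ev_T (T : VV ℚ G X →ₗ[MonoidAlgebra ℚ G] VV ℚ G X) (v : VV ℚ G X) (x : X) :
    ev (T v) x = ∑ y, mt T x y * ev v y := by
  conv_lhs => rw [eq_sum_mkV v, map_sum]
  rw [ev_sum]
  refine Finset.sum_congr rfl fun y _ => ?_
  rw [LinearMap.map_smul_of_tower, ev_smul, mul_comm]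
  rfl

/-- complexification of an endomorphism -/
noncomputable def TC (T : VV ℚ G X →ₗ[MonoidAlgebra ℚ G] VV ℚ G X) :
    VV ℂ G X →ₗ[MonoidAlgebra ℂ G] VV ℂ G X :=
  opM ((mt T).map (Rat.cast : ℚ → ℂ)) (by
    intro σ x y
    rw [Matrix.map_apply, Matrix.map_apply, mt_inv])

lemma ev_TC (T : VV ℚ G X →ₗ[MonoidAlgebra ℚ G] VV ℚ G X) (v : VV ℂ G X) (x : X) :
    ev (TC T v) x = ∑ y, ((mt T x y : ℚ) : ℂ) * ev v y := rfl

lemma TC_comp {S T U : VV ℚ G X →ₗ[MonoidAlgebra ℚ G] VV ℚ G X} {n : ℚ}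
    (h : ∀ v, S (T v) = n • U v) (v : VV ℂ G X) : TC S (TC T v) = (n : ℂ) • TC U v := by
  have hm : ∀ x z, ∑ y, mt S x y * mt T y z = n * mt U x z := by
    intro x z
    have h1 := congrArg (fun w => ev w x) (h (mkV G (Pi.single z (1 : ℚ))))
    simp only [ev_smul] at h1
    rw [ev_T S] at h1
    exact h1
  apply ev_ext
  intro x
  rw [ev_TC, ev_smul, ev_TC, Finset.mul_sum]
  simp_rw [ev_TC, Finset.mul_sum]
  rw [Finset.sum_comm]
  refine Finset.sum_congr rfl fun z _ => ?_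
  have h2 := congrArg (fun q : ℚ => (q : ℂ)) (hm x z)
  push_cast at h2
  rw [← mul_assoc, ← h2, Finset.sum_mul]
  exact Finset.sum_congr rfl fun y _ => (mul_assoc _ _ _).symm

lemma TC_add {S T U : VV ℚ G X →ₗ[MonoidAlgebra ℚ G] VV ℚ G X}
    (h : ∀ v, S v + T v = U v) (v : VV ℂ G X) : TC S v + TC T v = TC U v := by
  apply ev_ext
  intro x
  rw [ev_add, ev_TC, ev_TC, ev_TC, ← Finset.sum_add_distrib]
  refine Finset.sum_congr rfl fun z _ => ?_
  have h1 := congrArg (fun w => ev w x) (h (mkV G (Pi.single z (1 : ℚ))))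
  simp only [ev_add] at h1
  have h2 : mt S x z + mt T x z = mt U x z := h1
  rw [← h2]
  push_cast
  ring

/-! ### The projections to the submodules -/

variable (N N' N'' : Submodule (MonoidAlgebra ℚ G) (VV ℚ G X))

/-- `|G|` times the projection to `N` -/
noncomputable def EN : VV ℚ G X →ₗ[MonoidAlgebra ℚ G] VV ℚ G X :=
  opM (castM ℚ (mat N)) (castM_inv (mat_inv N))

lemma EN_mem (v : VV ℚ G X) : EN N v ∈ N := (red_rat N).le ⟨v, rfl⟩

lemma EN_id {v : VV ℚ G X} (hv : v ∈ N) : EN N v = (Fintype.card G : ℚ) • v := by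
  rw [← red_rat N] at hv
  obtain ⟨w, rfl⟩ := hv
  exact opM_comp_self (Fintype.card G : ℚ) (castM ℚ (mat N)) (castM_inv (mat_inv N))
    (castM_sq (mat_sq N)) w

lemma TC_EN (v : VV ℂ G X) :
    TC (EN N) v = opM (castM ℂ (mat N)) (castM_inv (mat_inv N)) v := by
  apply ev_ext
  intro x
  rw [ev_TC, ev_opM]
  refine Finset.sum_congr rfl fun y _ => ?_
  have h1 : mt (EN N) x y = ((mat N x y : ℤ) : ℚ) := by
    unfold mt EN
    rw [ev_opM, Finset.sum_eq_single y]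
    · rw [ev_mkV, Pi.single_eq_same, mul_one]
      rfl
    · intro z _ hz
      rw [ev_mkV, Pi.single_eq_of_ne hz, mul_zero]
    · intro h
      exact absurd (Finset.mem_univ y) h
  rw [h1, Rat.cast_intCast]
  rfl

lemma TC_EN_mem (v : VV ℂ G X) : TC (EN N) v ∈ red N ℂ := by
  rw [TC_EN]
  exact ⟨v, rfl⟩

lemma TC_EN_id {v : VV ℂ G X} (hv : v ∈ red N ℂ) : TC (EN N) v = (Fintype.card G : ℂ) • v := by
  obtain ⟨w, rfl⟩ := hv
  rw [TC_EN]
  exact opM_comp_self (Fintype.card G : ℂ) (castM ℂ (mat N)) (castM_inv (mat_inv N))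
    (castM_sq (mat_sq N)) w

lemma card_ne : (Fintype.card G : ℂ) ≠ 0 := by exact_mod_cast Fintype.card_ne_zero

/-! ### Complexification of homomorphisms of submodules -/

variable {N N' N''}

/-- `|G|` times the extension of `f` by the projection -/
noncomputable def tf (f : N →ₗ[MonoidAlgebra ℚ G] N') :
    VV ℚ G X →ₗ[MonoidAlgebra ℚ G] VV ℚ G X :=
  N'.subtype.comp (f.comp ((EN N).codRestrict N (EN_mem N)))

lemma tf_apply (f : N →ₗ[MonoidAlgebra ℚ G] N') (v : VV ℚ G X) :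
    tf f v = f ⟨EN N v, EN_mem N v⟩ := rfl

lemma tf_id (v : VV ℚ G X) : tf (LinearMap.id : N →ₗ[MonoidAlgebra ℚ G] N) v = EN N v := rfl

lemma tf_comp (f : N →ₗ[MonoidAlgebra ℚ G] N') (g : N' →ₗ[MonoidAlgebra ℚ G] N'')
    (v : VV ℚ G X) : tf g (tf f v) = (Fintype.card G : ℚ) • tf (g.comp f) v := by
  rw [tf_apply g, tf_apply (g.comp f)]
  have h1 : (⟨EN N' (tf f v), EN_mem N' _⟩ : N') =
      (Fintype.card G : ℚ) • f ⟨EN N v, EN_mem N v⟩ :=
    Subtype.ext (EN_id N' (f ⟨EN N v, EN_mem N v⟩).2)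
  rw [h1, LinearMap.map_smul_of_tower]
  rfl

lemma EN_tf (f : N →ₗ[MonoidAlgebra ℚ G] N') (v : VV ℚ G X) :
    EN N' (tf f v) = (Fintype.card G : ℚ) • tf f v := EN_id N' (f _).2

lemma TC_tf_mem (f : N →ₗ[MonoidAlgebra ℚ G] N') (v : VV ℂ G X) : TC (tf f) v ∈ red N' ℂ := by
  have h1 := TC_comp (EN_tf f) v
  have h2 : TC (tf f) v = ((Fintype.card G : ℂ)⁻¹) • TC (EN N') (TC (tf f) v) := by
    rw [h1, smul_smul]
    push_cast
    rw [inv_mul_cancel₀ card_ne, one_smul]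
  rw [h2]
  exact (red N' ℂ).smul_of_tower_mem _ (TC_EN_mem N' _)

/-- complexification of a homomorphism -/
noncomputable def FF (f : N →ₗ[MonoidAlgebra ℚ G] N') :
    red N ℂ →ₗ[MonoidAlgebra ℂ G] red N' ℂ where
  toFun v := ⟨((Fintype.card G : ℂ)⁻¹) • TC (tf f) (v : VV ℂ G X),
    (red N' ℂ).smul_of_tower_mem _ (TC_tf_mem f v)⟩
  map_add' v w := by
    apply Subtype.ext
    change ((Fintype.card G : ℂ)⁻¹) • TC (tf f) ((v : VV ℂ G X) + w) =
      ((Fintype.card G : ℂ)⁻¹) • TC (tf f) (v : VV ℂ G X) +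
        ((Fintype.card G : ℂ)⁻¹) • TC (tf f) (w : VV ℂ G X)
    rw [map_add, smul_add]
  map_smul' r v := by
    apply Subtype.ext
    change ((Fintype.card G : ℂ)⁻¹) • TC (tf f) (r • (v : VV ℂ G X)) =
      r • ((Fintype.card G : ℂ)⁻¹) • TC (tf f) (v : VV ℂ G X)
    rw [map_smul, smul_comm]

lemma coe_FF (f : N →ₗ[MonoidAlgebra ℚ G] N') (v : red N ℂ) :
    (FF f v : VV ℂ G X) = ((Fintype.card G : ℂ)⁻¹) • TC (tf f) v := rfl

lemma FF_comp (f : N →ₗ[MonoidAlgebra ℚ G] N') (g : N' →ₗ[MonoidAlgebra ℚ G] N'')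
    (v : red N ℂ) : FF g (FF f v) = FF (g.comp f) v := by
  apply Subtype.ext
  rw [coe_FF, coe_FF, coe_FF, LinearMap.map_smul_of_tower, TC_comp (tf_comp f g), smul_smul,
    smul_smul]
  congr 1
  push_cast
  rw [mul_assoc, inv_mul_cancel₀ card_ne, mul_one]

lemma FF_id (v : red N ℂ) : FF (LinearMap.id : N →ₗ[MonoidAlgebra ℚ G] N) v = v := by
  apply Subtype.ext
  rw [coe_FF]
  have h1 : tf (LinearMap.id : N →ₗ[MonoidAlgebra ℚ G] N) = EN N := LinearMap.ext tf_id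
  rw [h1, TC_EN_id N v.2, smul_smul, inv_mul_cancel₀ card_ne, one_smul]

lemma FF_add (f f' : N →ₗ[MonoidAlgebra ℚ G] N') (v : red N ℂ) :
    FF (f + f') v = FF f v + FF f' v := by
  apply Subtype.ext
  rw [Submodule.coe_add, coe_FF, coe_FF, coe_FF, ← smul_add]
  congr 1
  exact (TC_add (fun w => by rw [tf_apply, tf_apply, tf_apply]; rfl) (v : VV ℂ G X)).symm

end RC

/-- isomorphic submodules have isomorphic complexifications -/
theorem redC_iso (M M' : Submodule (MonoidAlgebra ℚ G) (VV ℚ G X))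
    (h : Nonempty (M ≃ₗ[MonoidAlgebra ℚ G] M')) :
    Nonempty (red M ℂ ≃ₗ[MonoidAlgebra ℂ G] red M' ℂ) := by
  obtain ⟨e⟩ := h
  refine ⟨LinearEquiv.ofLinearMap (RC.FF e.toLinearMap) (RC.FF e.symm.toLinearMap) ?_ ?_⟩
  · apply LinearMap.ext
    intro v
    rw [LinearMap.comp_apply, RC.FF_comp]
    have h1 : e.toLinearMap.comp e.symm.toLinearMap = LinearMap.id := by
      apply LinearMap.ext
      intro w
      exact e.apply_symm_apply w
    rw [h1]
    exact RC.FF_id v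
  · apply LinearMap.ext
    intro v
    rw [LinearMap.comp_apply, RC.FF_comp]
    have h1 : e.symm.toLinearMap.comp e.toLinearMap = LinearMap.id := by
      apply LinearMap.ext
      intro w
      exact e.symm_apply_apply w
    rw [h1]
    exact RC.FF_id v

open Pool.Agent.Lib.MP_938ce2_ag_h67 (ev_opM mat mat_mem mem_lat ev_mkV) in
/-- orthogonality passes to the complexification -/
theorem orth_redC (M' : Submodule (MonoidAlgebra ℚ G) (VV ℚ G X)) (s : X → ℤ)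
    (hs : ∀ v ∈ M', ∑ x, (s x : ℚ) * ev v x = 0) :
    ∀ v ∈ red M' ℂ, ∑ x, (s x : ℂ) * ev v x = 0 := by
  rintro _ ⟨w, rfl⟩
  have h1 : ∀ y : X, ∑ x, s x * mat M' x y = 0 := by
    intro y
    have h2 := hs _ ((mem_lat M' _).1 (mat_mem M' (Pi.single y 1)))
    rw [Matrix.mulVec_single_one] at h2
    have h3 : ((∑ x, s x * mat M' x y : ℤ) : ℚ) = 0 := by
      push_cast
      exact h2
    exact_mod_cast h3
  simp_rw [ev_opM, Finset.mul_sum]
  rw [Finset.sum_comm]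
  refine Finset.sum_eq_zero fun y _ => ?_
  have h4 := congrArg (fun t : ℤ => (t : ℂ)) (h1 y)
  push_cast at h4
  calc ∑ x, (s x : ℂ) * (((mat M' x y : ℤ) : ℂ) * ev w y)
      = (∑ x, (s x : ℂ) * ((mat M' x y : ℤ) : ℂ)) * ev w y := by
        rw [Finset.sum_mul]
        exact Finset.sum_congr rfl fun x _ => (mul_assoc _ _ _).symm
    _ = 0 := by rw [h4, zero_mul]

theorem bad_event (M M' : Submodule (MonoidAlgebra ℚ G) (VV ℚ G X))
    (h : Nonempty (M ≃ₗ[MonoidAlgebra ℚ G] M')) (s : X → ℤ)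
    (hs : ∀ v ∈ M', ∑ x, (s x : ℚ) * ev v x = 0)
    (W : Submodule (MonoidAlgebra ℂ G) (VV ℂ G X)) :
    ∃ N : Submodule ℂ (W →ₗ[MonoidAlgebra ℂ G] VV ℂ G X),
      finrank ℂ (W →ₗ[MonoidAlgebra ℂ G] red M ℂ) ≤ finrank ℂ N ∧
      ∀ φ ∈ N, ∀ w, ∑ x, (s x : ℂ) * ev (φ w) x = 0 := by
  obtain ⟨e⟩ := redC_iso M M' h
  let Ψ : (W →ₗ[MonoidAlgebra ℂ G] red M ℂ) →ₗ[ℂ] (W →ₗ[MonoidAlgebra ℂ G] VV ℂ G X) :=
    { toFun := fun φ => (red M' ℂ).subtype.comp (e.toLinearMap.comp φ)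
      map_add' := by
        intro φ ψ
        apply LinearMap.ext
        intro w
        change ((e (φ w + ψ w) : red M' ℂ) : VV ℂ G X) = (e (φ w) : VV ℂ G X) + (e (ψ w) : VV ℂ G X)
        rw [map_add]
        rfl
      map_smul' := by
        intro a φ
        apply LinearMap.ext
        intro w
        change ((e (a • φ w) : red M' ℂ) : VV ℂ G X) = a • (e (φ w) : VV ℂ G X)
        have h1 : e (a • φ w) = a • e (φ w) := LinearMap.map_smul_of_tower e.toLinearMap a (φ w)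
        rw [h1]
        rfl }
  have hΨ : ∀ φ w, Ψ φ w = (e (φ w) : VV ℂ G X) := fun _ _ => rfl
  refine ⟨LinearMap.range Ψ, ?_, ?_⟩
  · rw [LinearMap.finrank_range_of_inj]
    intro φ ψ hφ
    apply LinearMap.ext
    intro w
    have h1 := congrArg (fun t : W →ₗ[MonoidAlgebra ℂ G] VV ℂ G X => t w) hφ
    simp only [hΨ] at h1
    exact e.injective (Subtype.ext h1)
  · rintro _ ⟨φ, rfl⟩ w
    rw [hΨ]
    exact orth_redC M' s hs _ (e (φ w)).2

end Pool.Agent.Lib.MP_938ce2_ag_u2
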