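import Mathlib
import Pool.Agent.Lib.MP_938ce2_ag_u2.Defs

/-!
Row Select: a simple complex constituent `W` of `M` with many fixed vectors.
-/

set_option autoImplicit false
set_option linter.unusedSectionVars false

namespace Pool.Agent.Lib.MP_938ce2_ag_u2

open Finset Module MonoidAlgebra
open Pool.Agent.Lib.MP_938ce2_ag_h67 (sg VV ev mkV Orb red kerM)
open Pool.Agent.Lib.MP_938ce2_ag_h60 (CMType)

namespace SelectAux

open Pool.Agent.Lib.MP_938ce2_ag_h67

/-- the rank of an integer matrix with `T * T = c • T` is given by its trace -/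
lemma rank_mul {ι : Type} [Fintype ι] [DecidableEq ι] (K : Type) [Field K] [CharZero K]
    (T : Matrix ι ι ℤ) (c : ℤ) (hc : c ≠ 0) (hT : T * T = c • T) :
    (finrank K (LinearMap.range (mv K T)) : ℤ) * c = T.trace := by
  have hcK : (c : K) ≠ 0 := by exact_mod_cast hc
  have hp : LinearMap.IsProj (LinearMap.range (mv K T)) ((c : K)⁻¹ • mv K T) := by
    refine ⟨fun x => ?_, ?_⟩
    · rw [LinearMap.smul_apply]
      exact Submodule.smul_mem _ _ ⟨x, rfl⟩
    · rintro _ ⟨w, rfl⟩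
      have h3 := congrArg (fun f => f w) (mv_mul (K := K) T T)
      simp only [LinearMap.comp_apply] at h3
      rw [LinearMap.smul_apply, ← h3, hT, mv_smul, LinearMap.smul_apply, smul_smul,
        inv_mul_cancel₀ hcK, one_smul]
  have h1 := hp.trace
  rw [map_smul] at h1
  have h2 : LinearMap.trace K (ι → K) (mv K T) = ((T.trace : ℤ) : K) := by
    have h3 : mv K T = Matrix.toLin' (T.map (Int.cast : ℤ → K)) := rfl
    rw [h3, Matrix.trace_toLin'_eq, Matrix.trace, Matrix.trace]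
    push_cast
    rfl
  rw [h2, smul_eq_mul] at h1
  have h4 : ((finrank K (LinearMap.range (mv K T)) : ℤ) : K) * (c : K) = ((T.trace : ℤ) : K) := by
    rw [Int.cast_natCast, ← h1]
    field_simp
  exact_mod_cast h4

lemma rank_eq {ι : Type} [Fintype ι] [DecidableEq ι] (T : Matrix ι ι ℤ) (c : ℤ) (hc : c ≠ 0)
    (hT : T * T = c • T) :
    finrank ℂ (LinearMap.range (mv ℂ T)) = finrank ℚ (LinearMap.range (mv ℚ T)) := by
  have h1 := rank_mul ℂ T c hc hT
  have h2 := rank_mul ℚ T c hc hT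
  rw [← h2] at h1
  exact_mod_cast mul_right_cancel₀ hc h1

end SelectAux

variable {G X : Type} [Group G] [Fintype G] [MulAction G X] [Fintype X] [DecidableEq X] {c : G}
  {g : ℕ}

theorem red_odd {K : Type} [Field K] {M : Submodule (MonoidAlgebra ℚ G) (VV ℚ G X)}
    (hM : OddM c M) : OddM c (red M K) := by
  have h1 : ∀ x y : X, Pool.Agent.Lib.MP_938ce2_ag_h67.mat M (c • x) y
      = - Pool.Agent.Lib.MP_938ce2_ag_h67.mat M x y := by
    intro x y
    have h2 := Pool.Agent.Lib.MP_938ce2_ag_h67.mat_mem M (Pi.single y 1)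
    rw [Pool.Agent.Lib.MP_938ce2_ag_h67.mem_lat, Matrix.mulVec_single_one] at h2
    have h3 := hM _ h2 x
    rw [Pool.Agent.Lib.MP_938ce2_ag_h67.ev_mkV, Pool.Agent.Lib.MP_938ce2_ag_h67.ev_mkV] at h3
    exact_mod_cast h3
  rintro _ ⟨w, rfl⟩ x
  rw [Pool.Agent.Lib.MP_938ce2_ag_h67.ev_opM, Pool.Agent.Lib.MP_938ce2_ag_h67.ev_opM,
    ← Finset.sum_neg_distrib]
  refine Finset.sum_congr rfl fun y _ => ?_
  show ((Pool.Agent.Lib.MP_938ce2_ag_h67.mat M (c • x) y : ℤ) : K) * _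
    = - (((Pool.Agent.Lib.MP_938ce2_ag_h67.mat M x y : ℤ) : K) * _)
  rw [h1]
  push_cast
  ring

/-- dimensions over `ℂ`: h67 `finrank_hom_red` for the fields `ℂ` and `ℚ` -/
theorem finrank_hom_redC (M M' : Submodule (MonoidAlgebra ℚ G) (VV ℚ G X)) :
    finrank ℂ (red M ℂ →ₗ[MonoidAlgebra ℂ G] red M' ℂ)
      = finrank ℚ (M →ₗ[MonoidAlgebra ℚ G] M') := by
  have hn : (Fintype.card G : ℂ) ≠ 0 := by exact_mod_cast Fintype.card_ne_zero
  have hn' : (Fintype.card G : ℚ) ≠ 0 := by exact_mod_cast Fintype.card_ne_zero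
  have hn3 : (Fintype.card G : ℤ) ^ 3 ≠ 0 := pow_ne_zero 3 (by exact_mod_cast Fintype.card_ne_zero)
  have h1 := Pool.Agent.Lib.MP_938ce2_ag_h67.finrank_hom_red M M' ℂ hn
  have h2 := Pool.Agent.Lib.MP_938ce2_ag_h67.finrank_hom_red M M' ℚ hn'
  rw [Pool.Agent.Lib.MP_938ce2_ag_h67.red_rat, Pool.Agent.Lib.MP_938ce2_ag_h67.red_rat] at h2
  rw [h1, h2]
  exact SelectAux.rank_eq _ _ hn3 (Pool.Agent.Lib.MP_938ce2_ag_h67.TT_sq (Fintype.card G : ℤ) rfl _ _
    (Pool.Agent.Lib.MP_938ce2_ag_h67.mat_inv M) (Pool.Agent.Lib.MP_938ce2_ag_h67.mat_inv M')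
    (Pool.Agent.Lib.MP_938ce2_ag_h67.mat_sq M) (Pool.Agent.Lib.MP_938ce2_ag_h67.mat_sq M'))

theorem finrank_redC (M : Submodule (MonoidAlgebra ℚ G) (VV ℚ G X)) :
    finrank ℂ (red M ℂ) = finrank ℚ M := by
  have e : ∀ (K : Type) [Field K], finrank K (red M K)
      = finrank K (LinearMap.range (Pool.Agent.Lib.MP_938ce2_ag_h67.mv K
        (Pool.Agent.Lib.MP_938ce2_ag_h67.mat M))) := by
    intro K _
    exact rfl
  have h2 := e ℚ
  rw [Pool.Agent.Lib.MP_938ce2_ag_h67.red_rat] at h2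
  rw [h2, e ℂ]
  exact SelectAux.rank_eq _ (Fintype.card G : ℤ) (by exact_mod_cast Fintype.card_ne_zero)
    (Pool.Agent.Lib.MP_938ce2_ag_h67.mat_sq M)

theorem finrank_hom_topC (M : Submodule (MonoidAlgebra ℚ G) (VV ℚ G X)) :
    finrank ℂ (red M ℂ →ₗ[MonoidAlgebra ℂ G] VV ℂ G X) = dH M := by
  have hn : (Fintype.card G : ℂ) ≠ 0 := by exact_mod_cast Fintype.card_ne_zero
  have h1 := finrank_hom_redC M ⊤
  rw [Pool.Agent.Lib.MP_938ce2_ag_h67.red_top _ hn] at h1
  have e1 : finrank ℂ (red M ℂ →ₗ[MonoidAlgebra ℂ G]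
      (⊤ : Submodule (MonoidAlgebra ℂ G) (VV ℂ G X)))
      = finrank ℂ (red M ℂ →ₗ[MonoidAlgebra ℂ G] VV ℂ G X) :=
    Pool.Agent.Lib.MP_938ce2_ag_h67.finrank_hom_congr (LinearEquiv.refl _ _) Submodule.topEquiv
  have e2 : finrank ℚ (M →ₗ[MonoidAlgebra ℚ G]
      (⊤ : Submodule (MonoidAlgebra ℚ G) (VV ℚ G X)))
      = finrank ℚ (M →ₗ[MonoidAlgebra ℚ G] VV ℚ G X) :=
    Pool.Agent.Lib.MP_938ce2_ag_h67.finrank_hom_congr (LinearEquiv.refl _ _) Submodule.topEquiv
  rw [← e1, h1, e2]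

namespace SelectAux

open Pool.Agent.Lib.MP_938ce2_ag_h67

lemma finrank_hom_prod {K R A B V : Type} [Field K] [Ring R] [Algebra K R] [AddCommGroup A]
    [AddCommGroup B] [AddCommGroup V] [Module K A] [Module K B] [Module K V] [Module R A]
    [Module R B] [Module R V] [IsScalarTower K R A] [IsScalarTower K R B] [IsScalarTower K R V]
    [Module.Finite K A] [Module.Finite K B] [Module.Finite K V] :
    finrank K ((A × B) →ₗ[R] V) = finrank K (A →ₗ[R] V) + finrank K (B →ₗ[R] V) := by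
  have e := LinearMap.coprodEquiv (R := R) (M := A) (M₂ := B) (M₃ := V) K
  rw [← e.finrank_eq, Module.finrank_prod]

instance finN (N : Submodule (MonoidAlgebra ℂ G) (VV ℂ G X)) : Module.Finite ℂ N :=
  inferInstanceAs (Module.Finite ℂ (N.restrictScalars ℂ))

lemma finrank_pair (N P Q : Submodule (MonoidAlgebra ℂ G) (VV ℂ G X))
    (e : N ≃ₗ[MonoidAlgebra ℂ G] (P × Q)) :
    finrank ℂ (N →ₗ[MonoidAlgebra ℂ G] VV ℂ G X)
      = finrank ℂ (P →ₗ[MonoidAlgebra ℂ G] VV ℂ G X)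
        + finrank ℂ (Q →ₗ[MonoidAlgebra ℂ G] VV ℂ G X) ∧
    finrank ℂ N = finrank ℂ P + finrank ℂ Q := by
  constructor
  · rw [← finrank_hom_prod]
    exact finrank_hom_congr (K := ℂ) (R := MonoidAlgebra ℂ G) e
      (LinearEquiv.refl (MonoidAlgebra ℂ G) (VV ℂ G X))
  · rw [(e.restrictScalars ℂ).finrank_eq, Module.finrank_prod]

lemma exists_pair {N : Submodule (MonoidAlgebra ℂ G) (VV ℂ G X)}
    {p q : Submodule (MonoidAlgebra ℂ G) N} (h : IsCompl p q) :
    Nonempty (N ≃ₗ[MonoidAlgebra ℂ G] (Submodule.map N.subtype p) × (Submodule.map N.subtype q)) :=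
  ⟨(Submodule.prodEquivOfIsCompl p q h).symm.trans
    (LinearEquiv.prodCongr
      (Submodule.equivMapOfInjective N.subtype (Submodule.subtype_injective N) p)
      (Submodule.equivMapOfInjective N.subtype (Submodule.subtype_injective N) q))⟩

lemma map_ne_bot {N : Submodule (MonoidAlgebra ℂ G) (VV ℂ G X)}
    {p : Submodule (MonoidAlgebra ℂ G) N} (h : p ≠ ⊥) : p.map N.subtype ≠ ⊥ := by
  intro h'
  apply h
  rw [eq_bot_iff]
  intro x hx
  have h1 : N.subtype x ∈ p.map N.subtype := ⟨x, hx, rfl⟩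
  rw [h', Submodule.mem_bot] at h1
  rw [Submodule.mem_bot]
  exact Subtype.ext h1

end SelectAux

/-- in every nonzero submodule there is a simple one with at least the average ratio -/
theorem exists_ratio (N : Submodule (MonoidAlgebra ℂ G) (VV ℂ G X)) (hN : N ≠ ⊥) :
    ∃ W : Submodule (MonoidAlgebra ℂ G) (VV ℂ G X), IsSimpleModule (MonoidAlgebra ℂ G) W ∧
      W ≤ N ∧ finrank ℂ (N →ₗ[MonoidAlgebra ℂ G] VV ℂ G X) * finrank ℂ W
        ≤ finrank ℂ (W →ₗ[MonoidAlgebra ℂ G] VV ℂ G X) * finrank ℂ N := by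
  have hne : NeZero (Nat.card G : ℂ) := ⟨by
    rw [Nat.card_eq_fintype_card]
    exact_mod_cast Fintype.card_ne_zero⟩
  induction' hd : finrank ℂ N using Nat.strong_induction_on with d ih generalizing N
  by_cases hs : IsSimpleModule (MonoidAlgebra ℂ G) N
  · exact ⟨N, hs, le_refl _, by rw [hd]⟩
  · have h1 : ∃ p : Submodule (MonoidAlgebra ℂ G) N, p ≠ ⊥ ∧ p ≠ ⊤ := by
      by_contra hcon
      push Not at hcon
      apply hs
      have hnt : Nontrivial N := Submodule.nontrivial_iff_ne_bot.mpr hN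
      rw [isSimpleModule_iff]
      exact { eq_bot_or_eq_top := fun p => by
                by_cases hp : p = ⊥
                · exact Or.inl hp
                · exact Or.inr (hcon p hp) }
    obtain ⟨p, hp0, hp1⟩ := h1
    obtain ⟨q, hpq⟩ := MonoidAlgebra.Submodule.exists_isCompl p
    have hq0 : q ≠ ⊥ := by
      intro hq
      apply hp1
      rw [hq] at hpq
      exact eq_top_of_isCompl_bot hpq
    obtain ⟨e⟩ := SelectAux.exists_pair hpq
    obtain ⟨hhom, hdim⟩ := SelectAux.finrank_pair N _ _ e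
    have hP0 := SelectAux.map_ne_bot hp0
    have hQ0 := SelectAux.map_ne_bot hq0
    have pos : ∀ L : Submodule (MonoidAlgebra ℂ G) (VV ℂ G X), L ≠ ⊥ → 0 < finrank ℂ L := by
      intro L hL
      have : Nontrivial L := Submodule.nontrivial_iff_ne_bot.mpr hL
      exact Module.finrank_pos
    have hPp := pos _ hP0
    have hQp := pos _ hQ0
    obtain ⟨W1, hW1, hle1, hr1⟩ := ih _ (by omega) (p.map N.subtype) hP0 rfl
    obtain ⟨W2, hW2, hle2, hr2⟩ := ih _ (by omega) (q.map N.subtype) hQ0 rfl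
    have hsub : ∀ p : Submodule (MonoidAlgebra ℂ G) N, p.map N.subtype ≤ N := by
      intro p
      exact Submodule.map_subtype_le N p
    have hd1 : 0 < finrank ℂ W1 := by
      have := hW1.nontrivial
      exact Module.finrank_pos
    have hd2 : 0 < finrank ℂ W2 := by
      have := hW2.nontrivial
      exact Module.finrank_pos
    rw [← hd, hdim, hhom]
    set a := finrank ℂ (p.map N.subtype →ₗ[MonoidAlgebra ℂ G] VV ℂ G X)
    set b := finrank ℂ (q.map N.subtype →ₗ[MonoidAlgebra ℂ G] VV ℂ G X)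
    set m := finrank ℂ (p.map N.subtype)
    set n := finrank ℂ (q.map N.subtype)
    set h1 := finrank ℂ (W1 →ₗ[MonoidAlgebra ℂ G] VV ℂ G X)
    set h2 := finrank ℂ (W2 →ₗ[MonoidAlgebra ℂ G] VV ℂ G X)
    set d1 := finrank ℂ W1
    set d2 := finrank ℂ W2
    rcases le_total (h1 * d2) (h2 * d1) with hc | hc
    · refine ⟨W2, hW2, hle2.trans (hsub q), ?_⟩
      have h3 : (a * d2) * d1 ≤ (h2 * m) * d1 := by
        calc (a * d2) * d1 = (a * d1) * d2 := by ring
          _ ≤ (h1 * m) * d2 := Nat.mul_le_mul_right _ hr1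
          _ = (h1 * d2) * m := by ring
          _ ≤ (h2 * d1) * m := Nat.mul_le_mul_right _ hc
          _ = (h2 * m) * d1 := by ring
      have h4 : a * d2 ≤ h2 * m := Nat.le_of_mul_le_mul_right h3 hd1
      calc (a + b) * d2 = a * d2 + b * d2 := by ring
        _ ≤ h2 * m + h2 * n := Nat.add_le_add h4 hr2
        _ = h2 * (m + n) := by ring
    · refine ⟨W1, hW1, hle1.trans (hsub p), ?_⟩
      have h3 : (b * d1) * d2 ≤ (h1 * n) * d2 := by
        calc (b * d1) * d2 = (b * d2) * d1 := by ring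
          _ ≤ (h2 * n) * d1 := Nat.mul_le_mul_right _ hr2
          _ = (h2 * d1) * n := by ring
          _ ≤ (h1 * d2) * n := Nat.mul_le_mul_right _ hc
          _ = (h1 * n) * d2 := by ring
      have h4 : b * d1 ≤ h1 * n := Nat.le_of_mul_le_mul_right h3 hd2
      calc (a + b) * d1 = a * d1 + b * d1 := by ring
        _ ≤ h1 * m + h1 * n := Nat.add_le_add hr1 h4
        _ = h1 * (m + n) := by ring

theorem exists_W (M : Submodule (MonoidAlgebra ℚ G) (VV ℚ G X))
    (hs : IsSimpleModule (MonoidAlgebra ℚ G) M) :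
    ∃ W : Submodule (MonoidAlgebra ℂ G) (VV ℂ G X), IsSimpleModule (MonoidAlgebra ℂ G) W ∧
      W ≤ red M ℂ ∧
      dH M * finrank ℂ W ≤ finrank ℂ (W →ₗ[MonoidAlgebra ℂ G] VV ℂ G X) * dM M := by
  have hne : red M ℂ ≠ ⊥ := by
    intro h
    have h1 := finrank_redC M
    rw [h] at h1
    have h2 : finrank ℂ (⊥ : Submodule (MonoidAlgebra ℂ G) (VV ℂ G X)) = 0 :=
      Module.finrank_zero_of_subsingleton
    rw [h2] at h1
    have := hs.nontrivial
    have hfin : Module.Finite ℚ M := Module.Finite.of_injective (M.subtype.restrictScalars ℚ)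
      Subtype.val_injective
    have h3 : 0 < finrank ℚ M := Module.finrank_pos
    omega
  obtain ⟨W, hW, hle, hr⟩ := exists_ratio (red M ℂ) hne
  refine ⟨W, hW, hle, ?_⟩
  rw [finrank_hom_topC, finrank_redC] at hr
  exact hr

end Pool.Agent.Lib.MP_938ce2_ag_u2
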