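import Mathlib
import Pool.Agent.Lib.MP_938ce2_ag_u2.Select
import Pool.Agent.Lib.MP_938ce2_ag_u2.RedC

/-!
Row Mult: the multiplicity of `W` in the functions is at most `k` times its multiplicity in `M`.
-/

set_option autoImplicit false
set_option linter.unusedSectionVars false

namespace Pool.Agent.Lib.MP_938ce2_ag_u2

open Finset Module MonoidAlgebra
open Pool.Agent.Lib.MP_938ce2_ag_h67 (sg VV ev mkV Orb red kerM)
open Pool.Agent.Lib.MP_938ce2_ag_h60 (CMType)

variable {G X : Type} [Group G] [Fintype G] [MulAction G X] [Fintype X] [DecidableEq X] {c : G}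
  {g : ℕ}

namespace MU

open Pool.Agent.Lib.MP_938ce2_ag_h67 (finrank_hom_congr red_top)

section general

variable {K R A B B₁ B₂ : Type} [Field K] [Ring R] [Algebra K R] [AddCommGroup A] [AddCommGroup B]
  [AddCommGroup B₁] [AddCommGroup B₂] [Module K A] [Module K B] [Module K B₁] [Module K B₂]
  [Module R A] [Module R B] [Module R B₁] [Module R B₂] [IsScalarTower K R A]
  [IsScalarTower K R B] [IsScalarTower K R B₁] [IsScalarTower K R B₂]

/-- Composition with a linear map. -/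
def postc (A : Type) [AddCommGroup A] [Module K A] [Module R A] [IsScalarTower K R A]
    (f : B →ₗ[R] B₁) : (A →ₗ[R] B) →ₗ[K] (A →ₗ[R] B₁) where
  toFun φ := f.comp φ
  map_add' φ ψ := by
    apply LinearMap.ext
    intro a
    exact map_add f (φ a) (ψ a)
  map_smul' t φ := by
    apply LinearMap.ext
    intro a
    exact LinearMap.map_smul_of_tower f t (φ a)

lemma fin_hom [Module.Finite K A] [Module.Finite K B] : Module.Finite K (A →ₗ[R] B) :=
  Module.Finite.of_injective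
    ({ toFun := fun φ => φ.restrictScalars K
       map_add' := fun _ _ => rfl
       map_smul' := fun _ _ => rfl } : (A →ₗ[R] B) →ₗ[K] (A →ₗ[K] B))
    (fun _ _ h => LinearMap.ext fun a => congrArg (fun t : A →ₗ[K] B => t a) h)

lemma hom_eq_zero [Module.Finite K A] [Module.Finite K B] (h : finrank K (A →ₗ[R] B) = 0)
    (φ : A →ₗ[R] B) : φ = 0 := by
  have hf : Module.Finite K (A →ₗ[R] B) := fin_hom
  have h1 := (Module.finrank_zero_iff (R := K) (M := (A →ₗ[R] B))).1 h
  exact Subsingleton.elim _ _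

lemma finrank_hom_le [Module.Finite K A] [Module.Finite K B₁] [Module.Finite K B₂]
    (p₁ : B →ₗ[R] B₁) (p₂ : B →ₗ[R] B₂) (h : ∀ b, p₁ b = 0 → p₂ b = 0 → b = 0) :
    finrank K (A →ₗ[R] B) ≤ finrank K (A →ₗ[R] B₁) + finrank K (A →ₗ[R] B₂) := by
  have hf1 : Module.Finite K (A →ₗ[R] B₁) := fin_hom
  have hf2 : Module.Finite K (A →ₗ[R] B₂) := fin_hom
  have hinj : Function.Injective ((postc (K := K) A p₁).prod (postc (K := K) A p₂)) := by
    rw [injective_iff_map_eq_zero]
    intro φ hφ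
    apply LinearMap.ext
    intro a
    have h1 := congrArg (fun t : (A →ₗ[R] B₁) × (A →ₗ[R] B₂) => t.1 a) hφ
    have h2 := congrArg (fun t : (A →ₗ[R] B₁) × (A →ₗ[R] B₂) => t.2 a) hφ
    exact h (φ a) h1 h2
  have h1 := LinearMap.finrank_le_finrank_of_injective hinj
  rwa [Module.finrank_prod] at h1

lemma le_finrank_hom [Module.Finite K A] [Module.Finite K B] [Module.Finite K B₁]
    [Module.Finite K B₂]
    (i₁ : B₁ →ₗ[R] B) (i₂ : B₂ →ₗ[R] B) (h : ∀ b₁ b₂, i₁ b₁ + i₂ b₂ = 0 → b₁ = 0 ∧ b₂ = 0) :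
    finrank K (A →ₗ[R] B₁) + finrank K (A →ₗ[R] B₂) ≤ finrank K (A →ₗ[R] B) := by
  have hf0 : Module.Finite K (A →ₗ[R] B) := fin_hom
  have hf1 : Module.Finite K (A →ₗ[R] B₁) := fin_hom
  have hf2 : Module.Finite K (A →ₗ[R] B₂) := fin_hom
  have hinj : Function.Injective ((postc (K := K) A i₁).coprod (postc (K := K) A i₂)) := by
    rw [injective_iff_map_eq_zero]
    rintro ⟨φ, ψ⟩ hφ
    have h3 : ∀ a, φ a = 0 ∧ ψ a = 0 := fun a =>
      h _ _ (congrArg (fun t : A →ₗ[R] B => t a) hφ)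
    exact Prod.ext (LinearMap.ext fun a => (h3 a).1) (LinearMap.ext fun a => (h3 a).2)
  have h1 := LinearMap.finrank_le_finrank_of_injective hinj
  rwa [Module.finrank_prod] at h1

end general

lemma nat_card_ne (K : Type) [Field K] [CharZero K] : NeZero (Nat.card G : K) :=
  ⟨by exact_mod_cast Nat.card_pos.ne'⟩

lemma fin_sub {K : Type} [Field K] (N : Submodule (MonoidAlgebra K G) (VV K G X)) :
    Module.Finite K N := inferInstanceAs (Module.Finite K (N.restrictScalars K))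

/-- Two nonisomorphic simple modules: no homomorphisms over `ℂ` either. -/
lemma hom_zero (M N₁ : Submodule (MonoidAlgebra ℚ G) (VV ℚ G X))
    (W : Submodule (MonoidAlgebra ℂ G) (VV ℂ G X)) (hWM : W ≤ red M ℂ)
    (h0 : finrank ℚ (M →ₗ[MonoidAlgebra ℚ G] N₁) = 0) (φ : W →ₗ[MonoidAlgebra ℂ G] red N₁ ℂ) :
    φ = 0 := by
  have hne : NeZero (Nat.card G : ℂ) := nat_card_ne ℂ
  have hf1 := fin_sub (red M ℂ)
  have hf2 := fin_sub (red N₁ ℂ)
  have h1 : finrank ℂ (red M ℂ →ₗ[MonoidAlgebra ℂ G] red N₁ ℂ) = 0 := by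
    rw [finrank_hom_redC, h0]
  -- extend `φ` to `red M`
  obtain ⟨Q, hQ⟩ := exists_isCompl (W.comap (red M ℂ).subtype)
  let W' : Submodule (MonoidAlgebra ℂ G) (red M ℂ) := W.comap (red M ℂ).subtype
  let pr : red M ℂ →ₗ[MonoidAlgebra ℂ G] W' := W'.projectionOnto Q hQ
  let j : W' →ₗ[MonoidAlgebra ℂ G] W :=
    { toFun := fun w => ⟨(w : red M ℂ), w.2⟩
      map_add' := fun _ _ => rfl
      map_smul' := fun _ _ => rfl }
  have h2 : φ.comp (j.comp pr) = 0 := hom_eq_zero h1 _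
  apply LinearMap.ext
  intro w
  have h3 := congrArg (fun t : red M ℂ →ₗ[MonoidAlgebra ℂ G] red N₁ ℂ => t ⟨w, hWM w.2⟩) h2
  have h4 : pr ⟨w, hWM w.2⟩ = ⟨⟨w, hWM w.2⟩, w.2⟩ :=
    Submodule.projectionOnto_apply_left hQ ⟨⟨w, hWM w.2⟩, w.2⟩
  change φ (j (pr ⟨w, hWM w.2⟩)) = 0 at h3
  rw [h4] at h3
  exact h3

/-- The main inequality, by induction on `N`. -/
lemma mult_aux (M : Submodule (MonoidAlgebra ℚ G) (VV ℚ G X))
    (hs : IsSimpleModule (MonoidAlgebra ℚ G) M)
    (W : Submodule (MonoidAlgebra ℂ G) (VV ℂ G X)) (hWM : W ≤ red M ℂ) (n : ℕ) :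
    ∀ N : Submodule (MonoidAlgebra ℚ G) (VV ℚ G X), finrank ℚ N ≤ n →
      finrank ℂ (W →ₗ[MonoidAlgebra ℂ G] red N ℂ) * dE M ≤
        finrank ℚ (M →ₗ[MonoidAlgebra ℚ G] N) *
          finrank ℂ (W →ₗ[MonoidAlgebra ℂ G] red M ℂ) := by
  have hneQ : NeZero (Nat.card G : ℚ) := nat_card_ne ℚ
  induction n with
  | zero =>
    intro N hN
    have hfN := fin_sub N
    have h0 : finrank ℂ (W →ₗ[MonoidAlgebra ℂ G] red N ℂ) = 0 := by
      have hfR := fin_sub (red N ℂ)
      have h1 : finrank ℂ (red N ℂ) = 0 := by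
        rw [finrank_redC]
        omega
      have h2 := (Module.finrank_zero_iff (R := ℂ) (M := red N ℂ)).1 h1
      have h3 : Subsingleton (W →ₗ[MonoidAlgebra ℂ G] red N ℂ) :=
        ⟨fun φ ψ => LinearMap.ext fun w => Subsingleton.elim _ _⟩
      exact Module.finrank_zero_of_subsingleton
    rw [h0, zero_mul]
    exact Nat.zero_le _
  | succ n ih =>
    intro N hN
    rcases IsSemisimpleModule.eq_bot_or_exists_simple_le N with hb | ⟨N₁, hN₁, hs₁⟩
    · refine ih N ?_
      rw [hb]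
      have : finrank ℚ (⊥ : Submodule (MonoidAlgebra ℚ G) (VV ℚ G X)) = 0 :=
        Module.finrank_zero_of_subsingleton
      omega
    · -- the complement
      let E : VV ℚ G X →ₗ[MonoidAlgebra ℚ G] VV ℚ G X := RC.EN N₁
      have hE1 : ∀ v, E v ∈ N₁ := RC.EN_mem N₁
      have hE2 : ∀ v ∈ N₁, E v = (Fintype.card G : ℚ) • v := fun v hv => RC.EN_id N₁ hv
      have hq : (Fintype.card G : ℚ) ≠ 0 := by exact_mod_cast Fintype.card_ne_zero
      obtain ⟨N₂, hN₂⟩ : ∃ N₂ : Submodule (MonoidAlgebra ℚ G) (VV ℚ G X),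
          N₂ = N ⊓ LinearMap.ker E := ⟨_, rfl⟩
      have hle2 : N₂ ≤ N := by
        rw [hN₂]
        exact inf_le_left
      -- the two projections
      let p₁ : N →ₗ[MonoidAlgebra ℚ G] N₁ :=
        { toFun := fun v => ⟨((Fintype.card G : ℚ)⁻¹) • E (v : VV ℚ G X),
            N₁.smul_of_tower_mem _ (hE1 _)⟩
          map_add' := by
            intro v w
            apply Subtype.ext
            change ((Fintype.card G : ℚ)⁻¹) • E ((v : VV ℚ G X) + w) =
              ((Fintype.card G : ℚ)⁻¹) • E (v : VV ℚ G X) +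
                ((Fintype.card G : ℚ)⁻¹) • E (w : VV ℚ G X)
            rw [map_add, smul_add]
          map_smul' := by
            intro r v
            apply Subtype.ext
            change ((Fintype.card G : ℚ)⁻¹) • E (r • (v : VV ℚ G X)) =
              r • ((Fintype.card G : ℚ)⁻¹) • E (v : VV ℚ G X)
            rw [map_smul, smul_comm] }
      have hp₁ : ∀ v : N, (p₁ v : VV ℚ G X) = ((Fintype.card G : ℚ)⁻¹) • E (v : VV ℚ G X) :=
        fun _ => rfl
      let ι₁ : N₁ →ₗ[MonoidAlgebra ℚ G] N := Submodule.inclusion hN₁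
      let ι₂ : N₂ →ₗ[MonoidAlgebra ℚ G] N := Submodule.inclusion hle2
      have hmem : ∀ v : N, ((v : VV ℚ G X) - p₁ v) ∈ N₂ := by
        intro v
        rw [hN₂, Submodule.mem_inf]
        refine ⟨N.sub_mem v.2 (hN₁ (p₁ v).2), ?_⟩
        rw [LinearMap.mem_ker, map_sub, hE2 _ (p₁ v).2, hp₁, smul_smul, mul_inv_cancel₀ hq,
          one_smul, sub_self]
      let p₂ : N →ₗ[MonoidAlgebra ℚ G] N₂ :=
        { toFun := fun v => ⟨(v : VV ℚ G X) - p₁ v, hmem v⟩
          map_add' := by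
            intro v w
            apply Subtype.ext
            change ((v : VV ℚ G X) + w) - (p₁ (v + w) : N₁) =
              ((v : VV ℚ G X) - p₁ v) + ((w : VV ℚ G X) - p₁ w)
            rw [map_add, Submodule.coe_add]
            abel
          map_smul' := by
            intro r v
            apply Subtype.ext
            change (r • (v : VV ℚ G X)) - (p₁ (r • v) : N₁) = r • ((v : VV ℚ G X) - p₁ v)
            rw [map_smul, Submodule.coe_smul, smul_sub] }
      have hid : ι₁.comp p₁ + ι₂.comp p₂ = LinearMap.id := by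
        apply LinearMap.ext
        intro v
        apply Subtype.ext
        change (p₁ v : VV ℚ G X) + ((v : VV ℚ G X) - p₁ v) = v
        abel
      -- over `ℂ`
      have hfW := fin_sub W
      have hf1 := fin_sub (red N₁ ℂ)
      have hf2 := fin_sub (red N₂ ℂ)
      have key1 : finrank ℂ (W →ₗ[MonoidAlgebra ℂ G] red N ℂ) ≤
          finrank ℂ (W →ₗ[MonoidAlgebra ℂ G] red N₁ ℂ) +
            finrank ℂ (W →ₗ[MonoidAlgebra ℂ G] red N₂ ℂ) := by
        refine finrank_hom_le (RC.FF p₁) (RC.FF p₂) fun b h1 h2 => ?_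
        have h3 := RC.FF_id b
        rw [← hid, RC.FF_add, ← RC.FF_comp, ← RC.FF_comp, h1, h2, map_zero, map_zero,
          add_zero] at h3
        exact h3.symm
      -- over `ℚ`
      have hfM := fin_sub M
      have hfN := fin_sub N
      have hf3 := fin_sub N₁
      have hf4 := fin_sub N₂
      have key2 : finrank ℚ (M →ₗ[MonoidAlgebra ℚ G] N₁) +
          finrank ℚ (M →ₗ[MonoidAlgebra ℚ G] N₂) ≤ finrank ℚ (M →ₗ[MonoidAlgebra ℚ G] N) := by
        refine le_finrank_hom ι₁ ι₂ fun b₁ b₂ h => ?_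
        have h1 : (b₁ : VV ℚ G X) + b₂ = 0 := congrArg (fun t : N => (t : VV ℚ G X)) h
        have h2 : (b₂ : VV ℚ G X) ∈ LinearMap.ker E := (hN₂.le b₂.2).2
        have h3 := congrArg E h1
        rw [map_add, LinearMap.mem_ker.1 h2, add_zero, map_zero, hE2 _ b₁.2] at h3
        have h4 : (b₁ : VV ℚ G X) = 0 := (smul_eq_zero.1 h3).resolve_left hq
        rw [h4, zero_add] at h1
        exact ⟨Subtype.ext h4, Subtype.ext h1⟩
      -- dimension of `N₂`
      have hdim : finrank ℚ N₂ ≤ n := by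
        have h1 : N₁.restrictScalars ℚ ⊓ N₂.restrictScalars ℚ = ⊥ := by
          rw [eq_bot_iff]
          rintro v ⟨hv1, hv2⟩
          have h2 : v ∈ LinearMap.ker E := by
            have : v ∈ N₂ := hv2
            rw [hN₂] at this
            exact this.2
          have h3 := hE2 v hv1
          rw [LinearMap.mem_ker.1 h2] at h3
          exact (smul_eq_zero.1 h3.symm).resolve_left hq
        have h2 := Submodule.finrank_sup_add_finrank_inf_eq (N₁.restrictScalars ℚ)
          (N₂.restrictScalars ℚ)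
        rw [h1, finrank_bot, add_zero] at h2
        have h3 : finrank ℚ (N₁.restrictScalars ℚ ⊔ N₂.restrictScalars ℚ :
            Submodule ℚ (VV ℚ G X)) ≤ finrank ℚ (N.restrictScalars ℚ) :=
          Submodule.finrank_mono (sup_le hN₁ hle2)
        have h4 : 0 < finrank ℚ (N₁.restrictScalars ℚ) := by
          have hnt : Nontrivial N₁ := IsSimpleModule.nontrivial (MonoidAlgebra ℚ G) N₁
          exact Module.finrank_pos (R := ℚ) (M := N₁)
        have h5 : finrank ℚ (N.restrictScalars ℚ) = finrank ℚ N := rfl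
        have h6 : finrank ℚ (N₂.restrictScalars ℚ) = finrank ℚ N₂ := rfl
        omega
      have key3 := ih N₂ hdim
      have key4 : finrank ℂ (W →ₗ[MonoidAlgebra ℂ G] red N₁ ℂ) * dE M ≤
          finrank ℚ (M →ₗ[MonoidAlgebra ℚ G] N₁) *
            finrank ℂ (W →ₗ[MonoidAlgebra ℂ G] red M ℂ) := by
        by_cases h0 : finrank ℚ (M →ₗ[MonoidAlgebra ℚ G] N₁) = 0
        · have h1 : finrank ℂ (W →ₗ[MonoidAlgebra ℂ G] red N₁ ℂ) = 0 := by
            have h2 : Subsingleton (W →ₗ[MonoidAlgebra ℂ G] red N₁ ℂ) :=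
              ⟨fun φ ψ => by rw [hom_zero M N₁ W hWM h0 φ, hom_zero M N₁ W hWM h0 ψ]⟩
            exact Module.finrank_zero_of_subsingleton
          rw [h1, zero_mul]
          exact Nat.zero_le _
        · -- a nonzero homomorphism is an isomorphism
          have h1 : ∃ φ : M →ₗ[MonoidAlgebra ℚ G] N₁, φ ≠ 0 := by
            by_contra hcon
            push Not at hcon
            apply h0
            have h2 : Subsingleton (M →ₗ[MonoidAlgebra ℚ G] N₁) :=
              ⟨fun φ ψ => by rw [hcon φ, hcon ψ]⟩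
            exact Module.finrank_zero_of_subsingleton
          obtain ⟨φ, hφ⟩ := h1
          have hbij := LinearMap.bijective_of_ne_zero hφ
          let e : M ≃ₗ[MonoidAlgebra ℚ G] N₁ := LinearEquiv.ofBijective φ hbij
          obtain ⟨eC⟩ := redC_iso M N₁ ⟨e⟩
          have h2 : finrank ℂ (W →ₗ[MonoidAlgebra ℂ G] red M ℂ) =
              finrank ℂ (W →ₗ[MonoidAlgebra ℂ G] red N₁ ℂ) :=
            finrank_hom_congr (LinearEquiv.refl _ _) eC
          have h3 : dE M = finrank ℚ (M →ₗ[MonoidAlgebra ℚ G] N₁) :=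
            finrank_hom_congr (LinearEquiv.refl _ _) e
          rw [h2, h3, mul_comm]
      calc finrank ℂ (W →ₗ[MonoidAlgebra ℂ G] red N ℂ) * dE M
          ≤ (finrank ℂ (W →ₗ[MonoidAlgebra ℂ G] red N₁ ℂ) +
            finrank ℂ (W →ₗ[MonoidAlgebra ℂ G] red N₂ ℂ)) * dE M := Nat.mul_le_mul_right _ key1
        _ = finrank ℂ (W →ₗ[MonoidAlgebra ℂ G] red N₁ ℂ) * dE M +
            finrank ℂ (W →ₗ[MonoidAlgebra ℂ G] red N₂ ℂ) * dE M := add_mul _ _ _
        _ ≤ _ := Nat.add_le_add key4 key3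
        _ = (finrank ℚ (M →ₗ[MonoidAlgebra ℚ G] N₁) + finrank ℚ (M →ₗ[MonoidAlgebra ℚ G] N₂)) *
            finrank ℂ (W →ₗ[MonoidAlgebra ℂ G] red M ℂ) := (add_mul _ _ _).symm
        _ ≤ _ := Nat.mul_le_mul_right _ key2

end MU

open Pool.Agent.Lib.MP_938ce2_ag_h67 (finrank_hom_congr red_top) in
theorem mult_le (M : Submodule (MonoidAlgebra ℚ G) (VV ℚ G X))
    (hs : IsSimpleModule (MonoidAlgebra ℚ G) M) (k : ℕ) (hk : dH M = k * dE M)
    (W : Submodule (MonoidAlgebra ℂ G) (VV ℂ G X)) (hW : IsSimpleModule (MonoidAlgebra ℂ G) W)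
    (hWM : W ≤ red M ℂ) :
    finrank ℂ (W →ₗ[MonoidAlgebra ℂ G] VV ℂ G X)
      ≤ k * finrank ℂ (W →ₗ[MonoidAlgebra ℂ G] red M ℂ) := by
  have h1 := MU.mult_aux M hs W hWM _ ⊤ le_rfl
  have hC : (Fintype.card G : ℂ) ≠ 0 := by exact_mod_cast Fintype.card_ne_zero
  rw [red_top ℂ hC] at h1
  have e1 : finrank ℂ (W →ₗ[MonoidAlgebra ℂ G]
      (⊤ : Submodule (MonoidAlgebra ℂ G) (VV ℂ G X)))
      = finrank ℂ (W →ₗ[MonoidAlgebra ℂ G] VV ℂ G X) :=
    finrank_hom_congr (LinearEquiv.refl _ _) Submodule.topEquiv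
  have e2 : finrank ℚ (M →ₗ[MonoidAlgebra ℚ G]
      (⊤ : Submodule (MonoidAlgebra ℚ G) (VV ℚ G X))) = dH M :=
    finrank_hom_congr (LinearEquiv.refl _ _) Submodule.topEquiv
  rw [e1, e2, hk] at h1
  have hpos : 0 < dE M := by
    have hfM := MU.fin_sub M
    have hf : Module.Finite ℚ (M →ₗ[MonoidAlgebra ℚ G] M) := MU.fin_hom
    have hnt : Nontrivial M := IsSimpleModule.nontrivial (MonoidAlgebra ℚ G) M
    rw [Nat.pos_iff_ne_zero]
    intro h0
    obtain ⟨v, hv⟩ := exists_ne (0 : M)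
    have h2 := MU.hom_eq_zero (K := ℚ) h0 (LinearMap.id : M →ₗ[MonoidAlgebra ℚ G] M)
    exact hv (congrArg (fun t : M →ₗ[MonoidAlgebra ℚ G] M => t v) h2)
  refine Nat.le_of_mul_le_mul_right ?_ hpos
  calc _ ≤ k * dE M * finrank ℂ (W →ₗ[MonoidAlgebra ℂ G] red M ℂ) := h1
    _ = k * finrank ℂ (W →ₗ[MonoidAlgebra ℂ G] red M ℂ) * dE M := by ring

end Pool.Agent.Lib.MP_938ce2_ag_u2
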