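import Mathlib
import Pool.Agent.Lib.MP_938ce2_ag_u2.FrameAvg

/-!
Row Order: the order of the group acting irreducibly.
-/

set_option autoImplicit false
set_option linter.unusedSectionVars false

namespace Pool.Agent.Lib.MP_938ce2_ag_u2

open Finset Module Matrix
open Pool.Agent.Lib.MP_938ce2_ag_h67 (sg)
open Pool.Agent.Lib.MP_938ce2_ag_h60 (CMType)

variable {G X : Type} [Group G] [MulAction G X] [Fintype X] [DecidableEq X] {c : G}
  {g : ℕ} [MulAction.IsPretransitive G X] {n κ : ℕ} {π : G →* Matrix (Fin n) (Fin n) ℂ}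
  {A : X → Matrix (Fin n) (Fin κ) ℂ}

open ComplexOrder in
/-- the rank of a contraction is at least the square of its Frobenius norm -/
theorem frob_le_rank {a b : ℕ} (B : Matrix (Fin a) (Fin b) ℂ) (z : ℝ) (hz : 0 ≤ z)
    (hB : ∀ v : Fin b → ℂ, ∑ i, ‖(B.mulVec v) i‖ ^ 2 ≤ z * ∑ i, ‖v i‖ ^ 2) :
    (B * Bᴴ).trace.re ≤ z * finrank ℂ (LinearMap.range B.mulVecLin) := by
  classical
  have hH : (Bᴴ * B).IsHermitian := isHermitian_conjTranspose_mul_self B
  have e1 : (B * Bᴴ).trace.re = ∑ i, hH.eigenvalues i := by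
    rw [Matrix.trace_mul_comm, hH.trace_eq_sum_eigenvalues, Complex.re_sum]
    exact Finset.sum_congr rfl fun i _ => Complex.ofReal_re _
  have e2 : ∀ i, hH.eigenvalues i ≤ z := by
    intro i
    have h1 := hB (hH.eigenvectorBasis i).ofLp
    have h2 : ∑ j, ‖(hH.eigenvectorBasis i).ofLp j‖ ^ 2 = 1 := by
      have h3 := EuclideanSpace.norm_sq_eq (hH.eigenvectorBasis i)
      rw [hH.eigenvectorBasis.orthonormal.1 i] at h3
      rw [← h3, one_pow]
    rw [h2, mul_one] at h1
    refine le_trans (le_of_eq ?_) h1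
    rw [hH.eigenvalues_eq, ← Matrix.mulVec_mulVec, Matrix.dotProduct_mulVec,
      ← Matrix.star_mulVec]
    change (∑ j, star ((B *ᵥ (hH.eigenvectorBasis i).ofLp) j) *
      (B *ᵥ (hH.eigenvectorBasis i).ofLp) j).re = _
    rw [Complex.re_sum]
    refine Finset.sum_congr rfl fun j _ => ?_
    rw [← Complex.normSq_eq_norm_sq]
    have := Complex.normSq_eq_conj_mul_self (z := (B *ᵥ (hH.eigenvectorBasis i).ofLp) j)
    rw [show star ((B *ᵥ (hH.eigenvectorBasis i).ofLp) j) =
      (starRingEnd ℂ) ((B *ᵥ (hH.eigenvectorBasis i).ofLp) j) from rfl, ← this, Complex.ofReal_re]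
  have e3 : (finrank ℂ (LinearMap.range B.mulVecLin) : ℕ) =
      (Finset.univ.filter fun i => hH.eigenvalues i ≠ 0).card := by
    have h1 := hH.rank_eq_card_non_zero_eigs
    rw [Matrix.rank_conjTranspose_mul_self] at h1
    rw [Matrix.rank, Fintype.card_subtype] at h1
    exact h1
  rw [e1, e3, mul_comm, ← nsmul_eq_mul, ← Finset.sum_const,
    ← Finset.sum_filter_ne_zero]
  exact Finset.sum_le_sum fun i _ => e2 i

namespace OrderAux

/-- coordinates orthogonal to a subspace -/
theorem exists_W (U : Submodule ℂ (Fin n → ℂ)) :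
    ∃ (r : ℕ) (W : Matrix (Fin r) (Fin n) ℂ), finrank ℂ U + r = n ∧ W * Wᴴ = 1 ∧
      (∀ v ∈ U, W.mulVec v = 0) ∧
      ∀ v : Fin n → ℂ, ∑ i, ‖(W.mulVec v) i‖ ^ 2 ≤ ∑ j, ‖v j‖ ^ 2 := by
  classical
  let e : EuclideanSpace ℂ (Fin n) ≃ₗ[ℂ] (Fin n → ℂ) := WithLp.linearEquiv 2 ℂ (Fin n → ℂ)
  let U' : Submodule ℂ (EuclideanSpace ℂ (Fin n)) := U.comap e.toLinearMap
  have hU' : finrank ℂ U' = finrank ℂ U := by
    have h1 : U'.map e.toLinearMap = U := Submodule.map_comap_eq_of_surjective e.surjective U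
    rw [← h1]
    exact (LinearEquiv.finrank_map_eq e U').symm
  let b := stdOrthonormalBasis ℂ U'ᗮ
  have hb : Orthonormal ℂ (fun i => ((b i : U'ᗮ) : EuclideanSpace ℂ (Fin n))) :=
    b.orthonormal.comp_linearIsometry U'ᗮ.subtypeₗᵢ
  have hW : ∀ (v : Fin n → ℂ) (i : Fin (finrank ℂ U'ᗮ)),
      (Matrix.of fun (i : Fin (finrank ℂ U'ᗮ)) (j : Fin n) =>
        star (((b i : U'ᗮ) : EuclideanSpace ℂ (Fin n)).ofLp j)).mulVec v i =
      inner ℂ ((b i : U'ᗮ) : EuclideanSpace ℂ (Fin n)) (WithLp.toLp 2 v) := by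
    intro v i
    rw [EuclideanSpace.inner_eq_star_dotProduct, dotProduct_comm]
    rfl
  refine ⟨finrank ℂ U'ᗮ, Matrix.of fun i j =>
    star (((b i : U'ᗮ) : EuclideanSpace ℂ (Fin n)).ofLp j), ?_, ?_, ?_, ?_⟩
  · rw [← hU', Submodule.finrank_add_finrank_orthogonal, finrank_euclideanSpace,
      Fintype.card_fin]
  · ext i k
    have h1 := orthonormal_iff_ite.1 hb i k
    rw [EuclideanSpace.inner_eq_star_dotProduct] at h1
    rw [Matrix.one_apply, ← h1, dotProduct_comm]
    change ∑ j, star (((b i : U'ᗮ) : EuclideanSpace ℂ (Fin n)).ofLp j) *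
      star (star (((b k : U'ᗮ) : EuclideanSpace ℂ (Fin n)).ofLp j)) = _
    refine Finset.sum_congr rfl fun j _ => ?_
    rw [star_star]
    rfl
  · intro v hv
    funext i
    rw [hW]
    have h1 : (WithLp.toLp 2 v : EuclideanSpace ℂ (Fin n)) ∈ U' := hv
    exact Submodule.inner_left_of_mem_orthogonal h1 (b i).2
  · intro v
    have h1 := hb.sum_inner_products_le (WithLp.toLp 2 v : EuclideanSpace ℂ (Fin n))
      (s := Finset.univ)
    rw [EuclideanSpace.norm_sq_eq] at h1
    refine le_trans (le_of_eq (Finset.sum_congr rfl fun i _ => ?_)) h1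
    rw [hW]

/-- the matrices of a frame are scaled isometries -/
theorem norm_A (hF : Frame G X c g π A) (x : X) (v : Fin κ → ℂ) :
    ∑ i, ‖((A x).mulVec v) i‖ ^ 2 = (g : ℝ)⁻¹ * ∑ i, ‖v i‖ ^ 2 := by
  have key : ∀ {k : ℕ} (w : Fin k → ℂ), ((∑ i, ‖w i‖ ^ 2 : ℝ) : ℂ) = star w ⬝ᵥ w := by
    intro k w
    change _ = ∑ i, star (w i) * w i
    push_cast
    refine Finset.sum_congr rfl fun i _ => ?_
    have := Complex.normSq_eq_conj_mul_self (z := w i)
    rw [Complex.normSq_eq_norm_sq] at this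
    push_cast at this
    exact this
  apply Complex.ofReal_injective
  rw [key, Matrix.star_mulVec, ← Matrix.dotProduct_mulVec, Matrix.mulVec_mulVec, hF.iso,
    Matrix.smul_mulVec, Matrix.one_mulVec, dotProduct_smul, ← key]
  push_cast
  rfl

theorem finrank_sup_ge {r : ℕ} (W : Matrix (Fin r) (Fin n) ℂ) (U : Submodule ℂ (Fin n → ℂ))
    (hW : ∀ v ∈ U, W.mulVec v = 0) (B : Matrix (Fin n) (Fin κ) ℂ) :
    finrank ℂ U + finrank ℂ (LinearMap.range (W * B).mulVecLin) ≤
      finrank ℂ (U ⊔ LinearMap.range B.mulVecLin : Submodule ℂ (Fin n → ℂ)) := by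
  set T : Submodule ℂ (Fin n → ℂ) := U ⊔ LinearMap.range B.mulVecLin with hT
  let f : T →ₗ[ℂ] (Fin r → ℂ) := W.mulVecLin.comp T.subtype
  have h1 := LinearMap.finrank_range_add_finrank_ker f
  have h2 : finrank ℂ U ≤ finrank ℂ (LinearMap.ker f) := by
    let j : U →ₗ[ℂ] LinearMap.ker f :=
      { toFun := fun u => ⟨⟨u.1, (le_sup_left : U ≤ T) u.2⟩, hW u.1 u.2⟩
        map_add' := fun _ _ => rfl
        map_smul' := fun _ _ => rfl }
    refine LinearMap.finrank_le_finrank_of_injective (f := j) fun u v huv => ?_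
    exact Subtype.ext (congrArg (fun w => ((w : T) : Fin n → ℂ)) (congrArg Subtype.val huv))
  have h3 : finrank ℂ (LinearMap.range (W * B).mulVecLin) ≤ finrank ℂ (LinearMap.range f) := by
    refine Submodule.finrank_mono ?_
    rintro _ ⟨v, rfl⟩
    refine ⟨⟨B.mulVec v, (le_sup_right : LinearMap.range B.mulVecLin ≤ T) ⟨v, rfl⟩⟩, ?_⟩
    change W.mulVec (B.mulVec v) = (W * B).mulVec v
    rw [Matrix.mulVec_mulVec]
  omega

end OrderAux

/-- one greedy step -/
theorem greedy (hA : Act G X c g) (hF : Frame G X c g π A) (hn : 1 ≤ n)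
    (U : Submodule ℂ (Fin n → ℂ)) :
    ∃ x : X, (finrank ℂ U : ℝ) + (κ / n) * (n - finrank ℂ U)
      ≤ finrank ℂ (U ⊔ LinearMap.range (A x).mulVecLin : Submodule ℂ (Fin n → ℂ)) := by
  classical
  obtain ⟨r, W, hr, hW1, hW2, hW3⟩ := OrderAux.exists_W U
  have hg : (0 : ℝ) < g := by exact_mod_cast hA.pos
  have hn0 : (0 : ℝ) < n := by exact_mod_cast hn
  have hsum : ∑ x, ((W * A x) * (W * A x)ᴴ).trace.re = 2 * κ / n * r := by
    rw [← Complex.re_sum, ← Matrix.trace_sum]
    have h1 : ∑ x, (W * A x) * (W * A x)ᴴ =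
        W * (∑ x, A x * (1 : Matrix (Fin κ) (Fin κ) ℂ) * (A x)ᴴ) * Wᴴ := by
      rw [Matrix.mul_sum, Matrix.sum_mul]
      refine Finset.sum_congr rfl fun x _ => ?_
      rw [Matrix.conjTranspose_mul, Matrix.mul_one]
      simp only [Matrix.mul_assoc]
    rw [h1, sum_avg hA hF hn 1, Matrix.mul_smul, Matrix.mul_one, Matrix.smul_mul, hW1,
      Matrix.trace_smul, Matrix.trace_one, Matrix.trace_one, Fintype.card_fin, Fintype.card_fin]
    have : (2 * (κ : ℂ) / (n : ℂ)) • (r : ℂ) = ((2 * κ / n * r : ℝ) : ℂ) := by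
      push_cast
      rfl
    rw [this, Complex.ofReal_re]
  have hcard : (Finset.univ : Finset X).card = 2 * g := by
    rw [Finset.card_univ, hA.card]
  obtain ⟨x, -, hx⟩ : ∃ x ∈ (Finset.univ : Finset X), κ / (n * g) * (r : ℝ) ≤
      ((W * A x) * (W * A x)ᴴ).trace.re := by
    by_contra hcon
    push Not at hcon
    have hne : (Finset.univ : Finset X).Nonempty := by
      rw [← Finset.card_pos, hcard]
      have := hA.pos
      omega
    have h1 := Finset.sum_lt_sum_of_nonempty hne hcon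
    rw [hsum, Finset.sum_const, hcard, nsmul_eq_mul] at h1
    push_cast at h1
    have h2 : 2 * (g : ℝ) * (κ / (n * g) * r) = 2 * κ / n * r := by
      field_simp
    rw [h2] at h1
    exact lt_irrefl _ h1
  refine ⟨x, ?_⟩
  have h1 := frob_le_rank (W * A x) ((g : ℝ)⁻¹) (by positivity) fun v => by
    rw [← Matrix.mulVec_mulVec, ← OrderAux.norm_A hF x v]
    exact hW3 _
  have h2 := OrderAux.finrank_sup_ge W U hW2 (A x)
  have h3 : (finrank ℂ U : ℝ) + finrank ℂ (LinearMap.range (W * A x).mulVecLin) ≤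
      finrank ℂ (U ⊔ LinearMap.range (A x).mulVecLin : Submodule ℂ (Fin n → ℂ)) := by
    exact_mod_cast h2
  have hr' : (n : ℝ) - finrank ℂ U = r := by
    have : (finrank ℂ U : ℝ) + r = n := by exact_mod_cast hr
    linarith
  refine le_trans ?_ h3
  rw [hr']
  have h4 : κ / (n * g) * (r : ℝ) ≤ (g : ℝ)⁻¹ *
      finrank ℂ (LinearMap.range (W * A x).mulVecLin) := hx.trans h1
  have h5 : (g : ℝ) * (κ / (n * g) * (r : ℝ)) ≤ g * ((g : ℝ)⁻¹ *
      finrank ℂ (LinearMap.range (W * A x).mulVecLin)) := mul_le_mul_of_nonneg_left h4 hg.le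
  rw [mul_inv_cancel_left₀ hg.ne'] at h5
  have h6 : (g : ℝ) * (κ / (n * g) * (r : ℝ)) = κ / n * r := by
    field_simp
  rw [h6] at h5
  linarith

theorem exists_span (hA : Act G X c g) (hF : Frame G X c g π A) (hn : 1 ≤ n) (hκ : 1 ≤ κ) :
    ∃ (J : ℕ) (y : Fin J → X), J ≤ n ∧ (J : ℝ) ≤ 1 + n / κ * Real.log n ∧
      (⨆ i, LinearMap.range (A (y i)).mulVecLin : Submodule ℂ (Fin n → ℂ)) = ⊤ := by
  classical
  have hn0 : (0 : ℝ) < n := by exact_mod_cast hn
  have hκ0 : (0 : ℝ) < κ := by exact_mod_cast hκ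
  by_contra hcon
  have key : ∀ k : ℕ, ∃ y : Fin k → X,
      (k ≤ finrank ℂ (⨆ i, LinearMap.range (A (y i)).mulVecLin : Submodule ℂ (Fin n → ℂ))) ∧
      ((n : ℝ) - finrank ℂ (⨆ i, LinearMap.range (A (y i)).mulVecLin :
        Submodule ℂ (Fin n → ℂ)) ≤ n * Real.exp (-(κ * k / n))) ∧
      (⨆ i, LinearMap.range (A (y i)).mulVecLin : Submodule ℂ (Fin n → ℂ)) ≠ ⊤ := by
    intro k
    induction k with
    | zero =>
      refine ⟨Fin.elim0, Nat.zero_le _, ?_, ?_⟩
      · have : Real.exp (-(κ * (0 : ℕ) / n)) = 1 := by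
          rw [Nat.cast_zero, mul_zero, zero_div, neg_zero, Real.exp_zero]
        rw [this, mul_one]
        have : (0 : ℝ) ≤ finrank ℂ (⨆ i, LinearMap.range (A (Fin.elim0 i)).mulVecLin :
          Submodule ℂ (Fin n → ℂ)) := Nat.cast_nonneg _
        linarith
      · intro h
        refine hcon ⟨0, Fin.elim0, Nat.zero_le _, ?_, h⟩
        rw [Nat.cast_zero]
        have : 0 ≤ Real.log n := Real.log_nonneg (by exact_mod_cast hn)
        positivity
    | succ k ih =>
      obtain ⟨y, h1, h2, h3⟩ := ih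
      set U : Submodule ℂ (Fin n → ℂ) := ⨆ i, LinearMap.range (A (y i)).mulVecLin with hU
      obtain ⟨x, hx⟩ := greedy hA hF hn U
      have hlt : finrank ℂ U < n := by
        have := Submodule.finrank_lt h3
        rwa [Module.finrank_fin_fun] at this
      have hlt' : (finrank ℂ U : ℝ) + 1 ≤ n := by exact_mod_cast hlt
      have hsup : (⨆ i, LinearMap.range (A (Fin.snoc (α := fun _ => X) y x i)).mulVecLin :
          Submodule ℂ (Fin n → ℂ)) = U ⊔ LinearMap.range (A x).mulVecLin := by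
        apply le_antisymm
        · refine iSup_le fun i => ?_
          refine Fin.lastCases ?_ (fun i => ?_) i
          · rw [Fin.snoc_last]
            exact le_sup_right
          · rw [Fin.snoc_castSucc]
            exact le_sup_of_le_left (le_iSup (fun i => LinearMap.range (A (y i)).mulVecLin) i)
        · refine sup_le (iSup_le fun i => ?_) ?_
          · refine le_iSup_of_le (Fin.castSucc i) ?_
            rw [Fin.snoc_castSucc]
          · refine le_iSup_of_le (Fin.last k) ?_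
            rw [Fin.snoc_last]
      have hpos : 0 < (κ / n : ℝ) * (n - finrank ℂ U) := by
        have : (0 : ℝ) < n - finrank ℂ U := by linarith
        positivity
      have hk1 : k + 1 ≤ finrank ℂ (U ⊔ LinearMap.range (A x).mulVecLin :
          Submodule ℂ (Fin n → ℂ)) := by
        have : (finrank ℂ U : ℝ) < finrank ℂ (U ⊔ LinearMap.range (A x).mulVecLin :
          Submodule ℂ (Fin n → ℂ)) := by linarith
        have : finrank ℂ U < finrank ℂ (U ⊔ LinearMap.range (A x).mulVecLin :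
          Submodule ℂ (Fin n → ℂ)) := by exact_mod_cast this
        omega
      by_cases htop : U ⊔ LinearMap.range (A x).mulVecLin = ⊤
      · exfalso
        refine hcon ⟨k + 1, Fin.snoc y x, by omega, ?_, by rw [hsup, htop]⟩
        have h4 : (1 : ℝ) ≤ n * Real.exp (-(κ * k / n)) := by linarith
        have h5 : Real.exp (κ * k / n) ≤ n := by
          rw [Real.exp_neg] at h4
          have h6 := Real.exp_pos ((κ : ℝ) * k / n)
          have h7 := mul_le_mul_of_nonneg_right h4 h6.le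
          rwa [one_mul, mul_assoc, inv_mul_cancel₀ h6.ne', mul_one] at h7
        have h6 : (κ : ℝ) * k / n ≤ Real.log n := by
          rw [← Real.exp_le_exp, Real.exp_log hn0]
          exact h5
        have h7 : (k : ℝ) ≤ n / κ * Real.log n := by
          have h8 := mul_le_mul_of_nonneg_left h6 (show (0 : ℝ) ≤ n / κ by positivity)
          have h9 : (n : ℝ) / κ * (κ * k / n) = k := by
            field_simp
          rwa [h9] at h8
        push_cast
        linarith
      · refine ⟨Fin.snoc y x, ?_, ?_, ?_⟩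
        · rw [hsup]
          exact hk1
        · rw [hsup]
          have h4 : (n : ℝ) - finrank ℂ (U ⊔ LinearMap.range (A x).mulVecLin :
              Submodule ℂ (Fin n → ℂ)) ≤ (1 - κ / n) * (n - finrank ℂ U) := by
            have : (1 - κ / n : ℝ) * (n - finrank ℂ U) = n - (finrank ℂ U +
              (κ / n) * (n - finrank ℂ U)) := by ring
            rw [this]
            linarith
          have h5 : (1 - κ / n : ℝ) ≤ Real.exp (-(κ / n)) := by
            have := Real.add_one_le_exp (-(κ / n : ℝ))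
            linarith
          have h6 : (0 : ℝ) ≤ n - finrank ℂ U := by linarith
          calc (n : ℝ) - finrank ℂ (U ⊔ LinearMap.range (A x).mulVecLin :
              Submodule ℂ (Fin n → ℂ)) ≤ (1 - κ / n) * (n - finrank ℂ U) := h4
            _ ≤ Real.exp (-(κ / n)) * (n - finrank ℂ U) := mul_le_mul_of_nonneg_right h5 h6
            _ ≤ Real.exp (-(κ / n)) * (n * Real.exp (-(κ * k / n))) :=
                mul_le_mul_of_nonneg_left h2 (Real.exp_pos _).le
            _ = n * Real.exp (-(κ * (k + 1 : ℕ) / n)) := by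
                rw [mul_left_comm, ← Real.exp_add]
                congr 2
                push_cast
                ring
        · rw [hsup]
          exact htop
  obtain ⟨y, h1, -, h3⟩ := key (n + 1)
  have := Submodule.finrank_lt h3
  rw [Module.finrank_fin_fun] at this
  omega

theorem order_bound (hA : Act G X c g) (hF : Frame G X c g π A) (hn : 1 ≤ n) (hκ : 1 ≤ κ) :
    ∃ J : ℕ, π.ker.index ≤ (2 * g) ^ J ∧ J ≤ n ∧ (J : ℝ) ≤ 1 + n / κ * Real.log n := by
  classical
  obtain ⟨J, y, h1, h2, h3⟩ := exists_span hA hF hn hκ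
  refine ⟨J, ?_, h1, h2⟩
  have key : ∀ σ : G, (∀ i, σ • y i = y i) → σ ∈ π.ker := by
    intro σ hσ
    rw [MonoidHom.mem_ker]
    have h4 : (⊤ : Submodule ℂ (Fin n → ℂ)) ≤
        LinearMap.eqLocus (π σ).mulVecLin LinearMap.id := by
      rw [← h3]
      refine iSup_le fun i => ?_
      rintro _ ⟨v, rfl⟩
      change (π σ).mulVec ((A (y i)).mulVec v) = (A (y i)).mulVec v
      rw [Matrix.mulVec_mulVec, ← hF.eqv, hσ i]
    have h5 : Matrix.toLin' (π σ) = Matrix.toLin' (1 : Matrix (Fin n) (Fin n) ℂ) := by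
      refine LinearMap.ext fun v => ?_
      rw [Matrix.toLin'_one]
      exact h4 (Submodule.mem_top (x := v))
    exact Matrix.toLin'.injective h5
  let f : G ⧸ π.ker → Fin J → X := fun q i => q.out • y i
  have hf : Function.Injective f := by
    intro q q' h
    have h4 : q.out⁻¹ * q'.out ∈ π.ker := by
      refine key _ fun i => ?_
      have h5 : q.out • y i = q'.out • y i := congrFun h i
      rw [mul_smul, ← h5, inv_smul_smul]
    have h5 := QuotientGroup.eq.2 h4
    rwa [QuotientGroup.out_eq', QuotientGroup.out_eq'] at h5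
  have h4 := Nat.card_le_card_of_injective f hf
  rw [Nat.card_fun, Nat.card_eq_fintype_card (α := X), Nat.card_eq_fintype_card (α := Fin J),
    Fintype.card_fin, hA.card] at h4
  exact h4

end Pool.Agent.Lib.MP_938ce2_ag_u2
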