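import Mathlib
import Pool.Agent.Lib.MP_938ce2_ag_u2.Mult
import Pool.Agent.Lib.MP_938ce2_ag_u2.KerEq
import Pool.Agent.Lib.MP_938ce2_ag_u2.FrameExists
import Pool.Agent.Lib.MP_938ce2_ag_u2.FrameHalf
import Pool.Agent.Lib.MP_938ce2_ag_u2.Order
import Pool.Agent.Lib.MP_938ce2_ag_u2.KerA
import Pool.Agent.Lib.MP_938ce2_ag_u2.KerB

/-!
Row Numbers: the consequences of the frame for a simple odd rational module.
-/

set_option autoImplicit false
set_option linter.unusedSectionVars false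

namespace Pool.Agent.Lib.MP_938ce2_ag_u2

open Finset Module MonoidAlgebra Matrix
open Pool.Agent.Lib.MP_938ce2_ag_h67 (sg VV ev mkV Orb red kerM)
open Pool.Agent.Lib.MP_938ce2_ag_h60 (CMType)

variable {G X : Type} [Group G] [Fintype G] [MulAction G X] [Fintype X] [DecidableEq X] {c : G}
  {g : ℕ} [MulAction.IsPretransitive G X]

theorem numbers (hA : Act G X c g) (M : Submodule (MonoidAlgebra ℚ G) (VV ℚ G X))
    (hs : IsSimpleModule (MonoidAlgebra ℚ G) M) (hodd : OddM c M) (k : ℕ)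
    (hk : dH M = k * dE M) :
    ∃ n κ s : ℕ, 1 ≤ κ ∧ κ ≤ n ∧ n ≤ dM M ∧ 1 ≤ s ∧ κ ≤ k * s ∧ dH M * n ≤ κ * dM M ∧
      (∃ J : ℕ, (kerM M).index ≤ (2 * g) ^ J ∧ J ≤ n ∧ (J : ℝ) ≤ 1 + n / κ * Real.log n) ∧
      ((badC c M).card : ℝ) / 2 ^ g ≤ (9 / 2) * n * κ / (g : ℝ) ^ (1 / 4 : ℝ) ∧
      ∀ t : ℝ, 0 < t → ((badC c M).card : ℝ) / 2 ^ g * (s : ℝ) ^ 2
        ≤ n * κ * t + κ / 4 + 5 * n * κ / (√(g : ℝ) * √t) := by
  classical
  obtain ⟨W, hW, hWM, hratio⟩ := exists_W M hs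
  have hmult := mult_le M hs k hk W hW hWM
  have hWodd : OddM c W := fun v hv x => red_odd (K := ℂ) hodd v (hWM hv) x
  have hntW : Nontrivial W := IsSimpleModule.nontrivial (MonoidAlgebra ℂ G) W
  have hfinV : Module.Finite ℂ (VV ℂ G X) := inferInstance
  have hfinW : Module.Finite ℂ W :=
    Module.Finite.of_injective (W.subtype.restrictScalars ℂ) Subtype.val_injective
  have hfinR : Module.Finite ℂ (red M ℂ) :=
    Module.Finite.of_injective ((red M ℂ).subtype.restrictScalars ℂ) Subtype.val_injective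
  obtain ⟨w₀, hw₀⟩ := exists_ne (0 : W)
  have hfH : Module.Finite ℂ (W →ₗ[MonoidAlgebra ℂ G] VV ℂ G X) :=
    Pool.Agent.Lib.MP_938ce2_ag_h85d.finite_hom
  have hfH2 : Module.Finite ℂ (W →ₗ[MonoidAlgebra ℂ G] red M ℂ) :=
    Pool.Agent.Lib.MP_938ce2_ag_h85d.finite_hom
  have hκ1 : 1 ≤ finrank ℂ (W →ₗ[MonoidAlgebra ℂ G] VV ℂ G X) := by
    have hnt : Nontrivial (W →ₗ[MonoidAlgebra ℂ G] VV ℂ G X) := by
      refine ⟨⟨W.subtype, 0, fun h => hw₀ ?_⟩⟩
      have h1 := congrArg (fun f : W →ₗ[MonoidAlgebra ℂ G] VV ℂ G X => f w₀) h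
      exact Subtype.ext h1
    exact Module.finrank_pos (R := ℂ) (M := W →ₗ[MonoidAlgebra ℂ G] VV ℂ G X)
  have hs1 : 1 ≤ finrank ℂ (W →ₗ[MonoidAlgebra ℂ G] red M ℂ) := by
    have hnt : Nontrivial (W →ₗ[MonoidAlgebra ℂ G] red M ℂ) := by
      refine ⟨⟨Submodule.inclusion hWM, 0, fun h => hw₀ ?_⟩⟩
      have h1 := congrArg (fun f : W →ₗ[MonoidAlgebra ℂ G] red M ℂ => ((f w₀ : red M ℂ) :
        VV ℂ G X)) h
      exact Subtype.ext h1
    exact Module.finrank_pos (R := ℂ) (M := W →ₗ[MonoidAlgebra ℂ G] red M ℂ)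
  obtain ⟨π, A, hF, hker, hkd⟩ := exists_frame hA W hW hWodd
  have hn1 : 1 ≤ finrank ℂ W := Module.finrank_pos
  have hgpos := hA.pos
  have hne : Nonempty X := by
    rw [← Fintype.card_pos_iff, hA.card]
    omega
  obtain ⟨x₀⟩ := hne
  have hκn : finrank ℂ (W →ₗ[MonoidAlgebra ℂ G] VV ℂ G X) ≤ finrank ℂ W := by
    have hinj : Function.Injective (A x₀).mulVecLin := by
      rw [injective_iff_map_eq_zero]
      intro v hv
      have h1 : ((A x₀)ᴴ * A x₀).mulVec v = 0 := by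
        rw [← Matrix.mulVec_mulVec]
        have h2 : (A x₀).mulVec v = 0 := hv
        rw [h2, Matrix.mulVec_zero]
      rw [hF.iso x₀, Matrix.smul_mulVec, Matrix.one_mulVec] at h1
      have hg0 : ((g : ℂ)⁻¹) ≠ 0 := by
        rw [Ne, inv_eq_zero]
        exact_mod_cast (by omega : g ≠ 0)
      exact (smul_eq_zero.mp h1).resolve_left hg0
    have h1 := LinearMap.finrank_le_finrank_of_injective hinj
    simpa using h1
  have hnm : finrank ℂ W ≤ dM M := by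
    refine le_trans ?_ (finrank_redC M).le
    exact LinearMap.finrank_le_finrank_of_injective
      (f := (Submodule.inclusion hWM).restrictScalars ℂ) (Submodule.inclusion_injective hWM)
  have hkerEq : π.ker = kerM M := by
    ext a
    rw [MonoidHom.mem_ker, hker]
    refine ker_W M hs W ?_ hWM a
    intro h
    rw [Submodule.eq_bot_iff] at h
    exact hw₀ (Subtype.ext (h w₀.1 w₀.2))
  obtain ⟨Φ₀, h₀⟩ := exists_cm hA
  have hcard := card_cm hA h₀
  have hF0 := frame_half hA hF hn1 h₀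
  have hbad : ((badC c M).card : ℝ) ≤ ((Finset.univ.filter fun η : Finset {x // x ∈ Φ₀} =>
      finrank ℂ (W →ₗ[MonoidAlgebra ℂ G] red M ℂ)
        ≤ kd (MM (fun x : {x // x ∈ Φ₀} => A x) η)).card : ℝ) := by
    have h1 : (badC c M).card ≤ (Finset.univ.filter fun Φ : Finset X => CMType c Φ ∧
        finrank ℂ (W →ₗ[MonoidAlgebra ℂ G] red M ℂ)
          ≤ kd (∑ x, ((sg Φ x : ℤ) : ℂ) • A x)).card := by
      refine Finset.card_le_card ?_
      intro Φ hΦ
      obtain ⟨hcm, M', hM', hv⟩ := (mem_badC c M Φ).mp hΦ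
      rw [Finset.mem_filter]
      refine ⟨Finset.mem_univ _, hcm, ?_⟩
      obtain ⟨N, hN, hN2⟩ := bad_event M M' hM' (sg Φ) hv W
      exact hN.trans (hkd (sg Φ) N hN2)
    have h2 := card_cm_filter hA h₀ (fun Φ => finrank ℂ (W →ₗ[MonoidAlgebra ℂ G] red M ℂ)
          ≤ kd (∑ x, ((sg Φ x : ℤ) : ℂ) • A x))
    have h3 : (Finset.univ.filter fun Φ : Finset X => CMType c Φ ∧
        finrank ℂ (W →ₗ[MonoidAlgebra ℂ G] red M ℂ)
          ≤ kd (∑ x, ((sg Φ x : ℤ) : ℂ) • A x)).card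
        = (Finset.univ.filter fun η : Finset {x // x ∈ Φ₀} =>
          finrank ℂ (W →ₗ[MonoidAlgebra ℂ G] red M ℂ)
            ≤ kd (MM (fun x : {x // x ∈ Φ₀} => A x) η)).card := by
      refine Eq.trans ?_ (h2.trans ?_)
      · congr!
      congr 1
      ext η
      simp only [Finset.mem_filter, Finset.mem_univ, true_and]
      rw [kd_half hA hF h₀ η]
    rw [h3] at h1
    exact_mod_cast h1
  have hΩ1 : 1 ≤ Fintype.card {x // x ∈ Φ₀} := by rw [hcard]; exact hgpos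
  have hpow : (0 : ℝ) < 2 ^ g := by positivity
  refine ⟨finrank ℂ W, finrank ℂ (W →ₗ[MonoidAlgebra ℂ G] VV ℂ G X),
    finrank ℂ (W →ₗ[MonoidAlgebra ℂ G] red M ℂ), hκ1, hκn, hnm, hs1, hmult, hratio, ?_, ?_, ?_⟩
  · rw [← hkerEq]
    exact order_bound hA hF hn1 hκ1
  · rw [div_le_iff₀ hpow]
    refine hbad.trans ?_
    have h1 := card_ker_pos hF0 hκ1 hκn hΩ1
    rw [hcard] at h1
    refine le_trans ?_ h1
    have h2 : (Finset.univ.filter fun η : Finset {x // x ∈ Φ₀} =>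
        finrank ℂ (W →ₗ[MonoidAlgebra ℂ G] red M ℂ)
          ≤ kd (MM (fun x : {x // x ∈ Φ₀} => A x) η))
        ⊆ (Finset.univ.filter fun η : Finset {x // x ∈ Φ₀} =>
          1 ≤ kd (MM (fun x : {x // x ∈ Φ₀} => A x) η)) := by
      intro η hη
      rw [Finset.mem_filter] at hη ⊢
      exact ⟨hη.1, hs1.trans hη.2⟩
    exact_mod_cast Finset.card_le_card h2
  · intro t ht
    rw [div_mul_eq_mul_div, div_le_iff₀ hpow]
    have h1 := card_ker_ge hF0 hκ1 hκn hΩ1 (finrank ℂ (W →ₗ[MonoidAlgebra ℂ G] red M ℂ)) ht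
    rw [hcard] at h1
    exact (mul_le_mul_of_nonneg_right hbad (by positivity)).trans h1

end Pool.Agent.Lib.MP_938ce2_ag_u2
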