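import Mathlib
import Pool.Agent.Lib.MP_938ce2_ag_h65u.TheoremU
import Pool.Agent.Lib.MP_938ce2_ag_u2.Half

/-!
Row RegA: the count for a group of order prime to `6` acting on `X`, transitive on the pairs (as
h85d `main_U`, without the hypothesis that the group comes from `G`).
-/

set_option autoImplicit false
set_option linter.unusedSectionVars false

namespace Pool.Agent.Lib.MP_938ce2_ag_u2

open Finset Module MonoidAlgebra
open Pool.Agent.Lib.MP_938ce2_ag_h67 (sg VV ev mkV Orb red kerM)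
open Pool.Agent.Lib.MP_938ce2_ag_h60 (CMType Nondeg)
open Pool.Agent.Lib.MP_938ce2_ag_h85d.U (BadU)

/-- the earlier theorem on groups of order prime to `6` -/
theorem badU_holds : ∀ ε : ℝ, 0 < ε → ∃ g₀ : ℕ, BadU ε g₀ := by
  intro ε hε
  obtain ⟨CM, hCM⟩ := Pool.Agent.Lib.MP_938ce2_ag_h85d.U.smallU_holds
    Pool.Agent.Lib.MP_938ce2_ag_h65u.small_types
  obtain ⟨g₀, h⟩ := Pool.Agent.Lib.MP_938ce2_ag_h85d.U.numericU_holds CM ε hε
  exact ⟨g₀, Pool.Agent.Lib.MP_938ce2_ag_h85d.U.bad_of h hCM⟩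

theorem RegA_sum {G X : Type} [Group G] [MulAction G X] [Fintype X] [DecidableEq X] {c : G}
    (Φ : Finset X) (F : X → ℤ)
    (hF : ∀ x, F (c • x) = - F x) : ∑ x, sg Φ x * F x = 2 * ∑ x ∈ Φ, F x := by
  have h0 : ∑ x, F x = 0 := by
    have h1 : ∑ x, F (c • x) = ∑ x, F x := Equiv.sum_comp (MulAction.toPerm c) F
    simp only [hF, Finset.sum_neg_distrib] at h1
    omega
  have h1 : ∀ x, sg Φ x * F x = 2 * (if x ∈ Φ then F x else 0) - F x := by
    intro x
    unfold sg
    split_ifs <;> ring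
  simp only [h1, Finset.sum_sub_distrib, h0, sub_zero, ← Finset.mul_sum, Finset.sum_ite_mem,
    Finset.univ_inter]

theorem main_P {ε : ℝ} {g₀ : ℕ} (hB : BadU ε g₀) (G X : Type) [Group G] [MulAction G X]
    [Fintype X] [DecidableEq X] (c : G) (g : ℕ) (hA : Act G X c g) (hgg : g₀ ≤ g)
    (P : Type) [Group P] [Finite P] [MulAction P X]
    (hPc : ∀ (σ : P) (x : X), σ • c • x = c • σ • x) (hcop : (Nat.card P).Coprime 6)
    (htr : ∀ x y : X, ∃ σ : P, σ • x = y ∨ σ • x = c • y) :
    (Nat.card {Φ : Finset X // CMType c Φ ∧ ∃ f : X → ℤ, f ≠ 0 ∧ (∀ x, f (c • x) = - f x) ∧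
      ∀ σ : P, ∑ x, sg Φ x * f (σ • x) = 0} : ℝ) ≤ ε * 2 ^ g := by
  classical
  have hc2 : c * c = 1 := hA.sq
  have hcx : ∀ x : X, c • x ≠ x := hA.free
  have hX : Fintype.card X = 2 * g := hA.card
  have hg : 1 ≤ g := hA.pos
  have hne : Nonempty X := by
    rw [← Fintype.card_pos_iff]
    omega
  obtain ⟨x0⟩ := hne
  have hodd : Odd (Nat.card P) := by
    have h2 : (Nat.card P).Coprime 2 := Nat.Coprime.coprime_dvd_right (by norm_num) hcop
    exact Nat.coprime_two_right.mp h2
  set O : Set X := MulAction.orbit P x0 with hO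
  have hO2 : ∀ x, x ∈ O ∨ c • x ∈ O := by
    intro x
    obtain ⟨σ, h | h⟩ := htr x0 x
    · exact Or.inl ⟨σ, h⟩
    · exact Or.inr ⟨σ, h⟩
  have hO1 : ∀ x ∈ O, c • x ∉ O := by
    rintro x ⟨a, ha⟩ ⟨b, hb⟩
    have ha' : a • x0 = x := ha
    have hb' : b • x0 = c • x := hb
    refine Pool.Agent.Lib.MP_938ce2_ag_h85d.U.ne_conj' c hc2 hcx P hodd hPc (b * a⁻¹) x ?_
    rw [mul_smul, ← ha', inv_smul_smul, hb', ← ha']
  have hFO : Fintype O := Fintype.ofFinite _
  have hcardO : Fintype.card O = g := by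
    have h1 : Fintype.card O + Fintype.card O = Fintype.card X := by
      rw [← Fintype.card_sum]
      refine Fintype.card_congr
        { toFun := fun s => Sum.elim (fun x : O => (x : X)) (fun x : O => c • (x : X)) s
          invFun := fun x => if h : x ∈ O then Sum.inl ⟨x, h⟩ else
            Sum.inr ⟨c • x, (hO2 x).resolve_left h⟩
          left_inv := ?_
          right_inv := ?_ }
      · rintro (x | x)
        · simp
        · have hx : c • (x : X) ∉ O := hO1 x x.2
          change (if h : c • (x : X) ∈ O then (Sum.inl ⟨c • (x : X), h⟩ : O ⊕ O) else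
            Sum.inr ⟨c • c • (x : X), (hO2 _).resolve_left h⟩) = Sum.inr x
          rw [dif_neg hx]
          congr 1
          apply Subtype.ext
          change c • c • (x : X) = x
          rw [← mul_smul, hc2, one_smul]
      · intro x
        by_cases h : x ∈ O
        · simp [h]
        · simp only [h, dif_neg, not_false_iff, Sum.elim_inr]
          rw [← mul_smul, hc2, one_smul]
    omega
  have hFP : Fintype P := Fintype.ofFinite _
  have hcopF : (Fintype.card P).Coprime 6 := by
    rw [← Nat.card_eq_fintype_card]; exact hcop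
  have hbc := hB P O hcopF (by rw [hcardO]; exact hgg) (by rw [hcardO]; exact hg)
  rw [hcardO] at hbc
  refine le_trans ?_ hbc
  have hinj : Function.Injective (fun Φ : {Φ : Finset X // CMType c Φ ∧ ∃ f : X → ℤ, f ≠ 0 ∧
        (∀ x, f (c • x) = - f x) ∧ ∀ σ : P, ∑ x, sg Φ x * f (σ • x) = 0} =>
      (⟨univ.filter fun ω : O => (ω : X) ∈ Φ.1, by
        obtain ⟨h, h0', hodd', hsum⟩ := Φ.2.2
        refine ⟨fun ω => h ω, ?_, fun σ => ?_⟩
        · intro h0
          have hz : ∀ ω : O, h ω = 0 := fun ω => congrFun h0 ω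
          refine h0' (funext fun x1 => ?_)
          change h x1 = 0
          rcases hO2 x1 with hx | hx
          · exact hz ⟨x1, hx⟩
          · have := hz ⟨c • x1, hx⟩
            change h (c • x1) = 0 at this
            rw [hodd'] at this
            omega
        · have h1 := Pool.Agent.Lib.MP_938ce2_ag_h85d.sum_type_orbit c hc2 O hO1 hO2 Φ.2.1
            (fun x => h (σ • x)) (fun x => by rw [hPc, hodd'])
          have h2 := RegA_sum Φ.1 (fun x => h (σ • x)) (fun x => by rw [hPc, hodd'])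
          have h3 : ∑ x, sg Φ.1 x * h (σ • x) = 0 := hsum σ
          rw [h3] at h2
          have h4 : ∑ x ∈ Φ.1, h (σ • x) = 0 := by
            have h5 : (0 : ℤ) = 2 * ∑ x ∈ Φ.1, h (σ • x) := h2
            omega
          refine Eq.trans ?_ (h1.symm.trans h4)
          refine Finset.sum_congr rfl fun x _ => ?_
          change _ * h (σ • (x : X)) = _
          congr! 1
          unfold sg
          congr! 1
          simp only [Finset.mem_filter]⟩ :
        {η : Finset O // ∃ f : O → ℤ, f ≠ 0 ∧ ∀ σ : P, ∑ x, sg η x * f (σ • x) = 0})) := by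
    intro Φ Ψ h
    apply Subtype.ext
    have h1 : (univ.filter fun ω : O => (ω : X) ∈ Φ.1) = univ.filter fun ω : O => (ω : X) ∈ Ψ.1 :=
      congrArg Subtype.val h
    have h2 : ∀ ω : O, (ω : X) ∈ Φ.1 ↔ (ω : X) ∈ Ψ.1 := by
      intro ω
      have := Finset.ext_iff.mp h1 ω
      simpa using this
    ext x
    rcases hO2 x with hx | hx
    · exact h2 ⟨x, hx⟩
    · rw [Φ.2.1 x, Ψ.2.1 x]
      exact not_congr (h2 ⟨c • x, hx⟩)
  exact_mod_cast Nat.card_le_card_of_injective _ hinj

end Pool.Agent.Lib.MP_938ce2_ag_u2
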