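import Mathlib
import Pool.Agent.Lib.MP_938ce2_ag_h85d.MainU
import Pool.Agent.Lib.MP_938ce2_ag_u2.Defs

/-!
Row RegB: a group of order `g` acting on `X`, with the same translates of the functions invariant
under the point stabilizers.
-/

set_option autoImplicit false
set_option linter.unusedSectionVars false

namespace Pool.Agent.Lib.MP_938ce2_ag_u2

open Finset Module MonoidAlgebra
open Pool.Agent.Lib.MP_938ce2_ag_h67 (sg VV ev mkV Orb red kerM)
open Pool.Agent.Lib.MP_938ce2_ag_h60 (CMType Nondeg)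

namespace RegBAux

/-- the subgroup generated by the point stabilizers is normal -/
lemma normal_clos (G X : Type) [Group G] [MulAction G X] :
    (Subgroup.closure {τ : G | ∃ y : X, τ • y = y}).Normal := by
  refine ⟨fun n hn γ => ?_⟩
  induction hn using Subgroup.closure_induction with
  | mem τ hτ =>
    obtain ⟨z, hz⟩ := hτ
    refine Subgroup.subset_closure ⟨γ • z, ?_⟩
    rw [mul_smul, mul_smul, inv_smul_smul, hz]
  | one => rw [mul_one, mul_inv_cancel]; exact one_mem _
  | mul a b _ _ h1 h2 =>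
    have : γ * (a * b) * γ⁻¹ = (γ * a * γ⁻¹) * (γ * b * γ⁻¹) := by group
    rw [this]
    exact mul_mem h1 h2
  | inv a _ h1 =>
    have : γ * a⁻¹ * γ⁻¹ = (γ * a * γ⁻¹)⁻¹ := by group
    rw [this]
    exact inv_mem h1

/-- functions invariant under the stabilizers -/
lemma inv_clos {G X : Type} [Group G] [MulAction G X] {f : X → ℤ}
    (hf : ∀ (τ : G) (x y : X), τ • x = x → f (τ • y) = f y) :
    ∀ a ∈ Subgroup.closure {τ : G | ∃ y : X, τ • y = y}, ∀ y, f (a • y) = f y := by
  intro a ha
  induction ha using Subgroup.closure_induction with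
  | mem τ hτ =>
    obtain ⟨z, hz⟩ := hτ
    exact fun y => hf τ z y hz
  | one => intro y; rw [one_smul]
  | mul a b _ _ h1 h2 => intro y; rw [mul_smul, h1, h2]
  | inv a _ h1 =>
    intro y
    rw [← h1 (a⁻¹ • y), smul_inv_smul]

/-- the equivariant map to the quotient by the subgroup generated by the stabilizers -/
lemma exists_proj (G X : Type) [Group G] [MulAction G X] [MulAction.IsPretransitive G X]
    (N : Subgroup G) (hN : N.Normal) (hst : ∀ (τ : G) (y : X), τ • y = y → τ ∈ N) (x0 : X) :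
    ∃ π : X → G ⧸ N, (∀ (a : G) (x : X), π (a • x) = (a : G ⧸ N) * π x) ∧ π x0 = 1 ∧
      ∀ x y : X, π x = π y → ∃ n ∈ N, n • x = y := by
  have key : ∀ a b : G, a • x0 = b • x0 → (a : G ⧸ N) = b := by
    intro a b h
    rw [QuotientGroup.eq]
    apply hst _ x0
    rw [mul_smul, ← h, inv_smul_smul]
  choose s hs using fun x : X => MulAction.exists_smul_eq G x0 x
  have hπ : ∀ (a : G) (x : X), ((s (a • x) : G) : G ⧸ N) = (a : G ⧸ N) * (s x : G ⧸ N) := by
    intro a x
    rw [← QuotientGroup.mk_mul]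
    apply key
    rw [hs, mul_smul, hs]
  refine ⟨fun x => (s x : G ⧸ N), hπ, ?_, ?_⟩
  · have := key (s x0) 1 (by rw [hs, one_smul])
    exact this.trans (QuotientGroup.mk_one N)
  · intro x y h
    refine ⟨s y * (s x)⁻¹, ?_, ?_⟩
    · have h1 : (s x)⁻¹ * s y ∈ N := QuotientGroup.eq.1 h
      have h2 := hN.conj_mem _ h1 (s x)
      have e : s x * ((s x)⁻¹ * s y) * (s x)⁻¹ = s y * (s x)⁻¹ := by group
      rwa [e] at h2
    · rw [mul_smul]
      nth_rewrite 2 [← hs x]
      rw [inv_smul_smul, hs]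

end RegBAux

open RegBAux

theorem exists_P (G X : Type) [Group G] [Fintype G] [MulAction G X] [Fintype X] [DecidableEq X]
    [MulAction.IsPretransitive G X] (c : G) (g : ℕ) (hA : Act G X c g) (hg : g.Coprime 6)
    (hfree : ∀ x : X, ∀ a ∈ Subgroup.closure {τ : G | ∃ y : X, τ • y = y}, a • x ≠ c • x) :
    ∃ (P : Type) (_ : Group P) (_ : Finite P) (_ : MulAction P X),
      (∀ (σ : P) (x : X), σ • c • x = c • σ • x) ∧ (Nat.card P).Coprime 6 ∧
      (∀ x y : X, ∃ σ : P, σ • x = y ∨ σ • x = c • y) ∧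
      ∀ σ : P, ∃ a : G, ∀ f : X → ℤ, (∀ (τ : G) (x y : X), τ • x = x → f (τ • y) = f y) →
        ∀ x, f (σ • x) = f (a • x) := by
  classical
  have hne : Nonempty X := by
    rw [← Fintype.card_pos_iff, hA.card]
    have := hA.pos
    omega
  obtain ⟨x0⟩ := hne
  set N : Subgroup G := Subgroup.closure {τ : G | ∃ y : X, τ • y = y} with hNdef
  have hN : N.Normal := normal_clos G X
  obtain ⟨π, hπ, hπ0, hπi⟩ := exists_proj G X N hN
    (fun τ y h => Subgroup.subset_closure ⟨y, h⟩) x0
  -- the image of `c`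
  set cb : G ⧸ N := (c : G ⧸ N) with hcb
  have hcbc : ∀ q : G ⧸ N, cb * q = q * cb := by
    intro q
    induction q using QuotientGroup.induction_on with
    | H z => rw [hcb, ← QuotientGroup.mk_mul, hA.comm, QuotientGroup.mk_mul]
  have hcb2 : cb * cb = 1 := by rw [hcb, ← QuotientGroup.mk_mul, hA.sq, QuotientGroup.mk_one]
  have hcb1 : cb ≠ 1 := by
    intro h
    have : c ∈ N := (QuotientGroup.eq_one_iff c).1 h
    exact hfree x0 c this rfl
  have hord : orderOf cb = 2 := by
    have : Fact (Nat.Prime 2) := ⟨Nat.prime_two⟩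
    exact orderOf_eq_prime (by rw [pow_two, hcb2]) hcb1
  -- representatives
  let o : G ⧸ N → G := fun q => Quotient.out q
  have ho : ∀ q : G ⧸ N, ((o q : G) : G ⧸ N) = q := fun q => QuotientGroup.out_eq' q
  -- the fibre
  let F : Type := {x : X // π x = 1}
  let r : ℕ := Fintype.card F
  have hr : 0 < r := Fintype.card_pos_iff.2 ⟨⟨x0, hπ0⟩⟩
  have : NeZero r := ⟨hr.ne'⟩
  have hcard : Fintype.card X = Nat.card (G ⧸ N) * r := by
    have e0 : X ≃ (G ⧸ N) × F :=
      { toFun := fun x => (π x, ⟨(o (π x))⁻¹ • x, by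
          rw [hπ, QuotientGroup.mk_inv, ho, inv_mul_cancel]⟩)
        invFun := fun t => o t.1 • t.2.1
        left_inv := fun x => by simp
        right_inv := fun t => by
          have h1 : π (o t.1 • t.2.1) = t.1 := by rw [hπ, ho, t.2.2, mul_one]
          ext
          · exact h1
          · simp only [h1, inv_smul_smul] }
    rw [Fintype.card_congr e0, Fintype.card_prod, Nat.card_eq_fintype_card]
  have h2 : 2 ∣ Nat.card (G ⧸ N) := hord ▸ orderOf_dvd_natCard cb
  obtain ⟨g', hg'⟩ := h2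
  have hgr : g = g' * r := by
    have := hA.card
    rw [hcard, hg'] at this
    have h3 : 2 * (g' * r) = 2 * g := by rw [← this]; ring
    omega
  have hg1 : 1 ≤ g' := by
    rcases Nat.eq_zero_or_pos g' with h | h
    · exfalso
      have := hA.pos
      rw [hgr, h, zero_mul] at this
      omega
    · exact h
  have hg6 : g'.Coprime 6 := Nat.Coprime.coprime_dvd_left ⟨r, hgr⟩ hg
  have hr6 : r.Coprime 6 := Nat.Coprime.coprime_dvd_left ⟨g', by rw [hgr, mul_comm]⟩ hg
  obtain ⟨P0, hP6, hP⟩ := Pool.Agent.Lib.MP_938ce2_ag_h85d.U.exists_complement (Γ := G ⧸ N)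
    (X := G ⧸ N) (fun x y => ⟨y * x⁻¹, by simp⟩) cb hcbc hcb2
    (fun x h => hcb1 (mul_eq_right.1 (show cb * x = x from h))) g' hg' hg' hg6 hg1
  have hcP : cb ∉ P0 := by
    intro h
    have h3 : orderOf (⟨cb, h⟩ : P0) = 2 := by rw [← hord]; exact Subgroup.orderOf_mk _ _
    have h4 : 2 ∣ Nat.card P0 := h3 ▸ orderOf_dvd_natCard (⟨cb, h⟩ : P0)
    have h5 : 2 ∣ Nat.gcd (Nat.card P0) 6 := Nat.dvd_gcd h4 (by norm_num)
    rw [hP6] at h5
    omega
  let e : ZMod r ≃ F := Fintype.equivOfCardEq (by rw [ZMod.card])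
  -- the coordinates
  let D : Bool × P0 × ZMod r → X := fun t =>
    (if t.1 then c else 1) • o (t.2.1 : G ⧸ N) • (e t.2.2).1
  have hDc : ∀ (ε : Bool) (p : P0) (i : ZMod r), D (!ε, p, i) = c • D (ε, p, i) := by
    intro ε p i
    cases ε
    · simp only [D, Bool.not_false, if_true, Bool.false_eq_true, if_false, one_smul]
    · simp only [D, Bool.not_true, if_true, Bool.false_eq_true, if_false, one_smul]
      rw [← mul_smul c c, hA.sq, one_smul]
  have hπD : ∀ (ε : Bool) (p : P0) (i : ZMod r), π (D (ε, p, i)) =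
      (if ε then cb else 1) * (p : G ⧸ N) := by
    intro ε p i
    simp only [D]
    rw [hπ, hπ, ho, (e i).2, mul_one]
    cases ε
    · simp
    · simp [hcb]
  have hDi : Function.Injective D := by
    rintro ⟨ε, p, i⟩ ⟨ε', p', i'⟩ h
    have h1 : (if ε then cb else 1) * (p : G ⧸ N) = (if ε' then cb else 1) * (p' : G ⧸ N) := by
      rw [← hπD, ← hπD, h]
    have h3 : ε = ε' := by
      by_contra hne
      cases ε <;> cases ε' <;> simp at hne h1
      · apply hcP
        have : cb = (p : G ⧸ N) * (p' : G ⧸ N)⁻¹ := by rw [h1]; group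
        rw [this]
        exact mul_mem p.2 (inv_mem p'.2)
      · apply hcP
        have : cb = (p' : G ⧸ N) * (p : G ⧸ N)⁻¹ := by rw [← h1]; group
        rw [this]
        exact mul_mem p'.2 (inv_mem p.2)
    subst h3
    have h4 : p = p' := Subtype.ext (mul_left_cancel h1)
    subst h4
    have h5 : (e i).1 = (e i').1 := by
      simp only [D] at h
      exact MulAction.injective _ (MulAction.injective _ h)
    have h6 : i = i' := e.injective (Subtype.ext h5)
    rw [h6]
  have hDs : Function.Surjective D := by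
    -- first the points over `P0`
    have hs1 : ∀ x : X, π x ∈ P0 → ∃ t, D t = x := by
      intro x hx
      have hy : π ((o (π x))⁻¹ • x) = 1 := by rw [hπ, QuotientGroup.mk_inv, ho, inv_mul_cancel]
      refine ⟨(false, ⟨π x, hx⟩, e.symm ⟨(o (π x))⁻¹ • x, hy⟩), ?_⟩
      simp only [D, Bool.false_eq_true, if_false, one_smul, Equiv.apply_symm_apply, smul_inv_smul]
    intro x
    obtain ⟨σ, hσ, h | h⟩ := hP 1 (π x)
    · apply hs1
      rw [← h, smul_eq_mul, mul_one]
      exact hσ
    · have hx : π (c • x) ∈ P0 := by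
        rw [hπ]
        rw [smul_eq_mul, mul_one, smul_eq_mul] at h
        rw [← h]
        exact hσ
      obtain ⟨⟨ε, p, i⟩, ht⟩ := hs1 _ hx
      refine ⟨(!ε, p, i), ?_⟩
      rw [hDc, ht, ← mul_smul, hA.sq, one_smul]
  let E : Bool × P0 × ZMod r ≃ X := Equiv.ofBijective D ⟨hDi, hDs⟩
  have hE : ∀ t, E t = D t := fun t => rfl
  let act : MulAction (P0 × Multiplicative (ZMod r)) X :=
    { smul := fun σ x => E ((E.symm x).1, σ.1 * (E.symm x).2.1,
        Multiplicative.toAdd σ.2 + (E.symm x).2.2)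
      one_smul := fun x => by
        change E ((E.symm x).1, (1 : P0) * (E.symm x).2.1,
          Multiplicative.toAdd (1 : Multiplicative (ZMod r)) + (E.symm x).2.2) = x
        rw [one_mul, toAdd_one, zero_add]
        exact E.apply_symm_apply x
      mul_smul := fun σ τ x => by
        change E ((E.symm x).1, (σ.1 * τ.1) * (E.symm x).2.1,
          Multiplicative.toAdd (σ.2 * τ.2) + (E.symm x).2.2) =
          E ((E.symm (E ((E.symm x).1, τ.1 * (E.symm x).2.1,
            Multiplicative.toAdd τ.2 + (E.symm x).2.2))).1,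
            σ.1 * (E.symm (E ((E.symm x).1, τ.1 * (E.symm x).2.1,
            Multiplicative.toAdd τ.2 + (E.symm x).2.2))).2.1,
            Multiplicative.toAdd σ.2 + (E.symm (E ((E.symm x).1, τ.1 * (E.symm x).2.1,
            Multiplicative.toAdd τ.2 + (E.symm x).2.2))).2.2)
        rw [E.symm_apply_apply, toAdd_mul, mul_assoc, add_assoc] }
  have hact : ∀ (σ : P0 × Multiplicative (ZMod r)) (ε : Bool) (p : P0) (i : ZMod r),
      act.smul σ (D (ε, p, i)) = D (ε, σ.1 * p, Multiplicative.toAdd σ.2 + i) := by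
    intro σ ε p i
    change E ((E.symm (E (ε, p, i))).1, σ.1 * (E.symm (E (ε, p, i))).2.1,
        Multiplicative.toAdd σ.2 + (E.symm (E (ε, p, i))).2.2) = _
    rw [E.symm_apply_apply]
    rfl
  refine ⟨P0 × Multiplicative (ZMod r), inferInstance, inferInstance, act, ?_, ?_, ?_, ?_⟩
  · intro σ x
    obtain ⟨⟨ε, p, i⟩, rfl⟩ := hDs x
    change act.smul σ (c • D (ε, p, i)) = c • act.smul σ (D (ε, p, i))
    rw [← hDc, hact, hact, hDc]
  · rw [Nat.card_prod]
    have h7 : Nat.card (Multiplicative (ZMod r)) = r := by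
      rw [Nat.card_congr Multiplicative.toAdd, Nat.card_zmod]
    rw [h7]
    exact Nat.Coprime.mul_left hP6 hr6
  · intro x y
    obtain ⟨⟨ε, p, i⟩, rfl⟩ := hDs x
    obtain ⟨⟨ε', p', i'⟩, rfl⟩ := hDs y
    refine ⟨(p' * p⁻¹, Multiplicative.ofAdd (i' - i)), ?_⟩
    change act.smul _ (D (ε, p, i)) = _ ∨ act.smul _ (D (ε, p, i)) = _
    rw [hact]
    simp only [inv_mul_cancel_right, toAdd_ofAdd, sub_add_cancel]
    by_cases hε : ε = ε'
    · left
      rw [hε]
    · right
      have : ε = !ε' := by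
        cases ε <;> cases ε' <;> simp at hε ⊢
      rw [this, hDc]
  · intro σ
    refine ⟨o (σ.1 : G ⧸ N), fun f hf x => ?_⟩
    obtain ⟨⟨ε, p, i⟩, rfl⟩ := hDs x
    change f (act.smul σ (D (ε, p, i))) = _
    rw [hact]
    have h8 : π (o (σ.1 : G ⧸ N) • D (ε, p, i)) =
        π (D (ε, σ.1 * p, Multiplicative.toAdd σ.2 + i)) := by
      rw [hπ, hπD, hπD, ho]
      cases ε
      · simp
      · simp only [if_true, Subgroup.coe_mul]
        rw [← mul_assoc, ← hcbc, mul_assoc]
    obtain ⟨n, hn, h9⟩ := hπi _ _ h8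
    rw [← h9]
    exact inv_clos hf n hn _

end Pool.Agent.Lib.MP_938ce2_ag_u2
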