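import Mathlib
import Pool.Agent.Lib.MP_938ce2_ag_u2.RegA
import Pool.Agent.Lib.MP_938ce2_ag_u2.RegB

/-!
Row Regular: the CM types which are degenerate on the regular part.
-/

set_option autoImplicit false
set_option linter.unusedSectionVars false

namespace Pool.Agent.Lib.MP_938ce2_ag_u2

open Finset Module MonoidAlgebra
open Pool.Agent.Lib.MP_938ce2_ag_h67 (sg VV ev mkV Orb red kerM)
open Pool.Agent.Lib.MP_938ce2_ag_h60 (CMType Nondeg)
open Pool.Agent.Lib.MP_938ce2_ag_h85d.U (BadU)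

theorem regular_step {ε : ℝ} {g₀ : ℕ} (hB : BadU ε g₀) (G X : Type) [Group G] [Fintype G]
    [MulAction G X] [Fintype X] [DecidableEq X] [MulAction.IsPretransitive G X] (c : G) (g : ℕ)
    (hA : Act G X c g) (hg : g.Coprime 6) (hgg : g₀ ≤ g) (hε : 0 ≤ ε) :
    (Nat.card {Φ : Finset X // CMType c Φ ∧ ∃ f : X → ℤ, f ≠ 0 ∧ (∀ x, f (c • x) = - f x) ∧
      (∀ (τ : G) (x y : X), τ • x = x → f (τ • y) = f y) ∧
      ∀ a : G, ∑ x, sg Φ x * f (a • x) = 0} : ℝ) ≤ ε * 2 ^ g := by
  by_cases hfree : ∀ x : X, ∀ a ∈ Subgroup.closure {τ : G | ∃ y : X, τ • y = y}, a • x ≠ c • x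
  · obtain ⟨P, _, _, _, h1, h2, h3, h4⟩ := exists_P G X c g hA hg hfree
    refine le_trans ?_ (main_P hB G X c g hA hgg P h1 h2 h3)
    have hinj : Function.Injective (fun Φ : {Φ : Finset X // CMType c Φ ∧ ∃ f : X → ℤ, f ≠ 0 ∧
        (∀ x, f (c • x) = - f x) ∧ (∀ (τ : G) (x y : X), τ • x = x → f (τ • y) = f y) ∧
        ∀ a : G, ∑ x, sg Φ x * f (a • x) = 0} =>
        (⟨Φ.1, Φ.2.1, by
          obtain ⟨f, hf, hf1, hf2, hf3⟩ := Φ.2.2
          refine ⟨f, hf, hf1, fun σ => ?_⟩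
          obtain ⟨a, ha⟩ := h4 σ
          exact Eq.trans (Finset.sum_congr rfl fun x _ => by rw [ha f hf2]) (hf3 a)⟩ :
        {Φ : Finset X // CMType c Φ ∧ ∃ f : X → ℤ, f ≠ 0 ∧ (∀ x, f (c • x) = - f x) ∧
          ∀ σ : P, ∑ x, sg Φ x * f (σ • x) = 0})) := by
      intro Φ Ψ h
      have h' := Subtype.ext_iff.mp h
      exact Subtype.ext h'
    exact_mod_cast Nat.card_le_card_of_injective _ hinj
  · have hem : IsEmpty {Φ : Finset X // CMType c Φ ∧ ∃ f : X → ℤ, f ≠ 0 ∧
        (∀ x, f (c • x) = - f x) ∧ (∀ (τ : G) (x y : X), τ • x = x → f (τ • y) = f y) ∧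
        ∀ a : G, ∑ x, sg Φ x * f (a • x) = 0} := by
      refine ⟨fun Φ => ?_⟩
      obtain ⟨f, hf, hf1, hf2, -⟩ := Φ.2.2
      push Not at hfree
      obtain ⟨x, a, ha, hax⟩ := hfree
      have hinv : ∀ a ∈ Subgroup.closure {τ : G | ∃ y : X, τ • y = y}, ∀ y, f (a • y) = f y := by
        intro a ha
        induction ha using Subgroup.closure_induction with
        | mem τ hτ =>
          obtain ⟨z, hz⟩ := hτ
          exact fun y => hf2 τ z y hz
        | one => intro y; rw [one_smul]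
        | mul a b _ _ h1 h2 => intro y; rw [mul_smul, h1, h2]
        | inv a _ h1 =>
          intro y
          rw [← h1 (a⁻¹ • y), smul_inv_smul]
      apply hf
      funext y
      obtain ⟨σ, rfl⟩ := MulAction.exists_smul_eq G x y
      have hn : σ * a * σ⁻¹ ∈ Subgroup.closure {τ : G | ∃ y : X, τ • y = y} := by
        have hnor : (Subgroup.closure {τ : G | ∃ y : X, τ • y = y}).Normal := by
          refine ⟨fun n hn γ => ?_⟩
          induction hn using Subgroup.closure_induction with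
          | mem τ hτ =>
            obtain ⟨z, hz⟩ := hτ
            refine Subgroup.subset_closure ⟨γ • z, ?_⟩
            rw [mul_smul, mul_smul, inv_smul_smul, hz]
          | one => rw [mul_one, mul_inv_cancel]; exact one_mem _
          | mul a b _ _ h1 h2 =>
            have : γ * (a * b) * γ⁻¹ = (γ * a * γ⁻¹) * (γ * b * γ⁻¹) := by group
            rw [this]
            exact mul_mem h1 h2
          | inv a _ h1 =>
            have : γ * a⁻¹ * γ⁻¹ = (γ * a * γ⁻¹)⁻¹ := by group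
            rw [this]
            exact inv_mem h1
        exact hnor.conj_mem a ha σ
      have h1 := hinv _ hn (σ • x)
      rw [mul_smul, mul_smul, inv_smul_smul, hax, ← mul_smul, ← hA.comm, mul_smul, hf1] at h1
      have : f (σ • x) = 0 := by omega
      exact this
    rw [Nat.card_of_isEmpty]
    push_cast
    positivity

theorem regular_count : ∀ ε : ℝ, 0 < ε → ∃ g₀ : ℕ, ∀ (G X : Type) [Group G] [Fintype G]
    [MulAction G X] [Fintype X] [DecidableEq X] [MulAction.IsPretransitive G X] (c : G) (g : ℕ),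
    Act G X c g → g.Coprime 6 → g₀ ≤ g →
    (Nat.card {Φ : Finset X // CMType c Φ ∧ ∃ f : X → ℤ, f ≠ 0 ∧ (∀ x, f (c • x) = - f x) ∧
      (∀ (τ : G) (x y : X), τ • x = x → f (τ • y) = f y) ∧
      ∀ a : G, ∑ x, sg Φ x * f (a • x) = 0} : ℝ) ≤ ε * 2 ^ g := by
  intro ε hε
  obtain ⟨g₀, hB⟩ := badU_holds ε hε
  exact ⟨g₀, fun G X _ _ _ _ _ _ c g hA hg hgg => regular_step hB G X c g hA hg hgg hε.le⟩

end Pool.Agent.Lib.MP_938ce2_ag_u2
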