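import Mathlib
import Pool.Agent.Lib.MP_938ce2_ag_u2.NumSum
import Pool.Agent.Lib.MP_938ce2_ag_u2.Numbers
import Pool.Agent.Lib.MP_938ce2_ag_u2.ThreeC
import Pool.Agent.Lib.MP_938ce2_ag_u2.TypeC
import Pool.Agent.Lib.MP_938ce2_ag_u2.Deg
import Pool.Agent.Lib.MP_938ce2_ag_u2.Regular

/-!
The count for `G`-sets.
-/

set_option autoImplicit false
set_option linter.unusedSectionVars false

namespace Pool.Agent.Lib.MP_938ce2_ag_u2

open Finset Module MonoidAlgebra
open Pool.Agent.Lib.MP_938ce2_ag_h67 (sg VV ev mkV Orb red kerM)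
open Pool.Agent.Lib.MP_938ce2_ag_h60 (CMType Nondeg GeneratedByDivisors
  generatedByDivisors_of_nondeg)
open Pool.Agent.Lib.MP_938ce2_ag_h85d (isotypic_numbers finrank_hom_le finite_hom)

section

variable {G X : Type} [Group G] [Fintype G] [MulAction G X] [Fintype X] [DecidableEq X] {c : G}
  {g : ℕ} [MulAction.IsPretransitive G X]

/-- in the second case no simple odd module is trivial on the point stabilizers -/
theorem not_regular (hA : Act G X c g) (M : Submodule (MonoidAlgebra ℚ G) (VV ℚ G X))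
    (hodd : OddM c M) (hm : 0 < dM M) (h2 : Cond2 G X c) : dH M ≠ dM M := by
  intro heq
  have h3 := h2 (kerM M) inferInstance (fun x k hk => c_free hA M hodd hm x k hk)
    (fun σ hσ => mem_kerM_of_orb M σ hσ)
  rw [index_eq hA M hm heq] at h3
  omega

/-- the data of a simple odd module -/
theorem exists_data (hA : Act G X c g) (hcond : g.Coprime 6 ∨ Cond2 G X c)
    (M : Submodule (MonoidAlgebra ℚ G) (VV ℚ G X))
    (hs : IsSimpleModule (MonoidAlgebra ℚ G) M) (hodd : OddM c M) (k : ℕ) (hk1 : 1 ≤ k)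
    (hk : dH M = k * dE M) (hlt : dH M < dM M) :
    ∃ n κ s : ℕ, Data g (dM M) k (dE M) (dH M) (kerM M).index n κ s
      (((badC c M).card : ℝ) / 2 ^ g) := by
  have hntM : Nontrivial M := IsSimpleModule.nontrivial (MonoidAlgebra ℚ G) M
  have hfin : Module.Finite ℚ M := Module.Finite.of_injective (M.subtype.restrictScalars ℚ)
    Subtype.val_injective
  have hfe : Module.Finite ℚ (M →ₗ[MonoidAlgebra ℚ G] M) := finite_hom
  have hm : 0 < dM M := Module.finrank_pos
  have hd : 0 < dE M := by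
    have : Nontrivial (M →ₗ[MonoidAlgebra ℚ G] M) := by
      obtain ⟨x, hx⟩ := exists_ne (0 : M)
      exact ⟨⟨LinearMap.id, 0, fun h => hx
        (congrArg (fun f : M →ₗ[MonoidAlgebra ℚ G] M => f x) h)⟩⟩
    exact Module.finrank_pos (R := ℚ) (M := M →ₗ[MonoidAlgebra ℚ G] M)
  have hH : 0 < dH M := by
    rw [hk]
    exact Nat.mul_pos hk1 hd
  obtain ⟨n, κ, s, h1, h2, h3, h4, h5, h6, h7, h8, h9⟩ := numbers hA M hs hodd k hk
  refine ⟨n, κ, s, ⟨hk1, hd, hk, hlt, three_le hA M hs hodd hH hlt hcond, ?_, ?_, ?_, h7, h1, h2,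
    h3, h4, h5, h6, h8, h9⟩⟩
  · have hg := hA.pos
    obtain ⟨q, hq, hq1, hq2⟩ := Nat.exists_prime_lt_and_le_two_mul (2 * g) (by omega)
    refine (bad_le_big hA M hodd hm q hq hq1).trans ?_
    apply div_le_div_of_nonneg_right _ (by positivity)
    apply pow_le_pow_left₀ (Nat.cast_nonneg _)
    have : ((q : ℕ) : ℝ) ≤ ((2 * (2 * g) : ℕ) : ℝ) := by exact_mod_cast hq2
    refine this.trans (le_of_eq ?_)
    push_cast
    ring
  · intro q hq hq2 hqo
    exact bad_le_odd hA M hodd hm hlt.le q hq hq2 hqo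
  · exact Nat.one_le_iff_ne_zero.mpr Subgroup.index_ne_zero_of_finite

end

theorem main_G : ∀ ε : ℝ, 0 < ε → ∃ g₀ : ℕ, ∀ (G X : Type) [Group G] [Fintype G]
    [MulAction G X] [Fintype X] [MulAction.IsPretransitive G X] (c : G) (g : ℕ),
    Act G X c g → (g.Coprime 6 ∨ Cond2 G X c) → g₀ ≤ g →
    (Nat.card {Φ : Finset X // CMType c Φ ∧ ¬ GeneratedByDivisors G Φ} : ℝ) ≤ ε * 2 ^ g := by
  intro ε hε
  obtain ⟨g₁, hnum⟩ := numericV (ε / 2) (by positivity)
  obtain ⟨g₂, hreg⟩ := regular_count (ε / 2) (by positivity)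
  refine ⟨max g₁ g₂, ?_⟩
  intro G X _ _ _ _ _ c g hA hcond hg
  classical
  have hne : Nonempty X := by
    rw [← Fintype.card_pos_iff, hA.card]
    have := hA.pos
    omega
  have hneG : NeZero (Nat.card G : ℚ) := ⟨by exact_mod_cast Nat.card_pos.ne'⟩
  obtain ⟨ι, _, S, k, hS, hall, hk1, hkδ, hsum⟩ :=
    isotypic_numbers (K := ℚ) (R := MonoidAlgebra ℚ G) (V := VV ℚ G X)
  have hV : finrank ℚ (VV ℚ G X) = 2 * g := by
    rw [← hA.card]
    show finrank ℚ (X → ℚ) = _
    rw [finrank_fintype_fun_eq_card]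
  let J : Type := {i : ι // OddM c (S i) ∧ dH (S i) < dM (S i)}
  have hdata : ∀ i : J, ∃ n κ s : ℕ, Data g (dM (S i.1)) (k i.1) (dE (S i.1)) (dH (S i.1))
      (kerM (S i.1)).index n κ s (((badC c (S i.1)).card : ℝ) / 2 ^ g) := by
    intro i
    have := hS i.1
    exact exists_data hA hcond (S i.1) this i.2.1 (k i.1) (hk1 i.1) (hkδ i.1) i.2.2
  choose n κ s hdata using hdata
  have hmain := hnum J g (fun i => dM (S i.1)) (fun i => k i.1) (fun i => dE (S i.1))
    (fun i => dH (S i.1)) (fun i => (kerM (S i.1)).index) n κ s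
    (fun i => ((badC c (S i.1)).card : ℝ) / 2 ^ g) ((le_max_left _ _).trans hg) (by
      have h1 : ∑ i : J, k i.1 * dM (S i.1)
          = ∑ i ∈ (Finset.univ : Finset J).map ⟨Subtype.val, Subtype.val_injective⟩,
            k i * finrank ℚ (S i) := by
        rw [Finset.sum_map]
        rfl
      rw [← hV]
      refine le_trans (le_of_eq h1) (le_trans ?_ hsum)
      exact Finset.sum_le_univ_sum_of_nonneg (fun _ => Nat.zero_le _)) hdata
  -- the regular part
  let R : Finset (Finset X) := Finset.univ.filter fun Φ => CMType c Φ ∧ ∃ f : X → ℤ, f ≠ 0 ∧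
    (∀ x, f (c • x) = - f x) ∧ (∀ (τ : G) (x y : X), τ • x = x → f (τ • y) = f y) ∧
    ∀ a : G, ∑ x, sg Φ x * f (a • x) = 0
  have hsub : (Finset.univ.filter fun Φ : Finset X => CMType c Φ ∧ ¬ GeneratedByDivisors G Φ)
      ⊆ ((Finset.univ : Finset J).biUnion fun i => badC c (S i.1))
        ∪ (if g.Coprime 6 then R else ∅) := by
    intro Φ hΦ
    obtain ⟨hcm, hngd⟩ := (Finset.mem_filter.mp hΦ).2
    have hnd : ¬ Nondeg c Φ := fun h =>
      hngd (generatedByDivisors_of_nondeg hA.comm hA.sq hA.free hcm h)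
    obtain ⟨M, hM, hMo, hv⟩ := exists_simple_of_deg hA hcm hnd
    obtain ⟨i, ⟨e⟩⟩ := hall M hM
    have hSi := hS i
    have hntM : Nontrivial (S i) := IsSimpleModule.nontrivial (MonoidAlgebra ℚ G) (S i)
    have hfin : Module.Finite ℚ (S i) :=
      Module.Finite.of_injective ((S i).subtype.restrictScalars ℚ) Subtype.val_injective
    have hm : 0 < dM (S i) := Module.finrank_pos
    have hodd : OddM c (S i) := odd_of_iso hMo e
    have hmem : Φ ∈ badC c (S i) := (mem_badC c (S i) Φ).mpr ⟨hcm, M, ⟨e.symm⟩, hv⟩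
    rw [Finset.mem_union]
    rcases lt_or_eq_of_le (finrank_hom_le (S i)) with hlt | heq
    · left
      rw [Finset.mem_biUnion]
      exact ⟨⟨i, hodd, hlt⟩, Finset.mem_univ _, hmem⟩
    · right
      rcases hcond with h6 | h2
      · rw [if_pos h6, Finset.mem_filter]
        exact ⟨Finset.mem_univ _, hcm, regular_of_bad hA (S i) hodd hm heq hmem⟩
      · exact absurd heq (not_regular hA (S i) hodd hm h2)
  have hRc : ((if g.Coprime 6 then R else ∅ : Finset (Finset X)).card : ℝ) ≤ ε / 2 * 2 ^ g := by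
    by_cases h6 : g.Coprime 6
    · rw [if_pos h6]
      have h1 := hreg G X c g hA h6 ((le_max_right _ _).trans hg)
      rw [Nat.card_eq_fintype_card, Fintype.card_subtype] at h1
      exact h1
    · rw [if_neg h6, Finset.card_empty]
      push_cast
      positivity
  rw [Nat.card_eq_fintype_card, Fintype.card_subtype]
  have h1 := (Finset.card_le_card hsub).trans (Finset.card_union_le _ _)
  have h2 : ((Finset.univ : Finset J).biUnion fun i => badC c (S i.1)).card
      ≤ ∑ i : J, (badC c (S i.1)).card := Finset.card_biUnion_le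
  have h3 : ((Finset.univ.filter fun Φ : Finset X => CMType c Φ ∧
      ¬ GeneratedByDivisors G Φ).card : ℝ)
      ≤ (∑ i : J, ((badC c (S i.1)).card : ℝ))
        + ((if g.Coprime 6 then R else ∅ : Finset (Finset X)).card : ℝ) := by
    exact_mod_cast h1.trans (Nat.add_le_add_right h2 _)
  have h4 : ∑ i : J, ((badC c (S i.1)).card : ℝ)
      = (∑ i : J, ((badC c (S i.1)).card : ℝ) / 2 ^ g) * 2 ^ g := by
    rw [Finset.sum_mul]
    refine Finset.sum_congr rfl fun i _ => ?_
    rw [div_mul_cancel₀]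
    positivity
  have h5 : ∑ i : J, ((badC c (S i.1)).card : ℝ) ≤ ε / 2 * 2 ^ g := by
    rw [h4]
    exact mul_le_mul_of_nonneg_right hmain (by positivity)
  calc _ ≤ _ := h3
    _ ≤ ε / 2 * 2 ^ g + ε / 2 * 2 ^ g := add_le_add h5 hRc
    _ = ε * 2 ^ g := by ring

end Pool.Agent.Lib.MP_938ce2_ag_u2
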