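import Mathlib
import Pool.Agent.Lib.MP_938ce2_ag_h60.NumField
import Pool.Agent.Lib.MP_938ce2_ag_u2.Defs
import Pool.Agent.Lib.MP_938ce2_ag_u2.NF

/-!
Row Field: CM subfields and quotients of the set of embeddings.
-/

set_option autoImplicit false
set_option linter.unusedSectionVars false

namespace Pool.Agent.Lib.MP_938ce2_ag_u2

open Finset Module NumberField
open Pool.Agent.Lib.MP_938ce2_ag_h67 (Orb)
open Pool.Agent.Lib.MP_938ce2_ag_h60 (CMType conj)

theorem cond2_of_field (L E : Type) [Field L] [NumberField L] [IsGalois ℚ L] [IsCMField L]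
    [Field E] [NumberField E] [IsCMField E] [Nonempty (E →ₐ[ℚ] L)]
    (h : ∀ F : IntermediateField ℚ E, IsCMField F → ∀ N : IntermediateField ℚ L,
      IsGalois ℚ N → Nonempty (F →ₐ[ℚ] N) → 2 * finrank ℚ F < finrank ℚ N) :
    Cond2 (L ≃ₐ[ℚ] L) (E →ₐ[ℚ] L) (conj L) := by
  intro K hK hfree _
  exact H7.cond_of_fields h K hK hfree

end Pool.Agent.Lib.MP_938ce2_ag_u2
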