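import Mathlib
import Pool.Agent.Lib.MP_938ce2_ag_u2.Main
import Pool.Agent.Lib.MP_938ce2_ag_u2.Field

/-!
Theorem U2.
-/

set_option autoImplicit false
set_option linter.unusedSectionVars false

namespace Pool.Agent.Lib.MP_938ce2_ag_u2

open Finset Module NumberField
open Pool.Agent.Lib.MP_938ce2_ag_h60 (CMType GeneratedByDivisors conj)

theorem theoremU2 : ∀ η : ℝ, 0 < η → ∃ g₀ : ℕ, ∀ (L E : Type) [Field L] [NumberField L]
      [IsGalois ℚ L] [IsCMField L] [Field E] [NumberField E] [IsCMField E] [Nonempty (E →ₐ[ℚ] L)]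
      (g : ℕ), finrank ℚ E = 2 * g → g₀ ≤ g →
      (g.Coprime 6 ∨ ∀ F : IntermediateField ℚ E, IsCMField F → ∀ N : IntermediateField ℚ L,
        IsGalois ℚ N → Nonempty (F →ₐ[ℚ] N) → 2 * finrank ℚ F < finrank ℚ N) →
      (Nat.card {Φ : Finset (E →ₐ[ℚ] L) //
          CMType (conj L) Φ ∧ ¬ GeneratedByDivisors (L ≃ₐ[ℚ] L) Φ} : ℝ) ≤ η * 2 ^ g := by
  intro η hη
  obtain ⟨g₀, h⟩ := main_G η hη
  refine ⟨g₀, ?_⟩
  intro L E _ _ _ _ _ _ _ _ g hE hg hcond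
  refine h (L ≃ₐ[ℚ] L) (E →ₐ[ℚ] L) (conj L) g ⟨?_, ?_, ?_, ?_, ?_⟩ ?_ hg
  · exact Pool.Agent.Lib.MP_938ce2_ag_h60.conj_comm
  · exact Pool.Agent.Lib.MP_938ce2_ag_h60.conj_mul_self
  · exact fun φ => Pool.Agent.Lib.MP_938ce2_ag_h60.conj_smul_ne φ
  · rw [← hE]
    exact Pool.Agent.Lib.MP_938ce2_ag_h60.card_emb
  · have : 0 < finrank ℚ E := finrank_pos
    omega
  · rcases hcond with h1 | h1
    · exact Or.inl h1
    · exact Or.inr (cond2_of_field L E h1)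

end Pool.Agent.Lib.MP_938ce2_ag_u2
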