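import Mathlib
import Pool.Agent.Lib.MP_938ce2_ag_u2.Final

/-!
Almost all abelian varieties with complex multiplication by CM fields of degree `2g`, `g` prime to
`6`, and by CM fields without CM subfields `F` whose Galois closure has degree at most `2 [F : ℚ]`:
the Tate classes on all their powers are generated by divisor classes.
-/

set_option autoImplicit false

namespace Pool.Agent.Results.MP_938ce2_ag.AlmostAllCMTypes

open Module NumberField
open Pool.Agent.Lib.MP_938ce2_ag_h60 (CMType GeneratedByDivisors conj)

/-- `L` is a Galois CM field which contains a conjugate of the CM field `E` of degree `2g`, for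
instance the Galois closure of `E`. The field `E` has `2 ^ g` CM types, each consists of one embedding
of each pair of complex conjugate ones. -/
theorem result : ∀ η : ℝ, 0 < η → ∃ g₀ : ℕ, ∀ (L E : Type) [Field L] [NumberField L]
      [IsGalois ℚ L] [IsCMField L] [Field E] [NumberField E] [IsCMField E] [Nonempty (E →ₐ[ℚ] L)]
      (g : ℕ), finrank ℚ E = 2 * g → g₀ ≤ g →
      (g.Coprime 6 ∨ ∀ F : IntermediateField ℚ E, IsCMField F → ∀ N : IntermediateField ℚ L,
        IsGalois ℚ N → Nonempty (F →ₐ[ℚ] N) → 2 * finrank ℚ F < finrank ℚ N) →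
      (Nat.card {Φ : Finset (E →ₐ[ℚ] L) //
          CMType (conj L) Φ ∧ ¬ GeneratedByDivisors (L ≃ₐ[ℚ] L) Φ} : ℝ) ≤ η * 2 ^ g :=
  Pool.Agent.Lib.MP_938ce2_ag_u2.theoremU2

end Pool.Agent.Results.MP_938ce2_ag.AlmostAllCMTypes
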